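import Pool.Agent.MP_d9582c_gt.H34.Spec

/-!
Two forms of the determinant class condition.
-/

open scoped Manifold ContDiff InnerProductSpace
open MeasureTheory Set

noncomputable section

namespace Pool.Agent.MP_d9582c_gt.Spec

universe u v

/-- All Fuglede-Kadison determinants of matrices over the rational group ring are positive. -/
def DetPos (G : Type v) [Group G] : Prop :=
  ∀ (r s : ℕ) (A : Matrix (Fin r) (Fin s) (MonoidAlgebra ℚ G)) (d : ℝ), IsFKDet A d → 0 < d

variable {V : Type} [NormedAddCommGroup V] [NormedSpace ℝ V] {M : Type u} [TopologicalSpace M]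
  [ChartedSpace V M] [IsManifold 𝓘(ℝ, V) ∞ M] [MeasurableSpace M] {G : Type v} [Group G]
  [MulAction G M] (n : ℕ) (g : RMetric V M) (μ : Measure M) (N : Subgroup G) (F : Set M)

/-- The quotient of `M` by `N` is of analytic determinant class: the integrals of
`θ p t / t` over `(ε, ∞)` converge. -/
def DetClass (ε : ℝ) : Prop :=
  ∃ (H : ℕ → Type u) (_ : ∀ p, NormedAddCommGroup (H p)) (_ : ∀ p, InnerProductSpace ℂ (H p))
    (_ : ∀ p, CompleteSpace (H p)) (j : ∀ p, (M → Alt V p) → H p) (U : ∀ p, G ⧸ N → H p → H p),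
    IsL2 n g μ N F j U ∧
      ∀ p ≤ n, IntegrableOn (fun t => theta (graphD n g μ N F j) U p t / t) (Ioi ε)

/-- The analytic `L²`-torsion of the quotient of `M` by `N` is defined and its value is `ρ`:
a real number is the torsion if and only if it equals `ρ`. -/
def TorsionEq (ε ρ : ℝ) : Prop := ∀ r : ℝ, IsTorsion n g μ N F ε r ↔ r = ρ

end Pool.Agent.MP_d9582c_gt.Spec
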