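import Pool.Agent.MP_d9582c_gt.H1.ExpAlg
import Pool.Agent.MP_d9582c_gt.H1.Defs
import Pool.Agent.MP_d9582c_gt.H34.Main
import Pool.Agent.MP_d9582c_gt.H34.Bridge

/-!
Existence and approximation of the analytic torsion, from the statements of the parts.
-/

open scoped Manifold ContDiff Topology ENNReal InnerProductSpace
open MeasureTheory Set Filter ContinuousLinearMap UniformSpace Pool.Agent.MP_d9582c_gt.H34

noncomputable section

namespace Pool.Agent.MP_d9582c_gt.H1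

universe u v

lemma torsionOf_unique {n : ℕ} {θ : ℕ → ℝ → ℝ} {ε ρ ρ' : ℝ} (hε : 0 < ε)
    (h : IsTorsionOf n θ ε ρ) (h' : IsTorsionOf n θ ε ρ') : ρ' = ρ := by
  obtain ⟨ζ, c, hζ, e⟩ := h
  obtain ⟨ζ', c', hζ', e'⟩ := h'
  refine Complex.ofReal_injective (e'.trans ((congrArg _ (Finset.sum_congr rfl
    fun p hp => ?_)).trans e.symm))
  have hp' : p ≤ n := Nat.lt_succ_iff.1 (Finset.mem_range.1 hp)
  have := H44.deriv_sub_eq (tr := θ p) (tr' := θ p) (b := 0) (b' := 0) (C := 0) hε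
    (by simpa using aestronglyMeasurable_const) (by simp) (hζ p hp').1 (hζ p hp').2.1
    (by simpa using (hζ p hp').2.2.1) (hζ' p hp').1 (hζ' p hp').2.1
    (by simpa using (hζ' p hp').2.2.1)
  rw [this]
  simp

lemma exists_torsionOf (hM : MellinStmt) {n : ℕ} {θ : ℕ → ℝ → ℝ} {ε : ℝ} (hε : 0 < ε)
    (ha : ∀ p, AntitoneOn (θ p) (Ioi 0)) (he : ∀ p, Exp n (θ p))
    (hi : ∀ p ≤ n, IntegrableOn (fun t => θ p t / t) (Ioi ε)) : ∃ ρ, IsTorsionOf n θ ε ρ := by
  choose ζ h1 h2 h3 h4 using fun p => hM n (θ p) ε hε (ha p) (he p)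
  refine ⟨2⁻¹ * ∑ p ∈ Finset.range (n + 1),
    (-1) ^ p * p * ((deriv (ζ p) 0).re + ∫ t in Ioi ε, θ p t / t), ζ, n / 2,
    fun p hp => ⟨h1 p, h2 p, h4 p, hi p hp⟩, ?_⟩
  push_cast
  refine congrArg _ (Finset.sum_congr rfl fun p _ => ?_)
  rw [show ((deriv (ζ p) 0).re : ℂ) = deriv (ζ p) 0 from Complex.ext rfl (by simp [h3 p])]

lemma integrableOn_of_tail {θ : ℝ → ℝ} {ε T : ℝ} (hε : 0 < ε) (ha : AntitoneOn θ (Ioi 0))
    (h0 : ∀ t > 0, 0 ≤ θ t) (h : ∫⁻ t in Ioi T, ENNReal.ofReal (θ t / t) ≠ ⊤) :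
    IntegrableOn (fun t => θ t / t) (Ioi ε) := by
  have hb : AntitoneOn (fun t => θ t / t) (Ioi 0) := fun s hs t ht hst =>
    div_le_div₀ (h0 s hs) (ha hs ht hst) hs hst
  have h1 : IntegrableOn (fun t => θ t / t) (Icc ε T) :=
    (hb.mono fun t ht => hε.trans_le ht.1).integrableOn_isCompact isCompact_Icc
  have h2 : IntegrableOn (fun t => θ t / t) (Ioi (max ε T)) := by
    have hs : Ioi (max ε T) ⊆ Ioi 0 := Ioi_subset_Ioi (hε.le.trans (le_max_left _ _))
    refine ⟨(aemeasurable_restrict_of_antitoneOn measurableSet_Ioi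
      (hb.mono hs)).aestronglyMeasurable, (hasFiniteIntegral_iff_ofReal ?_).2 ?_⟩
    · filter_upwards [ae_restrict_mem measurableSet_Ioi] with t ht
      exact div_nonneg (h0 t (hs ht)) (le_of_lt (hs ht))
    · exact (lintegral_mono_set (Ioi_subset_Ioi (le_max_right _ _))).trans_lt h.lt_top
  refine (h1.union h2).mono_set fun t ht => ?_
  rcases le_or_gt t T with h | h
  · exact Or.inl ⟨le_of_lt ht, h⟩
  · exact Or.inr (max_lt ht h)

lemma countable_basis {n d : ℕ} {ι : Type} (e : HilbertBasis ι ℂ (L2W n d)) : Countable ι := by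
  have : Fact ((2 : ℝ≥0∞) ≠ ⊤) := ⟨by simp⟩
  refine Pairwise.countable_of_isOpen_disjoint (s := fun j => Metric.ball (e j) 2⁻¹)
    (fun i j h => Metric.ball_disjoint_ball ?_) (fun _ => Metric.isOpen_ball)
    fun _ => Metric.nonempty_ball.2 (by norm_num)
  have h1 := norm_sub_sq (𝕜 := ℂ) (e i) (e j)
  rw [e.orthonormal.2 h, e.orthonormal.1, e.orthonormal.1, map_zero] at h1
  rw [dist_eq_norm]
  exact le_of_sq_le_sq (by rw [h1]; norm_num) (norm_nonneg _)

lemma exists_chain (G : Type v) [Group G] [Countable G] [Group.ResiduallyFinite G] :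
    ∃ N : ℕ → Subgroup G, (∀ i, (N i).Normal) ∧ (∀ i, (N i).FiniteIndex) ∧ IsChain N := by
  obtain ⟨f, hf⟩ := exists_surjective_nat G
  have : ∀ g : G, ∃ H : FiniteIndexNormalSubgroup G, g ∈ H → g = 1 := fun g => by
    by_cases h : g = 1
    · exact ⟨.ofSubgroup ⊤, fun _ => h⟩
    · exact (Group.exists_finiteIndexNormalSubgroup_notMem g h).imp fun _ h h' => absurd h' h
  choose H hH using this
  refine ⟨fun i => ⨅ k : Fin i, (H (f k)).toSubgroup,
    fun _ => Subgroup.normal_iInf_normal fun _ => inferInstance,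
    fun _ => Subgroup.finiteIndex_iInf fun _ => inferInstance, iInf_of_empty _,
    fun i j h => le_iInf fun k => iInf_le_of_le (k.castLE h) le_rfl, eq_bot_iff.2 fun g hg => ?_⟩
  obtain ⟨k, rfl⟩ := hf g
  exact hH _ (Subgroup.mem_iInf.1 (Subgroup.mem_iInf.1 hg (k + 1)) (Fin.last k))

section Geo

variable {n : ℕ} {M : Type u} [TopologicalSpace M] [ChartedSpace (E n) M]
  {G : Type v} [Group G] [MulAction G M] [IsManifold 𝓘(ℝ, E n) ∞ M] [MeasurableSpace M]
  [BorelSpace M] [Countable G] {X : Geo n G M} (D : FD X)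

lemma exp_trH [T2Space M] (hE : EucStmt.{u}) (hL : LocalStmt.{u, v}) (hμ : IsVolume X.g X.μ)
    (p : ℕ) : Exp n fun t => (D.cx.trH p t).toReal := by
  obtain ⟨L, hL⟩ := hL n M G X hμ D p
  obtain ⟨w, e, -⟩ := exists_hilbertBasis ℂ (L2W n (dim n p))
  have := countable_basis e
  have hfr : IsFrame (D.cx.U p) fun z : Fin X.m × w => adjoint (L z.1).Φ (e z.2) := fun u => by
    rw [ENNReal.tsum_comm]
    refine (tsum_congr fun q => ?_).trans (hL u)
    rw [ENNReal.tsum_prod', tsum_fintype]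
    refine Finset.sum_congr rfl fun a _ => ?_
    simp only [inner_rep, adjoint_inner_left]
    exact HilbertBasis.tsum_enorm_sq e _
  have h := fun a => hE n _ _ _ _ (H79.lap_closed D.cx p) (L a) w e
  refine (Exp.sum Finset.univ fun a _ => (h a).2.half).congr fun t ht => ?_
  rw [H79.trH_eq D.cx p hfr ht.1, hs, ENNReal.tsum_prod', tsum_fintype]
  exact ENNReal.toReal_sum fun a _ => (h a).1 _ ⟨half_pos ht.1, by linarith [ht.1, ht.2]⟩

open Classical in
/-- The map from forms to the concrete Hilbert space. -/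
def jm (p : ℕ) (η : M → Alt n p) : D.H p :=
  if h : η ∈ l2Forms X.g X.μ D.N D.F p then Completion.coe' (⟨η, h⟩ : D.P p) else 0

omit [Countable G] in
lemma jm_coe {p : ℕ} (η : D.P p) : jm D p η.1 = η := dif_pos η.2

lemma isL2_model : Spec.IsL2 n X.g X.μ D.N D.F (jm D) fun p q => D.rep p q := fun p => by
  refine ⟨fun η hη ξ hξ => ?_, Completion.denseRange_coe.mono ?_, fun γ =>
    ⟨(D.rep p γ).continuous, fun η hη => ?_⟩⟩
  · rw [jm_coe D ⟨η, hη⟩, jm_coe D ⟨ξ, hξ⟩]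
    exact Completion.inner_coe (𝕜 := ℂ) (E := D.P p) ⟨η, hη⟩ ⟨ξ, hξ⟩
  · rintro _ ⟨η, rfl⟩
    exact ⟨η.1, η.2, jm_coe D η⟩
  · rw [jm_coe D ⟨η, hη⟩]
    exact (D.rep_coe γ _).trans (jm_coe D _).symm

lemma torsionEq_of {ε ρ : ℝ} (hε : 0 < ε) (h : IsTorsion X.g X.μ D.N D.F ε ρ) :
    Spec.TorsionEq n X.g X.μ D.N D.F ε ρ := fun r =>
  ⟨fun hr => torsionOf_unique hε h (isTorsion_of D hr), fun hr =>
    ⟨D.H, _, _, inferInstance, jm D, _, isL2_model D, by
      rw [theta_model D (isL2_model D), hr]; exact h⟩⟩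

lemma detClass_of {ε : ℝ} (h : Spec.DetClass n X.g X.μ D.N D.F ε) :
    ∀ p ≤ n, IntegrableOn (fun t => theta X.g X.μ D.N D.F p t / t) (Ioi ε) := by
  obtain ⟨H, _, _, _, j, U, h1, h2⟩ := h
  rwa [theta_model D h1] at h2

end Geo

theorem main (hE : EucStmt.{u}) (hL : LocalStmt.{u, v}) (hM : MellinStmt) (hLo : LongStmt.{u, v})
    (hFi : FinDetStmt.{v}) (hcar : CarStmt.{u, v}) (hloc : LocStmt.{u, v}) {n : ℕ} {M : Type u}
    [TopologicalSpace M] [T2Space M] [SecondCountableTopology M] [Nonempty M]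
    [ChartedSpace (E n) M] [IsManifold 𝓘(ℝ, E n) ∞ M] [MeasurableSpace M] [BorelSpace M]
    {G : Type v} [Group G] [MulAction G M] [ProperlyDiscontinuousSMul G M]
    (g : RMetric n M) (μ : Measure M) (hμ : IsVolume g μ) (hact : Spec.IsDeckAction g G)
    (hG : Spec.DetApprox G) (N : ℕ → Subgroup G) [∀ i, (N i).Normal] (hN : IsChain N)
    (F : ℕ → Set M) (hF : ∀ i, IsFundamentalDomain (N i) (F i) μ) {ε : ℝ} (hε : 0 < ε)
    (hdet : Spec.DetClass n g μ (⊥ : Subgroup G) univ ε ∨ Spec.DetPos G ∨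
      Group.ResiduallyFinite G) :
    ∃ (ρ : ℝ) (ρ' : ℕ → ℝ) (k : ℕ), Spec.TorsionEq n g μ (⊥ : Subgroup G) univ ε ρ ∧
      (∀ i, k ≤ i ∨ (N i).FiniteIndex ∨ Spec.DetPos (G ⧸ N i) →
        Spec.TorsionEq n g μ (N i) (F i) ε (ρ' i)) ∧
      Tendsto ρ' atTop (𝓝 ρ) := by
  replace hG := detApprox_of hG
  obtain ⟨_, X, rfl, rfl⟩ := H97.geo n M G g μ hμ hact.1 hact.2.1 hact.2.2.1 hact.2.2.2
  obtain ⟨c₁, L, -, hV⟩ := hloc n M G X
  obtain ⟨r, A, c₂, hC⟩ := cech hcar H88.cone H48.cochain H14.l2 n M G X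
  obtain ⟨c₃, hS⟩ := smoothing hcar H88.cone n M G X
  obtain ⟨-, A', hA'⟩ := H14.l2.2 G r A
  have hW : ∀ D : FD X, D.cx.Weyl (max c₂ c₃) n := fun D => Cx.Weyl.mono (fun δ hδ => by
    obtain ⟨S, T, h, h1, h2⟩ := hS D δ hδ
    exact ⟨S, T, h, h1, fun p => ⟨(h2 p).1, hV D p _ _ (h2 p).1 (h2 p).2.1, (h2 p).2.2⟩⟩)
    (le_max_right _ _)
  have hfr : ∀ D : FD X, D.cx.HasFrame := fun D p => by
    obtain ⟨w, e, -⟩ := exists_hilbertBasis ℂ (X.K p)
    exact ⟨w, _, isFrame_of_local e ((L D).parseval p)⟩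
  replace hC := fun D : FD X => (hC D).mono (le_max_left c₂ c₃)
  obtain ⟨c₄, hB⟩ := H5.basic H44.weyl (max c₂ c₃) n
  have hb := fun D : FD X => hB _ D.cx (hfr D) (hW D)
  have ha : ∀ (D : FD X) p, AntitoneOn (theta X.g X.μ D.N D.F p) (Ioi 0) :=
    fun D p s hs t ht hst => by
      rw [D.theta_eq, D.theta_eq]
      exact sub_le_sub_right ((hb D p).2.1 hs ht hst) _
  have hint : ∀ (D : FD X) p T, ∫⁻ t in Ioi T, ENNReal.ofReal
      (((D.cx.trH p t).toReal - (D.cx.trK p).toReal) / t) ≠ ⊤ →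
      IntegrableOn (fun t => theta X.g X.μ D.N D.F p t / t) (Ioi ε) := fun D p T h =>
    integrableOn_of_tail hε (ha D p) (fun t ht => by
      rw [D.theta_eq]; exact sub_nonneg.2 ((hb D p).2.2 t ht)) (by simpa only [D.theta_eq] using h)
  have hex : ∀ D : FD X, (∀ p ≤ n, IntegrableOn (fun t => theta X.g X.μ D.N D.F p t / t) (Ioi ε)) →
      ∃ ρ, IsTorsion X.g X.μ D.N D.F ε ρ := fun D => exists_torsionOf hM hε (ha D) fun p => by
    simpa only [← D.theta_eq] using (exp_trH D hE hL hμ p).sub (exp_const (D.cx.trK p).toReal)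
  have hpos : ∀ D : FD X, (∀ B : Matrix (Fin r) (Fin r) (MonoidAlgebra ℚ G),
      0 < fkDet (quotMat D.N B)) → ∀ p ≤ n,
      IntegrableOn (fun t => theta X.g X.μ D.N D.F p t / t) (Ioi ε) := fun D h p _ => by
    obtain ⟨T, -, hT⟩ := hLo _ r _ _ n _ D.cx (hfr D) (hW D) (hC D) (hA' D.N) (h A) (h A') p
    exact hint D p T hT
  let D : ℕ → FD X := fun i => ⟨N i, inferInstance, F i, hF i⟩
  have h0 : ∀ p ≤ n, IntegrableOn (fun t => theta X.g X.μ (⊥ : Subgroup G) univ p t / t)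
      (Ioi ε) := by
    rcases hdet with h | h | h
    · exact detClass_of (FD.bot X) h
    · exact hpos (FD.bot X) fun B => (h r r B _ (isFKDet B)).trans_eq (hFi G r r B).1.symm
    · refine hpos (FD.bot X) fun B => ?_
      obtain ⟨h1, c, hc, h2⟩ := hFi G r r B
      obtain ⟨N', _, h3, h4⟩ := exists_chain G
      exact (hc.trans_le (ge_of_tendsto' (hG N' h4 r r B) fun i => h2 _ (h3 i))).trans_eq h1.symm
  obtain ⟨ρ, hρ⟩ := hex (FD.bot X) h0
  let ρ' : ℕ → ℝ := fun i => Classical.epsilon (IsTorsion X.g X.μ (N i) (F i) ε)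
  have h1 : ∀ i, (N i).FiniteIndex ∨ Spec.DetPos (G ⧸ N i) →
      IsTorsion X.g X.μ (N i) (F i) ε (ρ' i) := fun i hi =>
    Classical.epsilon_spec (hex (D i) (hpos (D i) fun B => by
      obtain ⟨-, c, hc, h2⟩ := hFi G r r B
      exact hi.elim (fun hi => hc.trans_le (h2 _ hi)) fun hi => hi r r _ _ (isFKDet _)))
  have h2 : ∀ᶠ i in atTop, IsTorsion X.g X.μ (N i) (F i) ε (ρ' i) := by
    have htl := H5.tail H44.split H44.weyl H68.meas H68.det G N hG hN r A n (max c₂ c₃) ε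
      (FD.bot X).cx (fun i => (D i).cx) hε (hfr _) (hW _) (hC (FD.bot X))
      (fun i => ⟨hfr _, hW _, hC (D i)⟩)
      fun p hp => (h0 p hp).congr_fun (fun t _ => congrArg (· / t) ((FD.bot X).theta_eq p t))
        measurableSet_Ioi
    choose T hT using fun p => (htl p 1 one_pos).exists
    filter_upwards [(eventually_all_finite (finite_Iic n)).2 fun p _ => hT p] with i hi
    exact Classical.epsilon_spec (hex (D i) fun p hp =>
      hint (D i) p _ (ne_top_of_le_ne_top ENNReal.ofReal_ne_top (hi p hp)))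
  obtain ⟨k, hk⟩ := eventually_atTop.1 h2
  refine ⟨ρ, ρ', k, torsionEq_of (FD.bot X) hε hρ,
    fun i hi => torsionEq_of (D i) hε (hi.elim (hk i) (h1 i)), ?_⟩
  let φ : ℕ → ℕ := fun i => if i = 0 then 0 else i + k
  have hφ : Monotone φ := monotone_nat_of_le_succ fun i => by
    by_cases h : i = 0 <;> simp [φ, h]
  have h3 := H34.main hcar hloc X.g X.μ hμ hact.1 hact.2.1 hact.2.2.1 hact.2.2.2 hG
    (fun i => N (φ i))
    ⟨hN.1, hN.2.1.comp_monotone hφ, eq_bot_iff.2 (hN.2.2 ▸ le_iInf fun i =>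
      (iInf_le _ i).trans (hN.2.1 (show i ≤ φ i by simp only [φ]; split_ifs <;> omega)))⟩
    (fun i => F (φ i)) (fun i => hF _) (ρ' := fun i => ρ' (φ i)) hε hρ fun i => by
      rcases eq_or_ne i 0 with rfl | hi
      · exact h1 0 (Or.inl (hN.1 ▸ inferInstance))
      · exact hk _ (by simp [φ, hi])
  refine (tendsto_add_atTop_iff_nat k).1 (h3.congr' ?_)
  filter_upwards [eventually_ne_atTop 0] with i hi
  simp [φ, hi]

end Pool.Agent.MP_d9582c_gt.H1
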