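import Pool.Agent.MP_d9582c_gt.H1.Spec

/-!
Existence of the flattening data.
-/

open scoped Manifold ContDiff ComplexConjugate Topology ENNReal InnerProductSpace
open MeasureTheory Set Filter Metric Pool.Agent.MP_d9582c_gt.H34

noncomputable section

namespace Pool.Agent.MP_d9582c_gt.H1

universe u v

namespace ChartP

variable {n : ℕ}

theorem cutoff {A Ω : Set (E n)} (hA : IsClosed A) (hΩ : IsOpen Ω) (h : A ⊆ Ω) :
    ∃ χ : E n → ℝ, ContDiff ℝ ∞ χ ∧ (∀ z ∈ A, χ z = 1) ∧ tsupport χ ⊆ Ω ∧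
      ∀ z, χ z ∈ Icc (0 : ℝ) 1 := by
  obtain ⟨f, h0, h1, h2⟩ := exists_contMDiffMap_zero_one_nhds_of_isClosed (n := ⊤) 𝓘(ℝ, E n)
    hΩ.isClosed_compl hA (disjoint_compl_left_iff_subset.2 h)
  refine ⟨f, f.contMDiff.contDiff, fun z hz => h1.self_of_nhdsSet z hz, fun z hz => ?_, h2⟩
  by_contra hz'
  exact notMem_tsupport_iff_eventuallyEq.2 (eventually_nhdsSet_iff_forall.1 h0 z hz') hz

theorem glue {V : Type} [NormedAddCommGroup V] [NormedSpace ℝ V] {Ω : Set (E n)} (hΩ : IsOpen Ω)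
    {χ : E n → ℝ} (hχ : ContDiff ℝ ∞ χ) (hs : tsupport χ ⊆ Ω) {f : E n → V}
    (hf : ContDiffOn ℝ ∞ f Ω) : ContDiff ℝ ∞ fun z => χ z • f z := by
  refine contDiff_iff_contDiffAt.2 fun z => ?_
  by_cases hz : z ∈ Ω
  · exact hχ.contDiffAt.smul (hf.contDiffAt (hΩ.mem_nhds hz))
  · refine (contDiffAt_const (c := 0)).congr_of_eventuallyEq ?_
    filter_upwards [notMem_tsupport_iff_eventuallyEq.1 fun h => hz (hs h)] with w hw
    rw [hw, Pi.zero_apply, zero_smul]

/-- The flat scalar product. -/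
def h0 {q : ℕ} (α β : Alt n q) : ℂ := ∑ I : Fin q → Fin n, conj (α (ee ∘ I)) * β (ee ∘ I)

theorem h0_pos {q : ℕ} {α : Alt n q} (h : α ≠ 0) : 0 < (h0 α α).re := by
  have e : ∀ I : Fin q → Fin n, (conj (α (ee ∘ I)) * α (ee ∘ I)).re = ‖α (ee ∘ I)‖ ^ 2 := by
    intro I
    rw [Complex.conj_mul', ← Complex.ofReal_pow, Complex.ofReal_re]
  obtain ⟨I, hI⟩ : ∃ I : Fin q → Fin n, α (ee ∘ I) ≠ 0 := by
    by_contra hh
    exact h (alt_ext fun I => not_not.1 fun hI => hh ⟨I, hI⟩)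
  rw [h0, Complex.re_sum, Finset.sum_congr rfl fun I _ => e I]
  exact Finset.sum_pos' (fun _ _ => sq_nonneg _) ⟨I, Finset.mem_univ _, by positivity⟩

section

variable {M : Type u} [TopologicalSpace M] [ChartedSpace (E n) M] [IsManifold 𝓘(ℝ, E n) ∞ M]
  (g : RMetric n M) (x₀ : M) (q : ℕ) (z : E n)

theorem hh_add (α β γ : Alt n q) :
    hh g x₀ q z α (β + γ) = hh g x₀ q z α β + hh g x₀ q z α γ := by
  unfold hh
  rw [← mul_add, ← ip_add_right]
  rfl

theorem hh_smul (c : ℂ) (α β : Alt n q) : hh g x₀ q z α (c • β) = c * hh g x₀ q z α β := by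
  unfold hh
  rw [mul_left_comm, ← ip_smul_right _ _ c]
  rfl

theorem hh_conj (α β : Alt n q) : conj (hh g x₀ q z β α) = hh g x₀ q z α β := by
  unfold hh
  rw [map_mul, Complex.conj_ofReal, ip_conj]

theorem frames (hg : GSStmt) (hs : HSmoothStmt.{u}) {χ : E n → ℝ} (hχ : ContDiff ℝ ∞ χ)
    (hsupp : tsupport χ ⊆ (chartAt (E n) x₀).target) (hb : ∀ z, χ z ∈ Icc (0 : ℝ) 1) :
    ∃ (S : E n → W (dim n q) →L[ℂ] Alt n q) (S' : E n → Alt n q →L[ℂ] W (dim n q)),
      ContDiff ℝ ∞ S ∧ ContDiff ℝ ∞ S' ∧ (∀ z α, S z (S' z α) = α) ∧ (∀ z u, S' z (S z u) = u) ∧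
      ∀ z, χ z = 1 → ∀ u v, hh g x₀ q z (S z u) (S z v) = ⟪u, v⟫_ℂ := by
  obtain ⟨hfin, -, -, hsm, hpos⟩ := hs n M g x₀
  have := hfin q
  obtain ⟨S, S', h1, h2, h3, h4, h5⟩ := hg n (Alt n q)
    (fun z α β => χ z • hh g x₀ q z α β + (1 - χ z) • h0 α β)
    (fun α β => (glue (chartAt (E n) x₀).open_target hχ hsupp (hsm q α β)).add
      ((contDiff_const.sub hχ).smul contDiff_const))
    (fun z α β γ => by
      simp only [hh_add, h0, ContinuousAlternatingMap.add_apply, mul_add, Finset.sum_add_distrib,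
        smul_add]
      ring)
    (fun z c α β => by
      simp only [hh_smul, h0, ContinuousAlternatingMap.smul_apply, smul_eq_mul, Complex.real_smul,
        mul_left_comm _ c, ← Finset.mul_sum]
      ring)
    (fun z α β => by
      simp only [map_add, Complex.real_smul, map_mul, Complex.conj_ofReal, hh_conj, h0, map_sum,
        Complex.conj_conj, mul_comm])
    (fun z α hα => by
      have p0 := h0_pos hα
      rw [Complex.add_re, Complex.smul_re, Complex.smul_re, smul_eq_mul, smul_eq_mul]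
      rcases (hb z).1.eq_or_lt with h | h
      · rw [← h]
        simpa using p0
      · exact add_pos_of_pos_of_nonneg
          (mul_pos h (hpos q z (hsupp (subset_tsupport _ h.ne')) α hα))
          (mul_nonneg (sub_nonneg.2 (hb z).2) p0.le))
  refine ⟨S, S', h1, h2, h3, h4, fun z hz u v => ?_⟩
  simpa [hz] using h5 z u v

theorem metric (hs : HSmoothStmt.{u}) {χ : E n → ℝ} (hχ : ContDiff ℝ ∞ χ)
    (hsupp : tsupport χ ⊆ (chartAt (E n) x₀).target) (hb : ∀ z, χ z ∈ Icc (0 : ℝ) 1) :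
    ∃ m : Met n, ∀ z, χ z = 1 → m.G z = (gram g (chartAt (E n) x₀).symm z)⁻¹ := by
  obtain ⟨-, hsm, hpos, -, -⟩ := hs n M g x₀
  refine ⟨⟨fun z => χ z • (gram g (chartAt (E n) x₀).symm z)⁻¹ + (1 - χ z) • 1, fun i j => ?_,
    fun z => ?_⟩, fun z hz => by simp [hz]⟩
  · exact (glue (chartAt (E n) x₀).open_target hχ hsupp (hsm i j)).add
      ((contDiff_const.sub hχ).smul
        (contDiff_const (c := (1 : Matrix (Fin n) (Fin n) ℝ) i j)))
  · rcases (hb z).1.eq_or_lt with h | h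
    · rw [← h]
      simpa using Matrix.PosDef.one
    · exact ((hpos z (hsupp (subset_tsupport _ h.ne'))).smul h).add_posSemidef
        (Matrix.PosSemidef.one.smul (sub_nonneg.2 (hb z).2))

end

end ChartP

open ChartP in
theorem chart (hg : GSStmt) (hs : HSmoothStmt.{u}) : ChartStmt.{u, v} := by
  classical
  intro n M _ _ _ G _ _ _ X a
  have hU : X.U a ⊆ (chartAt (E n) (X.ctr a)).source := (X.U_sub a).trans (X.Cl_sub a)
  have hΩ : IsOpen (chartAt (E n) (X.ctr a) '' X.U a) :=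
    (chartAt (E n) (X.ctr a)).isOpen_image_of_subset_source (X.isOpen_U a) hU
  have hT : chartAt (E n) (X.ctr a) '' X.U a ⊆ (chartAt (E n) (X.ctr a)).target := by
    rintro _ ⟨x, hx, rfl⟩
    exact (chartAt (E n) (X.ctr a)).map_source (hU hx)
  have hK : IsCompact (chartAt (E n) (X.ctr a) '' X.C a) :=
    (X.isCompact_C a).image_of_continuousOn
      ((chartAt (E n) (X.ctr a)).continuousOn.mono ((X.C_sub a).trans hU))
  have hKΩ := image_mono (f := chartAt (E n) (X.ctr a)) (X.C_sub a)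
  obtain ⟨δ, hδ, hδΩ⟩ := hK.exists_cthickening_subset_open hΩ hKΩ
  have hsub : cthickening (δ / 2) (chartAt (E n) (X.ctr a) '' X.C a) ⊆
      thickening δ (chartAt (E n) (X.ctr a) '' X.C a) :=
    cthickening_subset_thickening' hδ (half_lt_self hδ) _
  obtain ⟨χ, c1, c2, c3, -⟩ := cutoff isClosed_cthickening isOpen_thickening hsub
  obtain ⟨ψ, d1, d2, d3, d4⟩ := cutoff isClosed_cthickening hΩ hδΩ
  have d5 : ∀ z ∈ thickening δ (chartAt (E n) (X.ctr a) '' X.C a), ψ z = 1 :=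
    fun z hz => d2 z (thickening_subset_cthickening _ _ hz)
  choose S S' s1 s2 s3 s4 s5 using fun q => frames X.g (X.ctr a) q hg hs d1 (d3.trans hT) d4
  obtain ⟨m, hm⟩ := metric X.g (X.ctr a) hs d1 (d3.trans hT) d4
  let φ : E n → ℝ := fun z => if z ∈ chartAt (E n) (X.ctr a) '' X.U a then
    X.φ a ((chartAt (E n) (X.ctr a)).symm z) else 0
  have φ1 : ∀ x ∈ X.U a, φ (chartAt (E n) (X.ctr a) x) = X.φ a x := by
    intro x hx
    simp only [φ]
    rw [if_pos (mem_image_of_mem _ hx), (chartAt (E n) (X.ctr a)).left_inv (hU hx)]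
  have φ0 : ∀ z ∉ chartAt (E n) (X.ctr a) '' X.C a, φ z = 0 := by
    intro z hz
    by_cases h : z ∈ chartAt (E n) (X.ctr a) '' X.U a
    · obtain ⟨x, hx, rfl⟩ := h
      rw [φ1 x hx]
      by_contra h0
      obtain ⟨γ, hγ⟩ := X.supp a x h0
      rw [X.disj a γ x hx (X.C_sub a hγ), one_smul] at hγ
      exact hz (mem_image_of_mem _ hγ)
    · exact if_neg h
  have φs : ContDiff ℝ ∞ φ := by
    have h1 : ContDiffOn ℝ ∞ (fun z => X.φ a ((chartAt (E n) (X.ctr a)).symm z))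
        (chartAt (E n) (X.ctr a)).target :=
      contMDiffOn_iff_contDiffOn.1 ((X.smooth a).comp_contMDiffOn contMDiffOn_chart_symm)
    refine contDiff_iff_contDiffAt.2 fun z => ?_
    by_cases h : z ∈ chartAt (E n) (X.ctr a) '' X.U a
    · refine ((h1.mono hT).contDiffAt (hΩ.mem_nhds h)).congr_of_eventuallyEq ?_
      filter_upwards [hΩ.mem_nhds h] with w hw
      exact if_pos hw
    · refine (contDiffAt_const (c := 0)).congr_of_eventuallyEq ?_
      filter_upwards [hK.isClosed.isOpen_compl.mem_nhds fun hz => h (hKΩ hz)] with w hw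
      exact φ0 w hw
  exact ⟨⟨_, δ / 2, _, φ, χ, m, S, S', half_pos hδ, ⟨hK, φs, φ0⟩, isOpen_thickening, hsub,
    (thickening_subset_cthickening _ _).trans hδΩ, φ1, c1, c2, c3, s1, s2, s3, s4,
    fun q z hz => s5 q z (d5 z hz), fun z hz => hm z (d5 z hz)⟩⟩

end Pool.Agent.MP_d9582c_gt.H1
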