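import Pool.Agent.MP_d9582c_gt.H1.Spec
import Pool.Agent.MP_d9582c_gt.H34.Forms2
import Pool.Agent.MP_d9582c_gt.H34.Ip

/-!
The Clifford relation in a chart.
-/

open scoped Manifold ContDiff ComplexConjugate
open Pool.Agent.MP_d9582c_gt.H34

noncomputable section

namespace Pool.Agent.MP_d9582c_gt.H1

universe u

namespace CliffP

variable {n p : ℕ}

lemma curry_wedge_zero (l : E n →L[ℝ] ℝ) (a : Alt n 0) (v : E n) :
    (wedge l a).curryLeft v = l v • a := by
  ext w
  rw [ContinuousAlternatingMap.curryLeft_apply_apply, wedge_apply]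
  simp only [Nat.reduceAdd, Finset.univ_unique, Fin.default_eq_zero, Finset.sum_singleton,
    Fin.val_zero, pow_zero, one_smul, Matrix.cons_val_zero, ContinuousAlternatingMap.smul_apply]
  congr 2

lemma curry_wedge (l : E n →L[ℝ] ℝ) (a : Alt n (p + 1)) (v : E n) :
    (wedge l a).curryLeft v + wedge l (a.curryLeft v) = l v • a := by
  ext w
  rw [ContinuousAlternatingMap.add_apply, ContinuousAlternatingMap.curryLeft_apply_apply,
    wedge_apply, wedge_apply, Fin.sum_univ_succ, add_assoc, ← Finset.sum_add_distrib,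
    Finset.sum_eq_zero]
  · simp [Matrix.vecCons]
  · intro i _
    have e : Fin.removeNth i.succ (Matrix.vecCons v w) = Matrix.vecCons v (Fin.removeNth i w) :=
      Fin.cons_comp_succ_succAbove v w i
    rw [e, ContinuousAlternatingMap.curryLeft_apply_apply]
    simp [pow_succ]

variable {M : Type*} [TopologicalSpace M] [ChartedSpace (E n) M] [IsManifold 𝓘(ℝ, E n) ∞ M]

lemma ip_wedge (g : RMetric n M) (x : M) (l : E n →L[ℝ] ℝ) (a : Alt n p) (b : Alt n (p + 1)) :
    ip g x (wedge l a) b = ip g x a (b.curryLeft (∑ k, l (frame g x k) • frame g x k)) := by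
  set e := frame g x with he
  have key : ∀ i : Fin (p + 1), ∑ I : Fin (p + 1) → Fin n,
      conj ((-1 : ℤ) ^ (i : ℕ) • (l ((e ∘ I) i) • a (i.removeNth (e ∘ I)))) * b (e ∘ I) =
      ∑ J : Fin p → Fin n, conj (a (e ∘ J)) * b.curryLeft (∑ k, l (e k) • e k) (e ∘ J) := by
    intro i
    rw [← (Fin.insertNthEquiv (fun _ => Fin n) i).sum_comp, Fintype.sum_prod_type, Finset.sum_comm]
    refine Finset.sum_congr rfl fun J _ => ?_
    simp only [map_sum, map_smul, ContinuousAlternatingMap.sum_apply,
      ContinuousAlternatingMap.smul_apply, Finset.mul_sum]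
    refine Finset.sum_congr rfl fun k _ => ?_
    have h1 : e ∘ (Fin.insertNthEquiv (fun _ => Fin n) i (k, J)) = i.insertNth (e k) (e ∘ J) := by
      rw [eq_comm, Fin.insertNth_eq_iff]
      refine ⟨by simp [Fin.insertNthEquiv], ?_⟩
      funext j
      simp [Fin.insertNthEquiv, Fin.removeNth]
    rw [h1, ContinuousAlternatingMap.map_insertNth, Fin.removeNth_insertNth,
      Fin.insertNth_apply_same, ContinuousAlternatingMap.curryLeft_apply_apply]
    rcases neg_one_pow_eq_or ℤ i with h | h <;> rw [h] <;> simp <;> ring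
  simp only [ip, ← he, wedge_apply, map_sum (starRingEnd ℂ), Finset.sum_mul]
  rw [Finset.sum_comm, Finset.sum_congr rfl fun i _ => key i]
  simp only [Finset.sum_const, Finset.card_univ, Fintype.card_fin, nsmul_eq_mul,
    Nat.factorial_succ]
  have h1 : ((p : ℂ) + 1) ≠ 0 := by exact_mod_cast Nat.succ_ne_zero p
  have h2 : (p.factorial : ℂ) ≠ 0 := by exact_mod_cast p.factorial_ne_zero
  push_cast
  field_simp

lemma quad_eq (g : RMetric n M) (x : M) (A T : E n →L[ℝ] E n) (hA : ∀ v, A (T v) = v)
    (G : Matrix (Fin n) (Fin n) ℝ) (hG : ∀ i j, G i j = gx g x (A (ee i)) (A (ee j)))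
    (ξ : Fin n → ℝ) :
    ∑ k, cov ξ (T (frame g x k)) * cov ξ (T (frame g x k)) = quad G⁻¹ ξ := by
  let P : Matrix (Fin n) (Fin n) ℝ := Matrix.of fun i k => T (frame g x i) k
  have hP : ∀ i, frame g x i = ∑ k, P i k • A (ee k) := fun i => by
    conv_lhs => rw [← hA (frame g x i), ← (EuclideanSpace.basisFun (Fin n) ℝ).sum_repr (T _)]
    simp [map_sum, P]
  have h1 : P * G * P.transpose = 1 := by
    ext i j
    rw [Matrix.one_apply, ← frame_spec g x, hP i, hP j]
    simp only [Matrix.mul_apply, Matrix.transpose_apply, gx_eq, map_sum, map_smul,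
      sum_apply, smul_apply, smul_eq_mul, hG,
      Finset.sum_mul, Finset.mul_sum]
    exact Finset.sum_congr rfl fun _ _ => Finset.sum_congr rfl fun _ _ => by ring
  have h2 : G * (P.transpose * P) = 1 := by
    rw [Matrix.mul_assoc, mul_eq_one_comm] at h1
    rwa [← Matrix.mul_assoc]
  rw [Matrix.inv_eq_right_inv h2, quad]
  have h3 : ∀ k, cov ξ (T (frame g x k)) = ∑ i, ξ i * P k i := fun k => by
    simp [cov, P]
  simp only [h3, Matrix.mul_apply, Matrix.transpose_apply, Finset.sum_mul, Finset.mul_sum]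
  rw [Finset.sum_comm]
  conv_rhs => rw [Finset.sum_comm]
  refine Finset.sum_congr rfl fun j _ => ?_
  rw [Finset.sum_comm]
  exact Finset.sum_congr rfl fun i _ => Finset.sum_congr rfl fun k _ => by ring

end CliffP

open CliffP in
theorem cliff : CliffStmt.{u} := by
  intro n M _ _ _ g x₀ z hz ξ
  set κ := chartAt (E n) x₀
  set T := tang n κ (κ.symm z) with hT
  set v : E n := ∑ k, (cov ξ).comp T (frame g (κ.symm z) k) • frame g (κ.symm z) k with hv
  have hq : cov ξ (T v) = quad (gram g κ.symm z)⁻¹ ξ := by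
    rw [← quad_eq g (κ.symm z) (tang n κ.symm z) T (fun w => by
      have := tang_chart_symm_comp (x := x₀) (κ.map_target hz) w
      rwa [κ.right_inv hz] at this) (gram g κ.symm z) (fun i j => rfl) ξ, hv]
    simp [map_sum]
  refine ⟨fun q β => β.curryLeft (T v), fun q α β => ?_, fun α => ?_, fun q α => ?_⟩
  · simp only [hh]
    rw [wedge_comp, ip_wedge, ContinuousAlternatingMap.curryLeft_compContinuousLinearMap]
  · exact hq ▸ curry_wedge_zero (cov ξ) α (T v)
  · exact hq ▸ curry_wedge (cov ξ) α (T v)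

end Pool.Agent.MP_d9582c_gt.H1
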