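import Pool.Agent.MP_d9582c_gt.H1.Spec

/-!
Conjugation of the heat operator by the Gaussian.
-/

open scoped ContDiff
open Set Pool.Agent.MP_d9582c_gt.H34

noncomputable section

namespace Pool.Agent.MP_d9582c_gt.H1

namespace ConjP

variable {n : ℕ} {V : Type} [NormedAddCommGroup V] [NormedSpace ℝ V]

lemma pd_shift (i : Fin n) (F : E n → V) (y : E n) :
    pd i (fun x => F (x - y)) = fun x => pd i F (x - y) := funext fun x => by
  rw [pd, fderiv_comp_sub]; rfl

lemma pd_cd {w : E n → V} (hw : ContDiff ℝ ∞ w) (i : Fin n) : ContDiff ℝ ∞ (pd i w) :=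
  (hw.fderiv_right (m := ∞) le_rfl).clm_apply contDiff_const

lemma pd_smul {a : E n → ℝ} {w : E n → V} (ha : ContDiff ℝ ∞ a) (hw : ContDiff ℝ ∞ w) (i : Fin n)
    (z : E n) : pd i (fun z => a z • w z) z = a z • pd i w z + pd i a z • w z := by
  rw [pd, fderiv_fun_smul (ha.differentiable (by simp) z) (hw.differentiable (by simp) z)]; rfl

lemma pd_sub {u w : E n → V} (hu : ContDiff ℝ ∞ u) (hw : ContDiff ℝ ∞ w) (i : Fin n) (z : E n) :
    pd i (fun z => u z - w z) z = pd i u z - pd i w z := by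
  rw [pd, fderiv_fun_sub (hu.differentiable (by simp) z) (hw.differentiable (by simp) z)]; rfl

lemma sm_z {v : ℝ → E n → E n → V} (hv : Sm v) {t : ℝ} (ht : 0 < t) (y : E n) :
    ContDiff ℝ ∞ fun z => v t z y :=
  contDiffOn_univ.1 (hv.comp (f := fun z => (t, z, y)) (by fun_prop) fun _ _ => ht)

lemma sm_t {v : ℝ → E n → E n → V} (hv : Sm v) {t : ℝ} (ht : 0 < t) (z y : E n) :
    DifferentiableAt ℝ (fun s => v s z y) t :=
  ((hv.comp (s := Ioi 0) (f := fun s => (s, z, y)) (by fun_prop) fun _ h => h).contDiffAt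
    (Ioi_mem_nhds ht)).differentiableAt (by simp)

lemma lin_cd (g : Met n) (i : Fin n) (t : ℝ) (y : E n) : ContDiff ℝ ∞ fun z => g.lin i t z y := by
  unfold Met.lin; fun_prop

lemma sum_lin (g : Met n) (i : Fin n) (t : ℝ) (z y : E n) :
    ∑ j, g.G y i j * g.lin j t z y = z i / (2 * t) := by
  have h := Matrix.mul_nonsing_inv (g.G y) (Ne.isUnit (g.pos y).det_pos.ne')
  have h2 : ∀ k, ∑ j, g.G y i j * (g.G y)⁻¹ j k = if i = k then 1 else 0 := fun k => by
    rw [← Matrix.mul_apply, h, Matrix.one_apply]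
  simp only [Met.lin, ← mul_div_assoc, ← Finset.sum_div, Finset.mul_sum, ← mul_assoc]
  rw [Finset.sum_comm]
  simp [← Finset.sum_mul, h2]

lemma G_symm (g : Met n) (y : E n) (i j : Fin n) : g.G y i j = g.G y j i := by
  simpa using (g.pos y).isHermitian.apply j i

section
variable (hg : GaussStmt) (g : Met n) {t : ℝ} (ht : 0 < t) (y : E n)
include hg ht

lemma pd_gauss {w : E n → V} (hw : ContDiff ℝ ∞ w) (i : Fin n) :
    pd i (fun z => g.gauss t z y • w z) =
      fun z => g.gauss t z y • (pd i w z - g.lin i t z y • w z) := funext fun z => by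
  rw [pd_smul (sm_z (hg n g).1 ht y) hw, (hg n g).2.2.1 t ht]
  module

lemma heat_gauss (z : E n) : deriv (fun s => g.gauss s z y) t = g.gauss t z y *
    ∑ i, ∑ j, g.G y i j * (g.lin i t z y * g.lin j t z y - pd i (fun z => g.lin j t z y) z) := by
  rw [(hg n g).2.2.2.1 t ht]
  simp only [Finset.mul_sum]
  refine Finset.sum_congr rfl fun i _ => Finset.sum_congr rfl fun j _ => ?_
  have h1 : (pd j fun z => g.gauss t z y) = fun z => g.gauss t z y • (0 - g.lin j t z y) :=
    funext fun z => by rw [(hg n g).2.2.1 t ht, smul_eq_mul]; ring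
  rw [h1, pd_gauss hg g ht y (contDiff_const.sub (lin_cd g j t y))]
  simp only [pd_sub contDiff_const (lin_cd g j t y)]
  simp only [pd, fderiv_fun_const, smul_eq_mul, Pi.zero_apply, zero_apply]
  ring

end

lemma key (g : Met n) {t : ℝ} (ht : 0 < t) (y z : E n) {w : E n → V} (hw : ContDiff ℝ ∞ w) :
    ∑ i, ∑ j, g.G y i j • (pd i (fun z => pd j w z - g.lin j t z y • w z) z -
      g.lin i t z y • (pd j w z - g.lin j t z y • w z)) =
    ∑ i, ∑ j, g.G y i j • pd i (pd j w) z - t⁻¹ • ∑ i, z i • pd i w z + (∑ i, ∑ j, g.G y i j *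
      (g.lin i t z y * g.lin j t z y - pd i (fun z => g.lin j t z y) z)) • w z := by
  have h1 : ∑ i, ∑ j, (g.G y i j * g.lin j t z y) • pd i w z =
      (2 * t)⁻¹ • ∑ i, z i • pd i w z := by
    simp only [← Finset.sum_smul, sum_lin, Finset.smul_sum, smul_smul, div_eq_inv_mul]
  have h2 : ∑ i, ∑ j, (g.G y i j * g.lin i t z y) • pd j w z =
      (2 * t)⁻¹ • ∑ i, z i • pd i w z := by
    rw [Finset.sum_comm, ← h1]
    simp only [G_symm g y _ _]
  have h3 : t⁻¹ • ∑ i, z i • pd i w z = ∑ i, ∑ j, (g.G y i j * g.lin j t z y) • pd i w z +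
      ∑ i, ∑ j, (g.G y i j * g.lin i t z y) • pd j w z := by
    rw [h1, h2, ← add_smul]
    congr 1
    field_simp
    norm_num
  simp only [h3, Finset.sum_smul, ← Finset.sum_add_distrib, ← Finset.sum_sub_distrib]
  refine Finset.sum_congr rfl fun i _ => Finset.sum_congr rfl fun j _ => ?_
  rw [pd_sub (pd_cd hw j) ((lin_cd g j t y).fun_smul hw), pd_smul (lin_cd g j t y) hw]
  module

lemma final {A : Type} [Ring A] [Algebra ℝ A] {γ s : ℝ} {G G' : Fin n → Fin n → ℝ}
    {X : Fin n → Fin n → A} {B Y : Fin n → A} {C a b e w : A}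
    (k : ∑ i, ∑ j, G' i j • X i j = b - e + s • w) :
    γ • a + (γ * s) • w + (-∑ i, ∑ j, G i j • γ • X i j + ∑ i, B i * γ • Y i + C * γ • w) =
      γ • (a - b + e + (-∑ i, ∑ j, (G i j - G' i j) • X i j + ∑ i, B i * Y i + C * w)) := by
  simp only [sub_smul, Finset.sum_sub_distrib, mul_smul_comm, smul_comm (G _ _) γ,
    ← Finset.smul_sum, k]
  module

end ConjP

open ConjP

theorem conjugation (hg : GaussStmt) : ConjStmt := by
  intro n d c v hv t ht x y
  have hw := sm_z hv ht y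
  have hD := fun j => (pd_cd hw j).sub ((lin_cd c.toMet j t y).fun_smul hw)
  simp only [Coef.res, Coef.LE, Coef.Pert, Met.H, Met.D, add_sub_cancel]
  rw [deriv_fun_smul (sm_t (hg n _).1 ht _ _) (sm_t hv ht _ _), heat_gauss hg _ ht]
  have e1 := fun j => (pd_shift j _ y).trans
    (congrArg (fun F x => F (x - y)) (pd_gauss hg c.toMet ht y hw j))
  have e2 := fun i j => (pd_shift i _ y).trans
    (congrArg (fun F x => F (x - y)) (pd_gauss hg c.toMet ht y (hD j) i))
  simp only [e1, e2]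
  exact final (key c.toMet ht y (x - y) hw)

end Pool.Agent.MP_d9582c_gt.H1
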