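import Pool.Agent.MP_d9582c_gt.H1.Spec
import Pool.Agent.MP_d9582c_gt.H66.LocA

/-! Duhamel's estimate for the heat flow of a closed relation. -/

open scoped Topology ENNReal InnerProductSpace
open MeasureTheory Set Filter Metric Pool.Agent.MP_d9582c_gt.H34

noncomputable section

namespace Pool.Agent.MP_d9582c_gt.H1

universe u

namespace DuhP

variable {H K : Type*} [NormedAddCommGroup H] [InnerProductSpace ℂ H]

/-- Weak convergence along a moving test vector from a dense set of test vectors. -/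
theorem weak {l : Filter ℝ} {w g : ℝ → H} {w₀ f : H} {B : ℝ} (hB : ∀ᶠ s in l, ‖w s‖ ≤ B)
    (hd : Dense {f : H | Tendsto (fun s => ⟪f, w s⟫_ℂ) l (𝓝 ⟪f, w₀⟫_ℂ)})
    (hg : Tendsto g l (𝓝 f)) : Tendsto (fun s => ⟪g s, w s⟫_ℂ) l (𝓝 ⟪f, w₀⟫_ℂ) := by
  rw [Metric.tendsto_nhds]
  intro ε hε
  obtain ⟨C, hC⟩ : ∃ C, C = |B| + ‖w₀‖ + 1 := ⟨_, rfl⟩
  have hC0 : 0 < C := by rw [hC]; positivity
  have hη : 0 < ε / (4 * C) := by positivity
  obtain ⟨f', hf', h1⟩ := hd.exists_dist_lt f hη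
  rw [dist_eq_norm] at h1
  filter_upwards [hB, Metric.tendsto_nhds.1 hg _ hη, Metric.tendsto_nhds.1 hf' _ (half_pos hε)]
    with s hs h2 h3
  rw [dist_eq_norm] at h2 h3 ⊢
  have e : ⟪g s, w s⟫_ℂ - ⟪f, w₀⟫_ℂ = ⟪g s - f, w s⟫_ℂ + ⟪f - f', w s⟫_ℂ +
      (⟪f', w s⟫_ℂ - ⟪f', w₀⟫_ℂ) - ⟪f - f', w₀⟫_ℂ := by
    simp only [inner_sub_left]; ring
  have hs' : ‖w s‖ ≤ |B| := hs.trans (le_abs_self B)
  have b1 : ‖⟪g s - f, w s⟫_ℂ‖ ≤ ε / (4 * C) * |B| :=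
    (norm_inner_le_norm _ _).trans (by gcongr)
  have b2 : ‖⟪f - f', w s⟫_ℂ‖ ≤ ε / (4 * C) * |B| :=
    (norm_inner_le_norm _ _).trans (by gcongr)
  have b3 : ‖⟪f - f', w₀⟫_ℂ‖ ≤ ε / (4 * C) * ‖w₀‖ :=
    (norm_inner_le_norm _ _).trans (by gcongr)
  have b4 : ε / (4 * C) * C = ε / 4 := by field_simp
  have b5 : ε / (4 * C) * |B| + ε / (4 * C) * ‖w₀‖ ≤ ε / 4 := by
    rw [← b4, ← mul_add]
    exact mul_le_mul_of_nonneg_left (by linarith) hη.le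
  have b6 : 0 ≤ ε / (4 * C) * ‖w₀‖ := by positivity
  rw [e]
  linarith [norm_sub_le (⟪g s - f, w s⟫_ℂ + ⟪f - f', w s⟫_ℂ + (⟪f', w s⟫_ℂ - ⟪f', w₀⟫_ℂ))
    ⟪f - f', w₀⟫_ℂ, norm_add₃_le (a := ⟪g s - f, w s⟫_ℂ) (b := ⟪f - f', w s⟫_ℂ)
    (c := ⟪f', w s⟫_ℂ - ⟪f', w₀⟫_ℂ)]

theorem cs {ρ : ℝ → ℝ≥0∞} {τ : ℝ} (h : AEMeasurable ρ (volume.restrict (Ioc 0 τ))) :
    (∫⁻ s in Ioc 0 τ, ρ s) ^ 2 ≤ ENNReal.ofReal τ * ∫⁻ s in Ioc 0 τ, ρ s ^ 2 := by
  have h1 := ENNReal.lintegral_mul_le_Lp_mul_Lq (volume.restrict (Ioc 0 τ))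
    Real.HolderConjugate.two_two (f := fun _ => 1) (g := ρ) aemeasurable_const h
  simp only [Pi.mul_apply, one_mul, one_pow, lintegral_const, MeasurableSet.univ,
    Measure.restrict_apply, univ_inter, Real.volume_Ioc, sub_zero, ENNReal.rpow_two] at h1
  refine (pow_le_pow_left' h1 2).trans_eq ?_
  have e : ∀ x : ℝ≥0∞, (x ^ (1 / 2 : ℝ)) ^ 2 = x := fun x => by
    rw [← ENNReal.rpow_two, ← ENNReal.rpow_mul]
    norm_num
  rw [mul_pow, e, e]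

variable [CompleteSpace H] [NormedAddCommGroup K] [InnerProductSpace ℂ K] [CompleteSpace K]
  {Γ : Submodule ℂ (H × K)}

theorem der (hΓ : IsClosed (Γ : Set (H × K))) {w : ℝ → H} {w' y : H} {a : K} {s τ : ℝ}
    (hs : s < τ) (hw : HasDerivAt w w' s) (ha : (w s, a) ∈ Γ)
    (hy : ∀ v b, (v, b) ∈ Γ → ⟪b, a⟫_ℂ = ⟪v, y⟫_ℂ) :
    HasDerivAt (fun s => heat Γ (τ - s) (w s)) (heat Γ (τ - s) (w' + y)) s := by
  have ht : 0 < τ - s := sub_pos.2 hs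
  have h1 := (H66.hasDerivAt_heat_op hΓ ht).scomp s ((hasDerivAt_id s).const_sub τ)
  have h2 := ((ContinuousLinearMap.restrictScalarsL ℂ H H ℝ ℝ).hasFDerivAt.comp_hasDerivAt s
    h1).clm_apply hw
  have h3 : resolv Γ (w s + y) = w s :=
    (resolv_unique hΓ ha fun v b hv => by rw [add_sub_cancel_left, hy v b hv]).1
  have h4 : cfc (H66.kf (τ - s)) (resolv Γ) (w s) = heat Γ (τ - s) (w s + y) := by
    rw [H66.heat_eq_mul' hΓ ht]
    change _ = cfc (H66.kf (τ - s)) (resolv Γ) (resolv Γ (w s + y))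
    rw [h3]
  refine h2.congr_deriv ?_
  change (-1 : ℝ) • (heat Γ (τ - s) (w s) - cfc (H66.kf (τ - s)) (resolv Γ) (w s)) +
    heat Γ (τ - s) w' = _
  rw [h4, map_add, map_add, neg_one_smul]
  abel

end DuhP

open DuhP in
theorem duhamel : DuhStmt.{u} := by
  intro H H' _ _ _ _ _ _ Γ hΓ w ρ w₀ τ hτ hw hρ ⟨B, hB⟩ hd
  refine le_trans (pow_le_pow_left' ?_ 2)
    (cs (hρ.aestronglyMeasurable measurableSet_Ioc).enorm)
  rcases eq_or_ne (∫⁻ s in Ioc 0 τ, ‖ρ s‖ₑ) ⊤ with hI | hI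
  · rw [hI]; exact le_top
  have hi : IntegrableOn ρ (Ioc 0 τ) :=
    ⟨hρ.aestronglyMeasurable measurableSet_Ioc, lt_top_iff_ne_top.2 hI⟩
  rw [← ofReal_integral_norm_eq_lintegral_enorm hi, ← ofReal_norm]
  refine ENNReal.ofReal_le_ofReal ?_
  obtain ⟨I, hI'⟩ : ∃ I, I = ∫ s in Ioc 0 τ, ‖ρ s‖ := ⟨_, rfl⟩
  have hD : ∀ s ∈ Ioo 0 τ,
      HasDerivAt (fun s => heat Γ (τ - s) (w s)) (heat Γ (τ - s) (ρ s)) s := fun s hs => by
    obtain ⟨w', y, a, h1, h2, h3, h4⟩ := hw s ⟨hs.1, hs.2.le⟩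
    rw [h4]
    exact der hΓ hs.2 h1 h2 h3
  have h1 : ∀ a b, 0 < a → a ≤ b → b < τ →
      ‖heat Γ (τ - b) (w b) - heat Γ (τ - a) (w a)‖ ≤ I := fun a b ha hab hb => by
    have hsub : Ioc a b ⊆ Ioc 0 τ := Ioc_subset_Ioc ha.le hb.le
    refine (norm_sub_le_integral_of_norm_deriv_le_of_le (f := fun s => heat Γ (τ - s) (w s))
      (B := fun s => ‖ρ s‖) hab
      (fun s hs => (hD s ⟨ha.trans_le hs.1, hs.2.trans_lt hb⟩).continuousAt.continuousWithinAt)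
      (fun s hs => (hD s ⟨ha.trans hs.1, hs.2.trans hb⟩).differentiableAt.differentiableWithinAt)
      (.of_forall fun s hs => ?_)
      ((intervalIntegrable_iff_integrableOn_Ioc_of_le hab).2 (hi.mono_set hsub).norm)).trans ?_
    · rw [(hD s ⟨ha.trans hs.1, hs.2.trans hb⟩).deriv]
      exact ((heat Γ (τ - s)).le_opNorm _).trans (mul_le_of_le_one_left (norm_nonneg _)
        (norm_heat_le hΓ (sub_pos.2 (hs.2.trans hb)).le))
    · rw [intervalIntegral.integral_of_le hab, hI']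
      exact setIntegral_mono_set hi.norm (.of_forall fun s => norm_nonneg _) hsub.eventuallyLE
  obtain ⟨w', y, a, d1, d2, -⟩ := hw τ ⟨hτ, le_rfl⟩
  have t1 : Tendsto (fun b => τ - b) (𝓝[<] τ) (𝓝[>] 0) :=
    tendsto_nhdsWithin_iff.2 ⟨by
      simpa using ((by fun_prop : Continuous fun b : ℝ => τ - b).tendsto τ).mono_left
        (nhdsWithin_le_nhds (s := Iio τ)),
      eventually_nhdsWithin_of_forall fun b hb => mem_Ioi.2 (sub_pos.2 hb)⟩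
  have t2 : Tendsto (fun b => heat Γ (τ - b) (w b)) (𝓝[<] τ) (𝓝 (w τ)) := by
    have s1 := (H66.tendsto_heat_dcl hΓ (H66.mem_dcl hΓ d2)).comp t1
    have s2 : Tendsto (fun b => heat Γ (τ - b) (w b - w τ)) (𝓝[<] τ) (𝓝 0) := by
      refine squeeze_zero_norm' ?_ ((tendsto_iff_norm_sub_tendsto_zero.1
        d1.continuousAt.tendsto).mono_left nhdsWithin_le_nhds)
      exact eventually_nhdsWithin_of_forall fun b hb => ((heat Γ (τ - b)).le_opNorm _).trans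
        (mul_le_of_le_one_left (norm_nonneg _) (norm_heat_le hΓ (sub_pos.2 hb).le))
    simpa using s1.add s2
  have h2 : ∀ a, 0 < a → a < τ → ‖heat Γ (τ - a) (w a) - w τ‖ ≤ I := fun a ha hb => by
    rw [norm_sub_rev]
    refine le_of_tendsto (t2.sub_const _).norm ?_
    filter_upwards [Ioo_mem_nhdsLT hb] with b hb' using h1 a b ha hb'.1.le hb'.2
  obtain ⟨f, hf⟩ : ∃ f, f = heat Γ τ w₀ - w τ := ⟨_, rfl⟩
  have t3 : Tendsto (fun a => heat Γ (τ - a) f) (𝓝[>] 0) (𝓝 (heat Γ τ f)) := by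
    refine (H66.hasDerivAt_heat hΓ hτ f).continuousAt.tendsto.comp ?_
    simpa using ((by fun_prop : Continuous fun b : ℝ => τ - b).tendsto 0).mono_left
      (nhdsWithin_le_nhds (s := Ioi 0))
  have t4 := weak (B := B) (by filter_upwards [Ioc_mem_nhdsGT hτ] with s hs using hB s hs) hd t3
  have sa : ∀ t x y, ⟪heat Γ t x, y⟫_ℂ = ⟪x, heat Γ t y⟫_ℂ := fun t x y =>
    (heat_sa Γ t).isSymmetric x y
  simp only [sa] at t4
  have h3 : ‖⟪f, f⟫_ℂ‖ ≤ ‖f‖ * I := by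
    nth_rw 2 [hf]
    rw [inner_sub_right]
    refine le_of_tendsto (t4.sub_const _).norm ?_
    filter_upwards [Ioo_mem_nhdsGT hτ] with a ha
    rw [← inner_sub_right]
    exact (norm_inner_le_norm _ _).trans
      (mul_le_mul_of_nonneg_left (h2 a ha.1 ha.2) (norm_nonneg _))
  rw [inner_self_eq_norm_sq_to_K, norm_pow, RCLike.norm_ofReal, abs_norm, sq] at h3
  rw [← hI', ← hf]
  rcases (norm_nonneg f).eq_or_lt with h0 | h0
  · rw [← h0, hI']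
    exact integral_nonneg fun s => norm_nonneg _
  · exact le_of_mul_le_mul_left h3 h0

end Pool.Agent.MP_d9582c_gt.H1
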