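import Pool.Agent.MP_d9582c_gt.H1.Spec

/-!
The product of the nonzero eigenvalues of an integral symmetric matrix.
-/

open Polynomial

namespace Pool.Agent.MP_d9582c_gt.H1

universe v

theorem eigOwn : EigStmt.{v} := by
  intro ι _ _ B hB
  have h1 := hB.charpoly_eq
  have h2 : (B.map (Int.cast : ℤ → ℝ)).charpoly = B.charpoly.map (Int.castRingHom ℝ) :=
    Matrix.charpoly_map B (Int.castRingHom ℝ)
  have h4 : (B.map (Int.cast : ℤ → ℝ)).charpoly.trailingCoeff ≠ 0 := by
    rw [Ne, trailingCoeff_eq_zero]; exact (Matrix.charpoly_monic _).ne_zero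
  have h5 : ∀ s : Finset ι, |(∏ i ∈ s, (X - C (hB.eigenvalues i))).trailingCoeff| =
      |∏ k ∈ s.filter fun k => hB.eigenvalues k ≠ 0, hB.eigenvalues k| := fun s => by
    induction s using Finset.induction_on with
    | empty => simp [trailingCoeff]
    | insert a s ha ih =>
      rw [Finset.prod_insert ha, trailingCoeff_mul, abs_mul, ih, Finset.filter_insert]
      split_ifs with h
      · rw [Finset.prod_insert (by simp [ha]), abs_mul,
          trailingCoeff_eq_coeff_zero (by simpa using h)]
        simp
      · push Not at h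
        simp [h, trailingCoeff]
  rw [← h5]
  simp only [RCLike.ofReal_real_eq_id, id] at h1
  rw [← h1]
  rw [h2, trailingCoeff, coeff_map, eq_intCast] at h4 ⊢
  exact_mod_cast Int.one_le_abs (by exact_mod_cast h4)

end Pool.Agent.MP_d9582c_gt.H1
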