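import Pool.Agent.MP_d9582c_gt.H1.ExpAlg

/-!
The expansion of the localized heat trace.
-/

open scoped ContDiff Topology ENNReal InnerProductSpace
open MeasureTheory Set Filter Metric ContinuousLinearMap Pool.Agent.MP_d9582c_gt.H34

noncomputable section

namespace Pool.Agent.MP_d9582c_gt.H1

universe u

namespace EucP

variable {n d : ℕ}

theorem bump (n : ℕ) {r : ℝ} (h0 : 0 < r) (h1 : r ≤ 1) : ∃ ψ : E n → ℝ, IsBump ψ r := by
  let f : ContDiffBump (0 : E n) := ⟨r / 2, r, half_pos h0, half_lt_self h0⟩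
  exact ⟨f, h0, h1, f.contDiff, fun z hz => f.one_of_mem_closedBall (by simpa using hz),
    fun z hz => f.zero_of_le_dist (by simpa using hz),
    fun z => by rw [abs_of_nonneg f.nonneg]; exact f.le_one⟩

theorem adj_smul (r : ℝ) (A : End d) : adjoint (r • A) = r • adjoint A := by
  refine ContinuousLinearMap.ext fun w => ext_inner_left ℂ fun z => ?_
  rw [adjoint_inner_right, smul_apply, smul_apply, RCLike.real_smul_eq_coe_smul (K := ℂ) r (A z),
    RCLike.real_smul_eq_coe_smul (K := ℂ) r (adjoint A w), inner_smul_left, inner_smul_right,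
    adjoint_inner_right]
  simp

theorem z0 (A : End d) : (0 : ℝ) • A = 0 := ContinuousLinearMap.ext fun w => by
  rw [smul_apply, zero_smul, zero_apply]

theorem hsq_smul (r : ℝ) (A : End d) : hsq (r • A) = r ^ 2 * hsq A := by
  simp only [hsq, adj_smul, smul_apply, norm_smul, mul_pow, Finset.mul_sum,
    Real.norm_eq_abs, sq_abs]

/-- The real bilinear form of `hsq`. -/
def bil (d : ℕ) : End d →L[ℝ] End d →L[ℝ] ℝ :=
  LinearMap.mkContinuous₂ (LinearMap.mk₂ ℝ (fun A B : End d => ∑ m,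
      (⟪adjoint A (EuclideanSpace.single m 1), adjoint B (EuclideanSpace.single m 1)⟫_ℂ).re)
    (fun A A' B => by simp [Finset.sum_add_distrib])
    (fun c A B => by
      simp only [adj_smul, smul_apply, smul_eq_mul, Finset.mul_sum]
      refine Finset.sum_congr rfl fun m _ => ?_
      rw [RCLike.real_smul_eq_coe_smul (K := ℂ), inner_smul_left]
      simp)
    (fun A B B' => by simp [Finset.sum_add_distrib])
    (fun c A B => by
      simp only [adj_smul, smul_apply, smul_eq_mul, Finset.mul_sum]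
      refine Finset.sum_congr rfl fun m _ => ?_
      rw [RCLike.real_smul_eq_coe_smul (K := ℂ), inner_smul_right]
      simp)) d fun A B => by
    rw [LinearMap.mk₂_apply]
    refine (norm_sum_le _ _).trans ((Finset.sum_le_sum (g := fun _ => ‖A‖ * ‖B‖)
      fun m _ => ?_).trans (by simp [mul_assoc]))
    have h : ∀ A : End d, ‖adjoint A (EuclideanSpace.single m 1)‖ ≤ ‖A‖ := fun A => by
      simpa using (adjoint A).le_opNorm (EuclideanSpace.single m 1)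
    exact (Complex.abs_re_le_norm _).trans ((norm_inner_le_norm _ _).trans
      (mul_le_mul (h A) (h B) (norm_nonneg _) (norm_nonneg _)))

theorem bil_self (A : End d) : bil d A A = hsq A := by
  simp only [bil, LinearMap.mkContinuous₂_apply, LinearMap.mk₂_apply, hsq]
  exact Finset.sum_congr rfl fun m _ => inner_self_eq_norm_sq (𝕜 := ℂ) _

theorem tsum_le {ι : Type} {f g h : ι → ℝ} {c c' : ℝ} (hc : 0 ≤ c) (hc' : 0 ≤ c')
    (hg : ∀ j, 0 ≤ g j) (hh : ∀ j, 0 ≤ h j) (H : ∀ j, f j ≤ c * g j + c' * h j) :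
    ∑' j, ENNReal.ofReal (f j) ≤ ENNReal.ofReal c * ∑' j, ENNReal.ofReal (g j) +
      ENNReal.ofReal c' * ∑' j, ENNReal.ofReal (h j) := by
  rw [← ENNReal.tsum_mul_left, ← ENNReal.tsum_mul_left, ← ENNReal.tsum_add]
  refine ENNReal.tsum_le_tsum fun j => ?_
  rw [← ENNReal.ofReal_mul hc, ← ENNReal.ofReal_mul hc',
    ← ENNReal.ofReal_add (mul_nonneg hc (hg j)) (mul_nonneg hc' (hh j))]
  exact ENNReal.ofReal_le_ofReal (H j)

theorem cmp {ι : Type} {H : Type u} [NormedAddCommGroup H] (a b : ι → H) {g D δ : ℝ} (hg : 0 ≤ g)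
    (hD0 : 0 ≤ D) (hδ : 0 < δ) (hδ1 : δ ≤ 1) (hB : ∑' j, ‖b j‖ₑ ^ 2 = ENNReal.ofReal g)
    (hD : ∑' j, ‖a j - b j‖ₑ ^ 2 ≤ ENNReal.ofReal D) :
    ∑' j, ‖a j‖ₑ ^ 2 ≠ ⊤ ∧ |(∑' j, ‖a j‖ₑ ^ 2).toReal - g| ≤ δ * g + 2 * δ⁻¹ * D := by
  simp only [enorm_sq_eq] at hB hD ⊢
  have hi : 1 ≤ δ⁻¹ := (one_le_inv₀ hδ).2 hδ1
  have hk : ∀ x y : ℝ, 2 * (x * y) ≤ δ * x ^ 2 + δ⁻¹ * y ^ 2 := fun x y => by
    have h1 : δ * x ^ 2 + δ⁻¹ * y ^ 2 - 2 * (x * y) = δ⁻¹ * (δ * x - y) ^ 2 := by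
      field_simp; ring
    have h2 : 0 ≤ δ⁻¹ * (δ * x - y) ^ 2 := by positivity
    linarith
  have h1 := tsum_le (f := fun j => ‖a j‖ ^ 2) (g := fun j => ‖b j‖ ^ 2)
    (h := fun j => ‖a j - b j‖ ^ 2) (c := 1 + δ) (c' := 2 * δ⁻¹) (by positivity) (by positivity)
    (fun _ => by positivity) (fun _ => by positivity) fun j => by
      have h2 : ‖a j‖ ≤ ‖b j‖ + ‖a j - b j‖ := by simpa using norm_add_le (b j) (a j - b j)
      have h3 := pow_le_pow_left₀ (norm_nonneg _) h2 2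
      nlinarith [hk ‖b j‖ ‖a j - b j‖, sq_nonneg ‖a j - b j‖]
  have h2 := tsum_le (f := fun j => (1 - δ) * ‖b j‖ ^ 2) (g := fun j => ‖a j‖ ^ 2)
    (h := fun j => ‖a j - b j‖ ^ 2) (c := 1) (c' := 2 * δ⁻¹) (by positivity) (by positivity)
    (fun _ => by positivity) (fun _ => by positivity) fun j => by
      have h2 : |‖a j‖ - ‖b j‖| ≤ ‖a j - b j‖ := abs_norm_sub_norm_le _ _
      have h3 := sq_le_sq' (abs_le.1 h2).1 (abs_le.1 h2).2
      nlinarith [hk ‖b j‖ (‖b j‖ - ‖a j‖), sq_nonneg ‖a j - b j‖, sq_nonneg (‖a j‖ - ‖b j‖),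
        mul_le_mul_of_nonneg_left h3 (inv_nonneg.2 hδ.le)]
  simp only [ENNReal.ofReal_mul (sub_nonneg.2 hδ1), ENNReal.tsum_mul_left, hB] at h1 h2
  have h3 := h1.trans (add_le_add_right (mul_le_mul_right hD _) _)
  have h4 := h2.trans (add_le_add_right (mul_le_mul_right hD _) _)
  rw [← ENNReal.ofReal_mul (by positivity), ← ENNReal.ofReal_mul (by positivity),
    ← ENNReal.ofReal_add (by positivity) (by positivity)] at h3
  have h5 := ne_top_of_le_ne_top ENNReal.ofReal_ne_top h3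
  refine ⟨h5, ?_⟩
  generalize ∑' j, ENNReal.ofReal (‖a j‖ ^ 2) = A at h3 h4 h5
  lift A to NNReal using h5
  rw [← ENNReal.ofReal_coe_nnreal] at h3 h4
  rw [ENNReal.ofReal_le_ofReal_iff (by positivity)] at h3
  rw [← ENNReal.ofReal_mul (sub_nonneg.2 hδ1), ← ENNReal.ofReal_mul (by positivity),
    ← ENNReal.ofReal_mul (by positivity), ← ENNReal.ofReal_add (by positivity) (by positivity),
    ENNReal.ofReal_le_ofReal_iff (by positivity)] at h4
  rw [ENNReal.coe_toReal, abs_le]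
  constructor <;> linarith

theorem cont {V : Type} [NormedAddCommGroup V] [NormedSpace ℝ V] {κ : ℝ → E n → E n → V}
    (h : Sm κ) {t : ℝ} (ht : 0 < t) : Continuous fun q : E n × E n => κ t q.1 q.2 :=
  h.continuousOn.comp_continuous (f := fun q : E n × E n => (t, q)) (by fun_prop) fun _ => ht

theorem op0 {κ : E n → E n → End d} {u : E n → W d} {x : E n} (h : ∀ y, κ x y = 0) :
    op κ u x = 0 := by
  simp [op, h]

variable {H H' : Type u} [NormedAddCommGroup H] [InnerProductSpace ℂ H] [CompleteSpace H]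
  [NormedAddCommGroup H'] [InnerProductSpace ℂ H'] [CompleteSpace H'] {Γ : Submodule ℂ (H × H')}

/-- Duhamel's estimate for the parametrix. -/
theorem one (hi : IntStmt) (hd : DuhStmt.{u}) (hj : JDiffStmt.{u})
    (hΓ : IsClosed (Γ : Set (H × H'))) (L : Loc n d Γ) {κ : ℝ → E n → E n → End d} (hsm : Sm κ)
    (hK : ∀ t > 0, ∀ x, ∀ y ∉ L.K, κ t x y = 0)
    (hA : ∀ t > 0, ∀ x ∉ cthickening L.r L.K, ∀ y, κ t x y = 0) (u : L2W n d) {C : ℝ}
    (hb : ∀ t ∈ Ioc (0 : ℝ) 1, ∫⁻ x, ‖op (κ t) u x‖ₑ ^ 2 ≤ ENNReal.ofReal C * ‖u‖ₑ ^ 2)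
    (hw : ∀ f : E n → W d, Continuous f → Tendsto (fun t => ∫ x, ⟪f x, op (κ t) u x⟫_ℂ) (𝓝[>] 0)
      (𝓝 (∫ y, ⟪L.φ y • f y, u y⟫_ℂ))) {t : ℝ} (ht : t ∈ Ioc (0 : ℝ) 1) :
    Test L.K L.r (op (κ t) u) ∧ (∀ s > 0, Test L.K L.r (op (L.c.res κ s) u)) ∧
      ContinuousOn (fun s => L.J (op (L.c.res κ s) u)) (Ioc 0 t) ∧
      ‖heat Γ t (adjoint L.Φ u) - L.J (op (κ t) u)‖ₑ ^ 2 ≤
        ENNReal.ofReal t * ∫⁻ s in Ioc 0 t, ‖L.J (op (L.c.res κ s) u)‖ₑ ^ 2 := by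
  have hc := L.cut.compact
  have hu : LocallyIntegrable u volume := (Lp.memLp u).locallyIntegrable one_le_two
  obtain ⟨h1, h2⟩ := hi n d κ L.K hsm hc hK
  obtain ⟨h3, h4⟩ := h1 u hu
  obtain ⟨h5, h6, h7⟩ := h2 L.c
  have h8 := h7 _ isClosed_cthickening hA
  have h9 := ((hi n d _ L.K h5 hc h6).1 u hu).1
  have J1 := hj n d H L.K L.r L.J hc L.isJ _ h3 fun s hs x hx => op0 (hA s hs x hx)
  have J2 := hj n d H L.K L.r L.J hc L.isJ _ h9 fun s hs x hx => op0 (h8 s hs x hx)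
  have hρ : ContinuousOn (fun s => L.J (op (L.c.res κ s) u)) (Ioc 0 t) := fun s hs =>
    (J2 s hs.1).2.2.continuousAt.continuousWithinAt
  refine ⟨(J1 t ht.1).1, fun s hs => (J2 s hs).1, hρ, hd H H' Γ hΓ (fun s => L.J (op (κ s) u)) _ _ t
    ht.1 (fun s hs => ?_) hρ ⟨√(max C 0 * ‖u‖ ^ 2), fun s hs => ?_⟩ (L.dense.mono ?_)⟩
  · obtain ⟨k1, k2, k3⟩ := J1 s hs.1
    obtain ⟨k4, a, k5, k6⟩ := L.lap _ k1
    refine ⟨_, _, a, k3, k5, k6, ?_⟩
    rw [← L.isJ.add _ _ k2 k4]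
    exact congrArg L.J (funext fun x => (h4 L.c s hs.1 x).symm)
  · have k1 := (L.isJ.norm _ (J1 s hs.1).1).trans_le (hb s ⟨hs.1, hs.2.trans ht.2⟩)
    replace k1 := k1.trans (mul_le_mul_left (ENNReal.ofReal_le_ofReal (le_max_left C 0)) _)
    rw [enorm_sq_eq, enorm_sq_eq, ← ENNReal.ofReal_mul (le_max_right _ _),
      ENNReal.ofReal_le_ofReal_iff (by positivity)] at k1
    exact Real.le_sqrt_of_sq_le k1
  · rintro η ⟨f, hf, k1, k2⟩
    have k3 : ⟪η, adjoint L.Φ u⟫_ℂ = ∫ y, ⟪L.φ y • f y, u y⟫_ℂ := by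
      rw [adjoint_inner_right, L2.inner_def]
      exact integral_congr_ae (k2.mono fun y hy => by simp only [hy])
    change Tendsto _ _ _
    rw [k3]
    refine (hw f hf).congr' (eventually_nhdsWithin_of_forall fun s hs => ?_)
    exact (k1 _ (J1 s hs).1).symm

end EucP

open EucP in
theorem euc (hk : KernStmt) (hi : IntStmt) (hh : HSStmt) (hs : SchurStmt) (hw : WeakStmt)
    (he : ExpStmt) (ht : TGStmt) (hd : DuhStmt.{u}) (hj : JDiffStmt.{u}) : EucStmt.{u} := by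
  intro n d H H' _ _ _ _ _ _ Γ hΓ L ι _ e
  obtain ⟨ψ, hψ⟩ := bump n (lt_min L.r_pos one_pos) (min_le_right _ _)
  have hc := L.cut.compact
  have hc' : IsCompact (cthickening L.r L.K) := hc.cthickening
  have key : ∀ N : ℕ, ∃ (g : ℝ → ℝ) (C : ℝ), Exp n g ∧ ∀ t ∈ Ioc (0 : ℝ) 1,
      H34.hs (fun j => adjoint L.Φ (e j)) (heat Γ t) ≠ ⊤ ∧
      |(H34.hs (fun j => adjoint L.Φ (e j)) (heat Γ t)).toReal - g t| ≤ C * t ^ N := by
    intro N
    obtain ⟨v, C, v0, v1, hsm, hres⟩ := hk n d L.c ψ L.φ _ L.K hψ L.cut (N + n)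
    obtain ⟨CS, hS⟩ := hs n d L.c.toMet ψ L.φ _ L.K hψ L.cut v v0
    have hW := hw n d L.c.toMet ψ L.φ _ L.K hψ L.cut v v0 v1
    have hP := (ht n).2 _ _ _ (bil d) 0 0 v v v0 v0
    simp only [bil_self, add_zero] at hP
    have hE := he n L.c.toMet ψ L.φ _ L.K hψ L.cut _ hP
    have hq : ∀ t x y, hsq (kern L.c.toMet ψ L.φ v t x y) =
        (ψ (x - y) * L.φ y * L.c.toMet.gauss t (x - y) y) ^ 2 * hsq (v t (x - y) y) :=
      fun t x y => hsq_smul _ _
    simp only [← hq] at hE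
    have hK : ∀ t > 0, ∀ x, ∀ y ∉ L.K, kern L.c.toMet ψ L.φ v t x y = 0 := fun t _ x y hy => by
      rw [kern, L.cut.zero y hy, mul_zero, zero_mul, z0]
    have hA : ∀ t > 0, ∀ x ∉ cthickening L.r L.K, ∀ y, kern L.c.toMet ψ L.φ v t x y = 0 := by
      intro t ht x hx y
      by_cases hy : y ∈ L.K
      · rw [kern, hψ.zero, zero_mul, zero_mul, z0]
        refine (min_le_left _ _).trans (not_lt.1 fun h => hx ?_)
        exact mem_cthickening_of_dist_le x y _ _ hy (by rw [dist_eq_norm]; exact h.le)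
      · exact hK t ht x y hy
    clear hq
    generalize kern L.c.toMet ψ L.φ v = κ at hsm hres hS hW hE hK hA
    obtain ⟨h5, h6, h7⟩ := (hi n d κ L.K hsm hc hK).2 L.c
    have h8 := h7 _ isClosed_cthickening hA
    obtain ⟨B, hB0, hB⟩ := hE.bound
    set D : ℝ := d * C ^ 2 * (volume L.K).toReal * (volume (cthickening L.r L.K)).toReal with hD
    have hD0 : 0 ≤ D := by positivity
    refine ⟨_, B + 2 * D, hE, fun t ht => ?_⟩
    have O := fun j => one hi hd hj hΓ L hsm hK hA (e j) (fun s hs => hS s hs _)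
      (fun f hf => hW f hf _) ht
    obtain ⟨k1, k2, -⟩ := hh n d (κ t) _ _ hc hc' (cont hsm ht.1) (hK t ht.1) (hA t ht.1) ι e
    have k3 : ∑' j, ‖L.J (op (κ t) (e j))‖ₑ ^ 2 = ENNReal.ofReal (∫ x, ∫ y, hsq (κ t x y)) := by
      rw [← k1]
      exact tsum_congr fun j => L.isJ.norm _ (O j).1
    have k4 : ∑' j, ‖heat Γ t (adjoint L.Φ (e j)) - L.J (op (κ t) (e j))‖ₑ ^ 2 ≤
        ENNReal.ofReal (D * (t ^ (N + n)) ^ 2) := by
      refine (ENNReal.tsum_le_tsum fun j => (O j).2.2.2).trans ?_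
      rw [ENNReal.tsum_mul_left, ← lintegral_tsum fun j =>
        ((O j).2.2.1.aestronglyMeasurable measurableSet_Ioc).enorm.pow_const 2]
      have k5 : ∫⁻ s in Ioc 0 t, ∑' j, ‖L.J (op (L.c.res κ s) (e j))‖ₑ ^ 2 ≤
          ∫⁻ _ in Ioc 0 t, ENNReal.ofReal (D * (t ^ (N + n)) ^ 2) := by
        refine setLIntegral_mono' measurableSet_Ioc fun s hs => ?_
        obtain ⟨l1, -, l2⟩ := hh n d (L.c.res κ s) _ _ hc hc' (cont h5 hs.1) (h6 s hs.1)
          (h8 s hs.1) ι e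
        rw [tsum_congr fun j => L.isJ.norm _ ((O j).2.1 s hs.1), l1]
        refine ENNReal.ofReal_le_ofReal ((l2 _ (hres s ⟨hs.1, hs.2.trans ht.2⟩)).trans ?_)
        have l3 : (s ^ (N + n)) ^ 2 ≤ (t ^ (N + n)) ^ 2 :=
          pow_le_pow_left₀ (pow_nonneg hs.1.le _) (pow_le_pow_left₀ hs.1.le hs.2 _) 2
        refine le_trans (le_of_eq ?_) (mul_le_mul_of_nonneg_left l3 hD0)
        rw [hD]; ring
      have k6 : ENNReal.ofReal t ≤ 1 := ENNReal.ofReal_le_one.2 ht.2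
      rw [setLIntegral_const, Real.volume_Ioc, sub_zero] at k5
      exact (mul_le_of_le_one_left zero_le k6).trans (k5.trans (mul_le_of_le_one_right zero_le k6))
    have hδ : 0 < t ^ (N + n) := pow_pos ht.1 _
    obtain ⟨k7, k8⟩ := cmp _ _ k2 (by positivity) hδ (pow_le_one₀ ht.1.le ht.2) k3 k4
    refine ⟨k7, k8.trans ?_⟩
    have k9 : t ^ (N + n) ≤ t ^ N := pow_le_pow_of_le_one ht.1.le ht.2 (Nat.le_add_right _ _)
    have k10 : t ^ n * t ^ (-(n : ℝ) / 2) ≤ 1 := by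
      rw [← Real.rpow_natCast, ← Real.rpow_add ht.1]
      exact Real.rpow_le_one ht.1.le ht.2 (by linarith [(Nat.cast_nonneg n : (0 : ℝ) ≤ n)])
    have k11 : t ^ (N + n) * ∫ x, ∫ y, hsq (κ t x y) ≤ B * t ^ N := by
      refine (mul_le_mul_of_nonneg_left ((le_abs_self _).trans (hB t ht)) hδ.le).trans ?_
      have := mul_le_mul_of_nonneg_left k10 (mul_nonneg hB0 (pow_nonneg ht.1.le N))
      rw [pow_add]
      linarith
    have k12 : 2 * (t ^ (N + n))⁻¹ * (D * (t ^ (N + n)) ^ 2) = 2 * D * t ^ (N + n) := by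
      field_simp
    rw [k12]
    nlinarith [mul_le_mul_of_nonneg_left k9 hD0]
  refine ⟨fun t ht => ?_, Exp.of_approx fun N => ?_⟩
  · obtain ⟨g, C, -, h⟩ := key 0
    exact (h t ht).1
  · obtain ⟨g, C, h1, h⟩ := key N
    exact ⟨g, C, h1, fun t ht => (h t ht).2⟩

end Pool.Agent.MP_d9582c_gt.H1
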