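import Pool.Agent.MP_d9582c_gt.H1.Spec

/-!
Closure properties of asymptotic expansions.
-/

open Set

namespace Pool.Agent.MP_d9582c_gt.H1

variable {n : ℕ} {f g : ℝ → ℝ}

lemma Exp.of_approx (h : ∀ N : ℕ, ∃ (g : ℝ → ℝ) (C : ℝ), Exp n g ∧
    ∀ t ∈ Ioc (0 : ℝ) 1, |f t - g t| ≤ C * t ^ N) : Exp n f := fun N => by
  obtain ⟨g, C, hg, hC⟩ := h N
  obtain ⟨J, a, C', h'⟩ := hg N
  refine ⟨J, a, C + C', fun t ht => ?_⟩
  rw [add_mul]
  exact (abs_sub_le _ _ _).trans (add_le_add (hC t ht) (h' t ht))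

lemma Exp.congr (hf : Exp n f) (h : ∀ t ∈ Ioc (0 : ℝ) 1, g t = f t) : Exp n g :=
  Exp.of_approx fun _ => ⟨f, 0, hf, fun t ht => by simp [h t ht]⟩

lemma exp_zero : Exp n fun _ => 0 := fun _ => ⟨0, 0, 0, by simp⟩

lemma exp_rpow (j : ℕ) (c : ℝ) : Exp n fun t => c * t ^ (((j : ℝ) - n) / 2) := fun _ =>
  ⟨j + 1, fun k => if k = j then c else 0, 0, fun t _ => by
    rw [Finset.sum_eq_single j (fun k _ hk => by simp [hk]) (by simp)]
    simp⟩

lemma exp_const (c : ℝ) : Exp n fun _ => c := by simpa using exp_rpow (n := n) n c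

lemma sum_range_ext (J J' : ℕ) (h : J ≤ J') (a u : ℕ → ℝ) :
    ∑ j ∈ Finset.range J', (if j < J then a j else 0) * u j = ∑ j ∈ Finset.range J, a j * u j := by
  rw [← Finset.sum_subset (Finset.range_mono h) fun j _ hj => by
    rw [if_neg (by simpa using hj), zero_mul]]
  exact Finset.sum_congr rfl fun j hj => by rw [if_pos (by simpa using hj)]

lemma Exp.add (hf : Exp n f) (hg : Exp n g) : Exp n fun t => f t + g t := fun N => by
  obtain ⟨J, a, C, h⟩ := hf N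
  obtain ⟨J', a', C', h'⟩ := hg N
  refine ⟨J + J', fun j => (if j < J then a j else 0) + if j < J' then a' j else 0, C + C',
    fun t ht => ?_⟩
  simp only [add_mul, Finset.sum_add_distrib]
  rw [sum_range_ext _ _ (Nat.le_add_right _ _), sum_range_ext _ _ (Nat.le_add_left _ _),
    add_sub_add_comm]
  exact (abs_add_le _ _).trans (add_le_add (h t ht) (h' t ht))

lemma Exp.const_mul (hf : Exp n f) (c : ℝ) : Exp n fun t => c * f t := fun N => by
  obtain ⟨J, a, C, h⟩ := hf N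
  refine ⟨J, fun j => c * a j, |c| * C, fun t ht => ?_⟩
  simp only [mul_assoc, ← Finset.mul_sum, ← mul_sub, abs_mul]
  exact mul_le_mul_of_nonneg_left (h t ht) (abs_nonneg c)

lemma Exp.sub (hf : Exp n f) (hg : Exp n g) : Exp n fun t => f t - g t := by
  simpa [sub_eq_add_neg] using hf.add (hg.const_mul (-1))

lemma Exp.sum {ι : Type*} (s : Finset ι) {f : ι → ℝ → ℝ} (hf : ∀ i ∈ s, Exp n (f i)) :
    Exp n fun t => ∑ i ∈ s, f i t := by
  classical
  induction s using Finset.induction_on with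
  | empty => simpa using exp_zero
  | insert i s hi ih =>
    simpa [Finset.sum_insert hi] using (hf i (by simp)).add (ih fun j hj => hf j (by simp [hj]))

lemma Exp.half (hf : Exp n f) : Exp n fun t => f (t / 2) := fun N => by
  obtain ⟨J, a, C, h⟩ := hf N
  refine ⟨J, fun j => a j / 2 ^ (((j : ℝ) - n) / 2), C / 2 ^ N, fun t ht => ?_⟩
  have := h (t / 2) ⟨half_pos ht.1, by linarith [ht.1, ht.2]⟩
  simp only [Real.div_rpow ht.1.le zero_le_two, div_pow] at this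
  simpa only [div_mul_eq_mul_div, mul_div_assoc] using this

lemma Exp.bound (hf : Exp n f) :
    ∃ C : ℝ, 0 ≤ C ∧ ∀ t ∈ Ioc (0 : ℝ) 1, |f t| ≤ C * t ^ (-(n : ℝ) / 2) := by
  obtain ⟨J, a, C, h⟩ := hf 0
  refine ⟨|C| + ∑ j ∈ Finset.range J, |a j|, by positivity, fun t ht => ?_⟩
  have h1 : ∀ j : ℕ, t ^ (((j : ℝ) - n) / 2) ≤ t ^ (-(n : ℝ) / 2) := fun j =>
    Real.rpow_le_rpow_of_exponent_ge ht.1 ht.2 (by linarith [(Nat.cast_nonneg j : (0 : ℝ) ≤ j)])
  have h2 : |C| ≤ |C| * t ^ (-(n : ℝ) / 2) :=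
    le_mul_of_one_le_right (abs_nonneg C) (by simpa using h1 n)
  have h3 : |∑ j ∈ Finset.range J, a j * t ^ (((j : ℝ) - n) / 2)| ≤
      (∑ j ∈ Finset.range J, |a j|) * t ^ (-(n : ℝ) / 2) := by
    rw [Finset.sum_mul]
    refine (Finset.abs_sum_le_sum_abs _ _).trans (Finset.sum_le_sum fun j _ => ?_)
    rw [abs_mul, abs_of_nonneg (Real.rpow_nonneg ht.1.le _)]
    exact mul_le_mul_of_nonneg_left (h1 j) (abs_nonneg _)
  have h4 := h t ht
  rw [pow_zero, mul_one] at h4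
  rw [add_mul]
  linarith [abs_sub_abs_le_abs_sub (f t) (∑ j ∈ Finset.range J, a j * t ^ (((j : ℝ) - n) / 2)),
    le_abs_self C]

end Pool.Agent.MP_d9582c_gt.H1
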