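import Pool.Agent.MP_d9582c_gt.H1.ExpAlg

/-!
Expansion of Gaussian integrals.
-/

open scoped ContDiff Topology
open MeasureTheory Set Filter Pool.Agent.MP_d9582c_gt.H34

noncomputable section

namespace Pool.Agent.MP_d9582c_gt.H1

namespace ExpGP

variable {n : ℕ}

lemma cont {v : ℝ → E n → E n → ℝ} (h : Sm v) {t : ℝ} (ht : 0 < t) :
    Continuous fun q : E n × E n => v t q.2 q.1 := by
  have h1 : Continuous fun q : E n × E n => ((t, q.2, q.1) : ℝ × E n × E n) := by fun_prop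
  exact h.continuousOn.comp_continuous h1 fun _ => ht

/-- domination by a probability density over a compact set -/
lemma dom {F G : E n × E n → ℝ} {K : Set (E n)} (hK : IsCompact K) {B : ℝ}
    (hF : Continuous F) (hG : ∀ y, ∫ z, G (y, z) = 1) (h0 : ∀ y ∉ K, ∀ z, F (y, z) = 0)
    (h1 : ∀ y ∈ K, ∀ z, |F (y, z)| ≤ B * G (y, z)) :
    Integrable F (volume.prod volume) ∧ |∫ y, ∫ z, F (y, z)| ≤ B * volume.real K := by
  have hm := hF.aestronglyMeasurable (μ := (volume : Measure (E n)).prod (volume : Measure (E n)))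
  have hGi : ∀ y, Integrable fun z => B * G (y, z) := fun y =>
    (integrable_of_integral_eq_one (hG y)).const_mul B
  have hi : ∀ y, Integrable fun z => F (y, z) := by
    intro y
    by_cases hy : y ∈ K
    · exact (hGi y).mono' (hF.comp (by fun_prop)).aestronglyMeasurable
        (Eventually.of_forall (h1 y hy))
    · simp [h0 y hy]
  have hb : ∀ y, ∫ z, ‖F (y, z)‖ ≤ K.indicator (fun _ => B) y := by
    intro y
    by_cases hy : y ∈ K
    · rw [indicator_of_mem hy]
      refine (integral_mono (hi y).norm (hGi y) (h1 y hy)).trans ?_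
      rw [integral_const_mul, hG, mul_one]
    · simp [h0 y hy, hy]
  have hI : Integrable (K.indicator fun _ => B) (volume : Measure (E n)) :=
    (integrable_indicator_iff hK.measurableSet).2
      (integrableOn_const hK.measure_lt_top.ne (by simp))
  refine ⟨(integrable_prod_iff hm).2 ⟨Eventually.of_forall hi, ?_⟩, ?_⟩
  · refine hI.mono' hm.norm.integral_prod_right' (Eventually.of_forall fun y => ?_)
    rw [Real.norm_of_nonneg (integral_nonneg fun _ => norm_nonneg _)]
    exact hb y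
  · have := norm_integral_le_of_norm_le (f := fun y => ∫ z, F (y, z)) hI
      (Eventually.of_forall fun y => (norm_integral_le_integral_norm _).trans (hb y))
    rw [integral_indicator hK.measurableSet] at this
    simpa [mul_comm] using this

lemma shear {F : E n × E n → ℝ} (hF : Integrable F (volume.prod volume)) :
    ∫ x, ∫ y, F (y, x - y) = ∫ y, ∫ z, F (y, z) := by
  have h := (measurePreserving_prod_sub_swap (volume : Measure (E n))
    (volume : Measure (E n))).integrable_comp_of_integrable hF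
  rw [integral_integral_swap (f := fun x y => F (y, x - y)) h]
  exact integral_congr_ae (Eventually.of_forall fun y =>
    integral_sub_right_eq_self (fun z => F (y, z)) y)

/-- the basic bound -/
lemma key (ht : TGStmt) (hi : GaussIntStmt) (g : Met n) {φ : E n → ℝ} {K : Set (E n)}
    (hφ : IsCut φ K) {P : ℝ → E n → E n → ℝ} (hP : TG 0 P) :
    ∃ C c : ℝ, 0 ≤ C ∧ 0 < c ∧ ∀ t ∈ Ioc (0 : ℝ) 1, ∀ z, ∀ y ∈ K,
      |(φ y * g.gauss t z y) ^ 2 * P t z y| ≤
        C * t ^ (-(n : ℝ) / 2) * Real.exp (-c * ‖z‖ ^ 2 / t) * g.gauss t z y := by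
  obtain ⟨C, m, hC⟩ := ((ht n).1 ℝ 0 P hP).2.2.2.2 K hφ.compact
  obtain ⟨-, h0, h1⟩ := hi n g
  obtain ⟨c, hc, h2⟩ := h1 K hφ.compact
  obtain ⟨C', hC'⟩ := h2 m
  obtain ⟨B, hB⟩ := hφ.compact.exists_bound_of_continuousOn hφ.smooth.continuous.continuousOn
  refine ⟨B ^ 2 * |C| * |C'|, c, by positivity, hc, fun t htt z y hy => ?_⟩
  have hG := h0 t htt.1 z y
  have ht0 := htt.1
  have a1 : |P t z y| ≤ |C| * (1 + ‖z‖ ^ 2 / t) ^ m := by
    have := hC t htt z y hy
    simp only [Int.cast_zero, zero_div, Real.rpow_zero, mul_one, Real.norm_eq_abs] at this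
    exact this.trans (mul_le_mul_of_nonneg_right (le_abs_self C) (by positivity))
  have a2 : g.gauss t z y * (1 + ‖z‖ ^ 2 / t) ^ m ≤
      |C'| * t ^ (-(n : ℝ) / 2) * Real.exp (-c * ‖z‖ ^ 2 / t) := by
    refine (hC' t ht0 z y hy).trans ?_
    gcongr
    exact le_abs_self C'
  have a3 : φ y ^ 2 ≤ B ^ 2 := by
    have := hB y hy
    rw [Real.norm_eq_abs] at this
    rw [← sq_abs]
    gcongr
  rw [abs_mul, abs_of_nonneg (sq_nonneg _), mul_pow]
  calc φ y ^ 2 * g.gauss t z y ^ 2 * |P t z y|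
      ≤ B ^ 2 * g.gauss t z y ^ 2 * (|C| * (1 + ‖z‖ ^ 2 / t) ^ m) := by gcongr
    _ = B ^ 2 * |C| * (g.gauss t z y * (1 + ‖z‖ ^ 2 / t) ^ m) * g.gauss t z y := by ring
    _ ≤ B ^ 2 * |C| * (|C'| * t ^ (-(n : ℝ) / 2) * Real.exp (-c * ‖z‖ ^ 2 / t)) *
        g.gauss t z y := by gcongr
    _ = _ := by ring

/-- with a bounded continuous weight -/
lemma wt (ht : TGStmt) (hg : GaussStmt) (hi : GaussIntStmt) (g : Met n) {φ : E n → ℝ}
    {K : Set (E n)} (hφ : IsCut φ K) {P : ℝ → E n → E n → ℝ} (hP : TG 0 P) :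
    ∃ C c : ℝ, 0 ≤ C ∧ 0 < c ∧ ∀ t ∈ Ioc (0 : ℝ) 1, ∀ (w : E n → ℝ) (ρ : ℝ), Continuous w →
      (∀ z, |w z| ≤ 1) → (∀ z, ‖z‖ ^ 2 < ρ → w z = 0) →
      Integrable (fun q : E n × E n => w q.2 * ((φ q.1 * g.gauss t q.2 q.1) ^ 2 * P t q.2 q.1))
        (volume.prod volume) ∧
      |∫ y, ∫ z, w z * ((φ y * g.gauss t z y) ^ 2 * P t z y)| ≤
        C * t ^ (-(n : ℝ) / 2) * Real.exp (-c * ρ / t) := by
  obtain ⟨C, c, hC, hc, h⟩ := key ht hi g hφ hP
  refine ⟨C * volume.real K, c, by positivity, hc, fun t htt w ρ hw hw1 hw0 => ?_⟩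
  have ht0 := htt.1
  have c1 := cont (hg n g).1 ht0
  have c2 := cont ((ht n).1 ℝ 0 P hP).1 ht0
  have c3 := hφ.smooth.continuous
  have := dom (F := fun q : E n × E n =>
      w q.2 * ((φ q.1 * g.gauss t q.2 q.1) ^ 2 * P t q.2 q.1))
    (G := fun q => g.gauss t q.2 q.1) hφ.compact
    (B := C * t ^ (-(n : ℝ) / 2) * Real.exp (-c * ρ / t))
    ((hw.comp continuous_snd).mul ((((c3.comp continuous_fst).mul c1).pow 2).mul c2))
    (fun y => (hi n g).1 t ht0 y) (fun y hy z => by simp [hφ.zero y hy]) (by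
      intro y hy z
      have hG := (hi n g).2.1 t ht0 z y
      by_cases hz : ‖z‖ ^ 2 < ρ
      · simp only [hw0 z hz, zero_mul, abs_zero]
        positivity
      · rw [abs_mul]
        refine (mul_le_of_le_one_left (abs_nonneg _) (hw1 z)).trans ((h t htt z y hy).trans ?_)
        have hz' : ρ ≤ ‖z‖ ^ 2 := not_lt.1 hz
        have : -c * ‖z‖ ^ 2 / t ≤ -c * ρ / t :=
          div_le_div_of_nonneg_right (by nlinarith) ht0.le
        gcongr)
  refine ⟨this.1, this.2.trans (le_of_eq ?_)⟩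
  ring

lemma mono_smul (I : List (Fin n)) (R : ℝ) (z : E n) :
    mono I (R • z) = R ^ I.length * mono I z := by
  induction I with
  | nil => simp [mono]
  | cons i I ih =>
    simp only [mono, List.map_cons, List.prod_cons, List.length_cons] at ih ⊢
    rw [ih]
    simp only [PiLp.smul_apply, smul_eq_mul]
    ring

lemma gen (hg : GaussStmt) (g : Met n) (φ m : E n → ℝ) (k : ℤ) (I : List (Fin n)) (j : ℕ)
    (hj : (j : ℤ) = 2 * k + I.length) {t : ℝ} (ht : 0 < t) :
    ∫ y, ∫ z, (φ y * g.gauss t z y) ^ 2 * ((t ^ k * mono I z) • m y) =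
      (∫ y, ∫ z, (φ y * g.gauss 1 z y) ^ 2 * (mono I z * m y)) * t ^ (((j : ℝ) - n) / 2) := by
  rw [← integral_mul_const]
  refine integral_congr_ae (Eventually.of_forall fun y => ?_)
  have hR : 0 < √t := Real.sqrt_pos.2 ht
  have h := Measure.integral_comp_smul (volume : Measure (E n))
    (fun z => (φ y * g.gauss t z y) ^ 2 * ((t ^ k * mono I z) • m y)) (√t)
  rw [finrank_euclideanSpace_fin, abs_of_pos (by positivity), smul_eq_mul] at h
  have h2 := (inv_mul_eq_iff_eq_mul₀ (by positivity)).1 h.symm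
  have e : √t ^ n * (t ^ (-(n : ℝ) / 2) * t ^ (-(n : ℝ) / 2) * t ^ k * √t ^ I.length) =
      t ^ (((j : ℝ) - n) / 2) := by
    rw [Real.sqrt_eq_rpow, ← Real.rpow_natCast, ← Real.rpow_natCast, ← Real.rpow_mul ht.le,
      ← Real.rpow_mul ht.le, ← Real.rpow_intCast, ← Real.rpow_add ht, ← Real.rpow_add ht,
      ← Real.rpow_add ht, ← Real.rpow_add ht]
    congr 1
    have : (j : ℝ) = 2 * k + I.length := by exact_mod_cast hj
    rw [this]
    ring
  simp only
  rw [h2, ← e, ← integral_const_mul, ← integral_mul_const]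
  refine integral_congr_ae (Eventually.of_forall fun z => ?_)
  simp only [(hg n g).2.2.2.2 t ht z y, mono_smul, smul_eq_mul]
  ring

lemma main (ht : TGStmt) (hg : GaussStmt) (hi : GaussIntStmt) (g : Met n) {φ : E n → ℝ}
    {K : Set (E n)} (hφ : IsCut φ K) {P : ℝ → E n → E n → ℝ} (hP : TG 0 P) :
    Exp n fun t => ∫ y, ∫ z, (φ y * g.gauss t z y) ^ 2 * P t z y := by
  have int : ∀ {P : ℝ → E n → E n → ℝ}, TG 0 P → ∀ t ∈ Ioc (0 : ℝ) 1,
      Integrable (fun q : E n × E n => (φ q.1 * g.gauss t q.2 q.1) ^ 2 * P t q.2 q.1)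
        (volume.prod volume) := by
    intro P hP t htt
    obtain ⟨C, c, -, -, h⟩ := wt ht hg hi g hφ hP
    simpa using (h t htt (fun _ => 1) 0 continuous_const (by simp)
      (fun z hz => absurd hz (not_lt.2 (sq_nonneg _)))).1
  induction hP with
  | gen k I m hm hw =>
    exact (exp_rpow (2 * k + I.length).toNat _).congr fun t htt =>
      gen hg g φ m k I _ (Int.toNat_of_nonneg hw) htt.1
  | zero => simpa using exp_zero
  | add hu hv iu iv =>
    refine (iu.add iv).congr fun t htt => ?_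
    simp only [mul_add]
    exact integral_integral_add (int hu t htt) (int hv t htt)
  | congr hu h iu =>
    refine iu.congr fun t htt => ?_
    simp only [h t htt.1]

lemma small (n N : ℕ) {a : ℝ} (ha : 0 < a) : ∃ C : ℝ, ∀ t ∈ Ioc (0 : ℝ) 1,
    t ^ (-(n : ℝ) / 2) * Real.exp (-a / t) ≤ C * t ^ N := by
  refine ⟨(N + n).factorial / a ^ (N + n), fun t ht => ?_⟩
  have ht0 := ht.1
  have h1 : t ^ (-(n : ℝ) / 2) ≤ (t ^ n)⁻¹ := by
    rw [← Real.rpow_natCast, ← Real.rpow_neg ht0.le]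
    exact Real.rpow_le_rpow_of_exponent_ge ht0 ht.2 (by linarith [(Nat.cast_nonneg n : (0 : ℝ) ≤ n)])
  have h2 := Real.pow_div_factorial_le_exp (a / t) (by positivity) (N + n)
  have h3 : Real.exp (-a / t) ≤ ((a / t) ^ (N + n) / (N + n).factorial)⁻¹ := by
    rw [neg_div, Real.exp_neg]
    exact inv_anti₀ (by positivity) h2
  refine (mul_le_mul h1 h3 (Real.exp_pos _).le (by positivity)).trans (le_of_eq ?_)
  rw [div_pow, pow_add t]
  field_simp

end ExpGP

open ExpGP in
theorem expansion (ht : TGStmt) (hg : GaussStmt) (hi : GaussIntStmt) : ExpStmt := by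
  intro n g ψ φ r K hψ hφ P hP
  obtain ⟨C, c, hC, hc, h⟩ := wt ht hg hi g hφ hP
  have hr := hψ.pos
  refine Exp.of_approx fun N => ?_
  obtain ⟨C', hC'⟩ := small n N (a := c * (r / 2) ^ 2) (by positivity)
  refine ⟨_, C * C', main ht hg hi g hφ hP, fun t htt => ?_⟩
  have cψ := hψ.smooth.continuous
  have b1 : ∀ z, ψ z ^ 2 ≤ 1 := fun z => by
    rw [← sq_abs]
    exact pow_le_one₀ (abs_nonneg _) (hψ.abs_le z)
  have z0 : ∀ (w : E n → ℝ) (z : E n), ‖z‖ ^ 2 < 0 → w z = 0 := fun _ z hz =>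
    absurd hz (not_lt.2 (sq_nonneg _))
  have i1 := (h t htt (fun z => ψ z ^ 2) 0 (cψ.pow 2)
    (fun z => by rw [abs_of_nonneg (sq_nonneg _)]; exact b1 z) (z0 _)).1
  have i2 := (h t htt (fun _ => 1) 0 continuous_const (by simp) (z0 _)).1
  have i3 := (h t htt (fun z => ψ z ^ 2 - 1) ((r / 2) ^ 2) ((cψ.pow 2).sub continuous_const)
    (fun z => abs_le.2 ⟨by linarith [sq_nonneg (ψ z)], by linarith [b1 z]⟩) (fun z hz => by
      rw [hψ.one z (abs_le_of_sq_le_sq' hz.le (by positivity)).2]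
      simp)).2
  have e1 := shear i1
  have e2 := integral_integral_sub i1 i2
  simp only [one_mul] at e1 e2
  have e3 : ∫ x, ∫ y, (ψ (x - y) * φ y * g.gauss t (x - y) y) ^ 2 * P t (x - y) y =
      ∫ x, ∫ y, ψ (x - y) ^ 2 * ((φ y * g.gauss t (x - y) y) ^ 2 * P t (x - y) y) := by
    congr 1 with x
    congr 1 with y
    ring
  simp only [sub_mul, one_mul] at i3
  rw [e3, e1, ← e2]
  refine i3.trans ?_
  rw [mul_assoc, mul_assoc, neg_mul]
  exact mul_le_mul_of_nonneg_left (hC' t htt) hC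

end Pool.Agent.MP_d9582c_gt.H1
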