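import Pool.Agent.MP_d9582c_gt.H1.Spec

/-!
First order operators: test sections and integration by parts.
-/

open scoped ContDiff Topology InnerProductSpace
open MeasureTheory Set Filter Metric ContinuousLinearMap Pool.Agent.MP_d9582c_gt.H34

noncomputable section

namespace Pool.Agent.MP_d9582c_gt.H1

namespace FOpP

variable {n d d' : ℕ} {V : Type} [NormedAddCommGroup V] [NormedSpace ℝ V]

/-- Evaluation as a real bilinear map. -/
def ev (d d' : ℕ) : (W d →L[ℂ] W d') →L[ℝ] W d →L[ℝ] W d' :=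
  restrictScalarsL ℂ (W d) (W d') ℝ ℝ

theorem ev_apply (A : W d →L[ℂ] W d') (u : W d) : ev d d' A u = A u := rfl

/-- The adjoint as a real linear map. -/
def adj (d d' : ℕ) : (W d →L[ℂ] W d') →L[ℝ] W d' →L[ℂ] W d :=
  LinearMap.mkContinuous
    { toFun := fun A => adjoint A
      map_add' := fun A B => map_add _ A B
      map_smul' := fun r A => by
        have h := LinearIsometryEquiv.map_smulₛₗ (adjoint (𝕜 := ℂ) (E := W d) (F := W d')) (r : ℂ) A
        rw [Complex.conj_ofReal, Complex.coe_smul, Complex.coe_smul] at h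
        exact h } 1
    fun A => by
      rw [one_mul]
      exact (LinearIsometryEquiv.norm_map (adjoint (𝕜 := ℂ) (E := W d) (F := W d')) A).le

theorem adj_smooth {a : E n → W d →L[ℂ] W d'} (ha : ContDiff ℝ ∞ a) :
    ContDiff ℝ ∞ fun x => adjoint (a x) := (adj d d').contDiff.comp ha

theorem app_on {a : E n → W d →L[ℂ] W d'} {u : E n → W d} {O : Set (E n)} (ha : ContDiff ℝ ∞ a)
    (hu : ContDiffOn ℝ ∞ u O) : ContDiffOn ℝ ∞ (fun x => a x (u x)) O :=
  ((ev d d').contDiff.comp ha).contDiffOn.clm_apply hu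

theorem app {a : E n → W d →L[ℂ] W d'} {u : E n → W d} (ha : ContDiff ℝ ∞ a)
    (hu : ContDiff ℝ ∞ u) : ContDiff ℝ ∞ fun x => a x (u x) :=
  ((ev d d').contDiff.comp ha).clm_apply hu

theorem pd_on {u : E n → V} {O : Set (E n)} (hO : IsOpen O) (hu : ContDiffOn ℝ ∞ u O)
    (i : Fin n) : ContDiffOn ℝ ∞ (pd i u) O :=
  (hu.fderiv_of_isOpen (m := ∞) hO (by simp)).clm_apply contDiffOn_const

theorem pd_smooth {u : E n → V} (hu : ContDiff ℝ ∞ u) (i : Fin n) : ContDiff ℝ ∞ (pd i u) :=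
  contDiffOn_univ.1 (pd_on isOpen_univ hu.contDiffOn i)

omit [NormedSpace ℝ V] in
theorem ev_zero {u : E n → V} {A : Set (E n)} (hA : IsClosed A) (hu : ∀ x ∉ A, u x = 0)
    {x : E n} (hx : x ∉ A) : u =ᶠ[𝓝 x] fun _ => 0 :=
  eventually_of_mem (hA.isOpen_compl.mem_nhds hx) hu

theorem pd_zero {u : E n → V} {A : Set (E n)} (hA : IsClosed A) (hu : ∀ x ∉ A, u x = 0)
    (i : Fin n) {x : E n} (hx : x ∉ A) : pd i u x = 0 := by
  rw [pd, (ev_zero hA hu hx).fderiv_eq]
  simp

theorem glue {u : E n → V} {A O : Set (E n)} (hA : IsClosed A) (hO : IsOpen O) (h : A ⊆ O)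
    (hu : ContDiffOn ℝ ∞ u O) (h0 : ∀ x ∉ A, u x = 0) : ContDiff ℝ ∞ u := by
  refine contDiff_iff_contDiffAt.2 fun x => ?_
  by_cases hx : x ∈ A
  · exact hu.contDiffAt (hO.mem_nhds (h hx))
  · exact contDiffAt_const.congr_of_eventuallyEq (ev_zero hA h0 hx)

theorem integ {u : E n → V} {A : Set (E n)} (hA : IsCompact A) (hu : ContDiff ℝ ∞ u)
    (h0 : ∀ x ∉ A, u x = 0) : Integrable u :=
  hu.continuous.integrable_of_hasCompactSupport (HasCompactSupport.intro hA h0)

theorem int_pd {F : E n → ℂ} {A : Set (E n)} (hA : IsCompact A) (hF : ContDiff ℝ ∞ F)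
    (h0 : ∀ x ∉ A, F x = 0) (i : Fin n) : Integrable (pd i F) ∧ ∫ x, pd i F x = 0 := by
  have h1 : Integrable (pd i F) :=
    integ hA (pd_smooth hF i) fun x hx => pd_zero hA.isClosed h0 i hx
  refine ⟨h1, ?_⟩
  have h2 := integral_mul_fderiv_eq_neg_fderiv_mul_of_integrable (μ := volume)
    (f := fun _ : E n => (1 : ℂ)) (g := F) (v := ee i) (by simp) (by simp only [one_mul]; exact h1)
    (by simpa using integ hA hF h0) (fun _ _ => differentiableAt_const _)
    fun x _ => hF.differentiable (by simp) x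
  simpa [pd] using h2

theorem ap_on (D : FO n d d') {u : E n → W d} {O : Set (E n)} (hO : IsOpen O)
    (hu : ContDiffOn ℝ ∞ u O) : ContDiffOn ℝ ∞ (D.ap u) O :=
  (ContDiffOn.sum fun i _ => app_on (D.a_smooth i) (pd_on hO hu i)).add (app_on D.b_smooth hu)

theorem ap_test (D : FO n d d') {K : Set (E n)} {r : ℝ} {u : E n → W d} (hu : Test K r u) :
    Test K r (D.ap u) := by
  refine ⟨contDiffOn_univ.1 (ap_on D isOpen_univ hu.1.contDiffOn), fun x hx => ?_⟩
  simp only [FO.ap, hu.2 x hx, pd_zero isClosed_cthickening hu.2 _ hx, map_zero,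
    Finset.sum_const_zero, add_zero]

theorem ad_test (D : FO n d d') {K : Set (E n)} {r : ℝ} {w : E n → W d'} (hw : Test K r w) :
    Test K r (D.ad w) := by
  refine ⟨?_, fun x hx => ?_⟩
  · exact (ContDiff.sum fun i _ => app (adj_smooth (D.a_smooth i)) (pd_smooth hw.1 i)).neg.add
      ((app (adj_smooth D.b_smooth) hw.1).sub
        (ContDiff.sum fun i _ => app (adj_smooth (pd_smooth (D.a_smooth i) i)) hw.1))
  · simp only [FO.ad, hw.2 x hx, pd_zero isClosed_cthickening hw.2 _ hx, map_zero,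
      Finset.sum_const_zero, neg_zero, sub_zero, add_zero]

theorem pd_flux {a : E n → W d →L[ℂ] W d'} {u : E n → W d} {w : E n → W d'} {x : E n}
    (ha : DifferentiableAt ℝ a x) (hu : DifferentiableAt ℝ u x) (hw : DifferentiableAt ℝ w x)
    (i : Fin n) : pd i (fun y => ⟪a y (u y), w y⟫_ℂ) x =
      ⟪a x (u x), pd i w x⟫_ℂ + (⟪a x (pd i u x), w x⟫_ℂ + ⟪pd i a x (u x), w x⟫_ℂ) := by
  have h1 := (ev d d').hasFDerivAt_of_bilinear ha.hasFDerivAt hu.hasFDerivAt
  have h2 : HasFDerivAt (fun y => a y (u y)) _ x := h1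
  rw [pd, fderiv_inner_apply ℂ h2.differentiableAt hw, h2.fderiv, ← inner_add_left]
  rfl

end FOpP

open FOpP in
theorem fo : FOStmt := by
  intro n d d' D K r hK
  refine ⟨fun u hu => ap_test D hu, fun w hw => ad_test D hw, fun O hO hKO u hu w hw => ?_⟩
  have hA : IsCompact (cthickening r K) := hK.cthickening
  have hd := ad_test D hw
  have z0 : ∀ (f : E n → W d') (x : E n), x ∉ cthickening r K → ⟪f x, w x⟫_ℂ = 0 :=
    fun f x hx => by rw [hw.2 x hx, inner_zero_right]
  have z1 : ∀ x ∉ cthickening r K, ⟪u x, D.ad w x⟫_ℂ = 0 :=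
    fun x hx => by rw [hd.2 x hx, inner_zero_right]
  have hF : ∀ i, Integrable (pd i fun y => ⟪D.a i y (u y), w y⟫_ℂ) ∧
      ∫ x, pd i (fun y => ⟪D.a i y (u y), w y⟫_ℂ) x = 0 := fun i =>
    int_pd hA (glue hA.isClosed hO hKO ((app_on (D.a_smooth i) hu).inner ℂ hw.1.contDiffOn)
      (z0 _)) (z0 _) i
  have i2 : Integrable fun x => ⟪u x, D.ad w x⟫_ℂ :=
    integ hA (glue hA.isClosed hO hKO (hu.inner ℂ hd.1.contDiffOn) z1) z1
  have key : ∀ x, ⟪D.ap u x, w x⟫_ℂ =
      ⟪u x, D.ad w x⟫_ℂ + ∑ i, pd i (fun y => ⟪D.a i y (u y), w y⟫_ℂ) x := fun x => by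
    by_cases hx : x ∈ cthickening r K
    · have hux : DifferentiableAt ℝ u x :=
        (hu.contDiffAt (hO.mem_nhds (hKO hx))).differentiableAt (by simp)
      simp only [pd_flux ((D.a_smooth _).differentiable (by simp) x) hux
        (hw.1.differentiable (by simp) x), FO.ap, FO.ad, inner_add_left, inner_add_right,
        inner_neg_right, inner_sub_right, sum_inner, inner_sum, adjoint_inner_right,
        Finset.sum_add_distrib]
      ring
    · rw [z0 _ x hx, z1 x hx, Finset.sum_eq_zero fun i _ => pd_zero hA.isClosed (z0 _) i hx,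
        add_zero]
  simp only [key]
  rw [integral_add i2 (integrable_finsetSum _ fun i _ => (hF i).1),
    integral_finsetSum _ fun i _ => (hF i).1, Finset.sum_eq_zero fun i _ => (hF i).2, add_zero]

end Pool.Agent.MP_d9582c_gt.H1
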