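import Pool.Agent.MP_d9582c_gt.H1.Spec
import Pool.Agent.MP_d9582c_gt.H68.Det

/-! A uniform lower bound for the determinants over finite quotients. -/

open scoped ENNReal Topology
open MeasureTheory Set Filter Matrix

noncomputable section

namespace Pool.Agent.MP_d9582c_gt.H1

open Pool.Agent.MP_d9582c_gt.H34 Pool.Agent.MP_d9582c_gt.H68

universe v

namespace FinDetP

theorem ext_of_moments {μ ν : Measure ℝ} {M : ℝ} (hμ : Carr μ M) (hν : Carr ν M)
    (h : ∀ k : ℕ, ∫ x, x ^ k ∂μ = ∫ x, x ^ k ∂ν) : μ = ν := by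
  have := hμ.fin
  have := hν.fin
  refine ext_of_forall_integral_eq_of_IsFiniteMeasure fun f => ?_
  have h2 := weak_of_moments (l := (atTop : Filter ℕ)) (fun _ => hμ) hν
    (fun k => Eventually.of_forall fun _ => h k) f.continuous
  exact tendsto_nhds_unique tendsto_const_nhds h2

theorem carr_mono {μ : Measure ℝ} {M M' : ℝ} (h : Carr μ M) (hM : M ≤ M') : Carr μ M' :=
  ⟨h.fin, h.ae.mono fun _ hx => ⟨hx.1, hx.2.trans hM⟩⟩

theorem bot_eq {G : Type v} [Group G] {r s : ℕ}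
    (A : Matrix (Fin r) (Fin s) (MonoidAlgebra ℚ G)) :
    matMeasure (quotMat ⊥ A) = matMeasure A := by
  obtain ⟨M, hM⟩ := bound_mat A
  have hA : Carr (matMeasure A) M := by
    have := hM G (MonoidHom.id G)
    rwa [MonoidAlgebra.mapDomainRingHom_id, RingHom.coe_id, Matrix.map_id] at this
  refine ext_of_moments (hM _ _) hA fun k => ?_
  exact (moment_eventually (l := (atTop : Filter ℕ)) (fun _ => ⊥)
    (fun x hx => Eventually.of_forall fun _ h => hx (Subgroup.mem_bot.1 h)) A k).exists.choose_spec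

theorem trace_pow {ι : Type*} [Fintype ι] [DecidableEq ι] {B : Matrix ι ι ℝ} (hB : B.IsHermitian)
    (k : ℕ) : (B ^ k).trace = ∑ p, hB.eigenvalues p ^ k := by
  conv_lhs => rw [hB.spectral_theorem, ← map_pow, Unitary.conjStarAlgAut_apply, trace_mul_cycle,
    Unitary.coe_star_mul_self, one_mul, diagonal_pow, trace_diagonal]
  simp

/-- All coefficients of `m a` are integers. -/
def Intg {G : Type*} (m : ℕ) (a : MonoidAlgebra ℚ G) : Prop := ∀ x, ∃ z : ℤ, m * a.coeff x = z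

theorem Intg.map {G Q : Type*} [Group G] [Group Q] (φ : G →* Q) {m : ℕ} {a : MonoidAlgebra ℚ G}
    (h : Intg m a) : Intg m (MonoidAlgebra.mapDomain φ a) := by
  classical
  intro y
  choose z hz using h
  refine ⟨∑ x ∈ a.coeff.support, if φ x = y then z x else 0, ?_⟩
  change m * Finsupp.mapDomain φ a.coeff y = _
  rw [Finsupp.mapDomain, Finsupp.sum_apply, Finsupp.sum, Finset.mul_sum]
  push_cast
  refine Finset.sum_congr rfl fun x _ => ?_
  rw [Finsupp.single_apply]
  split_ifs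
  · exact hz x
  · simp

theorem exists_intg {G ι : Type*} [Fintype ι] (a : ι → MonoidAlgebra ℚ G) :
    ∃ m : ℕ, 1 ≤ m ∧ ∀ i, Intg m (a i) := by
  classical
  refine ⟨∏ i, ∏ x ∈ (a i).coeff.support, ((a i).coeff x).den,
    Finset.prod_pos fun i _ => Finset.prod_pos fun x _ => Rat.den_pos _, fun i x => ?_⟩
  by_cases hx : x ∈ (a i).coeff.support
  · obtain ⟨c, hc⟩ : ((a i).coeff x).den ∣ ∏ i, ∏ x ∈ (a i).coeff.support, ((a i).coeff x).den :=
      (Finset.dvd_prod_of_mem (fun x => ((a i).coeff x).den) hx).trans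
        (Finset.dvd_prod_of_mem (fun i => ∏ x ∈ (a i).coeff.support, ((a i).coeff x).den)
          (Finset.mem_univ i))
    refine ⟨c * ((a i).coeff x).num, ?_⟩
    rw [hc]
    push_cast
    rw [mul_comm (_ : ℚ) (c : ℚ), mul_assoc, Rat.den_mul_eq_num]
  · exact ⟨0, by rw [Finsupp.notMem_support_iff.1 hx]; simp⟩

section Fin

variable {Q : Type v} [Group Q] [Fintype Q] [DecidableEq Q]

/-- The regular representation. -/
def reg {r s : ℕ} (A : Matrix (Fin r) (Fin s) (MonoidAlgebra ℚ Q)) :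
    Matrix (Fin r × Q) (Fin s × Q) ℝ := fun p q => ((A p.1 q.1).coeff (p.2⁻¹ * q.2) : ℝ)

theorem coeff_mul' (a b : MonoidAlgebra ℚ Q) (x z : Q) :
    (a * b).coeff (x⁻¹ * z) = ∑ y, a.coeff (x⁻¹ * y) * b.coeff (y⁻¹ * z) := by
  rw [MonoidAlgebra.coeff_mul_apply_left, Finsupp.sum_fintype _ _ (by simp),
    ← Equiv.sum_comp (Equiv.mulLeft x⁻¹)]
  simp [mul_assoc]

theorem reg_mul {r s t : ℕ} (A : Matrix (Fin r) (Fin s) (MonoidAlgebra ℚ Q))
    (B : Matrix (Fin s) (Fin t) (MonoidAlgebra ℚ Q)) : reg (A * B) = reg A * reg B := by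
  ext p q
  simp only [reg, Matrix.mul_apply, Fintype.sum_prod_type, MonoidAlgebra.coeff_sum,
    Finsupp.finsetSum_apply, coeff_mul']
  push_cast
  rfl

theorem reg_one {r : ℕ} : reg (1 : Matrix (Fin r) (Fin r) (MonoidAlgebra ℚ Q)) = 1 := by
  ext ⟨i, x⟩ ⟨j, y⟩
  simp only [reg, Matrix.one_apply, Prod.mk.injEq]
  by_cases h : i = j
  · by_cases h' : x = y
    · simp [h, h', MonoidAlgebra.one_def]
    · have : x⁻¹ * y ≠ 1 := fun e => h' (inv_mul_eq_one.mp e)
      simp [h, h', MonoidAlgebra.one_def, Finsupp.single_apply, this.symm]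
  · simp [h]

theorem reg_pow {r : ℕ} (C : Matrix (Fin r) (Fin r) (MonoidAlgebra ℚ Q)) (k : ℕ) :
    reg (C ^ k) = reg C ^ k := by
  induction k with
  | zero => rw [pow_zero, pow_zero, reg_one]
  | succ k h => rw [pow_succ, reg_mul, h, pow_succ]

omit [Fintype Q] [DecidableEq Q] in
theorem reg_adj {r s : ℕ} (A : Matrix (Fin r) (Fin s) (MonoidAlgebra ℚ Q)) :
    reg (adj A) = (reg A)ᵀ := by
  ext p q
  have h : ∀ (a : MonoidAlgebra ℚ Q) (x : Q), (H68.inv a).coeff x⁻¹ = a.coeff x := fun a x =>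
    Finsupp.mapDomain_apply inv_injective a.coeff x
  simp only [reg, adj, Matrix.of_apply, Matrix.transpose_apply]
  rw [← h (A q.1 p.1)]
  simp

omit [DecidableEq Q] in
theorem trace_reg {r : ℕ} (C : Matrix (Fin r) (Fin r) (MonoidAlgebra ℚ Q)) :
    (reg C).trace = Fintype.card Q * ∑ j, ((C j j).coeff 1 : ℝ) := by
  simp [Matrix.trace, reg, Fintype.sum_prod_type, Finset.mul_sum]

theorem lower (he : EigStmt.{v}) {r s m : ℕ} (hm : 1 ≤ m)
    (A : Matrix (Fin r) (Fin s) (MonoidAlgebra ℚ Q)) (hA : ∀ i j, Intg m (A i j)) {M : ℝ}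
    (hM : Carr (matMeasure A) M) : Real.exp (-(r * Real.log m)) ≤ fkDet A := by
  choose z hz using hA
  let Z : Matrix (Fin r × Q) (Fin s × Q) ℤ := fun p q => z p.1 q.1 (p.2⁻¹ * q.2)
  have hZ : Z.map (Int.cast : ℤ → ℝ) = (m : ℝ) • reg A := by
    ext p q
    have := congrArg (Rat.cast : ℚ → ℝ) (hz p.1 q.1 (p.2⁻¹ * q.2))
    push_cast at this
    exact this.symm
  have hB : (Z * Zᵀ).map (Int.cast : ℤ → ℝ) = ((m : ℝ) • reg A) * ((m : ℝ) • reg A)ᴴ := by
    rw [← hZ]
    exact Matrix.map_mul (f := Int.castRingHom ℝ)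
  have hP : ((Z * Zᵀ).map (Int.cast : ℤ → ℝ)).PosSemidef := by
    rw [hB]
    exact posSemidef_self_mul_conjTranspose _
  have hB' : (Z * Zᵀ).map (Int.cast : ℤ → ℝ) = ((m : ℝ) ^ 2) • reg (A * adj A) := by
    rw [hB, reg_mul, reg_adj, conjTranspose_eq_transpose_of_trivial, transpose_smul,
      Matrix.smul_mul, Matrix.mul_smul, smul_smul, sq]
  have hprod := he _ (Z * Zᵀ) hP.1
  set l := hP.1.eigenvalues with hl
  have hl0 : ∀ p, 0 ≤ l p := hP.eigenvalues_nonneg
  have hm0 : (0 : ℝ) < m := by exact_mod_cast hm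
  have hm2 : (0 : ℝ) < (m : ℝ) ^ 2 := by positivity
  have hQ : (0 : ℝ) < Fintype.card Q := by exact_mod_cast Fintype.card_pos
  let c : ℝ≥0∞ := ENNReal.ofReal (Fintype.card Q : ℝ)⁻¹
  let ν : Measure ℝ := c • ∑ p, Measure.dirac (l p / (m : ℝ) ^ 2)
  have hint : ∀ f : ℝ → ℝ, Integrable f ν := fun f =>
    (integrable_finsetSum_measure.mpr fun p _ => integrable_dirac (by simp)).smul_measure
      ENNReal.ofReal_ne_top
  have hν : ∀ f : ℝ → ℝ, ∫ x, f x ∂ν = (Fintype.card Q : ℝ)⁻¹ * ∑ p, f (l p / (m : ℝ) ^ 2) := by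
    intro f
    rw [integral_smul_measure, integral_finsetSum_measure fun p _ => integrable_dirac (by simp),
      ENNReal.toReal_ofReal (by positivity)]
    simp
  have hC : Carr ν (max M (∑ p, l p / (m : ℝ) ^ 2)) := by
    refine ⟨(integrable_const_iff_isFiniteMeasure (c := (1 : ℝ)) one_ne_zero).mp (hint _), ?_⟩
    refine Measure.ae_smul_measure ?_ _
    rw [ae_finsetSum_measure_iff]
    intro p _
    rw [ae_dirac_eq, eventually_pure]
    exact ⟨div_nonneg (hl0 p) hm2.le, le_max_of_le_right (Finset.single_le_sum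
      (f := fun p => l p / (m : ℝ) ^ 2) (fun p _ => div_nonneg (hl0 p) hm2.le)
      (Finset.mem_univ p))⟩
  have hμ : matMeasure A = ν := by
    refine ext_of_moments (carr_mono hM (le_max_left _ _)) hC fun k => ?_
    have h1 := trace_pow hP.1 k
    rw [← hl] at h1
    rw [hB', smul_pow, trace_smul, ← reg_pow, trace_reg, smul_eq_mul] at h1
    rw [moment, hν]
    simp only [div_pow, ← Finset.sum_div, ← h1]
    field_simp
  rw [fkDet, hμ, if_pos (hint _).integrableOn, ← integral_indicator measurableSet_Ioi, hν]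
  refine Real.exp_le_exp.mpr ?_
  have hlog : 0 ≤ Real.log m := Real.log_nonneg (by exact_mod_cast hm)
  have h2 : ∀ p, (if l p ≠ 0 then Real.log (l p) else 0) - 2 * Real.log m ≤
      (Ioi (0 : ℝ)).indicator Real.log (l p / (m : ℝ) ^ 2) := by
    intro p
    by_cases hp : l p = 0
    · simp [hp, hlog]
    · have h3 : 0 < l p := lt_of_le_of_ne (hl0 p) (Ne.symm hp)
      rw [if_pos hp, indicator_of_mem (show l p / (m : ℝ) ^ 2 ∈ Ioi 0 from div_pos h3 hm2),
        Real.log_div hp hm2.ne', Real.log_pow]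
      simp
  have h4 : 0 ≤ ∑ p, if l p ≠ 0 then Real.log (l p) else 0 := by
    rw [← Finset.sum_filter, ← Real.log_prod fun p hp => (Finset.mem_filter.mp hp).2,
      ← Real.log_abs]
    exact Real.log_nonneg hprod
  have h5 := Finset.sum_le_sum fun p (_ : p ∈ Finset.univ) => h2 p
  rw [Finset.sum_sub_distrib, Finset.sum_const, Finset.card_univ, Fintype.card_prod,
    Fintype.card_fin, nsmul_eq_mul, Nat.cast_mul] at h5
  rw [← mul_assoc, ← mul_inv, le_inv_mul_iff₀ (by positivity)]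
  linarith

end Fin

end FinDetP

theorem finDet (he : EigStmt.{v}) : FinDetStmt.{v} := by
  intro G _ r s A
  refine ⟨by rw [fkDet, fkDet, FinDetP.bot_eq], ?_⟩
  obtain ⟨m, hm, h⟩ := FinDetP.exists_intg fun p : Fin r × Fin s => A p.1 p.2
  obtain ⟨M, hM⟩ := bound_mat A
  refine ⟨Real.exp (-(r * Real.log m)), Real.exp_pos _, fun N _ hN => ?_⟩
  classical
  have : Fintype (G ⧸ N) := Fintype.ofFinite _
  exact FinDetP.lower he hm _ (fun i j => (h (i, j)).map _) (hM _ _)

end Pool.Agent.MP_d9582c_gt.H1
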