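import Pool.Agent.MP_d9582c_gt.H1.Spec

/-!
The formal solution of the conjugated heat equation.
-/

open scoped ContDiff Topology
open Set Filter Pool.Agent.MP_d9582c_gt.H34

noncomputable section

namespace Pool.Agent.MP_d9582c_gt.H1

namespace FormalP

variable {n d : ℕ} {V : Type} [NormedAddCommGroup V] [NormedSpace ℝ V]

lemma tg_neg {w : ℤ} {u : ℝ → E n → E n → V} (hu : TG w u) : TG w fun t z y => -u t z y := by
  induction hu with
  | gen k I m hm hw => exact (TG.gen k I (fun y => -m y) hm.neg hw).congr (by simp)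
  | zero => exact TG.zero.congr (by simp)
  | add _ _ h1 h2 => exact (h1.add h2).congr (fun _ _ _ _ => neg_add _ _)
  | congr _ h ih => exact ih.congr (fun t ht z y => by rw [h t ht])

lemma tg_sum {ι : Type} (s : Finset ι) {w : ℤ} {u : ι → ℝ → E n → E n → V}
    (hu : ∀ i, TG w (u i)) : TG w fun t z y => ∑ i ∈ s, u i t z y := by
  classical
  induction s using Finset.induction_on with
  | empty => exact TG.zero.congr (by simp)
  | insert i s hi ih => exact ((hu i).add ih).congr (by simp [Finset.sum_insert hi])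

lemma tg_const {m : E n → V} (hm : ContDiff ℝ ∞ m) : TG 0 fun (_ : ℝ) (_ : E n) y => m y :=
  (TG.gen 0 [] m hm (by simp)).congr (by simp [mono])

lemma sm_z {u : ℝ → E n → E n → V} (hu : Sm u) {t : ℝ} (ht : 0 < t) (y : E n) :
    ContDiff ℝ ∞ fun z => u t z y := by
  have h : ContDiff ℝ ∞ fun z : E n => ((t, z, y) : ℝ × E n × E n) := by fun_prop
  exact hu.comp_contDiff h fun _ => ht

lemma sm_t {u : ℝ → E n → E n → V} (hu : Sm u) {t : ℝ} (ht : 0 < t) (z y : E n) :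
    DifferentiableAt ℝ (fun s => u s z y) t := by
  have ho : IsOpen {q : ℝ × E n × E n | 0 < q.1} := isOpen_lt continuous_const continuous_fst
  have h1 : ContDiffAt ℝ ∞ (fun q : ℝ × E n × E n => u q.1 q.2.1 q.2.2) (t, z, y) :=
    hu.contDiffAt (ho.mem_nhds ht)
  have h : ContDiffAt ℝ ∞ (fun s : ℝ => ((s, z, y) : ℝ × E n × E n)) t := by fun_prop
  exact (h1.comp t h).differentiableAt (by simp)

lemma pd_smooth {f : E n → V} (hf : ContDiff ℝ ∞ f) (i : Fin n) : ContDiff ℝ ∞ (pd i f) := by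
  unfold pd
  exact (hf.fderiv_right (m := ∞) le_rfl).clm_apply contDiff_const

lemma pd_add {f g : E n → V} (hf : ContDiff ℝ ∞ f) (hg : ContDiff ℝ ∞ g) (i : Fin n) :
    pd i (fun z => f z + g z) = fun z => pd i f z + pd i g z := by
  funext z
  unfold pd
  rw [fderiv_fun_add (hf.differentiable (by simp) z) (hg.differentiable (by simp) z)]
  rfl

lemma D_add (g : Met n) (i : Fin n) {u v w : ℝ → E n → E n → V} (hu : Sm u) (hv : Sm v) {t : ℝ}
    (ht : 0 < t) (y : E n) (hw : ∀ z, w t z y = u t z y + v t z y) (z : E n) :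
    g.D i w t z y = g.D i u t z y + g.D i v t z y := by
  unfold Met.D
  rw [show (fun z => w t z y) = fun z => u t z y + v t z y from funext hw,
    pd_add (sm_z hu ht y) (sm_z hv ht y), hw, smul_add]
  exact add_sub_add_comm _ _ _ _

lemma H_add (g : Met n) {u v : ℝ → E n → E n → V} (hu : Sm u) (hv : Sm v) {t : ℝ}
    (ht : 0 < t) (z y : E n) :
    g.H (fun t z y => u t z y + v t z y) t z y = g.H u t z y + g.H v t z y := by
  unfold Met.H
  have h1 := sm_z hu ht y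
  have h2 := sm_z hv ht y
  simp only [deriv_fun_add (sm_t hu ht z y) (sm_t hv ht z y), pd_add h1 h2,
    pd_add (pd_smooth h1 _) (pd_smooth h2 _), smul_add, Finset.sum_add_distrib]
  abel

lemma H_const (g : Met n) (a : V) (t : ℝ) (z y : E n) : g.H (fun _ _ _ => a) t z y = 0 := by
  have h : ∀ j : Fin n, pd j (fun _ : E n => a) = fun _ => 0 := fun j => by
    funext z
    simp [pd]
  have h0 : ∀ j : Fin n, pd j (fun _ : E n => (0 : V)) = fun _ => 0 := fun j => by
    funext z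
    simp [pd]
  simp [Met.H, h, h0]

/-- The perturbation with polynomial coefficients. -/
def P (g : Met n) (Q : Fin n → Fin n → ℝ → E n → E n → ℝ) (B : Fin n → ℝ → E n → E n → End d)
    (C : ℝ → E n → E n → End d) (v : ℝ → E n → E n → End d) (t : ℝ) (z y : E n) : End d :=
  -∑ i, ∑ j, Q i j t z y • g.D i (g.D j v) t z y + ∑ i, B i t z y * g.D i v t z y +
    C t z y * v t z y

variable (ht : TGStmt)
include ht

lemma tg_sm {w : ℤ} {u : ℝ → E n → E n → V} (hu : TG w u) : Sm u := ((ht n).1 V w u hu).1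

lemma tg_mono {w w' : ℤ} {u : ℝ → E n → E n → V} (hu : TG w u) (h : w' ≤ w) : TG w' u :=
  ((ht n).1 V w u hu).2.1 w' h

lemma tg_D {w : ℤ} {u : ℝ → E n → E n → V} (hu : TG w u) (g : Met n) (i : Fin n) :
    TG (w - 1) (g.D i u) := ((ht n).1 V w u hu).2.2.2.1 g i

variable {g : Met n} {Q : Fin n → Fin n → ℝ → E n → E n → ℝ} {B : Fin n → ℝ → E n → E n → End d}
  {C : ℝ → E n → E n → End d}

lemma P_tg (hQ : ∀ i j, TG 1 (Q i j)) (hB : ∀ i, TG 0 (B i)) (hC : TG 0 C) {w : ℤ}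
    {v : ℝ → E n → E n → End d} (hv : TG w v) : TG (w - 1) (P g Q B C v) := by
  unfold P
  refine ((tg_neg (tg_sum _ fun i => tg_sum _ fun j => ?_)).add (tg_sum _ fun i => ?_)).add ?_
  · exact tg_mono ht ((ht n).2 _ _ _ (ContinuousLinearMap.lsmul ℝ ℝ) _ _ _ _ (hQ i j)
      (tg_D ht (tg_D ht hv g j) g i)) (by omega)
  · exact tg_mono ht ((ht n).2 _ _ _ (ContinuousLinearMap.mul ℝ (End d)) _ _ _ _ (hB i)
      (tg_D ht hv g i)) (by omega)
  · exact tg_mono ht ((ht n).2 _ _ _ (ContinuousLinearMap.mul ℝ (End d)) _ _ _ _ hC hv)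
      (by omega)

lemma P_add {w w' : ℤ} {u v : ℝ → E n → E n → End d} (hu : TG w u) (hv : TG w' v) {t : ℝ}
    (h : 0 < t) (z y : E n) :
    P g Q B C (fun t z y => u t z y + v t z y) t z y = P g Q B C u t z y + P g Q B C v t z y := by
  have h1 : ∀ i z, g.D i (fun t z y => u t z y + v t z y) t z y = g.D i u t z y + g.D i v t z y :=
    fun i z => D_add g i (tg_sm ht hu) (tg_sm ht hv) h y (fun _ => rfl) z
  have h2 : ∀ i j, g.D i (g.D j fun t z y => u t z y + v t z y) t z y =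
      g.D i (g.D j u) t z y + g.D i (g.D j v) t z y := fun i j =>
    D_add g i (tg_sm ht (tg_D ht hu g j)) (tg_sm ht (tg_D ht hv g j)) h y (h1 j) z
  simp only [P, h1, h2, smul_add, mul_add, Finset.sum_add_distrib]
  abel

lemma approx (hs : SolveStmt) (hQ : ∀ i j, TG 1 (Q i j)) (hB : ∀ i, TG 0 (B i)) (hC : TG 0 C)
    (L : ℕ) : ∃ v R : ℝ → E n → E n → End d, TG 0 v ∧ (TG 1 fun t z y => v t z y - 1) ∧
      TG (L - 1) R ∧ ∀ t > 0, ∀ z y, g.H v t z y + P g Q B C v t z y = R t z y := by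
  induction L with
  | zero =>
    have h1 : TG 0 fun (_ : ℝ) (_ _ : E n) => (1 : End d) := tg_const contDiff_const
    exact ⟨fun _ _ _ => 1, P g Q B C fun _ _ _ => 1, h1, TG.zero.congr (by simp),
      by simpa using P_tg ht hQ hB hC h1, fun t _ z y => by rw [H_const, zero_add]⟩
  | succ L ih =>
    obtain ⟨v, R, h0, h1, hR, hv⟩ := ih
    obtain ⟨e, he, hH⟩ := hs n (End d) g (L + 1) (by omega) _
      (tg_mono ht (tg_neg hR) (by omega))
    refine ⟨fun t z y => v t z y + e t z y, P g Q B C e, h0.add (tg_mono ht he (by omega)),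
      (h1.add (tg_mono ht he (by omega))).congr fun _ _ _ _ => add_sub_right_comm _ _ _,
      tg_mono ht (P_tg ht hQ hB hC he) (by push_cast; omega), fun t h z y => ?_⟩
    rw [H_add g (tg_sm ht h0) (tg_sm ht he) h, P_add ht h0 he h, hH t h, ← hv t h]
    abel

omit ht

/-- The required size. -/
def Bd (K : Set (E n)) (N : ℕ) (f : ℝ → E n → E n → V) : Prop :=
  ∃ (C : ℝ) (m : ℕ), ∀ t ∈ Ioc (0 : ℝ) 1, ∀ z, ‖z‖ ≤ 1 → ∀ y ∈ K,
    ‖f t z y‖ ≤ C * t ^ N * (1 + ‖z‖ ^ 2 / t) ^ m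

variable {K : Set (E n)} {N : ℕ}

omit [NormedSpace ℝ V] in
lemma Bd.add {f f' : ℝ → E n → E n → V} (hf : Bd K N f) (hf' : Bd K N f') :
    Bd K N fun t z y => f t z y + f' t z y := by
  obtain ⟨C, m, h⟩ := hf
  obtain ⟨C', m', h'⟩ := hf'
  refine ⟨|C| + |C'|, m + m', fun t ht z hz y hy => (norm_add_le _ _).trans ?_⟩
  have h0 := ht.1
  have h1 : 1 ≤ 1 + ‖z‖ ^ 2 / t := le_add_of_nonneg_right (by positivity)
  rw [add_mul, add_mul]
  refine add_le_add ((h t ht z hz y hy).trans ?_) ((h' t ht z hz y hy).trans ?_)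
  · gcongr
    · exact le_abs_self _
    · omega
  · gcongr
    · exact le_abs_self _
    · omega

omit [NormedSpace ℝ V] in
lemma Bd.neg {f : ℝ → E n → E n → V} (hf : Bd K N f) : Bd K N fun t z y => -f t z y := by
  simpa only [Bd, norm_neg] using hf

omit [NormedSpace ℝ V] in
lemma Bd.sum {ι : Type} (s : Finset ι) {u : ι → ℝ → E n → E n → V} (hu : ∀ i, Bd K N (u i)) :
    Bd K N fun t z y => ∑ i ∈ s, u i t z y := by
  classical
  induction s using Finset.induction_on with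
  | empty => exact ⟨0, 0, by simp⟩
  | insert i s hi ih => simpa only [Finset.sum_insert hi] using (hu i).add ih

include ht

lemma bd_tg (hK : IsCompact K) {R : ℝ → E n → E n → V} (hR : TG (2 * N) R) : Bd K N R := by
  obtain ⟨C, m, h⟩ := ((ht n).1 V _ R hR).2.2.2.2 K hK
  refine ⟨C, m, fun t ht z _ y hy => (h t ht z y hy).trans_eq ?_⟩
  rw [show (((2 * (N : ℤ) : ℤ) : ℝ) / 2) = (N : ℝ) by push_cast; ring, Real.rpow_natCast]

lemma bd_rem {V₁ V₃ : Type} [NormedAddCommGroup V₁] [NormedSpace ℝ V₁] [NormedAddCommGroup V₃]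
    [NormedSpace ℝ V₃] (β : V₁ →L[ℝ] V →L[ℝ] V₃) (hK : IsCompact K) {a : ℝ → E n → E n → V₁}
    {A : ℝ} (ha : ∀ t > 0, ∀ y ∈ K, ∀ z, ‖z‖ ≤ 1 → ‖a t z y‖ ≤ A * ‖z‖ ^ (2 * (N + 1)))
    {u : ℝ → E n → E n → V} (hu : TG (-2) u) : Bd K N fun t z y => β (a t z y) (u t z y) := by
  obtain ⟨C, m, h⟩ := ((ht n).1 V _ u hu).2.2.2.2 K hK
  refine ⟨‖β‖ * |A| * |C|, N + 1 + m, fun t ht z hz y hy => (β.le_opNorm₂ _ _).trans ?_⟩
  have h0 := ht.1
  have h1 := h t ht z y hy
  rw [show (((-2 : ℤ) : ℝ) / 2) = -1 by norm_num, Real.rpow_neg_one] at h1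
  have h2 : ‖a t z y‖ ≤ |A| * (t ^ (N + 1) * (1 + ‖z‖ ^ 2 / t) ^ (N + 1)) := by
    refine (ha t h0 y hy z hz).trans ?_
    rw [pow_mul, ← mul_pow]
    gcongr
    · exact le_abs_self _
    · rw [mul_add, mul_div_cancel₀ _ h0.ne']
      linarith
  have h3 : ‖u t z y‖ ≤ |C| * t⁻¹ * (1 + ‖z‖ ^ 2 / t) ^ m := h1.trans (by
    gcongr
    exact le_abs_self _)
  calc ‖β‖ * ‖a t z y‖ * ‖u t z y‖
      ≤ ‖β‖ * (|A| * (t ^ (N + 1) * (1 + ‖z‖ ^ 2 / t) ^ (N + 1))) *
        (|C| * t⁻¹ * (1 + ‖z‖ ^ 2 / t) ^ m) := by gcongr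
    _ = _ := by
      rw [pow_add _ (N + 1) m, pow_succ t]
      field_simp

end FormalP

open FormalP in
theorem formal (ht : TGStmt) (hy : TaylorStmt) (hs : SolveStmt) : FormalStmt := by
  intro n d c K hK N
  choose Q A hQ hA using fun i j => hy n ℝ _ (c.smooth i j) K hK (2 * (N + 1))
  choose QB AB hB hAB using fun i => hy n (End d) _ (c.B_smooth i) K hK (2 * (N + 1))
  obtain ⟨QC, AC, hC, hAC⟩ := hy n (End d) _ c.C_smooth K hK (2 * (N + 1))
  obtain ⟨v, R, h0, h1, hR, hv⟩ := approx ht (g := c.toMet) hs hQ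
    (fun i => (tg_const (c.B_smooth i)).add (tg_mono ht (hB i) zero_le_one))
    ((tg_const c.C_smooth).add (tg_mono ht hC zero_le_one)) (2 * N + 1)
  have e1 := (Bd.sum Finset.univ fun i => Bd.sum Finset.univ fun j =>
    bd_rem ht (ContinuousLinearMap.lsmul ℝ ℝ) hK (hA i j)
      (tg_mono ht (tg_D ht (tg_D ht h0 c.toMet j) c.toMet i) (by norm_num))).neg
  have e2 := Bd.sum Finset.univ fun i => bd_rem ht (ContinuousLinearMap.mul ℝ (End d)) hK (hAB i)
    (tg_mono ht (tg_D ht h0 c.toMet i) (by norm_num))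
  have e3 := bd_rem ht (ContinuousLinearMap.mul ℝ (End d)) hK hAC (tg_mono ht h0 (by norm_num))
  obtain ⟨C, m, h⟩ := (bd_tg ht hK (tg_mono ht hR (by push_cast; omega))).add
    ((e1.add e2).add e3)
  refine ⟨v, C, m, h0, h1, fun t ht z hz y hy => le_of_eq_of_le ?_ (h t ht z hz y hy)⟩
  congr 1
  have hsub : ∀ (a b : ℝ) (X : End d), (a - b) • X = a • X - b • X := fun a b X => sub_smul a b X
  simp only [← hv t ht.1, hsub, P, Coef.Pert, ContinuousLinearMap.lsmul_apply, ContinuousLinearMap.mul_apply',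
    sub_mul, add_mul, Finset.sum_sub_distrib, Finset.sum_add_distrib]
  abel

end Pool.Agent.MP_d9582c_gt.H1
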