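import Pool.Agent.MP_d9582c_gt.H1.Spec

/-!
Smooth orthonormal frames by the Gram-Schmidt process.
-/

open scoped ContDiff ComplexConjugate InnerProductSpace
open Pool.Agent.MP_d9582c_gt.H34

noncomputable section

namespace Pool.Agent.MP_d9582c_gt.H1

namespace GSP

variable {X A : Type} [NormedAddCommGroup X] [NormedSpace ℝ X] [NormedAddCommGroup A]
  [NormedSpace ℝ A] [NormedSpace ℂ A] [IsScalarTower ℝ ℂ A] [FiniteDimensional ℂ A]

/-- A smooth family of scalar products. -/
structure Fam (h : X → A →ₗ⋆[ℂ] A →ₗ[ℂ] ℂ) : Prop where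
  sm : ∀ α β, ContDiff ℝ ∞ fun z => h z α β
  symm : ∀ z α β, conj (h z β α) = h z α β
  pos : ∀ z α, α ≠ 0 → 0 < (h z α α).re

theorem sm_coord {d : ℕ} (b : Module.Basis (Fin d) ℂ A) {u : X → A} (hu : ContDiff ℝ ∞ u)
    (i : Fin d) : ContDiff ℝ ∞ fun z => b.repr (u z) i :=
  ((LinearMap.toContinuousLinearMap (b.coord i)).restrictScalars ℝ).contDiff.comp hu

theorem Fam.pair {h : X → A →ₗ⋆[ℂ] A →ₗ[ℂ] ℂ} (H : Fam h) {u v : X → A} (hu : ContDiff ℝ ∞ u)
    (hv : ContDiff ℝ ∞ v) : ContDiff ℝ ∞ fun z => h z (u z) (v z) := by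
  let b := Module.finBasis ℂ A
  have e : (fun z => h z (u z) (v z)) =
      fun z => ∑ j, b.repr (v z) j * ∑ i, conj (b.repr (u z) i) * h z (b i) (b j) := by
    funext z
    conv_lhs => rw [← b.sum_repr (u z), ← b.sum_repr (v z)]
    simp only [map_sum, map_smul, map_smulₛₗ, LinearMap.sum_apply, LinearMap.smul_apply,
      smul_eq_mul]
  rw [e]
  refine ContDiff.sum fun j _ => (sm_coord b hv j).mul (ContDiff.sum fun i _ => ?_)
  exact (Complex.conjCLE.contDiff.comp (sm_coord b hu i)).mul (H.sm _ _)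

theorem Fam.step {h : X → A →ₗ⋆[ℂ] A →ₗ[ℂ] ℂ} (H : Fam h) {d : ℕ} (b : Module.Basis (Fin d) ℂ A)
    (k : ℕ) (hk : k ≤ d) : ∃ e : ℕ → X → A, (∀ m, ContDiff ℝ ∞ (e m)) ∧
      (∀ m z, ∀ i : Fin d, k ≤ i → b.repr (e m z) i = 0) ∧
      ∀ m < k, ∀ m' < k, ∀ z, h z (e m z) (e m' z) = if m = m' then 1 else 0 := by
  induction k with
  | zero => exact ⟨fun _ _ => 0, fun _ => contDiff_const, fun _ _ _ _ => by simp,
      fun _ hm => absurd hm (Nat.not_lt_zero _)⟩
  | succ k ih =>
    obtain ⟨e, e1, e2, e3⟩ := ih (by omega)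
    let a : A := b ⟨k, hk⟩
    let v : X → A := fun z => a - ∑ m ∈ Finset.range k, h z (e m z) a • e m z
    have v1 : ContDiff ℝ ∞ v :=
      contDiff_const.sub (ContDiff.sum fun m _ => (H.pair (e1 m) contDiff_const).smul (e1 m))
    have v2 : ∀ z, ∀ i : Fin d, k ≤ i → b.repr (v z) i = if (⟨k, hk⟩ : Fin d) = i then 1 else 0 := by
      intro z i hi
      simp [v, a, e2 _ _ i hi, Finsupp.single_apply]
    have v3 : ∀ z, 0 < (h z (v z) (v z)).re := fun z => H.pos z _ fun h0 => by
      have := v2 z ⟨k, hk⟩ le_rfl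
      simp [h0] at this
    have v4 : ∀ m < k, ∀ z, h z (e m z) (v z) = 0 := by
      intro m hm z
      simp only [v, map_sub, map_sum, map_smul, smul_eq_mul]
      rw [Finset.sum_eq_single_of_mem m (Finset.mem_range.2 hm) fun m' h1 h2 => by
        rw [e3 m hm m' (Finset.mem_range.1 h1), if_neg h2.symm, mul_zero], e3 m hm m hm, if_pos rfl,
        mul_one, sub_self]
    let c : X → ℝ := fun z => (√(h z (v z) (v z)).re)⁻¹
    have c1 : ContDiff ℝ ∞ c :=
      ((Complex.reCLM.contDiff.comp (H.pair v1 v1)).sqrt fun z => (v3 z).ne').inv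
        fun z => (Real.sqrt_pos.2 (v3 z)).ne'
    let w : X → A := fun z => (c z : ℂ) • v z
    have w1 : ContDiff ℝ ∞ w := (Complex.ofRealCLM.contDiff.comp c1).smul v1
    have w4 : ∀ m < k, ∀ z, h z (e m z) (w z) = 0 := fun m hm z => by
      simp only [w, map_smul, v4 m hm z, smul_zero]
    have w5 : ∀ z, h z (w z) (w z) = 1 := fun z => by
      have r : h z (v z) (v z) = ((h z (v z) (v z)).re : ℝ) :=
        (Complex.conj_eq_iff_re.1 (H.symm z _ _)).symm
      simp only [w, map_smul, map_smulₛₗ, LinearMap.smul_apply, smul_eq_mul,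
        Complex.conj_ofReal]
      rw [r]
      norm_cast
      have := v3 z
      simp only [c]
      rw [← mul_assoc, ← mul_inv, Real.mul_self_sqrt this.le, inv_mul_cancel₀ this.ne']
    refine ⟨fun m => if m = k then w else e m, fun m => ?_, fun m z i hi => ?_,
      fun m hm m' hm' z => ?_⟩ <;> beta_reduce
    · split_ifs
      exacts [w1, e1 m]
    · split_ifs
      · have : (⟨k, hk⟩ : Fin d) ≠ i := fun h0 => by rw [← h0] at hi; simp at hi
        simp only [w, map_smul, Finsupp.smul_apply, v2 z i (by omega), if_neg this, smul_zero]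
      · exact e2 m z i (by omega)
    · by_cases h1 : m = k <;> by_cases h2 : m' = k
      · simp [h1, h2, w5]
      · rw [if_pos h1, if_neg h2, if_neg (by omega), ← H.symm, w4 m' (by omega), map_zero]
      · rw [if_neg h1, if_pos h2, if_neg (by omega), w4 m (by omega)]
      · rw [if_neg h1, if_neg h2, e3 m (by omega) m' (by omega)]

end GSP

open GSP in
theorem gs : GSStmt := by
  intro n A _ _ _ _ _ _ h h1 h2 h3 h4 h5
  let g : E n → A →ₗ⋆[ℂ] A →ₗ[ℂ] ℂ := fun z => LinearMap.mk₂'ₛₗ (starRingEnd ℂ) (RingHom.id ℂ) (h z)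
    (fun α β γ => by rw [← h4 z (α + β), h2, map_add, h4, h4])
    (fun c α β => by rw [← h4 z (c • α), h3, map_mul, h4, smul_eq_mul]) (h2 z) (h3 z)
  have H : Fam g := ⟨h1, h4, h5⟩
  let b := Module.finBasis ℂ A
  obtain ⟨e, e1, -, e3⟩ := H.step b _ le_rfl
  let S : E n → W (Module.finrank ℂ A) →L[ℂ] A := fun z => ∑ m : Fin (Module.finrank ℂ A), ∑ i,
    b.repr (e m z) i • (EuclideanSpace.proj m : W _ →L[ℂ] ℂ).smulRight (b i)
  let S' : E n → A →L[ℂ] W (Module.finrank ℂ A) := fun z => ∑ m : Fin (Module.finrank ℂ A), ∑ i,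
    g z (e m z) (b i) •
      (LinearMap.toContinuousLinearMap (b.coord i)).smulRight (EuclideanSpace.single m 1)
  have s1 : ∀ z u, S z u = ∑ m : Fin (Module.finrank ℂ A), u m • e m z := by
    intro z u
    simp only [S, sum_apply, smul_apply, ContinuousLinearMap.smulRight_apply]
    refine Finset.sum_congr rfl fun m _ => ?_
    conv_rhs => rw [← b.sum_repr (e m z), Finset.smul_sum]
    exact Finset.sum_congr rfl fun i _ => smul_comm _ _ _
  have s2 : ∀ z α m, S' z α m = g z (e m z) α := by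
    intro z α m
    conv_rhs => rw [← b.sum_repr α, map_sum]
    simp [S', Pi.single_apply, mul_comm]
  have s3 : ∀ z u, S' z (S z u) = u := by
    intro z u
    ext m
    rw [s2, s1, map_sum, Finset.sum_eq_single m (fun m' _ h0 => by
      rw [map_smul, e3 _ m.2 _ m'.2, if_neg fun h => h0 (Fin.ext h).symm, smul_zero]) (by simp),
      map_smul, e3 _ m.2 _ m.2, if_pos rfl, smul_eq_mul, mul_one]
  refine ⟨S, S', ?_, ?_, fun z α => ?_, s3, fun z u v => ?_⟩
  · exact ContDiff.sum fun m _ => ContDiff.sum fun i _ => (sm_coord b (e1 m) i).smul contDiff_const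
  · exact ContDiff.sum fun m _ => ContDiff.sum fun i _ =>
      (H.pair (e1 m) contDiff_const).smul contDiff_const
  · have inj : Function.Injective (S z).toLinearMap := Function.LeftInverse.injective (s3 z)
    obtain ⟨u, rfl⟩ := (LinearMap.injective_iff_surjective_of_finrank_eq_finrank (by simp)).1 inj α
    exact congrArg (S z) (s3 z u)
  · change g z (S z u) (S z v) = _
    conv_lhs => rw [s1 z u, map_sum, LinearMap.sum_apply]
    rw [PiLp.inner_apply]
    refine Finset.sum_congr rfl fun m _ => ?_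
    rw [map_smulₛₗ, LinearMap.smul_apply, ← s2, s3]
    simp [mul_comm]

end Pool.Agent.MP_d9582c_gt.H1
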