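import Pool.Agent.MP_d9582c_gt.H1.Spec

/-!
Differential properties of the Gaussian.
-/

open scoped ContDiff
open Pool.Agent.MP_d9582c_gt.H34

namespace Pool.Agent.MP_d9582c_gt.H1

namespace GaussP

variable {n : ℕ}

lemma det_smooth {G : E n → Matrix (Fin n) (Fin n) ℝ} (h : ∀ i j, ContDiff ℝ ∞ fun x => G x i j) :
    ContDiff ℝ ∞ fun x => (G x).det := by
  simp only [Matrix.det_apply']
  exact ContDiff.sum fun σ _ => contDiff_const.mul (contDiff_prod fun i _ => h _ _)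

lemma inv_smooth (g : Met n) (i j : Fin n) : ContDiff ℝ ∞ fun y => (g.G y)⁻¹ i j := by
  have h1 : ContDiff ℝ ∞ fun y => (g.G y).adjugate i j := by
    simp only [Matrix.adjugate_apply]
    refine det_smooth fun a b => ?_
    simp only [Matrix.updateRow_apply]
    split_ifs
    · exact contDiff_const
    · exact g.smooth _ _
  have h2 := ((det_smooth g.smooth).inv fun y => (g.pos y).det_pos.ne').mul h1
  simp only [Matrix.inv_def, Ring.inverse_eq_inv', Matrix.smul_apply, smul_eq_mul]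
  exact h2

lemma symm (g : Met n) (y : E n) (i j : Fin n) : (g.G y)⁻¹ i j = (g.G y)⁻¹ j i := by
  simpa using ((g.pos y).isHermitian.inv.apply i j).symm

lemma co (i : Fin n) (z : E n) :
    HasFDerivAt (fun z : E n => z i) (EuclideanSpace.proj i : E n →L[ℝ] ℝ) z :=
  (EuclideanSpace.proj i : E n →L[ℝ] ℝ).hasFDerivAt

lemma gauss_fd (g : Met n) (t : ℝ) (ht : 0 < t) (z y : E n) :
    ∃ L : E n →L[ℝ] ℝ, HasFDerivAt (fun z => g.gauss t z y) L z ∧
      ∀ k, L (ee k) = -g.lin k t z y * g.gauss t z y := by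
  have hq := HasFDerivAt.fun_sum (u := Finset.univ) fun i _ =>
    HasFDerivAt.fun_sum (u := Finset.univ) fun j _ =>
      ((co i z).const_mul ((g.G y)⁻¹ i j)).fun_mul (co j z)
  have h := ((hq.fun_neg.mul_const (4 * t)⁻¹).exp).const_mul
    ((4 * Real.pi * t) ^ (-(n : ℝ) / 2) * (g.G y).det ^ (-(1 : ℝ) / 2))
  refine ⟨_, h, fun k => ?_⟩
  have h1 : ∑ i, (g.G y)⁻¹ i k * z i = ∑ j, (g.G y)⁻¹ k j * z j :=
    Finset.sum_congr rfl fun i _ => by rw [symm]
  simp [Met.lin, Met.gauss, Finset.sum_add_distrib, h1, mul_comm (z _)]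
  field_simp
  ring_nf

lemma lin_fd (g : Met n) (j : Fin n) (t : ℝ) (z y : E n) :
    ∃ L : E n →L[ℝ] ℝ, HasFDerivAt (fun z => g.lin j t z y) L z ∧
      ∀ k, L (ee k) = (g.G y)⁻¹ j k / (2 * t) := by
  have h := (HasFDerivAt.fun_sum (u := Finset.univ) fun i _ =>
    (co i z).const_mul ((g.G y)⁻¹ j i)).mul_const (2 * t)⁻¹
  refine ⟨_, h, fun k => ?_⟩
  simp [div_eq_mul_inv, mul_comm]

lemma pd1 (g : Met n) (t : ℝ) (ht : 0 < t) (i : Fin n) (z y : E n) :
    pd i (fun z => g.gauss t z y) z = -g.lin i t z y * g.gauss t z y := by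
  obtain ⟨L, h, hL⟩ := gauss_fd g t ht z y
  rw [pd, h.fderiv, hL]

lemma pd2 (g : Met n) (t : ℝ) (ht : 0 < t) (i j : Fin n) (z y : E n) :
    pd i (pd j fun z => g.gauss t z y) z =
      (g.lin i t z y * g.lin j t z y - (g.G y)⁻¹ j i / (2 * t)) * g.gauss t z y := by
  obtain ⟨L, h, hL⟩ := gauss_fd g t ht z y
  obtain ⟨L', h', hL'⟩ := lin_fd g j t z y
  rw [funext fun z => pd1 g t ht j z y, pd, (h'.fun_neg.fun_mul h).fderiv]
  simp only [add_apply, smul_apply, neg_apply, hL, hL', smul_eq_mul]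
  ring

lemma mul_inv (g : Met n) (y : E n) (i k : Fin n) :
    ∑ j, g.G y i j * (g.G y)⁻¹ j k = if i = k then 1 else 0 := by
  rw [← Matrix.mul_apply, Matrix.mul_nonsing_inv _ (g.pos y).det_pos.ne'.isUnit, Matrix.one_apply]

lemma sum_lin (g : Met n) (t : ℝ) (i : Fin n) (z y : E n) :
    ∑ j, g.G y i j * g.lin j t z y = z i / (2 * t) := by
  simp only [Met.lin, ← mul_div_assoc, ← Finset.sum_div, Finset.mul_sum, ← mul_assoc]
  rw [Finset.sum_comm]
  simp [← Finset.sum_mul, mul_inv]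

lemma lap (g : Met n) (t : ℝ) (ht : 0 < t) (z y : E n) :
    ∑ i, ∑ j, g.G y i j * pd i (pd j fun z => g.gauss t z y) z =
      ((∑ i, ∑ j, (g.G y)⁻¹ i j * z i * z j) / (4 * t ^ 2) - n / (2 * t)) * g.gauss t z y := by
  have h1 : ∀ i, ∑ j, g.G y i j * pd i (pd j fun z => g.gauss t z y) z =
      ((∑ j, (g.G y)⁻¹ i j * z i * z j) / (4 * t ^ 2) - 1 / (2 * t)) * g.gauss t z y := by
    intro i
    have e1 : ∑ j, g.G y i j * pd i (pd j fun z => g.gauss t z y) z =
        (g.lin i t z y * ∑ j, g.G y i j * g.lin j t z y -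
          (∑ j, g.G y i j * (g.G y)⁻¹ j i) / (2 * t)) * g.gauss t z y := by
      rw [Finset.mul_sum, Finset.sum_div, ← Finset.sum_sub_distrib, Finset.sum_mul]
      exact Finset.sum_congr rfl fun j _ => by rw [pd2 g t ht]; ring
    have e2 : ∑ j, (g.G y)⁻¹ i j * z i * z j = (∑ j, (g.G y)⁻¹ i j * z j) * z i := by
      rw [Finset.sum_mul]
      exact Finset.sum_congr rfl fun j _ => by ring
    rw [e1, sum_lin, mul_inv, if_pos rfl, e2, Met.lin]
    field_simp
    ring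
  simp only [h1, ← Finset.sum_mul, Finset.sum_sub_distrib, ← Finset.sum_div]
  simp

lemma dt (g : Met n) (t : ℝ) (ht : 0 < t) (z y : E n) :
    deriv (fun s => g.gauss s z y) t =
      ((∑ i, ∑ j, (g.G y)⁻¹ i j * z i * z j) / (4 * t ^ 2) - n / (2 * t)) * g.gauss t z y := by
  have hp : 0 < 4 * Real.pi * t := by positivity
  simp only [Met.gauss]
  generalize (∑ i, ∑ j, (g.G y)⁻¹ i j * z i * z j) = q
  generalize (g.G y).det ^ (-(1 : ℝ) / 2) = D
  have h1 := ((hasDerivAt_id' t).const_mul (4 * Real.pi)).rpow_const (p := -(n : ℝ) / 2)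
    (Or.inl hp.ne')
  have h2 := ((hasDerivAt_const t (-q)).fun_div ((hasDerivAt_id' t).const_mul 4)
    (by positivity)).exp
  rw [((h1.mul_const D).fun_mul h2).deriv, Real.rpow_sub_one hp.ne']
  have := Real.pi_pos
  field_simp
  ring

lemma scale (g : Met n) (t : ℝ) (ht : 0 < t) (ξ y : E n) :
    g.gauss t (√t • ξ) y = t ^ (-(n : ℝ) / 2) * g.gauss 1 ξ y := by
  have h1 : ∑ i, ∑ j, (g.G y)⁻¹ i j * (√t • ξ) i * (√t • ξ) j =
      t * ∑ i, ∑ j, (g.G y)⁻¹ i j * ξ i * ξ j := by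
    simp only [Finset.mul_sum, PiLp.smul_apply, smul_eq_mul]
    refine Finset.sum_congr rfl fun i _ => Finset.sum_congr rfl fun j _ => ?_
    linear_combination ((g.G y)⁻¹ i j * ξ i * ξ j) * Real.mul_self_sqrt ht.le
  simp only [Met.gauss]
  rw [h1, Real.mul_rpow (by positivity) ht.le, mul_one, mul_one, ← mul_neg, mul_comm 4 t,
    mul_div_mul_left _ _ ht.ne']
  ring

lemma sm (g : Met n) : Sm g.gauss := by
  have h1 : ContDiff ℝ ∞ fun q : ℝ × E n × E n => (g.G q.2.2).det ^ (-(1 : ℝ) / 2) :=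
    ((det_smooth g.smooth).comp (contDiff_snd.comp contDiff_snd)).rpow_const_of_ne fun q =>
      (g.pos q.2.2).det_pos.ne'
  have h2 : ∀ i, ContDiff ℝ ∞ fun q : ℝ × E n × E n => q.2.1 i := fun i =>
    (EuclideanSpace.proj i : E n →L[ℝ] ℝ).contDiff.comp (contDiff_fst.comp contDiff_snd)
  have h3 : ContDiff ℝ ∞ fun q : ℝ × E n × E n =>
      -∑ i, ∑ j, (g.G q.2.2)⁻¹ i j * q.2.1 i * q.2.1 j :=
    (ContDiff.sum fun i _ => ContDiff.sum fun j _ =>
      (((inv_smooth g i j).comp (contDiff_snd.comp contDiff_snd)).mul (h2 i)).mul (h2 j)).neg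
  refine (((contDiff_const.mul contDiff_fst).contDiffOn.rpow_const_of_ne fun q hq => ?_).mul
    h1.contDiffOn).mul (h3.contDiffOn.div (contDiff_const.mul contDiff_fst).contDiffOn
      fun q hq => ?_).exp
  · have : 0 < q.1 := hq
    positivity
  · have : 0 < q.1 := hq
    positivity

end GaussP

theorem gauss : GaussStmt := fun _ g =>
  ⟨GaussP.sm g, GaussP.inv_smooth g, fun t ht i z y => GaussP.pd1 g t ht i z y,
    fun t ht z y => by rw [GaussP.dt g t ht, GaussP.lap g t ht],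
    fun t ht ξ y => GaussP.scale g t ht ξ y⟩

end Pool.Agent.MP_d9582c_gt.H1
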