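import Pool.Agent.MP_d9582c_gt.H1.Spec

/-!
Mass and size of the Gaussian.
-/

open scoped ContDiff Topology MatrixOrder
open MeasureTheory Set Filter Metric Matrix Pool.Agent.MP_d9582c_gt.H34

noncomputable section

namespace Pool.Agent.MP_d9582c_gt.H1

namespace GaussIntP

variable {n : ℕ}

theorem quad_eq (A : Matrix (Fin n) (Fin n) ℝ) (z : Fin n → ℝ) :
    ∑ i, ∑ j, A i j * z i * z j = z ⬝ᵥ A *ᵥ z := by
  simp only [dotProduct, mulVec, Finset.mul_sum]
  exact Finset.sum_congr rfl fun i _ => Finset.sum_congr rfl fun j _ => by ring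

theorem quad_sq (B : Matrix (Fin n) (Fin n) ℝ) (z : E n) :
    ∑ i, ∑ j, (star B * B) i j * z i * z j = ‖toLpLin 2 2 B z‖ ^ 2 := by
  rw [quad_eq, ← mulVec_mulVec, dotProduct_mulVec, star_eq_conjTranspose,
    conjTranspose_eq_transpose_of_trivial, vecMul_transpose, EuclideanSpace.real_norm_sq_eq]
  simp only [dotProduct, ofLp_toLpLin, toLin'_apply, sq]

theorem mass (A : Matrix (Fin n) (Fin n) ℝ) (hA : A.PosDef) {t : ℝ} (ht : 0 < t) :
    ∫ z : E n, Real.exp (-(∑ i, ∑ j, A⁻¹ i j * z i * z j) / (4 * t)) =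
      A.det ^ ((1 : ℝ) / 2) * (4 * Real.pi * t) ^ ((n : ℝ) / 2) := by
  obtain ⟨B, hB⟩ := CStarAlgebra.nonneg_iff_eq_star_mul_self.mp hA.inv.posSemidef.nonneg
  have hd : A.det⁻¹ = B.det ^ 2 := by
    rw [← Ring.inverse_eq_inv', ← det_nonsing_inv, hB, det_mul, star_eq_conjTranspose,
      conjTranspose_eq_transpose_of_trivial, det_transpose, sq]
  have hp := hA.det_pos
  have hB0 : B.det ≠ 0 := by
    intro h
    rw [h] at hd
    simp [hp.ne'] at hd
  have hdet : LinearMap.det (toLpLin 2 2 B) ≠ 0 := by rwa [LinearMap.det_toLpLin]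
  have hm := Measure.map_linearMap_addHaar_eq_smul_addHaar (volume : Measure (E n)) hdet
  have hc : Continuous fun v : E n => Real.exp (-(4 * t)⁻¹ * ‖v‖ ^ 2) := by fun_prop
  have h1 := integral_map (μ := (volume : Measure (E n)))
    (toLpLin 2 2 B).continuous_of_finiteDimensional.aemeasurable hc.aestronglyMeasurable
  rw [hm, integral_smul_measure, GaussianFourier.integral_rexp_neg_mul_sq_norm (by positivity),
    LinearMap.det_toLpLin, ENNReal.toReal_ofReal (abs_nonneg _), smul_eq_mul] at h1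
  have e : ∀ z : E n, -(∑ i, ∑ j, A⁻¹ i j * z i * z j) / (4 * t) =
      -(4 * t)⁻¹ * ‖toLpLin 2 2 B z‖ ^ 2 := by
    intro z
    rw [hB, quad_sq]
    ring
  simp only [e]
  rw [← h1, finrank_euclideanSpace_fin]
  congr 1
  · rw [← Real.sqrt_eq_rpow, ← inv_inv A.det, hd, ← inv_pow, Real.sqrt_sq_eq_abs]
  · congr 1
    field_simp

theorem coer (g : Met n) (hi : ∀ i j, Continuous fun y => (g.G y)⁻¹ i j) {K : Set (E n)}
    (hK : IsCompact K) : ∃ c > (0 : ℝ), ∀ y ∈ K, ∀ z : E n,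
      c * ‖z‖ ^ 2 ≤ ∑ i, ∑ j, (g.G y)⁻¹ i j * z i * z j := by
  have hc : Continuous fun q : E n × E n => ∑ i, ∑ j, (g.G q.1)⁻¹ i j * q.2 i * q.2 j := by
    refine continuous_finsetSum _ fun i _ => continuous_finsetSum _ fun j _ => ?_
    exact (((hi i j).comp continuous_fst).mul (by fun_prop)).mul (by fun_prop)
  obtain ⟨c, hc0, h⟩ := (hK.prod (isCompact_sphere (0 : E n) 1)).exists_forall_le' (a := 0)
    hc.continuousOn (by
      rintro ⟨y, z⟩ ⟨-, hz⟩
      have h1 : z.ofLp ≠ 0 := by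
        intro h2
        have h3 : z = 0 := by ext i; simpa using congrFun h2 i
        simp [h3] at hz
      have := (g.pos y).inv.dotProduct_mulVec_pos h1
      simp only [quad_eq]
      simpa using this)
  refine ⟨c, hc0, fun y hy z => ?_⟩
  by_cases hz : z = 0
  · simp [hz]
  have hn : 0 < ‖z‖ := norm_pos_iff.2 hz
  have h1 := h (y, ‖z‖⁻¹ • z) ⟨hy, by simp [norm_smul, hn.ne']⟩
  have h2 : ∑ i, ∑ j, (g.G y)⁻¹ i j * z i * z j =
      (∑ i, ∑ j, (g.G y)⁻¹ i j * (‖z‖⁻¹ • z) i * (‖z‖⁻¹ • z) j) * ‖z‖ ^ 2 := by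
    simp only [Finset.sum_mul, PiLp.smul_apply, smul_eq_mul]
    refine Finset.sum_congr rfl fun i _ => Finset.sum_congr rfl fun j _ => ?_
    field_simp
  rw [h2]
  exact mul_le_mul_of_nonneg_right h1 (by positivity)

theorem poly_le {c : ℝ} (hc : 0 < c) (m : ℕ) {s : ℝ} (hs : 0 ≤ s) :
    (1 + s) ^ m ≤ m.factorial / c ^ m * Real.exp c * Real.exp (c * s) := by
  have h := Real.pow_div_factorial_le_exp (c * (1 + s)) (by positivity) m
  have hm : (0 : ℝ) < m.factorial := by positivity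
  rw [div_le_iff₀ hm, mul_pow, mul_add, mul_one, Real.exp_add] at h
  rw [mul_assoc, div_mul_eq_mul_div, le_div_iff₀ (by positivity)]
  linarith

end GaussIntP

open GaussIntP in
theorem gaussInt (hg : GaussStmt) : GaussIntStmt := by
  intro n g
  refine ⟨fun t ht y => ?_, fun t ht z y => ?_, fun K hK => ?_⟩
  · have hp := (g.pos y).det_pos
    have h4 : 0 < 4 * Real.pi * t := by positivity
    simp only [Met.gauss]
    rw [integral_const_mul, mass _ (g.pos y) ht, neg_div, neg_div, Real.rpow_neg h4.le,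
      Real.rpow_neg hp.le]
    have h1 := Real.rpow_pos_of_pos h4 ((n : ℝ) / 2)
    have h2 := Real.rpow_pos_of_pos hp ((1 : ℝ) / 2)
    field_simp
  · have hp := (g.pos y).det_pos
    unfold Met.gauss
    positivity
  · obtain ⟨c, hc, hq⟩ := coer g (fun i j => ((hg n g).2.1 i j).continuous) hK
    have hG : Continuous g.G := continuous_pi fun i => continuous_pi fun j => (g.smooth i j).continuous
    have hd : Continuous fun y => (g.G y).det ^ (-(1 : ℝ) / 2) :=
      hG.matrix_det.rpow_const fun y => Or.inl (g.pos y).det_pos.ne'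
    obtain ⟨D, hD⟩ := hK.exists_bound_of_continuousOn hd.continuousOn
    refine ⟨c / 8, by positivity, fun m => ⟨(4 * Real.pi) ^ (-(n : ℝ) / 2) * D *
      (m.factorial / (c / 8) ^ m * Real.exp (c / 8)), fun t ht z y hy => ?_⟩⟩
    have hs : 0 ≤ ‖z‖ ^ 2 / t := by positivity
    have h1 := poly_le (c := c / 8) (by positivity) m hs
    have h2 : (g.G y).det ^ (-(1 : ℝ) / 2) ≤ D := (le_abs_self _).trans (hD y hy)
    have h3 : 0 ≤ (g.G y).det ^ (-(1 : ℝ) / 2) := Real.rpow_nonneg (g.pos y).det_pos.le _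
    have hD0 : 0 ≤ D := h3.trans h2
    have h4 : Real.exp (-(∑ i, ∑ j, (g.G y)⁻¹ i j * z i * z j) / (4 * t)) ≤
        Real.exp (-(c * ‖z‖ ^ 2) / (4 * t)) :=
      Real.exp_le_exp.2 (div_le_div_of_nonneg_right (neg_le_neg (hq y hy z)) (by positivity))
    have h5 : Real.exp (-(c * ‖z‖ ^ 2) / (4 * t)) * Real.exp (c / 8 * (‖z‖ ^ 2 / t)) =
        Real.exp (-(c / 8) * ‖z‖ ^ 2 / t) := by
      rw [← Real.exp_add]
      congr 1
      field_simp
      ring
    unfold Met.gauss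
    rw [Real.mul_rpow (by positivity) ht.le, ← h5]
    calc _ ≤ (4 * Real.pi) ^ (-(n : ℝ) / 2) * t ^ (-(n : ℝ) / 2) * D *
          Real.exp (-(c * ‖z‖ ^ 2) / (4 * t)) *
          (m.factorial / (c / 8) ^ m * Real.exp (c / 8) * Real.exp (c / 8 * (‖z‖ ^ 2 / t))) := by
          gcongr
      _ = _ := by ring

end Pool.Agent.MP_d9582c_gt.H1

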