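import Pool.Agent.MP_d9582c_gt.H1.Spec

/-!
The Hilbert-Schmidt norm of an integral operator with a continuous kernel of compact support.
-/

open scoped ENNReal InnerProductSpace
open MeasureTheory Set Filter ContinuousLinearMap Pool.Agent.MP_d9582c_gt.H34

namespace Pool.Agent.MP_d9582c_gt.H1

namespace HSP

variable {n d : ℕ}

theorem hsq_nonneg (A : End d) : 0 ≤ hsq A := Finset.sum_nonneg fun _ _ => sq_nonneg _

theorem hsq_le {A : End d} {B : ℝ} (h : ‖A‖ ≤ B) : hsq A ≤ d * B ^ 2 := by
  refine (Finset.sum_le_card_nsmul _ _ (B ^ 2) fun m _ => ?_).trans_eq (by simp)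
  refine pow_le_pow_left₀ (norm_nonneg _) ((le_opNorm _ _).trans ?_) 2
  simpa using h

theorem hsq_cont : Continuous (hsq : End d → ℝ) :=
  continuous_finsetSum _ fun _ _ => ((adjoint.continuous.clm_apply continuous_const).norm).pow 2

theorem enorm_sq (v : W d) :
    ‖v‖ₑ ^ 2 = ∑ m, ‖⟪EuclideanSpace.single m (1 : ℂ), v⟫_ℂ‖ₑ ^ 2 := by
  simp only [enorm_sq_eq, EuclideanSpace.inner_single_left, map_one, one_mul]
  rw [← ENNReal.ofReal_sum_of_nonneg fun _ _ => sq_nonneg _, EuclideanSpace.norm_sq_eq]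

theorem point {k : E n → End d} (hk : Continuous k) (hc : HasCompactSupport k) {ι : Type}
    (e : HilbertBasis ι ℂ (L2W n d)) :
    ∑' j, ‖∫ y, k y (e j y)‖ₑ ^ 2 = ENNReal.ofReal (∫ y, hsq (k y)) := by
  have c : ∀ m, Continuous fun y => adjoint (k y) (EuclideanSpace.single m (1 : ℂ)) := fun m =>
    (adjoint.continuous.comp hk).clm_apply continuous_const
  have s : ∀ m, HasCompactSupport fun y => adjoint (k y) (EuclideanSpace.single m (1 : ℂ)) :=
    fun m => hc.comp_left (g := fun A : End d => adjoint A (EuclideanSpace.single m (1 : ℂ)))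
      (by simp)
  have l : ∀ m, MemLp (fun y => adjoint (k y) (EuclideanSpace.single m (1 : ℂ))) 2 volume :=
    fun m => (c m).memLp_of_hasCompactSupport (s m)
  have i : ∀ u : L2W n d, Integrable fun y => k y (u y) := fun u =>
    ((hk.memLp_of_hasCompactSupport (p := 2) hc).norm.integrable_mul (Lp.memLp u).norm).mono'
      (isBoundedBilinearMap_apply.continuous.comp_aestronglyMeasurable
        (hk.aestronglyMeasurable.prodMk (Lp.aestronglyMeasurable u)))
      (Eventually.of_forall fun y => le_opNorm _ _)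
  have e1 : ∀ (u : L2W n d) m, ‖⟪EuclideanSpace.single m (1 : ℂ), ∫ y, k y (u y)⟫_ℂ‖ₑ =
      ‖⟪u, (l m).toLp _⟫_ℂ‖ₑ := fun u m => by
    rw [← integral_inner (i u), ← inner_conj_symm u, RCLike.enorm_conj, L2.inner_def]
    refine congrArg _ (integral_congr_ae ?_)
    filter_upwards [(l m).coeFn_toLp] with y hy
    rw [hy, adjoint_inner_left]
  have e2 : ∀ m, ‖(l m).toLp _‖ ^ 2 =
      ∫ y, ‖adjoint (k y) (EuclideanSpace.single m (1 : ℂ))‖ ^ 2 := fun m => by
    rw [← inner_self_eq_norm_sq (𝕜 := ℂ), L2.inner_def, ← integral_re (L2.integrable_inner _ _)]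
    refine integral_congr_ae ?_
    filter_upwards [(l m).coeFn_toLp] with y hy
    rw [hy, inner_self_eq_norm_sq]
  simp only [enorm_sq, e1]
  rw [Summable.tsum_finsetSum fun _ _ => ENNReal.summable]
  simp only [HilbertBasis.tsum_enorm_sq e]
  simp only [enorm_sq_eq, e2, hsq]
  rw [integral_finsetSum _ fun m _ => (l m).norm.integrable_sq,
    ENNReal.ofReal_sum_of_nonneg fun _ _ => integral_nonneg fun _ => sq_nonneg _]

theorem le_vol {f : E n → ℝ} {K : Set (E n)} (hK : IsCompact K) {C : ℝ} (h0 : ∀ y, 0 ≤ f y)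
    (h1 : ∀ y, f y ≤ C) (h2 : ∀ y ∉ K, f y = 0) : ∫ y, f y ≤ C * (volume K).toReal := by
  rw [← setIntegral_eq_integral_of_forall_compl_eq_zero h2]
  exact (Real.le_norm_self _).trans (norm_setIntegral_le_of_norm_le_const (f := f)
    hK.measure_lt_top fun y _ => (Real.norm_of_nonneg (h0 y)).trans_le (h1 y))

end HSP

open HSP in
theorem hilbertSchmidt : HSStmt := by
  intro n d κ K K' hK hK' hc h1 h2 ι _ e
  have z : hsq (0 : End d) = 0 := by simp [hsq]
  have p : ∀ x, 0 ≤ ∫ y, hsq (κ x y) := fun x => integral_nonneg fun _ => hsq_nonneg _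
  refine ⟨?_, integral_nonneg p, fun B hB => le_vol hK' p (fun x => le_vol hK
    (fun _ => hsq_nonneg _) (fun y => hsq_le (hB x y)) fun y hy => by rw [h1 x y hy, z])
    fun x hx => by simp only [h2 x hx, z, integral_zero]⟩
  have i : Integrable (fun q : E n × E n => hsq (κ q.1 q.2)) (volume.prod volume) :=
    (hsq_cont.comp hc).integrable_of_hasCompactSupport (HasCompactSupport.intro (hK'.prod hK)
      fun q hq => by
        rcases not_and_or.1 hq with h | h
        · exact (congrArg hsq (h2 _ h _)).trans z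
        · exact (congrArg hsq (h1 _ _ h)).trans z)
  have m : ∀ u : L2W n d, AEMeasurable fun x => ‖op κ u x‖ₑ ^ 2 := fun u =>
    ((isBoundedBilinearMap_apply.continuous.comp_stronglyMeasurable (hc.stronglyMeasurable.prodMk
      ((Lp.stronglyMeasurable u).comp_measurable measurable_snd))).integral_prod_right'
        (ν := volume)).enorm.aemeasurable.pow_const 2
  rw [← lintegral_tsum fun j => m (e j),
    ofReal_integral_eq_lintegral_ofReal i.integral_prod_left (Eventually.of_forall p)]
  exact lintegral_congr fun x => point (hc.comp (Continuous.prodMk_right x))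
    (HasCompactSupport.intro hK (h1 x)) e

end Pool.Agent.MP_d9582c_gt.H1
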