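import Pool.Agent.MP_d9582c_gt.H1.Spec

/-!
Differentiation under the integral for smooth kernels with compact support.
-/

open scoped ContDiff Topology Convolution Pointwise
open MeasureTheory Set Filter Pool.Agent.MP_d9582c_gt.H34

noncomputable section

namespace Pool.Agent.MP_d9582c_gt.H1

namespace IntP

variable {n d : ℕ} {V : Type} [NormedAddCommGroup V] [NormedSpace ℝ V]

lemma open3 : IsOpen {q : ℝ × E n × E n | 0 < q.1} := isOpen_lt continuous_const continuous_fst

lemma open2 : IsOpen {q : ℝ × E n | 0 < q.1} := isOpen_lt continuous_const continuous_fst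

/-- The derivative of a kernel in a direction of the parameters. -/
def dir (v : ℝ × E n) (κ : ℝ → E n → E n → V) (t : ℝ) (x y : E n) : V :=
  fderiv ℝ (fun q : ℝ × E n × E n => κ q.1 q.2.1 q.2.2) (t, x, y) (v.1, v.2, 0)

/-- The space derivative of a kernel. -/
def pdK (i : Fin n) (κ : ℝ → E n → E n → V) (t : ℝ) (x y : E n) : V := pd i (fun x => κ t x y) x

/-- The time derivative of a kernel. -/
def dtK (κ : ℝ → E n → E n → V) (t : ℝ) (x y : E n) : V := deriv (fun s => κ s x y) t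

variable {κ : ℝ → E n → E n → V}

lemma sm_dir (h : Sm κ) (v : ℝ × E n) : Sm (dir v κ) :=
  (ContDiffOn.fderiv_of_isOpen h open3 (m := ∞) le_rfl).clm_apply contDiffOn_const

lemma sm_at (h : Sm κ) {t : ℝ} (ht : 0 < t) (x y : E n) :
    HasFDerivAt (fun q : ℝ × E n × E n => κ q.1 q.2.1 q.2.2)
      (fderiv ℝ (fun q : ℝ × E n × E n => κ q.1 q.2.1 q.2.2) (t, x, y)) (t, x, y) :=
  ((ContDiffOn.contDiffAt h (open3.mem_nhds ht)).differentiableAt (by simp)).hasFDerivAt

lemma pdK_eq (h : Sm κ) (i : Fin n) {t : ℝ} (ht : 0 < t) (x y : E n) :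
    pdK i κ t x y = dir (0, ee i) κ t x y := by
  have h1 : HasFDerivAt (fun x : E n => ((t, x, y) : ℝ × E n × E n))
      ((0 : E n →L[ℝ] ℝ).prod ((ContinuousLinearMap.id ℝ (E n)).prod (0 : E n →L[ℝ] E n))) x :=
    (hasFDerivAt_const t x).prodMk ((hasFDerivAt_id x).prodMk (hasFDerivAt_const y x))
  have h2 := ((sm_at h ht x y).comp x h1).fderiv
  unfold pdK pd dir
  exact (congrArg (fun A : E n →L[ℝ] V => A (ee i)) h2).trans rfl

lemma dtK_eq (h : Sm κ) {t : ℝ} (ht : 0 < t) (x y : E n) :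
    dtK κ t x y = dir (1, 0) κ t x y := by
  have h1 : HasDerivAt (fun s : ℝ => ((s, x, y) : ℝ × E n × E n)) (1, 0, 0) t :=
    (hasDerivAt_id t).prodMk (hasDerivAt_const t (x, y))
  exact ((sm_at h ht x y).comp_hasDerivAt t h1).deriv

lemma sm_pdK (h : Sm κ) (i : Fin n) : Sm (pdK i κ) :=
  ContDiffOn.congr (sm_dir h (0, ee i)) fun q hq => pdK_eq h i hq _ _

lemma sm_dtK (h : Sm κ) : Sm (dtK κ) :=
  ContDiffOn.congr (sm_dir h (1, 0)) fun q hq => dtK_eq h hq _ _

/-- Vanishing on a product set. -/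
def Van (O O' : Set (E n)) (κ : ℝ → E n → E n → V) : Prop :=
  ∀ t > 0, ∀ x ∈ O, ∀ y ∈ O', κ t x y = 0

lemma van_pdK {O O' : Set (E n)} (hO : IsOpen O) (h : Van O O' κ) (i : Fin n) :
    Van O O' (pdK i κ) := fun t ht x hx y hy => by
  have : (fun x => κ t x y) =ᶠ[𝓝 x] fun _ => 0 :=
    Filter.mem_of_superset (hO.mem_nhds hx) fun z hz => h t ht z hz y hy
  simp [pdK, pd, this.fderiv_eq]

lemma van_dtK {O O' : Set (E n)} (h : Van O O' κ) : Van O O' (dtK κ) := fun t ht x hx y hy => by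
  have : (fun s => κ s x y) =ᶠ[𝓝 t] fun _ => 0 :=
    Filter.mem_of_superset (Ioi_mem_nhds ht) fun s hs => h s hs x hx y hy
  simp [dtK, this.deriv_eq]

/-- Evaluation as a real bilinear map. -/
def ev (d : ℕ) : W d →L[ℝ] End d →L[ℝ] W d :=
  (ContinuousLinearMap.apply ℂ (W d)).bilinearRestrictScalars ℝ

lemma ev_apply (u : W d) (A : End d) : ev d u A = A u := rfl

lemma res_eq (c : Coef n d) (κ : ℝ → E n → E n → End d) (t : ℝ) (x y : E n) :
    c.res κ t x y = dtK κ t x y + (-∑ i, ∑ j, c.G x i j • pdK i (pdK j κ) t x y +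
      ∑ i, c.B i x * pdK i κ t x y + c.C x * κ t x y) := rfl

lemma van_res (c : Coef n d) {κ : ℝ → E n → E n → End d} {O O' : Set (E n)} (hO : IsOpen O)
    (h : Van O O' κ) : Van O O' (c.res κ) := fun t ht x hx y hy => by
  have h1 := fun i => van_pdK hO h i t ht x hx y hy
  have h2 := fun i j => van_pdK hO (van_pdK hO h j) i t ht x hx y hy
  have h3 : ∀ r : ℝ, r • (0 : End d) = 0 := fun r => by ext; simp
  simp [res_eq, h1, h2, h3, van_dtK h t ht x hx y hy, h t ht x hx y hy]

lemma sm_res (c : Coef n d) {κ : ℝ → E n → E n → End d} (h : Sm κ) : Sm (c.res κ) := by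
  have hx : ContDiff ℝ ∞ fun q : ℝ × E n × E n => q.2.1 := contDiff_snd.fst
  simp only [Sm, res_eq]
  refine ContDiffOn.add (sm_dtK h) (ContDiffOn.add (ContDiffOn.add (ContDiffOn.neg
    (ContDiffOn.sum fun i _ => ContDiffOn.sum fun j _ => ?_)) (ContDiffOn.sum fun i _ => ?_)) ?_)
  · exact ((c.smooth i j).comp hx).contDiffOn.smul (sm_pdK (sm_pdK h j) i)
  · exact ((c.B_smooth i).comp hx).contDiffOn.mul (sm_pdK h i)
  · exact (c.C_smooth.comp hx).contDiffOn.mul h

section Op

variable {k : ℝ → E n → E n → End d} {K : Set (E n)} {u : E n → W d}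

lemma op_conv (k : E n → E n → End d) (u : E n → W d) (x : E n) :
    op k u x = (u ⋆[ev d, volume] fun z => k x (-z)) 0 := by
  simp [op, convolution_def, ev_apply]

lemma cont_slice {κ : ℝ → E n → E n → V} (h : Sm κ) {t : ℝ} (ht : 0 < t) (x : E n) :
    Continuous (κ t x) :=
  (ContDiffOn.continuousOn h).comp_continuous (f := fun y : E n => ((t, x, y) : ℝ × E n × E n))
    (by fun_prop) fun _ => ht

lemma integ (h : Sm k) (hK : IsCompact K) (hv : Van univ Kᶜ k) (hu : LocallyIntegrable u volume)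
    {t : ℝ} (ht : 0 < t) (x : E n) : Integrable fun y => k t x y (u y) := by
  have h1 : HasCompactSupport fun z => k t x (-z) :=
    HasCompactSupport.intro hK.neg fun z hz => hv t ht x trivial _ (by simpa using hz)
  have := h1.convolutionExists_right (ev d) hu ((cont_slice h ht x).comp continuous_neg) 0
  simpa [ConvolutionExistsAt, ev_apply] using this

/-- The reflection of the last variable. -/
def refl (n : ℕ) : ((ℝ × E n) × E n) →L[ℝ] ℝ × E n × E n :=
  ((ContinuousLinearMap.fst ℝ ℝ (E n)).comp (ContinuousLinearMap.fst ℝ (ℝ × E n) (E n))).prod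
    (((ContinuousLinearMap.snd ℝ ℝ (E n)).comp (ContinuousLinearMap.fst ℝ (ℝ × E n) (E n))).prod
      (-ContinuousLinearMap.snd ℝ (ℝ × E n) (E n)))

lemma refl_apply (q : (ℝ × E n) × E n) : refl n q = (q.1.1, q.1.2, -q.2) := rfl

lemma sm_refl (h : Sm k) : ContDiffOn ℝ ∞ (↿fun (p : ℝ × E n) (z : E n) => k p.1 p.2 (-z))
    ({p : ℝ × E n | 0 < p.1} ×ˢ univ) :=
  ContDiffOn.comp (g := fun q : ℝ × E n × E n => k q.1 q.2.1 q.2.2) (f := refl n) h
    (refl n).contDiff.contDiffOn fun _ hq => hq.1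

lemma van_refl (hv : Van univ Kᶜ k) (p : ℝ × E n) (z : E n) (hp : p ∈ {p : ℝ × E n | 0 < p.1})
    (hz : z ∉ -K) : k p.1 p.2 (-z) = 0 := hv _ hp _ trivial _ (by simpa using hz)

lemma sm_op (h : Sm k) (hK : IsCompact K) (hv : Van univ Kᶜ k) (hu : LocallyIntegrable u volume) :
    Sm1 fun t => op (k t) u := by
  have := contDiffOn_convolution_right_with_param_comp (n := ⊤) (ev d)
    (v := fun _ : ℝ × E n => (0 : E n)) contDiffOn_const open2 hK.neg (van_refl hv) hu (sm_refl h)
  simpa only [Sm1, op_conv] using this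

lemma van_dir {κ : ℝ → E n → E n → V} (hK : IsCompact K) (hv : Van univ Kᶜ κ) {t : ℝ} (ht : 0 < t)
    (x : E n) {y : E n} (hy : y ∉ K) :
    fderiv ℝ (fun q : ℝ × E n × E n => κ q.1 q.2.1 q.2.2) (t, x, y) = 0 := by
  have ho : IsOpen {q : ℝ × E n × E n | 0 < q.1 ∧ q.2.2 ∈ Kᶜ} :=
    open3.inter (hK.isClosed.isOpen_compl.preimage continuous_snd.snd)
  have : (fun q : ℝ × E n × E n => κ q.1 q.2.1 q.2.2) =ᶠ[𝓝 (t, x, y)] fun _ => 0 :=
    Filter.mem_of_superset (ho.mem_nhds ⟨ht, hy⟩) fun q hq => hv _ hq.1 _ trivial _ hq.2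
  simp [this.fderiv_eq]

lemma op_deriv (h : Sm k) (hK : IsCompact K) (hv : Van univ Kᶜ k)
    (hu : LocallyIntegrable u volume) {t : ℝ} (ht : 0 < t) (x : E n) :
    ∃ D : (ℝ × E n) →L[ℝ] W d, HasFDerivAt (fun p : ℝ × E n => op (k p.1) u p.2) D (t, x) ∧
      ∀ v, D v = op (dir v k t) u x := by
  have h1 := hasFDerivAt_convolution_right_with_param (ev d) open2 hK.neg (van_refl hv) hu
    ((sm_refl h).of_le (by simp)) ((t, x), 0) ht
  have h2 := h1.comp (t, x) (hasFDerivAt_prodMk_left (𝕜 := ℝ) ((t, x) : ℝ × E n) (0 : E n))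
  have h3 : ∀ z : E n, fderiv ℝ (↿fun (p : ℝ × E n) (z : E n) => k p.1 p.2 (-z)) ((t, x), z) =
      (fderiv ℝ (fun q : ℝ × E n × E n => k q.1 q.2.1 q.2.2) (t, x, -z)).comp (refl n) :=
    fun z => (HasFDerivAt.comp (f := refl n) ((t, x), z) (sm_at h ht x (-z))
      (refl n).hasFDerivAt).fderiv
  refine ⟨_, by simp only [op_conv]; exact h2, fun v => ?_⟩
  simp only [h3]
  rw [ContinuousLinearMap.comp_apply, convolution_precompR_apply _ hu, op_conv]
  · congr 2
    funext z
    simp [dir, refl_apply]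
  · exact HasCompactSupport.intro hK.neg fun z hz => by
      rw [van_dir hK hv ht x (by simpa using hz), ContinuousLinearMap.zero_comp]
  · refine Continuous.clm_comp_const ?_ _
    exact (ContDiffOn.continuousOn_fderiv_of_isOpen h open3 (by simp)).comp_continuous
      (f := fun z : E n => ((t, x, -z) : ℝ × E n × E n)) (by fun_prop) fun _ => ht

lemma op_congr {k k' : E n → E n → End d} {x : E n} (h : ∀ y, k x y = k' x y) :
    op k u x = op k' u x := by
  simp only [op, h]

lemma pd_op (h : Sm k) (hK : IsCompact K) (hv : Van univ Kᶜ k)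
    (hu : LocallyIntegrable u volume) {t : ℝ} (ht : 0 < t) (i : Fin n) :
    pd i (op (k t) u) = op (pdK i k t) u := by
  funext x
  obtain ⟨D, h1, h2⟩ := op_deriv h hK hv hu ht x
  have h3 := (h1.comp x (hasFDerivAt_prodMk_right (𝕜 := ℝ) t x)).fderiv
  rw [op_congr (pdK_eq h i ht x), ← h2]
  exact (congrArg (fun A : E n →L[ℝ] W d => A (ee i)) h3).trans rfl

lemma dt_op (h : Sm k) (hK : IsCompact K) (hv : Van univ Kᶜ k)
    (hu : LocallyIntegrable u volume) {t : ℝ} (ht : 0 < t) (x : E n) :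
    deriv (fun s => op (k s) u x) t = op (dtK k t) u x := by
  obtain ⟨D, h1, h2⟩ := op_deriv h hK hv hu ht x
  have h3 : HasDerivAt (fun s : ℝ => ((s, x) : ℝ × E n)) (1, 0) t :=
    (hasDerivAt_id t).prodMk (hasDerivAt_const t x)
  rw [op_congr (dtK_eq h ht x), ← h2]
  exact (h1.comp_hasDerivAt t h3).deriv

lemma res_op (h : Sm k) (hK : IsCompact K) (hv : Van univ Kᶜ k)
    (hu : LocallyIntegrable u volume) (c : Coef n d) {t : ℝ} (ht : 0 < t) (x : E n) :
    deriv (fun s => op (k s) u x) t + c.L (op (k t) u) x = op (c.res k t) u x := by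
  have v1 := fun i => van_pdK isOpen_univ hv i
  have i0 := integ h hK hv hu ht x
  have i1 := fun i => integ (sm_pdK h i) hK (v1 i) hu ht x
  have i2 := fun i j => integ (sm_pdK (sm_pdK h j) i) hK (van_pdK isOpen_univ (v1 j) i) hu ht x
  have i3 := integ (sm_dtK h) hK (van_dtK hv) hu ht x
  have j1 : ∀ i j, Integrable fun y => c.G x i j • pdK i (pdK j k) t x y (u y) :=
    fun i j => (i2 i j).smul (c.G x i j)
  have j2 : ∀ i, Integrable fun y => ∑ j, c.G x i j • pdK i (pdK j k) t x y (u y) :=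
    fun i => integrable_finsetSum _ fun j _ => j1 i j
  have j3 : Integrable fun y => -∑ i, ∑ j, c.G x i j • pdK i (pdK j k) t x y (u y) :=
    (integrable_finsetSum _ fun i _ => j2 i).neg
  have j4 : Integrable fun y => ∑ i, c.B i x (pdK i k t x y (u y)) :=
    integrable_finsetSum _ fun i _ => (c.B i x).integrable_comp (i1 i)
  have j5 : Integrable fun y => c.C x (k t x y (u y)) := (c.C x).integrable_comp i0
  have j6 : Integrable fun y => -∑ i, ∑ j, c.G x i j • pdK i (pdK j k) t x y (u y) +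
      ∑ i, c.B i x (pdK i k t x y (u y)) := j3.add j4
  have j7 : Integrable fun y => -∑ i, ∑ j, c.G x i j • pdK i (pdK j k) t x y (u y) +
      ∑ i, c.B i x (pdK i k t x y (u y)) + c.C x (k t x y (u y)) := j6.add j5
  have e : ∀ y, c.res k t x y (u y) = dtK k t x y (u y) +
      (-∑ i, ∑ j, c.G x i j • pdK i (pdK j k) t x y (u y) +
        ∑ i, c.B i x (pdK i k t x y (u y)) + c.C x (k t x y (u y))) := fun y => by
    simp [res_eq, sum_apply]
  rw [dt_op h hK hv hu ht]
  simp only [Coef.L, pd_op h hK hv hu ht, pd_op (sm_pdK h _) hK (v1 _) hu ht, op, e]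
  rw [integral_add i3 j7, integral_add j6 j5, integral_add j3 j4,
    integral_neg, integral_finsetSum _ fun i _ => j2 i,
    integral_finsetSum _ fun i _ => (c.B i x).integrable_comp (i1 i),
    (c.C x).integral_comp_comm i0]
  congr 4
  · refine Finset.sum_congr rfl fun i _ => ?_
    rw [integral_finsetSum _ fun j _ => j1 i j]
    exact Finset.sum_congr rfl fun j _ => (integral_smul _ _).symm
  · funext i
    exact ((c.B i x).integral_comp_comm (i1 i)).symm

end Op

end IntP

open IntP in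
theorem intOp : IntStmt := by
  intro n d κ K h hK h0
  have hv : Van univ Kᶜ κ := fun t ht x _ y hy => h0 t ht x y hy
  refine ⟨fun u hu => ⟨sm_op h hK hv hu, fun c t ht x => res_op h hK hv hu c ht x⟩,
    fun c => ⟨sm_res c h, fun t ht x y hy => van_res c isOpen_univ hv t ht x trivial y hy,
      fun A hA hA0 t ht x hx y => ?_⟩⟩
  exact van_res c (O' := univ) hA.isOpen_compl (fun t ht x hx y _ => hA0 t ht x hx y) t ht x hx y
    trivial

end Pool.Agent.MP_d9582c_gt.H1
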