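import Pool.Agent.MP_d9582c_gt.H1.Spec

/-!
Smooth families of test sections are differentiable in the Hilbert space.
-/

open scoped ContDiff Topology ENNReal
open MeasureTheory Set Filter Metric Pool.Agent.MP_d9582c_gt.H34

noncomputable section

namespace Pool.Agent.MP_d9582c_gt.H1

universe u

namespace JDiffP

variable {n d : ℕ} {H : Type u} [NormedAddCommGroup H] [InnerProductSpace ℂ H]
  {K : Set (E n)} {r : ℝ} {J : (E n → W d) → H}

theorem test_add {w w' : E n → W d} (h : Test K r w) (h' : Test K r w') :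
    Test K r fun x => w x + w' x :=
  ⟨h.1.add h'.1, fun x hx => by simp only [h.2 x hx, h'.2 x hx, add_zero]⟩

theorem test_smul (c : ℂ) {w : E n → W d} (h : Test K r w) : Test K r fun x => c • w x :=
  ⟨h.1.const_smul c, fun x hx => by simp only [h.2 x hx, smul_zero]⟩

theorem norm_J (hK : IsCompact K) (hJ : IsJ K r J) {w : E n → W d} (hw : Test K r w) {B : ℝ}
    (hB : 0 ≤ B) (h : ∀ x ∈ cthickening r K, ‖w x‖ ≤ B) :
    ‖J w‖ ≤ √(volume (cthickening r K)).toReal * B := by
  have hc : IsCompact (cthickening r K) := hK.cthickening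
  have h1 : ∫⁻ x, ‖w x‖ₑ ^ 2 ≤ ENNReal.ofReal (B ^ 2) * volume (cthickening r K) := by
    rw [← lintegral_indicator_const isClosed_cthickening.measurableSet]
    refine lintegral_mono fun x => ?_
    by_cases hx : x ∈ cthickening r K
    · rw [indicator_of_mem hx, ENNReal.ofReal_pow hB, ← ofReal_norm]
      exact pow_le_pow_left' (ENNReal.ofReal_le_ofReal (h x hx)) 2
    · rw [hw.2 x hx]
      simp
  rw [← hJ.norm w hw, ← ofReal_norm, ← ENNReal.ofReal_pow (norm_nonneg _),
    ← ENNReal.ofReal_toReal hc.measure_lt_top.ne, ← ENNReal.ofReal_mul (sq_nonneg _),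
    ENNReal.ofReal_le_ofReal_iff (by positivity)] at h1
  refine (pow_le_pow_iff_left₀ (norm_nonneg _) (by positivity) two_ne_zero).1 ?_
  rw [mul_pow, Real.sq_sqrt ENNReal.toReal_nonneg, mul_comm]
  exact h1

end JDiffP

open JDiffP in
theorem jdiff : JDiffStmt.{u} := by
  intro n d H _ _ K r J hK hJ w hw hz t ht
  have hU : IsOpen {q : ℝ × E n | 0 < q.1} := isOpen_lt continuous_const continuous_fst
  set F : ℝ × E n → W d := fun q => w q.1 q.2 with hF
  have hFs : ContDiffOn ℝ ∞ F {q | 0 < q.1} := hw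
  set D : ℝ × E n → W d := fun q => fderiv ℝ F q (1, 0) with hD
  have hDs : ContDiffOn ℝ ∞ D {q | 0 < q.1} :=
    (hFs.fderiv_of_isOpen hU (m := ∞) (by simp)).clm_apply contDiffOn_const
  have hd : ∀ s > 0, ∀ x, HasDerivAt (fun s => w s x) (D (s, x)) s := fun s hs x => by
    have h1 : HasFDerivAt F (fderiv ℝ F (s, x)) (s, x) :=
      ((hFs.contDiffAt (hU.mem_nhds hs)).differentiableAt (by simp)).hasFDerivAt
    have h2 : HasDerivAt (fun s : ℝ => (s, x)) ((1 : ℝ), (0 : E n)) s :=
      (hasDerivAt_id s).prodMk (hasDerivAt_const s x)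
    exact h1.comp_hasDerivAt s h2
  have hT : ∀ s > 0, Test K r (w s) := fun s hs =>
    ⟨hFs.comp_contDiff (g := F) (f := fun x => (s, x)) (by fun_prop) fun _ => hs, hz s hs⟩
  have he : (fun x => deriv (fun s => w s x) t) = fun x => D (t, x) :=
    funext fun x => (hd t ht x).deriv
  have hT' : Test K r fun x => D (t, x) := by
    refine ⟨hDs.comp_contDiff (g := D) (f := fun x => (t, x)) (by fun_prop) fun _ => ht,
      fun x hx => ?_⟩
    have h1 : (fun s => w s x) =ᶠ[𝓝 t] fun _ => 0 :=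
      (lt_mem_nhds ht).mono fun s hs => hz s hs x hx
    show D (t, x) = 0
    rw [← (hd t ht x).deriv, h1.deriv_eq, deriv_const]
  rw [he]
  refine ⟨hT t ht, hT', ?_⟩
  rw [hasDerivAt_iff_isLittleO, Asymptotics.isLittleO_iff]
  intro c hc
  set V : ℝ := √(volume (cthickening r K)).toReal with hV
  have V0 : 0 ≤ V := Real.sqrt_nonneg _
  have hε : 0 < c / (V + 1) := by positivity
  have h1 : ∀ᶠ s in 𝓝 t, ∀ x ∈ cthickening r K, ‖D (s, x) - D (t, x)‖ < c / (V + 1) := by
    refine (hK.cthickening (r := r)).eventually_forall_of_forall_eventually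
      (P := fun s x => ‖D (s, x) - D (t, x)‖ < c / (V + 1)) fun x _ => ?_
    have h2 : ContinuousAt D (t, x) := (hDs.contDiffAt (hU.mem_nhds ht)).continuousAt
    have h3 : ContinuousAt (fun q : ℝ × E n => D (t, q.2)) (t, x) :=
      hT'.1.continuous.continuousAt.comp continuousAt_snd
    have h4 : Tendsto (fun q : ℝ × E n => ‖D q - D (t, q.2)‖) (𝓝 (t, x))
        (𝓝 ‖D (t, x) - D (t, x)‖) := (h2.sub h3).norm
    rw [sub_self, norm_zero] at h4
    exact h4.eventually (gt_mem_nhds hε)
  obtain ⟨δ, hδ, hb⟩ := Metric.eventually_nhds_iff_ball.1 (h1.and (lt_mem_nhds ht))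
  filter_upwards [ball_mem_nhds t hδ] with s hs
  have hs0 := (hb s hs).2
  have t1 := test_smul (-1) (hT t ht)
  have t2 := test_smul ((-(s - t) : ℝ) : ℂ) hT'
  have e1 : J (w s) - J (w t) - (s - t) • J (fun x => D (t, x)) =
      J fun x => w s x + ((-1 : ℂ) • w t x + ((-(s - t) : ℝ) : ℂ) • D (t, x)) := by
    rw [hJ.add _ _ (hT s hs0) (test_add t1 t2), hJ.add _ _ t1 t2, hJ.smul _ _ (hT t ht),
      hJ.smul _ _ hT', Complex.coe_smul, neg_smul, neg_smul, one_smul]
    abel
  rw [e1]
  refine (norm_J hK hJ (test_add (hT s hs0) (test_add t1 t2))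
    (B := c / (V + 1) * ‖s - t‖) (by positivity) fun x hx => ?_).trans ?_
  · have h2 := (convex_ball t δ).norm_image_sub_le_of_norm_hasDerivWithin_le
      (f := fun s : ℝ => w s x - s • D (t, x)) (f' := fun s => D (s, x) - D (t, x))
      (C := c / (V + 1))
      (fun y hy => by
        have h3 := (hd y (hb y hy).2 x).sub ((hasDerivAt_id y).smul_const (D (t, x)))
        rw [one_smul] at h3
        exact h3.hasDerivWithinAt)
      (fun y hy => ((hb y hy).1 x hx).le) (mem_ball_self hδ) hs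
    refine le_of_eq_of_le ?_ h2
    congr 1
    rw [Complex.coe_smul, neg_smul, neg_smul, one_smul, sub_smul]
    abel
  · rw [← hV, ← mul_assoc]
    refine mul_le_mul_of_nonneg_right ?_ (norm_nonneg _)
    rw [← mul_div_assoc, div_le_iff₀ (by positivity)]
    nlinarith

end Pool.Agent.MP_d9582c_gt.H1
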