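import Pool.Agent.MP_d9582c_gt.H1.Spec
import Pool.Agent.MP_d9582c_gt.H92.Vol

/-!
Periodization of test sections.
-/

open scoped Manifold ContDiff ComplexConjugate Topology ENNReal InnerProductSpace
open MeasureTheory Set Filter Metric Pool.Agent.MP_d9582c_gt.H34

noncomputable section

namespace Pool.Agent.MP_d9582c_gt.H1

universe u v

namespace JmapP

variable {n p : ℕ} {M : Type u} [TopologicalSpace M] [ChartedSpace (E n) M]
  [IsManifold 𝓘(ℝ, E n) ∞ M]

section CV

variable [MeasurableSpace M] [BorelSpace M] {μ : Measure M} (g : RMetric n M)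

lemma map_chart (hμ : IsVolume g μ) {x : M} {A : Set M} (hA : MeasurableSet A)
    (hs : A ⊆ (chartAt (E n) x).source) :
    (μ.restrict A).map (chartAt (E n) x) = (volume.restrict (chartAt (E n) x '' A)).withDensity
      fun z => ENNReal.ofReal √(gram g (chartAt (E n) x).symm z).det := by
  set κ := chartAt (E n) x
  have hκ : AEMeasurable κ (μ.restrict A) := (κ.continuousOn.mono hs).aemeasurable hA
  ext B hB
  have hB' : MeasurableSet (κ ⁻¹' B ∩ A) := by
    have := hA.subtype_image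
      ((continuousOn_iff_continuous_domRestrict.1 (κ.continuousOn.mono hs)).measurable hB)
    convert this using 1
    ext z
    simp
  rw [Measure.map_apply_of_aemeasurable hκ hB, Measure.restrict_apply' hA,
    hμ x _ hB' (inter_subset_right.trans hs), withDensity_apply _ hB,
    Measure.restrict_restrict hB, image_preimage_inter]

lemma integral_chart (hμ : IsVolume g μ) {x : M} {A : Set M} (hA : MeasurableSet A)
    (hs : A ⊆ (chartAt (E n) x).source) {F : M → ℂ} (hF : Continuous F) :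
    ∫ y in A, F y ∂μ = ∫ z in chartAt (E n) x '' A,
      (√(gram g (chartAt (E n) x).symm z).det : ℝ) * F ((chartAt (E n) x).symm z) := by
  have e := map_chart g hμ hA hs
  set κ := chartAt (E n) x
  have ht : κ '' A ⊆ κ.target := by rintro _ ⟨y, hy, rfl⟩; exact κ.map_source (hs hy)
  have hm := H92.measurableSet_chart_image hA hs
  have hκ : AEMeasurable κ (μ.restrict A) := (κ.continuousOn.mono hs).aemeasurable hA
  have hρ : AEMeasurable (fun z => ENNReal.ofReal √(gram g κ.symm z).det)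
      (volume.restrict (κ '' A)) :=
    (((H92.continuousOn_sqrt_det g x).mono ht).aemeasurable hm).ennreal_ofReal
  have hf : AEStronglyMeasurable (fun z => F (κ.symm z)) (volume.restrict (κ '' A)) :=
    (hF.comp_continuousOn (κ.continuousOn_symm.mono ht)).aestronglyMeasurable hm
  have h1 : ∫ y in A, F y ∂μ = ∫ y in A, (fun z => F (κ.symm z)) (κ y) ∂μ :=
    setIntegral_congr_fun hA fun y hy => by simp only [κ.left_inv (hs hy)]
  rw [h1, ← integral_map (f := fun z => F (κ.symm z)) hκ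
    (e ▸ hf.mono_ac (withDensity_absolutelyContinuous _ _)), e,
    integral_withDensity_eq_integral_toReal_smul₀ hρ
      (Eventually.of_forall fun _ => ENNReal.ofReal_lt_top)]
  refine integral_congr_ae (Eventually.of_forall fun z => ?_)
  simp only [ENNReal.toReal_ofReal (Real.sqrt_nonneg _), Complex.real_smul]

lemma lintegral_chart' (hμ : IsVolume g μ) {x : M} {A : Set M} (hA : MeasurableSet A)
    (hs : A ⊆ (chartAt (E n) x).source) {F : M → ℝ≥0∞} (hF : Measurable F) :
    ∫⁻ y in A, F y ∂μ = ∫⁻ z in chartAt (E n) x '' A,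
      ENNReal.ofReal √(gram g (chartAt (E n) x).symm z).det * F ((chartAt (E n) x).symm z) := by
  have ht : chartAt (E n) x '' A ⊆ (chartAt (E n) x).target := by
    rintro _ ⟨y, hy, rfl⟩; exact (chartAt (E n) x).map_source (hs hy)
  have hm := H92.measurableSet_chart_image hA hs
  rw [← H92.lintegral_chart g hμ hA hs (f := fun z => F ((chartAt (E n) x).symm z))
    (hF.comp_aemeasurable (((chartAt (E n) x).continuousOn_symm.mono ht).aemeasurable hm))]
  exact setLIntegral_congr_fun hA fun y hy => by simp only [(chartAt (E n) x).left_inv (hs hy)]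

end CV

lemma roundtrip (η : M → Alt n p) {x : M} {z : E n} (hz : z ∈ (chartAt (E n) x).target) :
    (pull (chartAt (E n) x).symm η z).compContinuousLinearMap
      (tang n (chartAt (E n) x) ((chartAt (E n) x).symm z)) = η ((chartAt (E n) x).symm z) := by
  ext v
  have h := fun u => tang_chart_symm_comp ((chartAt (E n) x).map_target hz) u
  rw [(chartAt (E n) x).right_inv hz] at h
  simp only [pull, ContinuousAlternatingMap.compContinuousLinearMap_apply, Function.comp_def, h]

variable {G : Type v} [Group G] [MulAction G M] [MeasurableSpace M] {X : Geo n G M}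

open Classical in
/-- The periodization of a form given in the chart number `a`. -/
def per (D : FD X) (a : Fin X.m) (θ : E n → Alt n p) (x : M) : Alt n p :=
  if X.idx a x ∈ D.N then
    tr (X.idx a x) (indicator (X.U a) (pull (chartAt (E n) (X.ctr a)) θ)) x else 0

variable {D : FD X} {a : Fin X.m}

lemma per_zero {θ : E n → Alt n p} {x : M} (h : ∀ γ ∈ D.N, γ • x ∉ X.U a) : per D a θ x = 0 := by
  unfold per
  split_ifs with h1
  · exact tr_apply_eq_zero _ (indicator_of_notMem (h _ (D.N.inv_mem h1)) _)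
  · rfl

lemma per_notV {θ : E n → Alt n p} {x : M} (h : x ∉ X.V a) : per D a θ x = 0 :=
  per_zero fun γ _ hγ => h ⟨γ⁻¹, by rwa [inv_inv]⟩

lemma per_U (θ : E n → Alt n p) {x : M} (h : x ∈ X.U a) :
    per D a θ x = pull (chartAt (E n) (X.ctr a)) θ x := by
  have h1 : X.idx a x = 1 := Geo.idx_eq (by simpa using h)
  unfold per
  rw [h1, if_pos D.N.one_mem, tr_one, indicator_of_mem h]

lemma per_add (θ θ' : E n → Alt n p) : per D a (θ + θ') = per D a θ + per D a θ' := by
  funext x
  simp only [per, Pi.add_apply]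
  split_ifs
  · rw [pull_add, indicator_add', tr_add]; rfl
  · simp

lemma per_smul (c : ℂ) (θ : E n → Alt n p) : per D a (c • θ) = c • per D a θ := by
  funext x
  simp only [per, Pi.smul_apply]
  split_ifs
  · have h : indicator (X.U a) (pull (chartAt (E n) (X.ctr a)) (c • θ)) =
        c • indicator (X.U a) (pull (chartAt (E n) (X.ctr a)) θ) := by
      funext y
      by_cases hy : y ∈ X.U a
      · rw [Pi.smul_apply, indicator_of_mem hy, indicator_of_mem hy]; rfl
      · rw [Pi.smul_apply, indicator_of_notMem hy, indicator_of_notMem hy]; ext v; simp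
    rw [h, tr_smul]; rfl
  · ext v; simp

lemma per_inv (θ : E n → Alt n p) : D.Inv (per D a θ) := fun ν hν => by
  funext x
  by_cases h : x ∈ X.V a
  · have h1 := Geo.idx_smul h ν⁻¹
    by_cases h2 : X.idx a x ∈ D.N
    · have h3 : per D a θ (ν⁻¹ • x) = tr (ν⁻¹ * X.idx a x)
          (indicator (X.U a) (pull (chartAt (E n) (X.ctr a)) θ)) (ν⁻¹ • x) := by
        rw [per, h1, if_pos (D.N.mul_mem (D.N.inv_mem hν) h2)]
      rw [tr_apply_congr ν h3, ← X.tr_mul, mul_inv_cancel_left, per, if_pos h2]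
    · rw [per, if_neg h2]
      refine tr_apply_eq_zero _ ?_
      rw [per, h1, if_neg fun h3 => h2 (by simpa using D.N.mul_mem hν h3)]
  · rw [per_notV h]
    exact tr_apply_eq_zero _ (per_notV fun h' => h (Geo.smul_mem_V.1 h'))

lemma per_local [T2Space M] {L : Set (E n)} (hL : IsCompact L)
    (hLU : L ⊆ chartAt (E n) (X.ctr a) '' X.U a) (x : M) :
    (∃ γ : G, γ⁻¹ • x ∈ X.U a ∧ ∀ (p : ℕ) (θ : E n → Alt n p),
      per D a θ =ᶠ[𝓝 x] tr γ (pull (chartAt (E n) (X.ctr a)) θ)) ∨
    ∀ (p : ℕ) (θ : E n → Alt n p), (∀ z ∉ L, θ z = 0) → per D a θ =ᶠ[𝓝 x] 0 := by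
  set κ := chartAt (E n) (X.ctr a) with hκ
  have hU : X.U a ⊆ κ.source := (X.U_sub a).trans (X.Cl_sub a)
  by_cases h : x ∈ X.V a
  · by_cases h2 : X.idx a x ∈ D.N
    · refine Or.inl ⟨X.idx a x, Geo.idx_spec h, fun p θ => ?_⟩
      filter_upwards [Geo.idx_eventually h] with y hy
      rw [per, hy.2, if_pos h2]
      exact tr_apply_congr _ (indicator_of_mem (hy.2 ▸ Geo.idx_spec hy.1) _)
    · refine Or.inr fun p θ _ => ?_
      filter_upwards [Geo.idx_eventually h] with y hy
      rw [per, hy.2, if_neg h2]; rfl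
  · refine Or.inr fun p θ hθ => ?_
    obtain ⟨b, hb⟩ := Geo.exists_V (X := X) x
    have hLt : L ⊆ κ.target := fun z hz => by
      obtain ⟨y, hy, rfl⟩ := hLU hz
      exact κ.map_source (hU hy)
    have hA : IsClosed (κ.symm '' L) :=
      (hL.image_of_continuousOn (κ.continuousOn_symm.mono hLt)).isClosed
    have hAU : κ.symm '' L ⊆ X.U a := by
      rintro _ ⟨z, hz, rfl⟩
      obtain ⟨y, hy, rfl⟩ := hLU hz
      rwa [κ.left_inv (hU hy)]
    have h1 : ∀ᶠ y in 𝓝 x, ∀ s ∈ X.S, (X.idx b x * s)⁻¹ • y ∉ κ.symm '' L := by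
      refine (Filter.eventually_all_finset _).2 fun s _ => ?_
      exact (hA.isOpen_compl.preimage (X.continuous_smul _)).mem_nhds
        fun h' => h ⟨_, hAU h'⟩
    filter_upwards [h1, Geo.idx_eventually hb] with y hy hy'
    by_cases h3 : y ∈ X.V a
    · have h4 := hy _ (Geo.idx_adj hy'.1 h3)
      rw [hy'.2, mul_inv_cancel_left] at h4
      have h5 := Geo.idx_spec h3
      have h6 : θ (κ ((X.idx a y)⁻¹ • y)) = 0 :=
        hθ _ fun h' => h4 ⟨_, h', κ.left_inv (hU h5)⟩
      rw [per]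
      split_ifs
      · refine tr_apply_eq_zero _ ?_
        rw [indicator_of_mem h5, pull, h6]; rfl
      · rfl
    · exact per_notV h3

lemma smoothAt_pull {θ : E n → Alt n p} (hθ : ContDiff ℝ ∞ θ) {x : M} (h : x ∈ X.U a) :
    SmoothAt (pull (chartAt (E n) (X.ctr a)) θ) x :=
  SmoothAt.pull (contMDiffAt_chart ((X.U_sub a).trans (X.Cl_sub a) h))
    (smoothAt_model.2 hθ.contDiffAt)

lemma per_smooth [T2Space M] {L : Set (E n)} (hL : IsCompact L)
    (hLU : L ⊆ chartAt (E n) (X.ctr a) '' X.U a) {θ : E n → Alt n p} (hθ : ContDiff ℝ ∞ θ)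
    (h0 : ∀ z ∉ L, θ z = 0) (x : M) : SmoothAt (per D a θ) x := by
  rcases per_local (D := D) hL hLU x with ⟨γ, hγ, h⟩ | h
  · exact (X.smoothAt_tr γ (smoothAt_pull hθ hγ)).congr (h p θ)
  · exact (smoothAt_zero x).congr (h p θ h0)

lemma per_extD [T2Space M] {L : Set (E n)} (hL : IsCompact L)
    (hLU : L ⊆ chartAt (E n) (X.ctr a) '' X.U a) {θ : E n → Alt n p} (hθ : ContDiff ℝ ∞ θ)
    (h0 : ∀ z ∉ L, θ z = 0) {θ' : E n → Alt n (p + 1)} (h0' : ∀ z ∉ L, θ' z = 0)
    (hd : ∀ z, θ' z = extDeriv θ z) : per D a θ' = extD (per D a θ) := by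
  funext x
  rcases per_local (D := D) hL hLU x with ⟨γ, hγ, h⟩ | h
  · rw [extD_congr (h p θ), (h _ θ').eq_of_nhds, X.extD_tr γ (smoothAt_pull hθ hγ)]
    refine tr_apply_congr _ ?_
    rw [SmoothAt.extD_pull (contMDiffAt_chart ((X.U_sub a).trans (X.Cl_sub a) hγ))
      (smoothAt_model.2 hθ.contDiffAt), pull, pull, extD_model, hd]
  · rw [extD_congr (h p θ h0), (h _ θ' h0').eq_of_nhds, extD_zero]; rfl

lemma contDiff_ap {A B : Type} [NormedAddCommGroup A] [NormedSpace ℂ A] [NormedSpace ℝ A]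
    [IsScalarTower ℝ ℂ A] [NormedAddCommGroup B] [NormedSpace ℂ B] [NormedSpace ℝ B]
    [IsScalarTower ℝ ℂ B] [SMulCommClass ℂ ℝ B] {S : E n → A →L[ℂ] B} {w : E n → A}
    (hS : ContDiff ℝ ∞ S) (hw : ContDiff ℝ ∞ w) : ContDiff ℝ ∞ fun z => S z (w z) := by
  have h : ContDiff ℝ ∞ fun z => (S z).restrictScalars ℝ :=
    (ContinuousLinearMap.restrictScalarsL ℂ A B ℝ ℝ).contDiff.comp hS
  exact h.clm_apply hw

variable (c : Chart X a)

/-- The form with the components `w`. -/
def frm (q : ℕ) (w : E n → W (dim n q)) (z : E n) : Alt n q := c.S q z (w z)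

variable {c}

lemma frm_smooth {q : ℕ} {w : E n → W (dim n q)} (hw : Test c.K c.r w) :
    ContDiff ℝ ∞ (frm c q w) := contDiff_ap (c.S_smooth q) hw.1

lemma frm_zero {q : ℕ} {w : E n → W (dim n q)} (hw : Test c.K c.r w) :
    ∀ z ∉ cthickening c.r c.K, frm c q w z = 0 := fun z hz => by
  rw [frm, hw.2 z hz, map_zero]

lemma sub_U : cthickening c.r c.K ⊆ chartAt (E n) (X.ctr a) '' X.U a := c.sub_O.trans c.O_sub

lemma frm_per_smooth [T2Space M] {q : ℕ} {w : E n → W (dim n q)} (hw : Test c.K c.r w) (x : M) :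
    SmoothAt (per D a (frm c q w)) x :=
  per_smooth c.cut.compact.cthickening sub_U (frm_smooth hw) (frm_zero hw) x

lemma ip_loc {q : ℕ} {w : E n → W (dim n q)} (hw : Test c.K c.r w) (η : M → Alt n q) {z : E n}
    (hz : z ∈ chartAt (E n) (X.ctr a) '' X.U a) :
    (√(gram X.g (chartAt (E n) (X.ctr a)).symm z).det : ℝ) *
      ip X.g ((chartAt (E n) (X.ctr a)).symm z) (η ((chartAt (E n) (X.ctr a)).symm z))
        (per D a (frm c q w) ((chartAt (E n) (X.ctr a)).symm z)) = ⟪c.loc q η z, w z⟫_ℂ := by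
  obtain ⟨y, hy, rfl⟩ := hz
  have hs := (X.U_sub a).trans (X.Cl_sub a) hy
  have ht := (chartAt (E n) (X.ctr a)).map_source hs
  rw [per_U _ (by rwa [(chartAt (E n) (X.ctr a)).left_inv hs]), ← roundtrip η ht,
    pull.eq_1 (chartAt (E n) (X.ctr a)), (chartAt (E n) (X.ctr a)).right_inv ht]
  by_cases h : chartAt (E n) (X.ctr a) y ∈ c.O
  · rw [← c.iso q _ h, hh, Chart.loc, c.SS']
    rfl
  · have h0 : w (chartAt (E n) (X.ctr a) y) = 0 := hw.2 _ fun h' => h (c.sub_O h')
    rw [frm, h0, map_zero, inner_zero_right]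
    exact mul_eq_zero_of_right _ (ip_zero_right _ _ _)

lemma loc_per {q : ℕ} (w : E n → W (dim n q)) {z : E n}
    (hz : z ∈ chartAt (E n) (X.ctr a) '' X.U a) : c.loc q (per D a (frm c q w)) z = w z := by
  obtain ⟨y, hy, rfl⟩ := hz
  have hs := (X.U_sub a).trans (X.Cl_sub a) hy
  have ht := (chartAt (E n) (X.ctr a)).map_source hs
  have h : pull (chartAt (E n) (X.ctr a)).symm (per D a (frm c q w)) (chartAt (E n) (X.ctr a) y) =
      frm c q w (chartAt (E n) (X.ctr a) y) := by
    rw [pull, per_U _ (by rwa [(chartAt (E n) (X.ctr a)).left_inv hs]), pull,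
      (chartAt (E n) (X.ctr a)).right_inv ht]
    ext v
    simp only [ContinuousAlternatingMap.compContinuousLinearMap_apply, Function.comp_def,
      tang_chart_comp_symm ht]
  rw [Chart.loc, h, frm, c.S'S]

variable [T2Space M] [BorelSpace M] [Countable G]

lemma nrm_per (hμ : IsVolume X.g X.μ) {q : ℕ} {w : E n → W (dim n q)} (hw : Test c.K c.r w) :
    D.nrm (per D a (frm c q w)) = ∫⁻ z, ‖w z‖ₑ ^ 2 := by
  have hU := (X.isOpen_U a).measurableSet
  have hs := (X.U_sub a).trans (X.Cl_sub a)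
  rw [FD.nrm, X.lintegral_unfold D.fd hU (fun γ _ x => X.disj a γ x)
    (fun γ hγ x => by rw [(per_inv _).nsq hγ]) (fun x hx => by rw [per_zero hx]; simp),
    lintegral_chart' X.g hμ hU hs (FD.measurable_nsq (frm_per_smooth hw)),
    ← setLIntegral_eq_of_support_subset (s := chartAt (E n) (X.ctr a) '' X.U a)
      (f := fun z => ‖w z‖ₑ ^ 2)]
  · refine setLIntegral_congr_fun (H92.measurableSet_chart_image hU hs) fun z hz => ?_
    have h := ip_loc (D := D) hw (per D a (frm c q w)) hz
    rw [loc_per w hz, ip_self, inner_self_eq_norm_sq_to_K] at h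
    have h' : √(gram X.g (chartAt (E n) (X.ctr a)).symm z).det *
        nsq X.g ((chartAt (E n) (X.ctr a)).symm z)
          (per D a (frm c q w) ((chartAt (E n) (X.ctr a)).symm z)) = ‖w z‖ ^ 2 := by
      apply Complex.ofReal_injective
      rw [Complex.ofReal_mul, h, Complex.ofReal_pow]; rfl
    rw [← ENNReal.ofReal_mul (Real.sqrt_nonneg _), h', ENNReal.ofReal_pow (norm_nonneg _),
      ofReal_norm]
  · intro z hz
    by_contra h
    exact hz (by simp [hw.2 z fun h' => h (sub_U h')])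

lemma lintegral_ne_top {d : ℕ} {K : Set (E n)} {r : ℝ} (hK : IsCompact K) {w : E n → W d}
    (hw : Test K r w) : ∫⁻ z, ‖w z‖ₑ ^ 2 ≠ ⊤ := by
  have h1 : HasCompactSupport fun z => ‖w z‖ ^ 2 :=
    HasCompactSupport.intro (hK.cthickening (r := r)) fun z hz => by simp [hw.2 z hz]
  have h2 := ((hw.1.continuous.norm.pow 2).integrable_of_hasCompactSupport (μ := volume) h1).2
  refine ne_of_lt (lt_of_eq_of_lt (lintegral_congr fun z => ?_) h2)
  simp

open Classical in
/-- The periodization of a test section. -/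
def J (hμ : IsVolume X.g X.μ) (c : Chart X a) (D : FD X) (q : ℕ) (w : E n → W (dim n q)) :
    D.P q :=
  if hw : Test c.K c.r w then FD.P.mk (per D a (frm c q w)) (frm_per_smooth hw) (per_inv _)
    (by rw [nrm_per hμ hw]; exact lintegral_ne_top c.cut.compact hw) else 0

lemma J_val (hμ : IsVolume X.g X.μ) {q : ℕ} {w : E n → W (dim n q)} (hw : Test c.K c.r w) :
    (J hμ c D q w).1 = per D a (frm c q w) := by
  rw [J, dif_pos hw]; rfl

lemma inner_J (hμ : IsVolume X.g X.μ) {q : ℕ} {w : E n → W (dim n q)} (hw : Test c.K c.r w)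
    (η : D.P q) : ⟪η, J hμ c D q w⟫_ℂ = ∫ z, ⟪c.loc q η.1 z, w z⟫_ℂ := by
  have hU := (X.isOpen_U a).measurableSet
  have hs := (X.U_sub a).trans (X.Cl_sub a)
  rw [FD.P.inner_eq, J_val hμ hw, X.integral_unfold D.fd hU (fun γ _ x => X.disj a γ x)
    (fun γ hγ x => η.inv.ip (per_inv _) hγ x) (fun x hx => by rw [per_zero hx]; simp),
    integral_chart X.g hμ hU hs (continuous_iff_continuousAt.2 fun x =>
      continuousAt_ip X.g (η.smooth x) (frm_per_smooth hw x)),
    ← setIntegral_eq_integral_of_forall_compl_eq_zero (s := chartAt (E n) (X.ctr a) '' X.U a)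
      (f := fun z => ⟪c.loc q η.1 z, w z⟫_ℂ)]
  · exact setIntegral_congr_fun (H92.measurableSet_chart_image hU hs) fun z hz => ip_loc hw _ hz
  · intro z hz
    rw [hw.2 z fun h' => hz (sub_U h'), inner_zero_right]

lemma isJ (hμ : IsVolume X.g X.μ) (q : ℕ) : IsJ c.K c.r fun w => (J hμ c D q w : D.H q) where
  add w w' hw hw' := by
    have h : Test c.K c.r fun x => w x + w' x :=
      ⟨hw.1.add hw'.1, fun x hx => by simp only [hw.2 x hx, hw'.2 x hx, add_zero]⟩
    rw [← FD.P.coe_add]
    refine FD.P.coe_congr ?_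
    change _ = (J hμ c D q w).1 + (J hμ c D q w').1
    rw [J_val hμ h, J_val hμ hw, J_val hμ hw', ← per_add]
    exact congrArg _ (funext fun z => map_add _ _ _)
  smul t w hw := by
    have h : Test c.K c.r fun x => t • w x :=
      ⟨hw.1.const_smul t, fun x hx => by simp only [hw.2 x hx, smul_zero]⟩
    rw [← FD.P.coe_smul]
    refine FD.P.coe_congr ?_
    change _ = t • (J hμ c D q w).1
    rw [J_val hμ h, J_val hμ hw, ← per_smul]
    exact congrArg _ (funext fun z => map_smul _ _ _)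
  norm w hw := by rw [FD.P.enorm_coe_sq, J_val hμ hw, nrm_per hμ hw]

end JmapP

theorem jmap : JStmt.{u, v} := fun _ _ _ _ _ _ _ _ _ _ _ _ _ hμ _ c D =>
  ⟨JmapP.J hμ c D, JmapP.isJ hμ, fun _ _ hw η => JmapP.inner_J hμ hw η, fun _ _ _ hw hw' h => by
    rw [JmapP.J_val hμ hw, JmapP.J_val hμ hw']
    exact JmapP.per_extD c.cut.compact.cthickening JmapP.sub_U (JmapP.frm_smooth hw)
      (JmapP.frm_zero hw) (JmapP.frm_zero hw') h⟩

end Pool.Agent.MP_d9582c_gt.H1
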