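import Pool.Agent.MP_d9582c_gt.H1.Spec

/-!
The parametrix solves the heat equation up to a small error.
-/

open scoped ContDiff Topology
open Set Filter Metric Pool.Agent.MP_d9582c_gt.H34

noncomputable section

namespace Pool.Agent.MP_d9582c_gt.H1

namespace KernP

section Leib

variable {n : ℕ} {V : Type} [NormedAddCommGroup V] [NormedSpace ℝ V]

lemma pd_smooth (i : Fin n) {w : E n → V} (hw : ContDiff ℝ ∞ w) : ContDiff ℝ ∞ (pd i w) :=
  (hw.fderiv_right (m := ∞) le_rfl).clm_apply contDiff_const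

lemma dif {V' : Type} [NormedAddCommGroup V'] [NormedSpace ℝ V'] {w : E n → V'}
    (hw : ContDiff ℝ ∞ w) (z : E n) : DifferentiableAt ℝ w z :=
  hw.differentiable (by simp) z

lemma pd_smul (i : Fin n) {χ : E n → ℝ} {w : E n → V} (hχ : ContDiff ℝ ∞ χ)
    (hw : ContDiff ℝ ∞ w) :
    pd i (fun z => χ z • w z) = fun z => χ z • pd i w z + pd i χ z • w z := by
  funext z
  simp only [pd, fderiv_fun_smul (dif hχ z) (dif hw z), add_apply, smul_apply,
    ContinuousLinearMap.smulRight_apply]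

lemma pd_add (i : Fin n) {u w : E n → V} (hu : ContDiff ℝ ∞ u) (hw : ContDiff ℝ ∞ w) :
    pd i (fun z => u z + w z) = fun z => pd i u z + pd i w z := by
  funext z
  simp only [pd, fderiv_fun_add (dif hu z) (dif hw z), add_apply]

lemma pd_mul_const (i : Fin n) {χ : E n → ℝ} (hχ : ContDiff ℝ ∞ χ) (a : ℝ) :
    pd i (fun z => χ z * a) = fun z => pd i χ z * a := by
  funext z
  rw [pd, pd, fderiv_mul_const (dif hχ z), smul_apply, smul_eq_mul, mul_comm]

lemma pd_pd (i j : Fin n) {χ : E n → ℝ} {w : E n → V} (hχ : ContDiff ℝ ∞ χ)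
    (hw : ContDiff ℝ ∞ w) (z : E n) :
    pd i (pd j fun z => χ z • w z) z = χ z • pd i (pd j w) z +
      (pd i χ z • pd j w z + pd j χ z • pd i w z + pd i (pd j χ) z • w z) := by
  rw [pd_smul j hχ hw, pd_add i (hχ.fun_smul (pd_smooth j hw)) ((pd_smooth j hχ).fun_smul hw),
    pd_smul i hχ (pd_smooth j hw), pd_smul i (pd_smooth j hχ) hw]
  simp only
  abel

/-- a twisted directional derivative -/
def Dz (l : Fin n → E n → ℝ) (i : Fin n) (w : E n → V) (z : E n) : V := pd i w z - l i z • w z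

lemma Dz_smooth {l : Fin n → E n → ℝ} (hl : ∀ i, ContDiff ℝ ∞ (l i)) (i : Fin n) {w : E n → V}
    (hw : ContDiff ℝ ∞ w) : ContDiff ℝ ∞ (Dz l i w) :=
  (pd_smooth i hw).sub ((hl i).smul hw)

lemma Dz_smul (l : Fin n → E n → ℝ) (i : Fin n) {χ : E n → ℝ} {w : E n → V}
    (hχ : ContDiff ℝ ∞ χ) (hw : ContDiff ℝ ∞ w) :
    Dz l i (fun z => χ z • w z) = fun z => χ z • Dz l i w z + pd i χ z • w z := by
  funext z
  simp only [Dz, pd_smul i hχ hw, smul_sub, smul_comm (l i z) (χ z)]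
  abel

lemma Dz_add (l : Fin n → E n → ℝ) (i : Fin n) {u w : E n → V} (hu : ContDiff ℝ ∞ u)
    (hw : ContDiff ℝ ∞ w) :
    Dz l i (fun z => u z + w z) = fun z => Dz l i u z + Dz l i w z := by
  funext z
  simp only [Dz, pd_add i hu hw, smul_add]
  abel

lemma Dz_Dz {l : Fin n → E n → ℝ} (hl : ∀ i, ContDiff ℝ ∞ (l i)) (i j : Fin n) {χ : E n → ℝ}
    {w : E n → V} (hχ : ContDiff ℝ ∞ χ) (hw : ContDiff ℝ ∞ w) (z : E n) :
    Dz l i (Dz l j fun z => χ z • w z) z = χ z • Dz l i (Dz l j w) z +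
      (pd i χ z • Dz l j w z + pd j χ z • Dz l i w z + pd i (pd j χ) z • w z) := by
  rw [Dz_smul l j hχ hw, 
    Dz_add l i (hχ.fun_smul (Dz_smooth hl j hw)) ((pd_smooth j hχ).fun_smul hw),
    Dz_smul l i hχ (Dz_smooth hl j hw), Dz_smul l i (pd_smooth j hχ) hw]
  simp only
  abel

lemma pd_zero (i : Fin n) {χ : E n → ℝ} {U : Set (E n)} (hU : IsOpen U) {a : ℝ}
    (h : ∀ z ∈ U, χ z = a) : ∀ z ∈ U, pd i χ z = 0 := by
  intro z hz
  have : χ =ᶠ[𝓝 z] fun _ => a := eventually_of_mem (hU.mem_nhds hz) h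
  simp [pd, this.fderiv_eq]

lemma sm_z {v : ℝ → E n → E n → V} (hv : Sm v) {t : ℝ} (ht : 0 < t) (y : E n) :
    ContDiff ℝ ∞ fun z => v t z y :=
  ContDiffOn.comp_contDiff (f := fun z : E n => (t, z, y)) hv (by fun_prop) fun _ => ht

lemma lin_smooth (g : Met n) (t : ℝ) (y : E n) (i : Fin n) :
    ContDiff ℝ ∞ fun z => g.lin i t z y := by
  unfold Met.lin
  refine ContDiff.div_const (ContDiff.sum fun j _ => contDiff_const.mul ?_) _
  exact (EuclideanSpace.proj j : E n →L[ℝ] ℝ).contDiff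

end Leib

variable {n d : ℕ}

/-- the commutator terms -/
def Err (c : Coef n d) (ψ : E n → ℝ) (v : ℝ → E n → E n → End d) (t : ℝ) (z y : E n) : End d :=
  -∑ i, ∑ j, c.G y i j • (pd i ψ z • pd j (fun z => v t z y) z +
      pd j ψ z • pd i (fun z => v t z y) z + pd i (pd j ψ) z • v t z y) +
    t⁻¹ • ∑ i, z i • pd i ψ z • v t z y +
    (-∑ i, ∑ j, (c.G (y + z) i j - c.G y i j) • (pd i ψ z • c.toMet.D j v t z y +
      pd j ψ z • c.toMet.D i v t z y + pd i (pd j ψ) z • v t z y) +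
    ∑ i, c.B i (y + z) * pd i ψ z • v t z y)

lemma leib (c : Coef n d) {ψ : E n → ℝ} (hψ : ContDiff ℝ ∞ ψ) (φ : E n → ℝ)
    {v : ℝ → E n → E n → End d} (hv : Sm v) {t : ℝ} (ht : 0 < t) (z y : E n) :
    c.toMet.H (fun t z y => (ψ z * φ y) • v t z y) t z y +
      c.Pert (fun t z y => (ψ z * φ y) • v t z y) t z y =
    φ y • (ψ z • (c.toMet.H v t z y + c.Pert v t z y) + Err c ψ v t z y) := by
  have hχ : ContDiff ℝ ∞ fun z => ψ z * φ y := hψ.mul contDiff_const
  have hw := sm_z hv ht y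
  have hl := lin_smooth c.toMet t y
  have e1 : ∀ i, c.toMet.D i (fun t z y => (ψ z * φ y) • v t z y) t z y =
      (ψ z * φ y) • c.toMet.D i v t z y + (pd i ψ z * φ y) • v t z y := fun i => by
    have := congrFun (Dz_smul (fun i z => c.toMet.lin i t z y) i hχ hw) z
    rw [pd_mul_const i hψ] at this
    exact this
  have e2 : ∀ i j, c.toMet.D i (c.toMet.D j fun t z y => (ψ z * φ y) • v t z y) t z y =
      (ψ z * φ y) • c.toMet.D i (c.toMet.D j v) t z y +
        ((pd i ψ z * φ y) • c.toMet.D j v t z y + (pd j ψ z * φ y) • c.toMet.D i v t z y +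
          (pd i (pd j ψ) z * φ y) • v t z y) := fun i j => by
    have := Dz_Dz hl i j hχ hw z
    rw [pd_mul_const i hψ, pd_mul_const j hψ, pd_mul_const i (pd_smooth j hψ)] at this
    exact this
  have e3 : ∀ i j, pd i (pd j fun z => (ψ z * φ y) • v t z y) z =
      (ψ z * φ y) • pd i (pd j fun z => v t z y) z +
        ((pd i ψ z * φ y) • pd j (fun z => v t z y) z +
          (pd j ψ z * φ y) • pd i (fun z => v t z y) z +
          (pd i (pd j ψ) z * φ y) • v t z y) := fun i j => by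
    have := pd_pd i j hχ hw z
    rw [pd_mul_const i hψ, pd_mul_const j hψ, pd_mul_const i (pd_smooth j hψ)] at this
    exact this
  have e4 : ∀ i, pd i (fun z => (ψ z * φ y) • v t z y) z =
      (ψ z * φ y) • pd i (fun z => v t z y) z + (pd i ψ z * φ y) • v t z y := fun i => by
    have := congrFun (pd_smul i hχ hw) z
    rw [pd_mul_const i hψ] at this
    exact this
  have e5 : deriv (fun s => (ψ z * φ y) • v s z y) t = (ψ z * φ y) • deriv (fun s => v s z y) t := by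
    have h1 : ContDiffAt ℝ ∞ (fun q : ℝ × E n × E n => v q.1 q.2.1 q.2.2) (t, z, y) :=
      ContDiffOn.contDiffAt hv ((isOpen_lt continuous_const continuous_fst).mem_nhds ht)
    have h2 : ContDiffAt ℝ ∞ (fun s => v s z y) t :=
      ContDiffAt.comp (f := fun s : ℝ => (s, z, y)) t h1 (by fun_prop)
    exact deriv_fun_const_smul _ (h2.differentiableAt (by simp))
  have ms : ∀ (a : ℝ) (A B : End d), A * a • B = a • (A * B) := fun a A B => by
    ext u
    simp
  simp only [Met.H, Coef.Pert, Err, e1, e2, e3, e4, e5]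
  simp only [smul_add, smul_sub, smul_neg, Finset.smul_sum, Finset.sum_add_distrib, smul_smul,
    mul_add, ms]
  simp only [mul_comm, mul_left_comm, mul_assoc]
  abel

/-- polynomial bounds -/
def Bd (K : Set (E n)) (f : ℝ → E n → E n → End d) : Prop :=
  ∃ (C : ℝ) (m : ℕ), 0 ≤ C ∧ ∀ t ∈ Ioc (0 : ℝ) 1, ∀ z, ‖z‖ ≤ 1 → ∀ y ∈ K,
    ‖f t z y‖ ≤ C * t⁻¹ * (1 + ‖z‖ ^ 2 / t) ^ m

section Bd

variable {K : Set (E n)} {f g : ℝ → E n → E n → End d}

lemma Bd.add (hf : Bd K f) (hg : Bd K g) : Bd K fun t z y => f t z y + g t z y := by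
  obtain ⟨C, m, hC, h⟩ := hf
  obtain ⟨C', m', hC', h'⟩ := hg
  refine ⟨C + C', m + m', by positivity, fun t ht z hz y hy => ?_⟩
  have h0 := ht.1
  have h1 : 1 ≤ 1 + ‖z‖ ^ 2 / t := le_add_of_nonneg_right (by positivity)
  rw [add_mul, add_mul]
  refine (norm_add_le _ _).trans (add_le_add ((h t ht z hz y hy).trans ?_)
    ((h' t ht z hz y hy).trans ?_))
  · exact mul_le_mul_of_nonneg_left (pow_le_pow_right₀ h1 (by omega)) (by positivity)
  · exact mul_le_mul_of_nonneg_left (pow_le_pow_right₀ h1 (by omega)) (by positivity)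

lemma Bd.neg (hf : Bd K f) : Bd K fun t z y => -f t z y := by
  obtain ⟨C, m, hC, h⟩ := hf
  exact ⟨C, m, hC, fun t ht z hz y hy => by rw [norm_neg]; exact h t ht z hz y hy⟩

lemma Bd.sum {ι : Type} (s : Finset ι) {F : ι → ℝ → E n → E n → End d} (h : ∀ i, Bd K (F i)) :
    Bd K fun t z y => ∑ i ∈ s, F i t z y := by
  classical
  induction s using Finset.induction_on with
  | empty => exact ⟨0, 0, le_rfl, fun t _ z _ y _ => by simp⟩
  | insert i s hi ih => simpa only [Finset.sum_insert hi] using (h i).add ih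

lemma bdd {V : Type} [NormedAddCommGroup V] (hK : IsCompact K) {a : E n → E n → V}
    (ha : Continuous fun q : E n × E n => a q.1 q.2) :
    ∃ M, 0 ≤ M ∧ ∀ z, ‖z‖ ≤ 1 → ∀ y ∈ K, ‖a z y‖ ≤ M := by
  obtain ⟨M, hM⟩ := ((isCompact_closedBall (0 : E n) 1).prod hK).exists_bound_of_continuousOn
    ha.continuousOn
  exact ⟨max M 0, le_max_right _ _, fun z hz y hy =>
    (hM (z, y) ⟨mem_closedBall_zero_iff.2 hz, hy⟩).trans (le_max_left _ _)⟩

lemma Bd.smul (hK : IsCompact K) {a : E n → E n → ℝ}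
    (ha : Continuous fun q : E n × E n => a q.1 q.2) (hf : Bd K f) :
    Bd K fun t z y => a z y • f t z y := by
  obtain ⟨C, m, hC, h⟩ := hf
  obtain ⟨M, hM, hM'⟩ := bdd hK ha
  refine ⟨M * C, m, by positivity, fun t ht z hz y hy => ?_⟩
  rw [norm_smul, mul_assoc, mul_assoc, ← mul_assoc C]
  exact mul_le_mul (hM' z hz y hy) (h t ht z hz y hy) (norm_nonneg _) hM

lemma Bd.mul (hK : IsCompact K) {a : E n → E n → End d}
    (ha : Continuous fun q : E n × E n => a q.1 q.2) (hf : Bd K f) :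
    Bd K fun t z y => a z y * f t z y := by
  obtain ⟨C, m, hC, h⟩ := hf
  obtain ⟨M, hM, hM'⟩ := bdd hK ha
  refine ⟨M * C, m, by positivity, fun t ht z hz y hy => ?_⟩
  rw [mul_assoc, mul_assoc, ← mul_assoc C]
  exact (norm_mul_le _ _).trans
    (mul_le_mul (hM' z hz y hy) (h t ht z hz y hy) (norm_nonneg _) hM)

lemma bd_tg (ht : TGStmt) (hK : IsCompact K) {w : ℤ} (hw : -2 ≤ w) (hf : TG w f) : Bd K f := by
  obtain ⟨C, m, h⟩ := ((ht n).1 _ _ _ (((ht n).1 _ w f hf).2.1 (-2) hw)).2.2.2.2 K hK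
  refine ⟨max C 0, m, le_max_right _ _, fun t ht z _ y hy => (h t ht z y hy).trans ?_⟩
  have h0 := ht.1
  have e : t ^ (((-2 : ℤ) : ℝ) / 2) = t⁻¹ := by
    rw [← Real.rpow_neg_one]
    norm_num
  rw [e]
  exact mul_le_mul_of_nonneg_right (mul_le_mul_of_nonneg_right (le_max_left _ _) (by positivity))
    (by positivity)

lemma bd_inv (ht : TGStmt) (hK : IsCompact K) (hf : TG 0 f) :
    Bd K fun t z y => t⁻¹ • f t z y := by
  obtain ⟨C, m, h⟩ := ((ht n).1 _ _ _ hf).2.2.2.2 K hK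
  refine ⟨max C 0, m, le_max_right _ _, fun t ht z _ y hy => ?_⟩
  have h0 := ht.1
  have h1 := h t ht z y hy
  simp only [Int.cast_zero, zero_div, Real.rpow_zero, mul_one] at h1
  rw [norm_smul, Real.norm_of_nonneg (by positivity), mul_comm (max C 0), mul_assoc]
  exact mul_le_mul_of_nonneg_left
    (h1.trans (mul_le_mul_of_nonneg_right (le_max_left _ _) (by positivity))) (by positivity)

lemma bd_err (ht : TGStmt) (hK : IsCompact K) (c : Coef n d) {ψ : E n → ℝ}
    (hψ : ContDiff ℝ ∞ ψ) {v : ℝ → E n → E n → End d} (hv : TG 0 v) : Bd K (Err c ψ v) := by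
  have h := (ht n).1 _ _ _ hv
  have b0 := bd_tg ht hK (by norm_num) hv
  have b1 := fun i => bd_tg ht hK (by norm_num) (h.2.2.1 i)
  have b2 := fun i => bd_tg ht hK (by norm_num) (h.2.2.2.1 c.toMet i)
  have p1 : ∀ i, Continuous fun q : E n × E n => pd i ψ q.1 := fun i =>
    (pd_smooth i hψ).continuous.comp continuous_fst
  have p2 : ∀ i j, Continuous fun q : E n × E n => pd i (pd j ψ) q.1 := fun i j =>
    (pd_smooth i (pd_smooth j hψ)).continuous.comp continuous_fst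
  have g1 : ∀ i j, Continuous fun q : E n × E n => c.G q.2 i j := fun i j =>
    (c.smooth i j).continuous.comp continuous_snd
  have g2 : ∀ i j, Continuous fun q : E n × E n => c.G (q.2 + q.1) i j := fun i j =>
    (c.smooth i j).continuous.comp (continuous_snd.add continuous_fst)
  have b3 : Bd K fun t z y => t⁻¹ • ∑ i, z i • pd i ψ z • v t z y := by
    have := Bd.sum Finset.univ fun i => Bd.smul hK (a := fun z _ => z i) (by fun_prop)
      (Bd.smul hK (a := fun z _ => pd i ψ z) (p1 i) (bd_inv ht hK hv))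
    simpa only [Finset.smul_sum, smul_comm (_ : ℝ)⁻¹] using this
  refine ((Bd.neg (Bd.sum _ fun i => Bd.sum _ fun j => ?_)).add b3).add
    ((Bd.neg (Bd.sum _ fun i => Bd.sum _ fun j => ?_)).add (Bd.sum _ fun i => ?_))
  · exact Bd.smul hK (a := fun _ y => c.G y i j) (g1 i j)
      (((Bd.smul hK (a := fun z _ => pd i ψ z) (p1 i) (b1 j)).add
        (Bd.smul hK (a := fun z _ => pd j ψ z) (p1 j) (b1 i))).add
        (Bd.smul hK (a := fun z _ => pd i (pd j ψ) z) (p2 i j) b0))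
  · exact Bd.smul hK (a := fun z y => c.G (y + z) i j - c.G y i j) ((g2 i j).sub (g1 i j))
      (((Bd.smul hK (a := fun z _ => pd i ψ z) (p1 i) (b2 j)).add
        (Bd.smul hK (a := fun z _ => pd j ψ z) (p1 j) (b2 i))).add
        (Bd.smul hK (a := fun z _ => pd i (pd j ψ) z) (p2 i j) b0))
  · exact Bd.mul hK (a := fun z y => c.B i (y + z))
      ((c.B_smooth i).continuous.comp (continuous_snd.add continuous_fst))
      (Bd.smul hK (a := fun z _ => pd i ψ z) (p1 i) b0)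

end Bd

lemma zs (A : End d) : (0 : ℝ) • A = 0 := by
  ext u
  simp

lemma sz (a : ℝ) : a • (0 : End d) = 0 := by
  ext u; simp

lemma err_zero (c : Coef n d) {ψ : E n → ℝ} (v : ℝ → E n → E n → End d) {U : Set (E n)}
    (hU : IsOpen U) {a : ℝ} (h : ∀ z ∈ U, ψ z = a) (t : ℝ) {z : E n} (hz : z ∈ U) (y : E n) :
    Err c ψ v t z y = 0 := by
  have h1 := fun i => pd_zero i hU h
  have h2 := fun i j => pd_zero i hU (h1 j)
  simp [Err, fun i => h1 i z hz, fun i j => h2 i j z hz, zs, sz]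

lemma exp_le {a : ℝ} (ha : 0 < a) (k : ℕ) :
    ∃ C : ℝ, 0 ≤ C ∧ ∀ t > 0, Real.exp (-(a / t)) ≤ C * t ^ k := by
  refine ⟨k.factorial / a ^ k, by positivity, fun t ht => ?_⟩
  have h := Real.pow_div_factorial_le_exp (a / t) (by positivity) k
  rw [Real.exp_neg]
  refine (inv_anti₀ (by positivity) h).trans (le_of_eq ?_)
  rw [div_pow]
  field_simp

lemma rpow_le {t : ℝ} (ht : t ∈ Ioc (0 : ℝ) 1) (n : ℕ) : t ^ (-(n : ℝ) / 2) ≤ (t ^ n)⁻¹ := by
  rw [← Real.rpow_natCast, ← Real.rpow_neg ht.1.le]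
  exact Real.rpow_le_rpow_of_exponent_ge ht.1 ht.2 (by linarith [(Nat.cast_nonneg n : (0 : ℝ) ≤ n)])

end KernP

open KernP in
theorem kernel (ht : TGStmt) (hg : GaussStmt) (hi : GaussIntStmt) (hc : ConjStmt)
    (hf : FormalStmt) : KernStmt := by
  intro n d c ψ φ r K hψ hφ N
  obtain ⟨v, C₁, m₁, v0, v1, hv⟩ := hf n d c K hφ.compact (N + n)
  have hsm : Sm v := ((ht n).1 _ _ _ v0).1
  have hsm' : Sm fun t z y => (ψ z * φ y) • v t z y :=
    ((hψ.smooth.comp (contDiff_fst.comp contDiff_snd)).mul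
      (hφ.smooth.comp (contDiff_snd.comp contDiff_snd))).contDiffOn.smul hsm
  have hk : kern c.toMet ψ φ v =
      fun t x y => c.toMet.gauss t (x - y) y • (ψ (x - y) * φ y) • v t (x - y) y := by
    funext t x y
    rw [kern, smul_smul, mul_comm]
  obtain ⟨-, hpos, hK⟩ := hi n c.toMet
  obtain ⟨a, ha, hb⟩ := hK K hφ.compact
  obtain ⟨C₂, m₂, hC₂, hE⟩ := bd_err ht hφ.compact c hψ.smooth v0
  obtain ⟨A₁, hA₁⟩ := hb m₁
  obtain ⟨A₂, hA₂⟩ := hb m₂
  have hr := hψ.pos
  obtain ⟨C₃, hC₃, hex⟩ := exp_le (a := a * (r / 2) ^ 2) (by positivity) (N + n + 1)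
  obtain ⟨M, hM, hM'⟩ := bdd hφ.compact (a := fun _ y => φ y)
    (hφ.smooth.continuous.comp continuous_snd)
  refine ⟨v, M * (|C₁| * |A₁| + C₂ * |A₂| * C₃), v0, v1, ?_, fun t ht' x y => ?_⟩
  · rw [hk]
    have h1 : ContDiff ℝ ∞ fun q : ℝ × E n × E n => (q.1, q.2.1 - q.2.2, q.2.2) := by fun_prop
    exact (ContDiffOn.smul (hg n c.toMet).1 hsm').comp h1.contDiffOn fun _ hq => hq
  · have h0 := ht'.1
    rw [hk, hc n d c _ hsm' t h0 x y, leib c hψ.smooth φ hsm h0]
    generalize x - y = z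
    by_cases hy : y ∈ K
    swap
    · rw [hφ.zero y hy, zs, sz, norm_zero]
      positivity
    have hγ := hpos t h0 z y
    have hp : ∀ m : ℕ, 0 ≤ (1 + ‖z‖ ^ 2 / t) ^ m := fun m => by positivity
    have hrp := rpow_le ht' n
    have hrp0 : 0 ≤ t ^ (-(n : ℝ) / 2) := by positivity
    have e1 : c.toMet.gauss t z y * ‖ψ z • (c.toMet.H v t z y + c.Pert v t z y)‖ ≤
        |C₁| * |A₁| * t ^ N := by
      by_cases hz : r ≤ ‖z‖
      · rw [hψ.zero z hz, zs, norm_zero, mul_zero]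
        positivity
      have hz1 : ‖z‖ ≤ 1 := (not_le.1 hz).le.trans hψ.le_one
      have h1 : ‖ψ z • (c.toMet.H v t z y + c.Pert v t z y)‖ ≤
          |C₁| * t ^ (N + n) * (1 + ‖z‖ ^ 2 / t) ^ m₁ := by
        rw [norm_smul]
        refine (mul_le_of_le_one_left (norm_nonneg _) (hψ.abs_le z)).trans
          ((hv t ht' z hz1 y hy).trans ?_)
        exact mul_le_mul_of_nonneg_right
          (mul_le_mul_of_nonneg_right (le_abs_self _) (by positivity)) (hp _)
      have h2 : c.toMet.gauss t z y * (1 + ‖z‖ ^ 2 / t) ^ m₁ ≤ |A₁| * (t ^ n)⁻¹ := by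
        refine (hA₁ t h0 z y hy).trans ?_
        have h3 : Real.exp (-a * ‖z‖ ^ 2 / t) ≤ 1 := by
          rw [Real.exp_le_one_iff, neg_mul, neg_div, neg_nonpos]
          positivity
        calc A₁ * t ^ (-(n : ℝ) / 2) * Real.exp (-a * ‖z‖ ^ 2 / t)
            ≤ |A₁| * (t ^ n)⁻¹ * 1 := by gcongr; exact le_abs_self _
          _ = _ := mul_one _
      calc _ ≤ c.toMet.gauss t z y * (|C₁| * t ^ (N + n) * (1 + ‖z‖ ^ 2 / t) ^ m₁) := by gcongr
        _ = |C₁| * t ^ (N + n) * (c.toMet.gauss t z y * (1 + ‖z‖ ^ 2 / t) ^ m₁) := by ring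
        _ ≤ |C₁| * t ^ (N + n) * (|A₁| * (t ^ n)⁻¹) := by gcongr
        _ = _ := by rw [pow_add]; field_simp
    have e2 : c.toMet.gauss t z y * ‖Err c ψ v t z y‖ ≤ C₂ * |A₂| * C₃ * t ^ N := by
      by_cases hz : ‖z‖ < r / 2
      · rw [err_zero c v (U := {z | ‖z‖ < r / 2}) (isOpen_lt continuous_norm continuous_const)
          (fun z hz => hψ.one z (le_of_lt hz)) t hz y, norm_zero, mul_zero]
        positivity
      by_cases hz' : r < ‖z‖
      · rw [err_zero c v (U := {z | r < ‖z‖}) (isOpen_lt continuous_const continuous_norm)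
          (fun z hz => hψ.zero z (le_of_lt hz)) t hz' y, norm_zero, mul_zero]
        positivity
      have hz1 : ‖z‖ ≤ 1 := (not_lt.1 hz').trans hψ.le_one
      have h2 : c.toMet.gauss t z y * (1 + ‖z‖ ^ 2 / t) ^ m₂ ≤
          |A₂| * (t ^ n)⁻¹ * (C₃ * t ^ (N + n + 1)) := by
        refine (hA₂ t h0 z y hy).trans ?_
        have h3 : Real.exp (-a * ‖z‖ ^ 2 / t) ≤ C₃ * t ^ (N + n + 1) := by
          refine le_trans (Real.exp_le_exp.2 ?_) (hex t h0)
          rw [neg_mul, neg_div, neg_le_neg_iff]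
          have := not_lt.1 hz
          gcongr
        gcongr
        exact le_abs_self _
      calc _ ≤ c.toMet.gauss t z y * (C₂ * t⁻¹ * (1 + ‖z‖ ^ 2 / t) ^ m₂) := by
            gcongr; exact hE t ht' z hz1 y hy
        _ = C₂ * t⁻¹ * (c.toMet.gauss t z y * (1 + ‖z‖ ^ 2 / t) ^ m₂) := by ring
        _ ≤ C₂ * t⁻¹ * (|A₂| * (t ^ n)⁻¹ * (C₃ * t ^ (N + n + 1))) := by gcongr
        _ = _ := by rw [pow_add, pow_add]; field_simp
    rw [smul_comm, norm_smul, norm_smul, Real.norm_of_nonneg hγ, mul_assoc]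
    refine mul_le_mul (hM' 0 (by simp) y hy) ?_ (by positivity) hM
    rw [add_mul]
    exact (mul_le_mul_of_nonneg_left (norm_add_le _ _) hγ).trans
      (by rw [mul_add]; exact add_le_add e1 e2)

end Pool.Agent.MP_d9582c_gt.H1
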