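import Pool.Agent.MP_d9582c_gt.H1.Spec

/-!
The Laplacian of a complex with the Clifford relation has scalar principal symbol.
-/

open scoped Manifold ContDiff ComplexConjugate Topology ENNReal InnerProductSpace
open MeasureTheory Set Filter Metric ContinuousLinearMap Pool.Agent.MP_d9582c_gt.H34

noncomputable section

namespace Pool.Agent.MP_d9582c_gt.H1

namespace LapP

variable {n d d' d'' : ℕ}

theorem bil_app (d d' : ℕ) :
    IsBoundedBilinearMap ℝ fun p : (W d →L[ℂ] W d') × W d => p.1 p.2 where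
  add_left _ _ _ := rfl
  smul_left _ _ _ := rfl
  add_right A u v := map_add A u v
  smul_right c A u := A.map_smul_of_tower c u
  bound := ⟨1, one_pos, fun A u => by rw [one_mul]; exact A.le_opNorm u⟩

theorem bil_comp (d d' d'' : ℕ) :
    IsBoundedBilinearMap ℝ fun p : (W d' →L[ℂ] W d'') × (W d →L[ℂ] W d') => p.1.comp p.2 where
  add_left _ _ _ := rfl
  smul_left _ _ _ := rfl
  add_right A u v := comp_add A u v
  smul_right c A u := ContinuousLinearMap.ext fun x => A.map_smul_of_tower c (u x)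
  bound := ⟨1, one_pos, fun A u => by rw [one_mul]; exact A.opNorm_comp_le u⟩

/-- The adjoint as a real linear map. -/
def adjR (d d' : ℕ) : (W d →L[ℂ] W d') →L[ℝ] (W d' →L[ℂ] W d) where
  toFun A := adjoint A
  map_add' A B := map_add _ A B
  map_smul' c A := by
    rw [← Complex.coe_smul c A, map_smulₛₗ, Complex.conj_ofReal, Complex.coe_smul]
    rfl
  cont := (adjoint : (W d →L[ℂ] W d') ≃ₗᵢ⋆[ℂ] (W d' →L[ℂ] W d)).continuous

theorem sm_adj {a : E n → W d →L[ℂ] W d'} (h : ContDiff ℝ ∞ a) :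
    ContDiff ℝ ∞ fun x => adjoint (a x) := (adjR d d').contDiff.comp h

theorem sm_app {a : E n → W d →L[ℂ] W d'} {u : E n → W d} (h : ContDiff ℝ ∞ a)
    (h' : ContDiff ℝ ∞ u) : ContDiff ℝ ∞ fun x => a x (u x) :=
  (bil_app d d').contDiff.comp (h.prodMk h')

theorem sm_comp {a : E n → W d' →L[ℂ] W d''} {b : E n → W d →L[ℂ] W d'} (h : ContDiff ℝ ∞ a)
    (h' : ContDiff ℝ ∞ b) : ContDiff ℝ ∞ fun x => (a x).comp (b x) :=
  (bil_comp d d' d'').contDiff.comp (h.prodMk h')

section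

variable {V : Type} [NormedAddCommGroup V] [NormedSpace ℝ V]

theorem sm_pd {w : E n → V} (h : ContDiff ℝ ∞ w) (i : Fin n) : ContDiff ℝ ∞ (pd i w) :=
  (h.fderiv_right (m := ∞) (by simp)).clm_apply contDiff_const

theorem dif {w : E n → V} (h : ContDiff ℝ ∞ w) (x : E n) : DifferentiableAt ℝ w x :=
  h.differentiable (by simp) x

theorem pd_pd {w : E n → V} (h : ContDiff ℝ ∞ w) (i j : Fin n) (x : E n) :
    pd i (pd j w) x = fderiv ℝ (fderiv ℝ w) x (ee i) (ee j) := by
  have h1 := (dif (h.fderiv_right (m := ∞) (by simp)) x).hasFDerivAt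
  have h2 := (h1.clm_apply (hasFDerivAt_const (ee j) x)).fderiv
  change fderiv ℝ (fun y => fderiv ℝ w y (ee j)) x (ee i) = _
  rw [h2]
  simp

theorem pd_symm {w : E n → V} (h : ContDiff ℝ ∞ w) (i j : Fin n) (x : E n) :
    pd i (pd j w) x = pd j (pd i w) x := by
  rw [pd_pd h, pd_pd h]
  exact (h.contDiffAt.isSymmSndFDerivAt (by
    rw [minSmoothness_of_isRCLikeNormedField]
    exact WithTop.coe_le_coe.2 (le_top : (2 : ℕ∞) ≤ ⊤))).eq _ _

theorem pd_zero {w : E n → V} {x : E n} (h : w =ᶠ[𝓝 x] fun _ => 0) (j : Fin n) :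
    pd j w =ᶠ[𝓝 x] fun _ => 0 := by
  filter_upwards [h.fderiv (𝕜 := ℝ)] with y hy
  unfold pd
  rw [hy]
  simp

theorem polar (T : Fin n → Fin n → V)
    (h : ∀ ξ : Fin n → ℝ, ∑ i, ∑ j, (ξ i * ξ j) • T i j = 0) (i j : Fin n) :
    T i j + T j i = 0 := by
  classical
  set β : (Fin n → ℝ) → (Fin n → ℝ) → V := fun ξ η => ∑ i, ∑ j, (ξ i * η j) • T i j with hβ
  have h1 : ∀ i j, β (Pi.single i 1) (Pi.single j 1) = T i j := by
    intro i j
    simp only [hβ]
    rw [Finset.sum_eq_single i, Finset.sum_eq_single j]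
    · simp
    · intro b _ hb
      simp [hb]
    · simp
    · intro b _ hb
      simp [hb]
    · simp
  have h2 : ∀ ξ η, β (ξ + η) (ξ + η) = β ξ ξ + β η η + (β ξ η + β η ξ) := by
    intro ξ η
    simp only [hβ, ← Finset.sum_add_distrib, ← add_smul, Pi.add_apply]
    refine Finset.sum_congr rfl fun i _ => Finset.sum_congr rfl fun j _ => ?_
    congr 1
    ring
  have h3 := h2 (Pi.single i 1) (Pi.single j 1)
  have h4 : ∀ ξ, β ξ ξ = 0 := h
  rw [h4, h4, h4, h1, h1, zero_add, zero_add] at h3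
  exact h3.symm

theorem sym_sum (T : Fin n → Fin n → V → V)
    (h : ∀ (ξ : Fin n → ℝ) u, ∑ i, ∑ j, (ξ i * ξ j) • T i j u = 0) (s : Fin n → Fin n → V)
    (hs : ∀ i j, s i j = s j i) : ∑ i, ∑ j, T i j (s i j) = 0 := by
  have h1 : ∑ i, ∑ j, T i j (s i j) = ∑ i, ∑ j, T j i (s i j) := by
    rw [Finset.sum_comm]
    exact Finset.sum_congr rfl fun i _ => Finset.sum_congr rfl fun j _ => by rw [hs]
  have h2 : (2 : ℝ) • ∑ i, ∑ j, T i j (s i j) = 0 := by
    rw [two_smul]
    nth_rewrite 2 [h1]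
    simp only [← Finset.sum_add_distrib]
    exact Finset.sum_eq_zero fun i _ => Finset.sum_eq_zero fun j _ =>
      polar (fun a b => T a b (s i j)) (fun ξ => h ξ _) i j
  exact (smul_eq_zero.1 h2).resolve_left two_ne_zero

end

theorem pd_app {a : E n → W d →L[ℂ] W d'} {u : E n → W d} (h : ContDiff ℝ ∞ a)
    (h' : ContDiff ℝ ∞ u) (i : Fin n) (x : E n) :
    pd i (fun y => a y (u y)) x = a x (pd i u x) + pd i a x (u x) := by
  have h1 := ((bil_app d d').hasFDerivAt (a x, u x)).comp x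
    ((dif h x).hasFDerivAt.prodMk (dif h' x).hasFDerivAt)
  have h2 : fderiv ℝ (fun y => a y (u y)) x = _ := h1.fderiv
  unfold pd
  rw [h2]
  rfl

theorem pd_ap (Q : FO n d d') {w : E n → W d} (h : ContDiff ℝ ∞ w) (i : Fin n) (x : E n) :
    pd i (Q.ap w) x = ∑ j, (Q.a j x (pd i (pd j w) x) + pd i (Q.a j) x (pd j w x)) +
      (Q.b x (pd i w x) + pd i Q.b x (w x)) := by
  have h1 : ∀ j, HasFDerivAt (fun y => Q.a j y (pd j w y))
      (fderiv ℝ (fun y => Q.a j y (pd j w y)) x) x :=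
    fun j => (dif (sm_app (Q.a_smooth j) (sm_pd h j)) x).hasFDerivAt
  have h2 := ((HasFDerivAt.fun_sum (u := Finset.univ) fun j _ => h1 j).add
    (dif (sm_app Q.b_smooth h) x).hasFDerivAt).fderiv
  have h3 : fderiv ℝ (Q.ap w) x = _ := h2
  rw [← pd_app Q.b_smooth h]
  simp only [← pd_app (Q.a_smooth _) (sm_pd h _)]
  unfold pd at *
  rw [h3]
  simp

theorem comp (P : FO n d' d) (Q : FO n d d') :
    ∃ (B : Fin n → E n → End d) (C : E n → End d), (∀ i, ContDiff ℝ ∞ (B i)) ∧ ContDiff ℝ ∞ C ∧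
      ∀ w, ContDiff ℝ ∞ w → ∀ x, P.ap (Q.ap w) x =
        ∑ i, ∑ j, P.a i x (Q.a j x (pd i (pd j w) x)) + ∑ i, B i x (pd i w x) + C x (w x) := by
  refine ⟨fun j x => ∑ i, (P.a i x).comp (pd i (Q.a j) x) + (P.a j x).comp (Q.b x) +
      (P.b x).comp (Q.a j x),
    fun x => ∑ i, (P.a i x).comp (pd i Q.b x) + (P.b x).comp (Q.b x), fun j => ?_, ?_, ?_⟩
  · exact ((ContDiff.sum fun i _ => sm_comp (P.a_smooth i) (sm_pd (Q.a_smooth j) i)).add
      (sm_comp (P.a_smooth j) Q.b_smooth)).add (sm_comp P.b_smooth (Q.a_smooth j))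
  · exact (ContDiff.sum fun i _ => sm_comp (P.a_smooth i) (sm_pd Q.b_smooth i)).add
      (sm_comp P.b_smooth Q.b_smooth)
  · intro w hw x
    have e : ∑ j, ∑ i, P.a i x (pd i (Q.a j) x (pd j w x)) =
        ∑ i, ∑ j, P.a i x (pd i (Q.a j) x (pd j w x)) := Finset.sum_comm
    rw [FO.ap]
    simp only [pd_ap Q hw]
    simp only [FO.ap, map_add, map_sum, Finset.sum_add_distrib, add_apply, sum_apply, comp_apply,
      e]
    abel

/-- The formal adjoint as a first order operator. -/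
def st (D : FO n d d') : FO n d' d where
  a i x := -adjoint (D.a i x)
  b x := adjoint (D.b x) - ∑ i, adjoint (pd i (D.a i) x)
  a_smooth i := (sm_adj (D.a_smooth i)).neg
  b_smooth := (sm_adj D.b_smooth).sub (ContDiff.sum fun i _ => sm_adj (sm_pd (D.a_smooth i) i))

theorem ad_eq (D : FO n d d') (w : E n → W d') : D.ad w = (st D).ap w := by
  funext x
  simp only [FO.ad, FO.ap, st, neg_apply, sub_apply, sum_apply, Finset.sum_neg_distrib]

theorem adj_sym (D : FO n d d') (ξ : Fin n → ℝ) (x : E n) :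
    adjoint (D.sym ξ x) = ∑ i, ξ i • adjoint (D.a i x) := by
  change adjR d d' (∑ i, ξ i • D.a i x) = ∑ i, ξ i • adjR d d' (D.a i x)
  simp only [map_sum, map_smul]

end LapP

open LapP in
theorem lap : LapStmt := by
  intro n d₀ d d₁ D₀ D₁ g K r H
  obtain ⟨B₁, C₁, hB₁, hC₁, h₁⟩ := comp (st D₁) D₁
  obtain ⟨B₀, C₀, hB₀, hC₀, h₀⟩ := comp D₀ (st D₀)
  refine ⟨⟨g, fun i x => B₁ i x + B₀ i x, fun x => C₁ x + C₀ x, fun i => (hB₁ i).add (hB₀ i),
    hC₁.add hC₀⟩, rfl, fun w hw => funext fun x => ?_⟩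
  have key : ∑ i, ∑ j, (adjoint (D₁.a i x) (D₁.a j x (pd i (pd j w) x)) +
      D₀.a i x (adjoint (D₀.a j x) (pd i (pd j w) x)) - g.G x i j • pd i (pd j w) x) = 0 := by
    by_cases hx : x ∈ cthickening r K
    · refine sym_sum (fun i j u => adjoint (D₁.a i x) (D₁.a j x u) +
        D₀.a i x (adjoint (D₀.a j x) u) - g.G x i j • u) (fun ξ u => ?_) _
        fun i j => pd_symm hw.1 i j x
      have h := H x hx ξ u
      rw [adj_sym, adj_sym] at h
      simp only [FO.sym, quad, sum_apply, smul_apply, map_sum, map_smul_of_tower, Finset.sum_smul,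
        smul_smul] at h
      simp only [smul_sub, smul_add, Finset.sum_sub_distrib, Finset.sum_add_distrib, smul_smul]
      have e : ∑ i, ∑ j, (ξ i * ξ j * g.G x i j) • u = ∑ i, ∑ j, (g.G x i j * ξ i * ξ j) • u :=
        Finset.sum_congr rfl fun i _ => Finset.sum_congr rfl fun j _ => by
          rw [mul_comm, mul_assoc]
      rw [e, ← h, sub_eq_zero]
      exact congrArg₂ (· + ·) Finset.sum_comm Finset.sum_comm
    · have h0 : w =ᶠ[𝓝 x] fun _ => 0 := by
        filter_upwards [isClosed_cthickening.isOpen_compl.mem_nhds hx] with y hy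
        exact hw.2 y hy
      refine Finset.sum_eq_zero fun i _ => Finset.sum_eq_zero fun j _ => ?_
      rw [(pd_zero (pd_zero h0 j) i).self_of_nhds]
      simp
  rw [ad_eq, ad_eq, h₁ w hw.1, h₀ w hw.1]
  simp only [Finset.sum_sub_distrib, Finset.sum_add_distrib, sub_eq_zero] at key
  simp only [Coef.L, st, neg_apply, map_neg, Finset.sum_neg_distrib, add_apply,
    Finset.sum_add_distrib, ← key]
  abel

end Pool.Agent.MP_d9582c_gt.H1
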