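import Pool.Agent.MP_d9582c_gt.H1.Spec

/-!
The local Euclidean models of the Hodge Laplacian.
-/

open scoped Manifold ContDiff ComplexConjugate Topology ENNReal InnerProductSpace
open MeasureTheory Set Filter Metric ContinuousLinearMap Pool.Agent.MP_d9582c_gt.H34 UniformSpace

noncomputable section

namespace Pool.Agent.MP_d9582c_gt.H1

universe u v

namespace LocalP

lemma capply {Y A B : Type} [NormedAddCommGroup Y] [NormedSpace ℝ Y] [NormedAddCommGroup A]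
    [NormedSpace ℝ A] [NormedSpace ℂ A] [IsScalarTower ℝ ℂ A] [NormedAddCommGroup B]
    [NormedSpace ℝ B] [NormedSpace ℂ B] [IsScalarTower ℝ ℂ B] [SMulCommClass ℂ ℝ B]
    {S : Y → A →L[ℂ] B} {f : Y → A} {z : Y} (hS : ContDiff ℝ ∞ S) (hf : ContDiffAt ℝ ∞ f z) :
    ContDiffAt ℝ ∞ (fun z => S z (f z)) z :=
  ((restrictScalarsL ℂ A B ℝ ℝ).contDiff.comp hS).contDiffAt.clm_apply hf

variable {n : ℕ} {M : Type u} [TopologicalSpace M] [ChartedSpace (E n) M]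
  [IsManifold 𝓘(ℝ, E n) ∞ M] {G : Type v} [Group G] [MulAction G M] [MeasurableSpace M]
  {X : Geo n G M} {a : Fin X.m} (c : Chart X a)

lemma mem_target {z : E n} (hz : z ∈ c.O) : z ∈ (chartAt (E n) (X.ctr a)).target := by
  obtain ⟨x, hx, rfl⟩ := c.O_sub hz
  exact (chartAt (E n) (X.ctr a)).map_source (X.Cl_sub a (X.U_sub a hx))

lemma loc_smooth {q : ℕ} {η : M → Alt n q} (hη : ∀ x, SmoothAt η x) :
    ContDiffOn ℝ ∞ (c.loc q η) c.O := fun z hz => by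
  have h1 := SmoothAt.contDiffAt_pull (contMDiffAt_chart_symm (mem_target c hz)) (hη _)
  exact (capply (c.S'_smooth q) h1).contDiffWithinAt

lemma loc_extD {q : ℕ} {D : FO n (dim n q) (dim n (q + 1))}
    (hD : ∀ u z, DifferentiableAt ℝ u z →
      c.S (q + 1) z (D.ap u z) = extDeriv (fun z => c.S q z (u z)) z)
    {η : M → Alt n q} (hη : ∀ x, SmoothAt η x) {z : E n} (hz : z ∈ c.O) :
    c.loc (q + 1) (extD η) z = D.ap (c.loc q η) z := by
  have h := hD (c.loc q η) z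
    (((loc_smooth c hη).contDiffAt (c.isOpen_O.mem_nhds hz)).differentiableAt (by simp))
  have e : (fun z => c.S q z (c.loc q η z)) = pull (chartAt (E n) (X.ctr a)).symm η :=
    funext fun z => c.SS' q z _
  rw [e, SmoothAt.extDeriv_pull (contMDiffAt_chart_symm (mem_target c hz)) (hη _)] at h
  rw [Chart.loc, ← h, c.S'S]

/-- The zero operator. -/
def zeroFO (n d : ℕ) : FO n 0 d where
  a _ _ := 0
  b _ := 0
  a_smooth _ := contDiff_const
  b_smooth := contDiff_const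

variable [BorelSpace M] {D : FD X}

lemma dense_set {p : ℕ} {J : (E n → W (dim n p)) → D.P p}
    (hJ : ∀ w, Test c.K c.r w → ∀ η : D.P p, ⟪η, J w⟫_ℂ = ∫ z, ⟪c.loc p η.1 z, w z⟫_ℂ)
    {Φ : D.H p →L[ℂ] L2W n (dim n p)}
    (hΦ : ∀ η : D.P p, Φ η =ᵐ[volume] fun z => c.φ z • c.loc p η.1 z) :
    Dense {η : D.H p | ∃ f : E n → W (dim n p), Continuous f ∧
      (∀ w, Test c.K c.r w → ⟪η, (J w : D.H p)⟫_ℂ = ∫ x, ⟪f x, w x⟫_ℂ) ∧
        Φ η =ᵐ[volume] fun y => c.φ y • f y} := by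
  refine Dense.mono ?_ (Completion.denseRange_coe (α := D.P p))
  rintro _ ⟨η, rfl⟩
  refine ⟨fun z => c.χ z • c.loc p η.1 z, ?_, fun w hw => ?_, ?_⟩
  · exact ContinuousOn.continuous_of_tsupport_subset
      (c.χ_smooth.continuous.continuousOn.smul (loc_smooth c η.smooth).continuousOn) c.isOpen_O
      ((tsupport_smul_subset_left _ _).trans c.χ_supp)
  · rw [Completion.inner_coe, hJ w hw]
    refine integral_congr_ae (Eventually.of_forall fun z => ?_)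
    by_cases hz : z ∈ cthickening c.r c.K
    · simp only [c.χ_one z hz, one_smul]
    · simp only [hw.2 z hz, inner_zero_right]
  · refine (hΦ η).trans (Eventually.of_forall fun z => ?_)
    by_cases hz : z ∈ c.K
    · simp only [c.χ_one z (self_subset_cthickening _ hz), one_smul]
    · simp only [c.cut.zero z hz, zero_smul]

lemma adj (hf : FOStmt) {q : ℕ} {T : FO n (dim n q) (dim n (q + 1))}
    (hD : ∀ u z, DifferentiableAt ℝ u z →
      c.S (q + 1) z (T.ap u z) = extDeriv (fun z => c.S q z (u z)) z)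
    {J : (E n → W (dim n q)) → D.P q} {J' : (E n → W (dim n (q + 1))) → D.P (q + 1)}
    (hJ : ∀ w, Test c.K c.r w → ∀ η : D.P q, ⟪η, J w⟫_ℂ = ∫ z, ⟪c.loc q η.1 z, w z⟫_ℂ)
    (hJ' : ∀ w, Test c.K c.r w → ∀ η : D.P (q + 1),
      ⟪η, J' w⟫_ℂ = ∫ z, ⟪c.loc (q + 1) η.1 z, w z⟫_ℂ)
    {w : E n → W (dim n (q + 1))} (hw : Test c.K c.r w) {u : D.H q} {b : D.H (q + 1)}
    (hu : (u, b) ∈ D.Gr q) : ⟪b, (J' w : D.H (q + 1))⟫_ℂ = ⟪u, (J (T.ad w) : D.H q)⟫_ℂ := by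
  obtain ⟨-, h2, h3⟩ := hf n _ _ T c.K c.r c.cut.compact
  refine FD.Gr_ind (R := fun u b => ⟪b, (J' w : D.H (q + 1))⟫_ℂ = ⟪u, (J (T.ad w) : D.H q)⟫_ℂ)
    (isClosed_eq (by fun_prop) (by fun_prop)) (fun η ξ hξ => ?_) hu
  rw [Completion.inner_coe, Completion.inner_coe, hJ' w hw, hJ _ (h2 w hw),
    ← h3 c.O c.isOpen_O c.sub_O _ (loc_smooth c η.smooth) w hw, hξ]
  refine integral_congr_ae (Eventually.of_forall fun z => ?_)
  by_cases hz : z ∈ cthickening c.r c.K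
  · simp only [loc_extD c hD η.smooth (c.sub_O hz)]
  · simp only [hw.2 z hz, inner_zero_right]

lemma build (hf : FOStmt) (hl : LapStmt) {p d₀ : ℕ} {H' : Type u} [NormedAddCommGroup H']
    [InnerProductSpace ℂ H'] (Γ : Submodule ℂ (D.H p × H')) (T₀ : FO n d₀ (dim n p))
    (T : FO n (dim n p) (dim n (p + 1))) (J₀ : (E n → W d₀) → H')
    (J : (E n → W (dim n p)) → D.P p) (J' : (E n → W (dim n (p + 1))) → D.H (p + 1))
    (isJ : IsJ c.K c.r fun w => (J w : D.H p))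
    (hJ : ∀ w, Test c.K c.r w → ∀ η : D.P p, ⟪η, J w⟫_ℂ = ∫ z, ⟪c.loc p η.1 z, w z⟫_ℂ)
    (hsym : ∀ z ∈ c.O, ∀ ξ u, adjoint (T.sym ξ z) (T.sym ξ z u) +
      T₀.sym ξ z (adjoint (T₀.sym ξ z) u) = quad (c.met.G z) ξ • u)
    (g1 : ∀ w, Test c.K c.r w → ((J w : D.H p), J' (T.ap w)) ∈ D.Gr p)
    (g2 : ∀ w, Test c.K c.r w → ∀ u b, (u, b) ∈ D.Gr p →
      ⟪b, J' w⟫_ℂ = ⟪u, (J (T.ad w) : D.H p)⟫_ℂ)
    (g3 : ∀ w, Test c.K c.r w → ((J w : D.H p), J₀ (T₀.ad w)) ∈ Γ)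
    (g4 : ∀ w, Test c.K c.r w → ∀ u b, (u, b) ∈ Γ →
      ⟪b, J₀ w⟫_ℂ = ⟪u, (J (T₀.ap w) : D.H p)⟫_ℂ)
    (Φ : D.H p →L[ℂ] L2W n (dim n p))
    (hΦ : ∀ η : D.P p, Φ η =ᵐ[volume] fun z => c.φ z • c.loc p η.1 z) :
    ∃ L : Loc n (dim n p) (pairGraph (D.Gr p) Γ), L.Φ = Φ := by
  obtain ⟨k, -, hk⟩ := hl n d₀ _ _ T₀ T c.met c.K c.r fun x hx => hsym x (c.sub_O hx)
  obtain ⟨a1, a2, -⟩ := hf n _ _ T c.K c.r c.cut.compact
  obtain ⟨b1, b2, -⟩ := hf n _ _ T₀ c.K c.r c.cut.compact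
  refine ⟨⟨k, c.φ, c.K, c.r, c.r_pos, c.cut, fun w => (J w : D.H p), isJ, Φ, fun w hw => ?_,
    dense_set c hJ hΦ⟩, rfl⟩
  have t1 := a2 _ (a1 w hw)
  have t2 := b1 _ (b2 w hw)
  rw [hk w hw]
  refine ⟨⟨t1.1.add t2.1, fun x hx => by simp only [t1.2 x hx, t2.2 x hx, add_zero]⟩,
    WithLp.toLp 2 (J' (T.ap w), J₀ (T₀.ad w)), ⟨g1 w hw, g3 w hw⟩, fun v b hb => ?_⟩
  have e := isJ.add _ _ t1 t2
  beta_reduce at e ⊢
  rw [e, inner_add_right, ← g2 _ (a1 w hw) v _ hb.1, ← g4 _ (b2 w hw) v _ hb.2,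
    WithLp.prod_inner_apply]
  rfl

end LocalP

open LocalP in
theorem localModel (hc : ChartStmt.{u, v}) (hs : SymbStmt.{u, v}) (hj : JStmt.{u, v})
    (hp : PhiStmt.{u, v}) (hf : FOStmt) (hl : LapStmt) : LocalStmt.{u, v} := by
  intro n M _ _ _ _ G _ _ _ _ _ X hvol D p
  have c : ∀ a, Chart X a := fun a => Classical.choice (hc n M G X a)
  obtain ⟨Φ, hΦ, hsum⟩ := hp n M G X hvol c D p
  suffices h : ∀ a, ∃ L : Loc n (dim n p) (D.cx.lap p), L.Φ = Φ a by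
    choose L hL using h
    exact ⟨L, fun u => by simp only [hL]; exact hsum u⟩
  intro a
  obtain ⟨T, hT, s0, s1⟩ := hs n M G X a (c a)
  obtain ⟨J, j1, j2, j3⟩ := hj n M G X hvol a (c a) D
  have g1 : ∀ q w, Test (c a).K (c a).r w →
      ((J q w : D.H q), (J (q + 1) ((T q).ap w) : D.H (q + 1))) ∈ D.Gr q := fun q w hw =>
    FD.mem_Gr (j3 q w _ hw ((hf n _ _ (T q) _ _ (c a).cut.compact).1 w hw) fun z =>
      hT q w z (hw.1.differentiable (by simp) z))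
  have g2 : ∀ q w, Test (c a).K (c a).r w → ∀ u b, (u, b) ∈ D.Gr q →
      ⟪b, (J (q + 1) w : D.H (q + 1))⟫_ℂ = ⟪u, (J q ((T q).ad w) : D.H q)⟫_ℂ :=
    fun q w hw _ _ hu => adj (c a) hf (hT q) (j2 q) (j2 (q + 1)) hw hu
  cases p with
  | zero =>
    refine build (c a) hf hl (H' := D.H 0) (Submodule.prod ⊤ ⊥) (zeroFO n _) (T 0) (fun _ => 0)
      (J 0) (fun w => J 1 w) (j1 0) (j2 0) (fun z hz ξ u => ?_) (g1 0) (g2 0)
      (fun w _ => ⟨trivial, rfl⟩) (fun w _ u b _ => ?_) (Φ a) (hΦ a)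
    · rw [← s0 z hz ξ u]
      simp [FO.sym, zeroFO]
    · have h := (j1 0).smul 0 (fun _ => 0) ⟨contDiff_const, fun _ _ => rfl⟩
      have e : (zeroFO n (dim n 0)).ap w = fun _ => (0 : ℂ) • (0 : W (dim n 0)) := by
        funext x; simp [FO.ap, zeroFO]
      beta_reduce at h
      rw [e, h, zero_smul, inner_zero_right, inner_zero_right]
  | succ q =>
    refine build (c a) hf hl (H' := D.H q) (D.Gr q).adjoint (T q) (T (q + 1)) (fun w => J q w)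
      (J (q + 1)) (fun w => J (q + 1 + 1) w) (j1 _) (j2 _) (s1 q) (g1 _) (g2 _)
      (fun w hw => ?_) (fun w hw u b hb => ?_) (Φ a) (hΦ a)
    · exact (Submodule.mem_adjoint_iff _ _).2 fun u b hu => sub_eq_zero.2 (g2 q w hw u b hu)
    · have h := sub_eq_zero.1 ((Submodule.mem_adjoint_iff _ _).1 hb _ _ (g1 q w hw))
      rw [← inner_conj_symm, ← h, inner_conj_symm]

end Pool.Agent.MP_d9582c_gt.H1
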