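import Pool.Agent.MP_d9582c_gt.H1.Spec
import Pool.Agent.MP_d9582c_gt.H5.Tail
import Pool.Agent.MP_d9582c_gt.H44.Weyl
import Pool.Agent.MP_d9582c_gt.H68.Log

/-!
Integrability of the heat trace at large times from the positivity of the two determinants.
-/

open scoped InnerProductSpace ENNReal Topology
open MeasureTheory Set Filter ContinuousLinearMap

noncomputable section

namespace Pool.Agent.MP_d9582c_gt.H1

open Pool.Agent.MP_d9582c_gt.H34 Pool.Agent.MP_d9582c_gt.H5

universe u v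

namespace LongP

lemma dens_ne_top {μ : Measure ℝ} [IsFiniteMeasure μ] (hl : IntegrableOn Real.log (Ioi 0) μ)
    {c T : ℝ} (hc : 0 < c) (hT : 0 < T) :
    ∫⁻ t in Ioi T, μ (Ioc 0 (c / √t)) / ENNReal.ofReal t ≠ ⊤ := by
  rw [H68.fubini μ (fun t => c / √t) (fun x => (c / x) ^ 2) (by fun_prop) T hT
    (fun x hx => by positivity) fun x t hx ht => by
      rw [le_div_iff₀ (Real.sqrt_pos.2 ht), ← Real.sqrt_le_left (by positivity),
        le_div_iff₀ hx, mul_comm]]
  have hint : IntegrableOn (fun x => Real.log (c ^ 2 / T) - 2 * Real.log x) (Ioi 0) μ :=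
    (integrable_const _).sub (hl.const_mul 2)
  refine ne_top_of_le_ne_top hint.lintegral_lt_top.ne
    (setLIntegral_mono' measurableSet_Ioi fun x hx => ENNReal.ofReal_le_ofReal (le_of_eq ?_))
  have hx0 : 0 < x := hx
  rw [div_pow, div_right_comm, Real.log_div (by positivity) (by positivity), Real.log_pow]
  norm_num

lemma mat_ne_top {Q : Type v} [Group Q] {r : ℕ} {A : Matrix (Fin r) (Fin r) (MonoidAlgebra ℚ Q)}
    (hA : 0 < fkDet A) {c T : ℝ} (hc : 0 < c) (hT : 0 < T) :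
    ∫⁻ t in Ioi T, matMeasure A (Ioc 0 (c / √t)) / ENNReal.ofReal t ≠ ⊤ := by
  have hfin : IsFiniteMeasure (matMeasure A) :=
    (H68.carr_spec _ (stdVec Q r) (H68.spec_sub (rmulMat A) le_rfl)).fin
  refine dens_ne_top ?_ hc hT
  by_contra h
  rw [fkDet, if_neg h] at hA
  exact lt_irrefl _ hA

end LongP

theorem long : LongStmt.{u, v} := by
  intro Q _ r A A' n c C hF hWi hCi hA' hdA hdA' p
  have hS : SplitStmt.{u} := H44.split
  obtain ⟨c', hb⟩ := basic H44.weyl.{u, v} c n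
  obtain ⟨Cf, hCf, hfw⟩ := H35.forward.{u, v} H68.meas (max 1 c) (le_max_left _ _)
  have hsp := fun p => hS _ _ _ _ _ (C.closed p) (co_closed C p) (perp_co C p)
  set M : ℝ := max 0 (c' * (1 + 1⁻¹) ^ (n + 1)) with hM
  have hM0 : 0 ≤ M := le_max_left _ _
  obtain ⟨V, hV, hw, hE⟩ := H14.l2.1 Q r
  obtain ⟨X⟩ := cd_of_cech hCi hV
  obtain ⟨ι, w, hv⟩ := hF p
  have hb' := (hb _ C hF hWi p).1
  have h1 : hs w (heat (C.lap p) (1 / 2)) ≤ ENNReal.ofReal M := by
    rw [← trH_eq hv one_pos]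
    exact (hb' 1 one_pos).trans (ENNReal.ofReal_le_ofReal (le_max_right _ _))
  have f1 := hfw _ _ _ _ (C.lap p) _ ι w V r _ _ (1 - kerProj (C.D p)) (X.f p)
    (lap_closed _ p) hv hw (equi_resolv _ p) (hE _) (equi_id.sub (equi_kerD _ p)) (X.f_equi p)
    norm_one_sub_kerProj (X.f_le p) one_sub_kerProj_idem (hsp p).2.1
    fun x k hx hP => X.fwd_one hx hP
  have f2 := hfw _ _ _ _ (C.lap p) _ ι w V r _ _ (1 - kerProj (C.co p))
    (adjoint (X.g p)) (lap_closed _ p) hv hw (equi_resolv _ p) (hE _).adjoint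
    (equi_id.sub (equi_kerCo _ p)) (X.g_equi p).adjoint norm_one_sub_kerProj
    (by simpa using X.g_le p) one_sub_kerProj_idem (hsp p).2.2.1
    fun x k hx hP => X.fwd_two hS hx hP
  rw [← hA'] at f2
  have key : ∀ t ∈ Ioi Cf,
      ENNReal.ofReal (((C.trH p t).toReal - (C.trK p).toReal) / t) ≤
      ENNReal.ofReal Cf * (matMeasure A (Ioc 0 (Cf / √t)) / ENNReal.ofReal t) +
      (ENNReal.ofReal Cf * (matMeasure A' (Ioc 0 (Cf / √t)) / ENNReal.ofReal t) +
        ENNReal.ofReal (4 * Cf ^ 2 * M * t ^ (-2 : ℝ))) := by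
    intro t ht
    have ht0 : 0 < t := hCf.trans ht
    have ht1 : Cf ≤ t := le_of_lt ht
    have h2 : ENNReal.ofReal (Real.exp (-√t / Cf)) * hs w (heat (C.lap p) (1 / 2)) ≤
        ENNReal.ofReal (2 * Cf ^ 2 / t * M) := by
      rw [ENNReal.ofReal_mul (by positivity)]
      exact mul_le_mul' (ENNReal.ofReal_le_ofReal (exp_le hCf ht0)) h1
    have h3 : ENNReal.ofReal (4 * Cf ^ 2 * M * t ^ (-2 : ℝ)) =
        (ENNReal.ofReal (2 * Cf ^ 2 / t * M) + ENNReal.ofReal (2 * Cf ^ 2 / t * M)) /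
          ENNReal.ofReal t := by
      rw [← ENNReal.ofReal_add (by positivity) (by positivity), ← ENNReal.ofReal_div_of_pos ht0,
        Real.rpow_neg ht0.le, Real.rpow_two]
      congr 1
      field_simp
      ring
    rw [theta_eq hS hv ht0 (ne_top_of_le_ne_top ENNReal.ofReal_ne_top (hb' t ht0)), h3,
      ← mul_div_assoc, ← mul_div_assoc, ← ENNReal.add_div, ← ENNReal.add_div]
    refine ENNReal.div_le_div_right ?_ _
    refine (add_le_add ((f1 t ht1).trans (add_le_add_right h2 _))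
      ((f2 t ht1).trans (add_le_add_right h2 _))).trans (le_of_eq ?_)
    simp only [matMeasure]
    ring
  refine ⟨Cf, hCf, ne_top_of_le_ne_top ?_ (setLIntegral_mono' measurableSet_Ioi key)⟩
  rw [lintegral_add_left ((measurable_dens _ _).const_mul _),
    lintegral_add_left ((measurable_dens _ _).const_mul _),
    lintegral_const_mul' _ _ ENNReal.ofReal_ne_top, lintegral_const_mul' _ _ ENNReal.ofReal_ne_top,
    lintegral_inv_sq (by positivity) hCf]
  exact ENNReal.add_ne_top.2 ⟨ENNReal.mul_ne_top ENNReal.ofReal_ne_top (LongP.mat_ne_top hdA hCf hCf),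
    ENNReal.add_ne_top.2 ⟨ENNReal.mul_ne_top ENNReal.ofReal_ne_top (LongP.mat_ne_top hdA' hCf hCf),
      ENNReal.ofReal_ne_top⟩⟩

end Pool.Agent.MP_d9582c_gt.H1
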