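import Pool.Agent.MP_d9582c_gt.H1.Spec

/-!
Meromorphic continuation of the truncated Mellin transform (row Mellin, helper87).
-/

open scoped Topology
open MeasureTheory Set Filter Asymptotics

noncomputable section

namespace Pool.Agent.MP_d9582c_gt.H1

namespace MellinP

/-- Gluing of meromorphic functions on an exhausting sequence of half planes. -/
lemma glue (H : ℕ → ℂ → ℂ) (F : ℂ → ℂ) (c : ℝ) (hc : 0 ≤ c)
    (hm : ∀ N : ℕ, MeromorphicOn (H N) {s | -(N : ℝ) < s.re})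
    (hF : ∀ N s, c < s.re → H N s = F s) :
    ∃ ζ : ℂ → ℂ, MeromorphicOn ζ univ ∧
      ∀ (N : ℕ) (s : ℂ), -(N : ℝ) < s.re → AnalyticAt ℂ (H N) s → ζ =ᶠ[𝓝 s] H N := by
  have hop : ∀ a : ℝ, IsOpen {s : ℂ | a < s.re} := fun a =>
    isOpen_lt continuous_const Complex.continuous_re
  have hle : ∀ N M : ℕ, N ≤ M → ∀ s : ℂ, -(N : ℝ) < s.re → H N =ᶠ[𝓝[≠] s] H M := by
    intro N M hNM s hs
    have hsub : {s : ℂ | -(N : ℝ) < s.re} ⊆ {s : ℂ | -(M : ℝ) < s.re} := fun z hz => by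
      have h1 : (N : ℝ) ≤ M := Nat.cast_le.2 hNM
      have h2 : -(N : ℝ) < z.re := hz
      show -(M : ℝ) < z.re
      linarith
    have hd : MeromorphicOn (H N - H M) {s | -(N : ℝ) < s.re} := fun z hz =>
      (hm N z hz).sub (hm M z (hsub hz))
    have hx : ((c + 1 : ℝ) : ℂ) ∈ {s : ℂ | -(N : ℝ) < s.re} := by
      have : (0 : ℝ) ≤ N := Nat.cast_nonneg N
      simp only [mem_ofPred_eq, Complex.ofReal_re]
      linarith
    have h0 : meromorphicOrderAt (H N - H M) ((c + 1 : ℝ) : ℂ) = ⊤ := by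
      rw [meromorphicOrderAt_eq_top_iff]
      refine mem_nhdsWithin_of_mem_nhds ?_
      filter_upwards [(hop c).mem_nhds (show ((c + 1 : ℝ) : ℂ) ∈ {s : ℂ | c < s.re} by simp)]
        with z hz
      rw [Pi.sub_apply, hF N z hz, hF M z hz, sub_self]
    have h1 : meromorphicOrderAt (H N - H M) s = ⊤ := by
      by_contra h
      exact hd.meromorphicOrderAt_ne_top_of_isPreconnected
        (convex_halfSpace_re_gt _).isPreconnected hs hx h h0
    filter_upwards [meromorphicOrderAt_eq_top_iff.1 h1] with z hz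
    exact sub_eq_zero.1 hz
  have heq : ∀ N M : ℕ, ∀ s : ℂ, -(N : ℝ) < s.re → -(M : ℝ) < s.re → H N =ᶠ[𝓝[≠] s] H M := by
    intro N M s hN hM
    rcases le_total N M with h | h
    · exact hle N M h s hN
    · exact (hle M N h s hM).symm
  have hex : ∀ s : ℂ, ∃ N : ℕ, -(N : ℝ) < s.re := fun s => by
    obtain ⟨N, hN⟩ := exists_nat_gt (-s.re)
    exact ⟨N, by linarith⟩
  choose ν hν using hex
  let ζ : ℂ → ℂ := fun s => limUnder (𝓝[≠] s) (H (ν s))
  have hval : ∀ (N : ℕ) (s : ℂ), -(N : ℝ) < s.re → AnalyticAt ℂ (H N) s → ζ s = H N s := by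
    intro N s hs ha
    have h : Tendsto (H (ν s)) (𝓝[≠] s) (𝓝 (H N s)) :=
      (ha.continuousAt.tendsto.mono_left nhdsWithin_le_nhds).congr' (heq N (ν s) s hs (hν s))
    exact h.limUnder_eq
  refine ⟨ζ, fun s _ => ?_, fun N s hs ha => ?_⟩
  · refine (hm (ν s) s (hν s)).congr ?_
    filter_upwards [(hm (ν s) s (hν s)).eventually_analyticAt,
      mem_nhdsWithin_of_mem_nhds ((hop _).mem_nhds (hν s))] with z hz hz'
    exact (hval _ z hz' hz).symm
  · filter_upwards [ha.eventually_analyticAt, (hop _).mem_nhds hs] with z hz hz'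
    exact hval N z hz' hz

/-- The truncated Mellin transform of a function of size `t ^ N`. -/
lemma trunc {D : ℝ → ℝ} {ε C : ℝ} {N : ℕ}
    (hm : AEStronglyMeasurable D (volume.restrict (Ioi 0)))
    (hD : ∀ t ∈ Ioc 0 ε, |D t| ≤ C * t ^ N) {s : ℂ} (hs : -(N : ℝ) < s.re) :
    IntegrableOn (fun t : ℝ => (t : ℂ) ^ (s - 1) * D t) (Ioc 0 ε) ∧
    DifferentiableAt ℂ (fun s : ℂ => ∫ t in Ioc 0 ε, (t : ℂ) ^ (s - 1) * D t) s := by
  set f : ℝ → ℂ := (Ioc 0 ε).indicator fun t => (D t : ℂ) with hf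
  have h0 : ∀ s : ℂ, (fun t : ℝ => (t : ℂ) ^ (s - 1) • f t) =
      (Ioc 0 ε).indicator fun t => (t : ℂ) ^ (s - 1) * D t := by
    intro s
    funext t
    by_cases ht : t ∈ Ioc 0 ε <;> simp [hf, ht]
  have h1 : (fun s : ℂ => ∫ t in Ioc 0 ε, (t : ℂ) ^ (s - 1) * D t) = mellin f := by
    funext s
    rw [mellin, h0, setIntegral_indicator measurableSet_Ioc, inter_eq_right.2 Ioc_subset_Ioi_self]
  have hi : IntegrableOn (fun t => (D t : ℂ)) (Ioc 0 ε) := by
    refine Integrable.mono' (g := fun _ => |C| * ε ^ N) (integrableOn_const (by simp))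
      (Complex.continuous_ofReal.comp_aestronglyMeasurable
        (hm.mono_measure (Measure.restrict_mono Ioc_subset_Ioi_self le_rfl))) ?_
    filter_upwards [ae_restrict_mem measurableSet_Ioc] with t ht
    rw [Complex.norm_real, Real.norm_eq_abs]
    exact (hD t ht).trans (mul_le_mul (le_abs_self C) (pow_le_pow_left₀ ht.1.le ht.2 N)
      (pow_nonneg ht.1.le N) (abs_nonneg C))
  have hl : LocallyIntegrableOn f (Ioi 0) :=
    ((integrable_indicator_iff measurableSet_Ioc).2 hi).locallyIntegrable.locallyIntegrableOn _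
  have htop : f =O[atTop] fun t : ℝ => t ^ (-(s.re + 1)) := by
    refine (isBigO_zero _ _).congr' ?_ EventuallyEq.rfl
    filter_upwards [eventually_gt_atTop ε] with t ht
    have : t ∉ Ioc 0 ε := fun h => absurd h.2 (not_le.2 ht)
    simp [hf, this]
  have hbot : f =O[𝓝[>] 0] fun t : ℝ => t ^ (-(-(N : ℝ))) := by
    refine IsBigO.of_bound |C| ?_
    filter_upwards [self_mem_nhdsWithin] with t ht
    have ht0 : 0 < t := ht
    simp only [neg_neg, Real.rpow_natCast, Real.norm_eq_abs, abs_of_pos (pow_pos ht0 N)]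
    by_cases h : t ∈ Ioc 0 ε
    · simp only [hf, indicator_of_mem h, Complex.norm_real, Real.norm_eq_abs]
      exact (hD t h).trans (mul_le_mul_of_nonneg_right (le_abs_self C) (pow_pos ht0 N).le)
    · simp only [hf, indicator_of_notMem h, norm_zero]
      positivity
  constructor
  · have h := mellinConvergent_of_isBigO_rpow hl htop (lt_add_one _) hbot hs
    rw [MellinConvergent, h0] at h
    have h2 := h.mono_set (Ioc_subset_Ioi_self : Ioc 0 ε ⊆ Ioi 0)
    exact h2.congr_fun (fun t ht => indicator_of_mem ht _) measurableSet_Ioc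
  · rw [h1]
    exact mellin_differentiableAt_of_isBigO_rpow hl htop (lt_add_one _) hbot hs

/-- The bound for the remainder extends from `(0, 1]` to `(0, ε]`. -/
lemma bound {θ S : ℝ → ℝ} {ε C : ℝ} {N : ℕ} (ha : AntitoneOn θ (Ioi 0))
    (hS : ContinuousOn S (Ioi 0)) (h : ∀ t ∈ Ioc (0 : ℝ) 1, |θ t - S t| ≤ C * t ^ N) :
    ∃ C' : ℝ, ∀ t ∈ Ioc 0 ε, |θ t - S t| ≤ C' * t ^ N := by
  obtain ⟨B, hB⟩ := (isCompact_Icc (a := (1 : ℝ)) (b := ε)).exists_bound_of_continuousOn
    (hS.mono fun t ht => lt_of_lt_of_le one_pos ht.1)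
  refine ⟨|C| + (|θ 1| + |θ ε| + |B|), fun t ht => ?_⟩
  have hp : 0 < t ^ N := pow_pos ht.1 N
  have h0 : 0 ≤ |θ 1| + |θ ε| + |B| := by positivity
  rcases le_total t 1 with h1 | h1
  · refine (h t ⟨ht.1, h1⟩).trans (mul_le_mul_of_nonneg_right ?_ hp.le)
    linarith [le_abs_self C]
  · have h2 : θ t ≤ θ 1 := ha (mem_Ioi.2 one_pos) ht.1 h1
    have h3 : θ ε ≤ θ t := ha ht.1 (ht.1.trans_le ht.2) ht.2
    have h4 := hB t ⟨h1, ht.2⟩
    rw [Real.norm_eq_abs, abs_le] at h4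
    have h5 : |θ t - S t| ≤ |θ 1| + |θ ε| + |B| := by
      rw [abs_le]
      constructor <;> linarith [le_abs_self (θ 1), neg_abs_le (θ ε), le_abs_self B,
        abs_nonneg (θ 1), abs_nonneg (θ ε), h4.1, h4.2]
    have h6 : 1 ≤ t ^ N := one_le_pow₀ h1
    nlinarith [abs_nonneg C]

/-- The Mellin transform of a power. -/
lemma power {ε c : ℝ} (hε : 0 < ε) {s : ℂ} (hs : 0 < s.re + c) :
    IntegrableOn (fun t : ℝ => (t : ℂ) ^ (s - 1) * (t ^ c : ℝ)) (Ioc 0 ε) ∧
    ∫ t in Ioc 0 ε, (t : ℂ) ^ (s - 1) * (t ^ c : ℝ) = (ε : ℂ) ^ (s + c) / (s + c) := by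
  have he : EqOn (fun t : ℝ => (t : ℂ) ^ (s + c - 1))
      (fun t : ℝ => (t : ℂ) ^ (s - 1) * (t ^ c : ℝ)) (Ioc 0 ε) := by
    intro t ht
    have ht0 : (t : ℂ) ≠ 0 := by exact_mod_cast ht.1.ne'
    simp only
    rw [Complex.ofReal_cpow ht.1.le, ← Complex.cpow_add _ _ ht0, add_sub_right_comm]
  have hre : -1 < (s + c - 1).re := by
    simp only [Complex.sub_re, Complex.add_re, Complex.ofReal_re, Complex.one_re]
    linarith
  have hne : s + c ≠ 0 := fun h => by
    have := congrArg Complex.re h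
    simp only [Complex.add_re, Complex.ofReal_re, Complex.zero_re] at this
    linarith
  constructor
  · exact ((intervalIntegrable_iff_integrableOn_Ioc_of_le hε.le).1
      (intervalIntegral.intervalIntegrable_cpow' hre)).congr_fun he measurableSet_Ioc
  · rw [← setIntegral_congr_fun measurableSet_Ioc he, ← intervalIntegral.integral_of_le hε.le,
      integral_cpow (Or.inl hre), sub_add_cancel, Complex.ofReal_zero, Complex.zero_cpow hne,
      sub_zero]

/-- The factor `1 / (Γ(s) (s + c))` with the removable singularity at `0` removed. -/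
def kk (c : ℝ) (s : ℂ) : ℂ :=
  if c = 0 then (Complex.Gamma (s + 1))⁻¹ else (Complex.Gamma s)⁻¹ / (s + c)

lemma anG (s : ℂ) : AnalyticAt ℂ (fun s : ℂ => (Complex.Gamma s)⁻¹) s :=
  Complex.differentiable_one_div_Gamma.analyticAt s

lemma anG1 (s : ℂ) : AnalyticAt ℂ (fun s : ℂ => (Complex.Gamma (s + 1))⁻¹) s :=
  AnalyticAt.comp (g := fun s : ℂ => (Complex.Gamma s)⁻¹) (f := fun s : ℂ => s + 1) (anG _)
    (analyticAt_id.add analyticAt_const)

lemma kk_mer (c : ℝ) (s : ℂ) : MeromorphicAt (kk c) s := by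
  unfold kk
  split_ifs
  · exact (anG1 s).meromorphicAt
  · exact (anG s).meromorphicAt.div (analyticAt_id.add analyticAt_const).meromorphicAt

lemma kk_an (c : ℝ) (s : ℂ) (h : c ≠ 0 → s + c ≠ 0) : AnalyticAt ℂ (kk c) s := by
  unfold kk
  split_ifs with hc
  · exact anG1 s
  · exact (anG s).div (analyticAt_id.add analyticAt_const) (h hc)

lemma kk_eq (c : ℝ) {s : ℂ} (hs : s ≠ 0) : kk c s = (Complex.Gamma s)⁻¹ / (s + c) := by
  unfold kk
  split_ifs with hc
  · rw [hc, Complex.Gamma_add_one s hs, Complex.ofReal_zero, add_zero, mul_inv, div_eq_mul_inv,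
      mul_comm]
  · rfl

lemma kk_real (c x : ℝ) : ∃ y : ℝ, kk c x = y := by
  unfold kk
  split_ifs
  · refine ⟨(Real.Gamma (x + 1))⁻¹, ?_⟩
    rw [Complex.ofReal_inv, ← Complex.Gamma_ofReal]
    simp
  · refine ⟨(Real.Gamma x)⁻¹ / (x + c), ?_⟩
    rw [Complex.ofReal_div, Complex.ofReal_inv, ← Complex.Gamma_ofReal]
    simp

/-- The continuation to one half plane. -/
lemma step {n : ℕ} {θ : ℝ → ℝ} {ε : ℝ} (hε : 0 < ε) (ha : AntitoneOn θ (Ioi 0)) (he : Exp n θ)
    (N : ℕ) : ∃ H : ℂ → ℂ, MeromorphicOn H {s | -(N : ℝ) < s.re} ∧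
      (0 < N → AnalyticAt ℂ H 0) ∧ (∀ x : ℝ, (H x).im = 0) ∧
      ∀ s : ℂ, (n : ℝ) / 2 < s.re → AnalyticAt ℂ H s ∧
        IntegrableOn (fun t : ℝ => (t : ℂ) ^ (s - 1) * θ t) (Ioc 0 ε) ∧
        H s = (Complex.Gamma s)⁻¹ * ∫ t in Ioc 0 ε, (t : ℂ) ^ (s - 1) * θ t := by
  obtain ⟨J, a, C, h⟩ := he N
  set c : ℕ → ℝ := fun j => ((j : ℝ) - n) / 2 with hc
  set S : ℝ → ℝ := fun t => ∑ j ∈ Finset.range J, a j * t ^ c j with hS
  have hSc : ContinuousOn S (Ioi 0) := continuousOn_finsetSum _ fun j _ =>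
    continuousOn_const.mul (continuousOn_id.rpow_const fun t ht => Or.inl (ne_of_gt ht))
  obtain ⟨C', hC'⟩ := bound (ε := ε) ha hSc h
  have hm : AEStronglyMeasurable (fun t => θ t - S t) (volume.restrict (Ioi 0)) :=
    (aemeasurable_restrict_of_antitoneOn measurableSet_Ioi ha).aestronglyMeasurable.sub
      (hSc.aestronglyMeasurable measurableSet_Ioi)
  set I : ℂ → ℂ := fun s => ∫ t in Ioc 0 ε, (t : ℂ) ^ (s - 1) * (θ t - S t : ℝ) with hI
  have hop : IsOpen {s : ℂ | -(N : ℝ) < s.re} := isOpen_lt continuous_const Complex.continuous_re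
  have hIa : ∀ s : ℂ, -(N : ℝ) < s.re → AnalyticAt ℂ I s := fun s hs =>
    DifferentiableOn.analyticOnNhd
      (fun z hz => (trunc hm hC' hz).2.differentiableWithinAt) hop s hs
  have hε0 : (ε : ℂ) ≠ 0 := by exact_mod_cast hε.ne'
  have hP : ∀ j s, AnalyticAt ℂ (fun s : ℂ => (a j : ℂ) * (ε : ℂ) ^ (s + c j)) s := fun j s =>
    Differentiable.analyticAt (fun z => ((differentiableAt_id.add_const _).const_cpow
      (Or.inl hε0)).const_mul _) s
  let H : ℂ → ℂ := fun s => ∑ j ∈ Finset.range J, (a j : ℂ) * (ε : ℂ) ^ (s + c j) * kk (c j) s +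
    (Complex.Gamma s)⁻¹ * I s
  have hHa : ∀ s : ℂ, -(N : ℝ) < s.re → (∀ j, c j ≠ 0 → s + c j ≠ 0) → AnalyticAt ℂ H s :=
    fun s hs hj => (Finset.analyticAt_fun_sum _ fun j _ => (hP j s).mul (kk_an _ s (hj j))).add
      ((anG s).mul (hIa s hs))
  refine ⟨H, fun s hs => ?_, fun hN => hHa 0 ?_ fun j hj => ?_, fun x => ?_, fun s hs => ?_⟩
  · exact (MeromorphicAt.fun_sum fun j _ => (hP j s).meromorphicAt.mul (kk_mer _ s)).add
      ((anG s).mul (hIa s hs)).meromorphicAt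
  · have : (0 : ℝ) < N := Nat.cast_pos.2 hN
    simpa using this
  · rw [zero_add]
    exact_mod_cast hj
  · have h1 : I x = (∫ t in Ioc 0 ε, t ^ (x - 1) * (θ t - S t) : ℝ) := by
      rw [← integral_complex_ofReal]
      refine setIntegral_congr_fun measurableSet_Ioc fun t ht => ?_
      rw [Complex.ofReal_mul, Complex.ofReal_cpow ht.1.le]
      simp
    simp only [H]
    rw [Complex.add_im, Complex.im_sum, h1, Complex.Gamma_ofReal, ← Complex.ofReal_inv,
      ← Complex.ofReal_mul, Complex.ofReal_im, add_zero]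
    refine Finset.sum_eq_zero fun j _ => ?_
    obtain ⟨y, hy⟩ := kk_real (c j) x
    rw [hy, ← Complex.ofReal_add, ← Complex.ofReal_cpow hε.le, ← Complex.ofReal_mul,
      ← Complex.ofReal_mul, Complex.ofReal_im]
  · have hn : (0 : ℝ) ≤ n := Nat.cast_nonneg n
    have hN : (0 : ℝ) ≤ N := Nat.cast_nonneg N
    have hs' : -(N : ℝ) < s.re := by linarith
    have hj : ∀ j, 0 < s.re + c j := fun j => by
      have : (0 : ℝ) ≤ j := Nat.cast_nonneg j
      simp only [hc]
      linarith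
    have hs0 : s ≠ 0 := fun h0 => by
      rw [h0, Complex.zero_re] at hs
      linarith
    have hi1 := (trunc hm hC' hs').1
    have hi2 : ∀ j, IntegrableOn (fun t : ℝ => (a j : ℂ) * ((t : ℂ) ^ (s - 1) * (t ^ c j : ℝ)))
        (Ioc 0 ε) := fun j => (power hε (hj j)).1.const_mul _
    have hi3 := integrable_finsetSum (Finset.range J) fun j _ => hi2 j
    have e : (fun t : ℝ => (t : ℂ) ^ (s - 1) * θ t) = fun t : ℝ =>
        ∑ j ∈ Finset.range J, (a j : ℂ) * ((t : ℂ) ^ (s - 1) * (t ^ c j : ℝ)) +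
          (t : ℂ) ^ (s - 1) * (θ t - S t : ℝ) := by
      funext t
      have : ∑ j ∈ Finset.range J, (a j : ℂ) * ((t : ℂ) ^ (s - 1) * (t ^ c j : ℝ)) =
          (t : ℂ) ^ (s - 1) * (S t : ℝ) := by
        simp only [hS, Complex.ofReal_sum, Complex.ofReal_mul, Finset.mul_sum]
        exact Finset.sum_congr rfl fun j _ => by ring
      rw [this, Complex.ofReal_sub]
      ring
    refine ⟨hHa s hs' fun j _ h0 => ?_, ?_, ?_⟩
    · have := congrArg Complex.re h0
      simp only [Complex.add_re, Complex.ofReal_re, Complex.zero_re] at this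
      linarith [hj j]
    · rw [e]
      exact hi3.add hi1
    · rw [e, integral_add hi3 hi1, integral_finsetSum _ fun j _ => hi2 j, mul_add, Finset.mul_sum]
      simp only [H]
      congr 1
      refine Finset.sum_congr rfl fun j _ => ?_
      rw [integral_const_mul, (power hε (hj j)).2, kk_eq _ hs0]
      ring

end MellinP

open MellinP in
theorem mellin : MellinStmt := by
  intro n θ ε hε ha he
  choose H h1 h2 h3 h4 using step hε ha he
  have hn : (0 : ℝ) ≤ (n : ℝ) / 2 := by positivity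
  obtain ⟨ζ, hζ, hv⟩ := glue H
    (fun s => (Complex.Gamma s)⁻¹ * ∫ t in Ioc 0 ε, (t : ℂ) ^ (s - 1) * θ t) _ hn h1
    fun N s hs => (h4 N s hs).2.2
  have h0 := hv 1 0 (by simp) (h2 1 one_pos)
  refine ⟨ζ, hζ, (h2 1 one_pos).congr h0.symm, ?_, fun s hs => ⟨(h4 0 s hs).2.1, ?_⟩⟩
  · rw [h0.deriv_eq]
    have hd : HasDerivAt (H 1) (deriv (H 1) 0) ((0 : ℝ) : ℂ) :=
      (h2 1 one_pos).differentiableAt.hasDerivAt
    have h5 := Complex.imCLM.hasFDerivAt.comp_hasDerivAt (0 : ℝ) hd.comp_ofReal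
    have h6 : (Complex.imCLM ∘ fun x : ℝ => H 1 x) = fun _ => 0 := funext fun x => h3 1 x
    rw [h6] at h5
    exact h5.unique (hasDerivAt_const _ _)
  · rw [(hv 0 s (by simpa using hn.trans_lt hs) (h4 0 s hs).1).eq_of_nhds]
    exact (h4 0 s hs).2.2

end Pool.Agent.MP_d9582c_gt.H1
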