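import Pool.Agent.MP_d9582c_gt.H1.Spec
import Pool.Agent.MP_d9582c_gt.H63.Ops
import Pool.Agent.MP_d9582c_gt.H92.Vol

/-!
The localization operators.
-/

open scoped Manifold ContDiff ComplexConjugate Topology ENNReal InnerProductSpace
open MeasureTheory Set Filter Metric ContinuousLinearMap Pool.Agent.MP_d9582c_gt.H34

noncomputable section

namespace Pool.Agent.MP_d9582c_gt.H1

universe u v

namespace PhiP

variable {n p : ℕ} {M : Type u} [TopologicalSpace M] [ChartedSpace (E n) M]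
  [IsManifold 𝓘(ℝ, E n) ∞ M] {G : Type v} [Group G] [MulAction G M] [MeasurableSpace M]
  {X : Geo n G M} {a : Fin X.m} (c : Chart X a)

/-- The localized section. -/
def fl (p : ℕ) (η : M → Alt n p) (z : E n) : W (dim n p) := c.φ z • c.loc p η z

lemma U_src : X.U a ⊆ (chartAt (E n) (X.ctr a)).source := (X.U_sub a).trans (X.Cl_sub a)

lemma K_sub : c.K ⊆ c.O := (self_subset_cthickening _).trans c.sub_O

lemma O_tgt : c.O ⊆ (chartAt (E n) (X.ctr a)).target := fun _ hz => by
  obtain ⟨y, hy, rfl⟩ := c.O_sub hz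
  exact (chartAt (E n) (X.ctr a)).map_source (U_src hy)

lemma fl_zero (η : M → Alt n p) {z : E n} (hz : z ∉ c.K) : fl c p η z = 0 := by
  rw [fl, c.cut.zero z hz, zero_smul]

lemma fl_add (η ξ : M → Alt n p) : fl c p (η + ξ) = fl c p η + fl c p ξ := by
  funext z
  have : pull (chartAt (E n) (X.ctr a)).symm (η + ξ) z =
      pull (chartAt (E n) (X.ctr a)).symm η z + pull (chartAt (E n) (X.ctr a)).symm ξ z := rfl
  simp only [fl, Chart.loc, this, map_add, smul_add, Pi.add_apply]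

lemma fl_smul (k : ℂ) (η : M → Alt n p) : fl c p (k • η) = k • fl c p η := by
  funext z
  have : pull (chartAt (E n) (X.ctr a)).symm (k • η) z =
      k • pull (chartAt (E n) (X.ctr a)).symm η z := rfl
  simp only [fl, Chart.loc, this, map_smul, Pi.smul_apply]
  exact smul_comm _ _ _

lemma fl_cont {η : M → Alt n p} (h : ∀ x, SmoothAt η x) : Continuous (fl c p η) := by
  refine continuous_iff_continuousAt.2 fun z => ?_
  by_cases hz : z ∈ c.K
  · have h1 := (SmoothAt.contDiffAt_pull (contMDiffAt_chart_symm (O_tgt c (K_sub c hz)))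
      (h _)).continuousAt
    exact c.cut.smooth.continuous.continuousAt.smul
      ((c.S'_smooth p).continuous.continuousAt.clm_apply h1)
  · refine ContinuousAt.congr (f := fun _ => 0) continuousAt_const ?_
    filter_upwards [c.cut.compact.isClosed.isOpen_compl.mem_nhds hz] with w hw
    exact (fl_zero c η hw).symm

lemma fl_memLp {η : M → Alt n p} (h : ∀ x, SmoothAt η x) : MemLp (fl c p η) 2 volume :=
  (fl_cont c h).memLp_of_hasCompactSupport
    (HasCompactSupport.intro c.cut.compact fun _ hz => fl_zero c η hz)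

lemma norm_loc (η : M → Alt n p) {y : M} (hy : y ∈ X.U a) (hO : chartAt (E n) (X.ctr a) y ∈ c.O) :
    ‖c.loc p η (chartAt (E n) (X.ctr a) y)‖ ^ 2 =
      √(gram X.g (chartAt (E n) (X.ctr a)).symm (chartAt (E n) (X.ctr a) y)).det *
        nsq X.g y (η y) := by
  have h := c.iso p _ hO (c.loc p η (chartAt (E n) (X.ctr a) y))
    (c.loc p η (chartAt (E n) (X.ctr a) y))
  have e : (pull (chartAt (E n) (X.ctr a)).symm η (chartAt (E n) (X.ctr a) y)).compContinuousLinearMap
      (tang n (chartAt (E n) (X.ctr a)) y) = η y := by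
    ext v
    simp only [pull, ContinuousAlternatingMap.compContinuousLinearMap_apply,
      (chartAt (E n) (X.ctr a)).left_inv (U_src hy),
      Function.comp_def, tang_chart_symm_comp (U_src hy)]
  rw [inner_self_eq_norm_sq_to_K, Chart.loc, c.SS', hh,
    (chartAt (E n) (X.ctr a)).left_inv (U_src hy), e, ip_self] at h
  rw [Chart.loc]
  refine Complex.ofReal_injective ?_
  rw [Complex.ofReal_mul, h, Complex.ofReal_pow]
  rfl

variable [BorelSpace M]

lemma lintegral_fl (hμ : IsVolume X.g X.μ) {η : M → Alt n p} (h : ∀ x, SmoothAt η x) :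
    ∫⁻ z, ‖fl c p η z‖ₑ ^ 2 =
      ∫⁻ x in X.U a, ENNReal.ofReal (X.φ a x ^ 2 * nsq X.g x (η x)) ∂X.μ := by
  set κ := chartAt (E n) (X.ctr a) with hκ
  have hA := (X.isOpen_U a).measurableSet
  have hm := H92.measurableSet_chart_image hA (U_src (a := a))
  have ht : κ '' X.U a ⊆ κ.target := by rintro _ ⟨y, hy, rfl⟩; exact κ.map_source (U_src hy)
  have hc : Continuous fun x => X.φ a x ^ 2 * nsq X.g x (η x) :=
    ((X.smooth a).continuous.pow 2).mul
      (continuous_iff_continuousAt.2 fun x => continuousAt_nsq X.g (h x))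
  have hf : AEMeasurable (fun z => ENNReal.ofReal (X.φ a (κ.symm z) ^ 2 *
      nsq X.g (κ.symm z) (η (κ.symm z)))) (volume.restrict (κ '' X.U a)) :=
    ((hc.comp_continuousOn (κ.continuousOn_symm.mono ht)).aemeasurable hm).ennreal_ofReal
  have h1 := H92.lintegral_chart X.g hμ hA U_src hf
  rw [← setLIntegral_eq_of_support_subset (s := κ '' X.U a) fun z hz => ?_]
  · refine Eq.trans (setLIntegral_congr_fun hm ?_)
      (h1.symm.trans (setLIntegral_congr_fun hA fun y hy => ?_))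
    · rintro _ ⟨y, hy, rfl⟩
      dsimp only
      rw [κ.left_inv (U_src hy), ← ENNReal.ofReal_mul (Real.sqrt_nonneg _), enorm_sq_eq]
      congr 1
      by_cases hz : κ y ∈ c.K
      · rw [fl, norm_smul, mul_pow, norm_loc c η hy (K_sub c hz), c.φ_eq y hy, Real.norm_eq_abs,
          sq_abs]
        ring
      · rw [fl_zero c η hz, ← c.φ_eq y hy, c.cut.zero _ hz]
        simp
    · rw [κ.left_inv (U_src hy)]
  · by_contra hn
    refine hz ?_
    simp [fl_zero c η fun hK => hn (c.O_sub (K_sub c hK))]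

/-- The localization on smooth forms. -/
def Tl (D : FD X) (p : ℕ) : D.P p →ₗ[ℂ] L2W n (dim n p) where
  toFun η := (fl_memLp c η.smooth).toLp (fl c p η.1)
  map_add' η ξ := by
    rw [← MemLp.toLp_add]
    exact MemLp.toLp_congr _ _ (EventuallyEq.of_eq (fl_add c η.1 ξ.1))
  map_smul' k η := by
    rw [RingHom.id_apply, ← MemLp.toLp_const_smul]
    exact MemLp.toLp_congr _ _ (EventuallyEq.of_eq (fl_smul c k η.1))

lemma enorm_Tl (hμ : IsVolume X.g X.μ) (D : FD X) (η : D.P p) :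
    ‖Tl c D p η‖ₑ ^ 2 = ∫⁻ x in X.U a, ENNReal.ofReal (X.φ a x ^ 2 * nsq X.g x (η.1 x)) ∂X.μ := by
  rw [← lintegral_fl c hμ η.smooth]
  change ‖(fl_memLp c η.smooth).toLp (fl c p η.1)‖ₑ ^ 2 = _
  have := eLpNorm_nnreal_pow_eq_lintegral (μ := volume) (f := fl c p η.1) (p := 2) two_ne_zero
  rw [Lp.enorm_toLp]
  simpa using this

variable [Countable G]

lemma norm_Tl (hμ : IsVolume X.g X.μ) (D : FD X) (η : D.P p) : ‖Tl c D p η‖ ≤ 1 * ‖η‖ := by
  refine norm_le_of_enorm_sq zero_le_one ?_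
  have hA := (X.isOpen_U a).measurableSet
  rw [enorm_Tl c hμ, FD.P.enorm_sq, one_pow, ENNReal.ofReal_one, one_mul]
  refine le_trans (lintegral_mono fun x => ENNReal.ofReal_le_ofReal
    (mul_le_of_le_one_left (nsq_nonneg _ _ _) (Geo.φ_sq_le a x))) ?_
  exact X.lintegral_le_fd D.fd hA (fun γ _ x => X.disj a γ x) fun γ hγ x => by rw [η.inv.nsq hγ]

/-- The localization operator. -/
def Ph (hμ : IsVolume X.g X.μ) (D : FD X) (p : ℕ) : D.H p →L[ℂ] L2W n (dim n p) :=
  cext (Tl c D p) 1 (norm_Tl c hμ D)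

lemma Ph_coe (hμ : IsVolume X.g X.μ) (D : FD X) (η : D.P p) : Ph c hμ D p η = Tl c D p η :=
  cext_coe _ _ _ _

lemma tsum_Ph (hμ : IsVolume X.g X.μ) (D : FD X) (η : D.P p) :
    ∑' q : G ⧸ D.N, ‖Ph c hμ D p (D.rep p q⁻¹ η)‖ₑ ^ 2 =
      ∫⁻ x in D.F, ENNReal.ofReal (X.φ a x ^ 2 * nsq X.g x (η.1 x)) ∂X.μ := by
  rw [D.lintegral_V a (fun γ hγ x => by rw [X.inv, η.inv.nsq hγ])
    fun x hx => by rw [Geo.φ_eq_zero hx]; simp]
  refine tsum_congr fun q => ?_
  have e : q⁻¹ = ((q.out⁻¹ : G) : G ⧸ D.N) := by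
    rw [QuotientGroup.mk_inv, QuotientGroup.out_eq']
  rw [e, FD.rep_coe, Ph_coe, enorm_Tl c hμ]
  simp only [Op.pre_val, FD.trOp_T, X.nsq_tr, inv_inv, X.inv]

end PhiP

open PhiP in
theorem phi : PhiStmt.{u, v} := by
  intro n M _ _ _ G _ _ _ _ _ X hμ c D p
  refine ⟨fun a => Ph (c a) hμ D p, fun a η => ?_, fun u => ?_⟩
  · rw [Ph_coe]
    exact MemLp.coeFn_toLp (fl_memLp (c a) η.smooth)
  · have key : ∀ w : D.H p, ∑' i : (G ⧸ D.N) × Fin X.m, ‖(Ph (c i.2) hμ D p ∘L
        (D.rep p i.1⁻¹).toContinuousLinearEquiv.toContinuousLinearMap) w‖ₑ ^ 2 =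
        ∑' q, ∑ a, ‖Ph (c a) hμ D p (D.rep p q⁻¹ w)‖ₑ ^ 2 := fun w => by
      rw [ENNReal.tsum_prod']
      exact tsum_congr fun q => tsum_fintype _
    rw [← key]
    refine H63.parseval_ext _ (fun η => ?_) u
    rw [key, Summable.tsum_finsetSum fun _ _ => ENNReal.summable, FD.P.enorm_coe_sq, FD.nrm]
    simp only [tsum_Ph]
    have hm : ∀ a, Measurable fun x => ENNReal.ofReal (X.φ a x ^ 2 * nsq X.g x (η.1 x)) := fun a =>
      (((X.smooth a).continuous.pow 2).mul (continuous_iff_continuousAt.2 fun x =>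
        continuousAt_nsq X.g (FD.P.smooth η x))).measurable.ennreal_ofReal
    rw [← lintegral_finsetSum _ fun a _ => hm a]
    refine lintegral_congr fun x => ?_
    rw [← ENNReal.ofReal_sum_of_nonneg fun a _ => mul_nonneg (sq_nonneg _) (nsq_nonneg _ _ _),
      ← Finset.sum_mul, X.sum_sq, one_mul]

end Pool.Agent.MP_d9582c_gt.H1
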