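import Pool.Agent.MP_d9582c_gt.H1.Spec

/-!
Uniform boundedness of the parametrix by the test of Schur.
-/

open scoped ENNReal
open MeasureTheory Set Filter Pool.Agent.MP_d9582c_gt.H34

noncomputable section

namespace Pool.Agent.MP_d9582c_gt.H1

namespace SchurP

theorem sq_half (a : ℝ≥0∞) : (a ^ (1 / 2 : ℝ)) ^ (2 : ℝ) = a := by
  rw [← ENNReal.rpow_mul]
  norm_num

theorem cs {α : Type} [MeasurableSpace α] (μ : Measure α) (k f : α → ℝ≥0∞)
    (hk : AEMeasurable k μ) (hf : AEMeasurable f μ) :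
    (∫⁻ y, k y * f y ∂μ) ^ 2 ≤ (∫⁻ y, k y ∂μ) * ∫⁻ y, k y * f y ^ 2 ∂μ := by
  have h := ENNReal.lintegral_mul_le_Lp_mul_Lq μ Real.HolderConjugate.two_two
    (f := fun y => k y ^ (1 / 2 : ℝ)) (g := fun y => k y ^ (1 / 2 : ℝ) * f y)
    (hk.pow_const _) ((hk.pow_const _).mul hf)
  have e1 : ∀ y, k y ^ (1 / 2 : ℝ) * (k y ^ (1 / 2 : ℝ) * f y) = k y * f y := by
    intro y
    rw [← mul_assoc, ← pow_two, ← ENNReal.rpow_two, sq_half]
  have e2 : ∀ y, (k y ^ (1 / 2 : ℝ) * f y) ^ (2 : ℝ) = k y * f y ^ 2 := by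
    intro y
    rw [ENNReal.mul_rpow_of_nonneg _ _ (by norm_num), sq_half, ENNReal.rpow_two]
  simp only [Pi.mul_apply, e1, e2, sq_half] at h
  refine (pow_le_pow_left' h 2).trans (le_of_eq ?_)
  rw [mul_pow, ← ENNReal.rpow_two, ← ENNReal.rpow_two, sq_half, sq_half]

theorem young {n : ℕ} (k f : E n → ℝ≥0∞) (hk : Measurable k) (hf : AEMeasurable f volume)
    (hA : ∫⁻ z, k z ≠ ⊤) :
    ∫⁻ x, (∫⁻ y, k (x - y) * f y) ^ 2 ≤ (∫⁻ z, k z) ^ 2 * ∫⁻ y, f y ^ 2 := by
  have h1 : ∀ x, (∫⁻ y, k (x - y) * f y) ^ 2 ≤ (∫⁻ z, k z) * ∫⁻ y, k (x - y) * f y ^ 2 := by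
    intro x
    have := cs volume (fun y => k (x - y)) f
      (hk.comp (measurable_const.sub measurable_id)).aemeasurable hf
    rwa [lintegral_sub_left_eq_self k x] at this
  refine (lintegral_mono h1).trans (le_of_eq ?_)
  rw [lintegral_const_mul' _ _ hA, lintegral_lintegral_swap]
  · have e : ∀ y, ∫⁻ x, k (x - y) * f y ^ 2 = (∫⁻ z, k z) * f y ^ 2 := by
      intro y
      have hm : Measurable fun x => k (x - y) := hk.comp (measurable_id.sub measurable_const)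
      rw [lintegral_mul_const _ hm, lintegral_sub_right_eq_self k y]
    simp only [e]
    rw [lintegral_const_mul' _ _ hA, ← mul_assoc, ← pow_two]
  · exact (hk.comp (measurable_fst.sub measurable_snd)).aemeasurable.mul
      ((hf.pow_const 2).comp_snd)

theorem mass (n : ℕ) (B c t : ℝ) (hB : 0 ≤ B) (hc : 0 < c) (ht : 0 < t) :
    ∫⁻ z : E n, ENNReal.ofReal (B * t ^ (-(n : ℝ) / 2) * Real.exp (-c * ‖z‖ ^ 2 / t)) =
      ENNReal.ofReal (B * (Real.pi / c) ^ ((n : ℝ) / 2)) := by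
  have h := GaussianFourier.integral_rexp_neg_mul_sq_norm (V := E n) (div_pos hc ht)
  have e : ∀ z : E n, -(c / t) * ‖z‖ ^ 2 = -c * ‖z‖ ^ 2 / t := fun z => by ring
  simp only [e, finrank_euclideanSpace, Fintype.card_fin] at h
  have hi : Integrable fun z : E n => Real.exp (-c * ‖z‖ ^ 2 / t) :=
    Integrable.of_integral_ne_zero (by rw [h]; positivity)
  rw [← ofReal_integral_eq_lintegral_ofReal (hi.const_mul _)
    (Eventually.of_forall fun z => by positivity), integral_const_mul, h]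
  congr 1
  rw [mul_assoc, show Real.pi / (c / t) = Real.pi / c * t by field_simp,
    Real.mul_rpow (by positivity) ht.le, neg_div, Real.rpow_neg ht.le]
  have : t ^ ((n : ℝ) / 2) ≠ 0 := by positivity
  field_simp

theorem norm_sq {n d : ℕ} (u : L2W n d) : ‖u‖ₑ ^ 2 = ∫⁻ y, ‖u y‖ₑ ^ 2 := by
  rw [Lp.enorm_def, eLpNorm_eq_lintegral_rpow_enorm_toReal two_ne_zero ENNReal.ofNat_ne_top,
    ← ENNReal.rpow_two]
  simp only [ENNReal.toReal_ofNat, ENNReal.rpow_two]
  rw [← ENNReal.rpow_two, sq_half]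

end SchurP

open SchurP in
theorem schur (ht : TGStmt) (hi : GaussIntStmt) : SchurStmt := by
  intro n d g ψ φ r K hψ hφ v hv
  obtain ⟨C1, m, h1⟩ := ((ht n).1 _ 0 v hv).2.2.2.2 K hφ.compact
  obtain ⟨-, hg0, hg⟩ := hi n g
  obtain ⟨c, hc, hg⟩ := hg K hφ.compact
  obtain ⟨C2, h2⟩ := hg m
  obtain ⟨B0, hB0⟩ := hφ.compact.exists_bound_of_continuousOn hφ.smooth.continuous.continuousOn
  have hB : 0 ≤ |B0| * |C1| * |C2| := by positivity
  refine ⟨(|B0| * |C1| * |C2| * (Real.pi / c) ^ ((n : ℝ) / 2)) ^ 2, fun t htt u => ?_⟩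
  have t0 := htt.1
  have bd : ∀ x y, ‖kern g ψ φ v t x y‖ ≤
      |B0| * |C1| * |C2| * t ^ (-(n : ℝ) / 2) * Real.exp (-c * ‖x - y‖ ^ 2 / t) := by
    intro x y
    by_cases hy : y ∈ K
    · have a1 := h1 t htt (x - y) y hy
      have a2 := h2 t t0 (x - y) y hy
      have a3 := hg0 t t0 (x - y) y
      have a4 : |φ y| ≤ |B0| := (hB0 y hy).trans (le_abs_self _)
      have a5 := hψ.abs_le (x - y)
      simp only [Int.cast_zero, zero_div, Real.rpow_zero, mul_one] at a1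
      have a6 : ‖v t (x - y) y‖ ≤ |C1| * (1 + ‖x - y‖ ^ 2 / t) ^ m :=
        a1.trans (mul_le_mul_of_nonneg_right (le_abs_self _) (by positivity))
      have a7 : g.gauss t (x - y) y * (1 + ‖x - y‖ ^ 2 / t) ^ m ≤
          |C2| * t ^ (-(n : ℝ) / 2) * Real.exp (-c * ‖x - y‖ ^ 2 / t) :=
        a2.trans (by gcongr; exact le_abs_self _)
      rw [kern, norm_smul, Real.norm_eq_abs, abs_mul, abs_mul, abs_of_nonneg a3]
      calc |ψ (x - y)| * |φ y| * g.gauss t (x - y) y * ‖v t (x - y) y‖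
          ≤ 1 * |B0| * g.gauss t (x - y) y * (|C1| * (1 + ‖x - y‖ ^ 2 / t) ^ m) := by gcongr
        _ = |B0| * |C1| * (g.gauss t (x - y) y * (1 + ‖x - y‖ ^ 2 / t) ^ m) := by ring
        _ ≤ |B0| * |C1| * (|C2| * t ^ (-(n : ℝ) / 2) * Real.exp (-c * ‖x - y‖ ^ 2 / t)) := by
          gcongr
        _ = _ := by ring
    · rw [kern, hφ.zero y hy, mul_zero, zero_mul, norm_smul, norm_zero, zero_mul]
      positivity
  have hm := mass n _ c t hB hc t0
  have key := young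
    (fun z : E n => ENNReal.ofReal
      (|B0| * |C1| * |C2| * t ^ (-(n : ℝ) / 2) * Real.exp (-c * ‖z‖ ^ 2 / t)))
    (fun y => ‖u y‖ₑ) (by fun_prop) (Lp.aestronglyMeasurable u).enorm
    (by rw [hm]; exact ENNReal.ofReal_ne_top)
  rw [hm, ← norm_sq, ← ENNReal.ofReal_pow (by positivity)] at key
  refine le_trans (lintegral_mono fun x => pow_le_pow_left' ?_ 2) key
  refine (enorm_integral_le_lintegral_enorm _).trans (lintegral_mono fun y => ?_)
  refine (ContinuousLinearMap.le_opENorm _ _).trans (mul_le_mul_left ?_ _)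
  rw [← ofReal_norm]
  exact ENNReal.ofReal_le_ofReal (bd x y)

end Pool.Agent.MP_d9582c_gt.H1
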