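import Pool.Agent.MP_d9582c_gt.H1.Spec

/-!
The transport equation.
-/

open scoped ContDiff Topology
open Set Filter Pool.Agent.MP_d9582c_gt.H34

noncomputable section

namespace Pool.Agent.MP_d9582c_gt.H1

namespace SolveP

variable {n : ℕ} {V : Type} [NormedAddCommGroup V] [NormedSpace ℝ V]

lemma pd_smooth {f : E n → V} (hf : ContDiff ℝ ∞ f) (i : Fin n) : ContDiff ℝ ∞ (pd i f) :=
  (hf.fderiv_right (m := ∞) le_rfl).clm_apply contDiff_const

lemma pd_add {f g : E n → V} (hf : ContDiff ℝ ∞ f) (hg : ContDiff ℝ ∞ g) (i : Fin n) :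
    pd i (fun z => f z + g z) = fun z => pd i f z + pd i g z := by
  funext z
  unfold pd
  rw [fderiv_fun_add (hf.differentiable (by simp) z) (hg.differentiable (by simp) z)]
  rfl

lemma pd_smul {f : E n → ℝ} (hf : ContDiff ℝ ∞ f) (c : ℝ) (m : V) (i : Fin n) :
    pd i (fun z => (c * f z) • m) = fun z => (c * pd i f z) • m := by
  funext z
  unfold pd
  rw [(((hf.differentiable (by simp) z).hasFDerivAt.const_mul c).smul_const m).fderiv]
  simp

lemma mono_cons (a : Fin n) (I : List (Fin n)) : mono (a :: I) = fun z => z a * mono I z := by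
  funext z
  simp [mono]

lemma mono_nil : mono ([] : List (Fin n)) = fun _ => 1 := by
  funext z
  simp [mono]

lemma mono_smooth (I : List (Fin n)) : ContDiff ℝ ∞ (mono I) := by
  induction I with
  | nil => rw [mono_nil]; exact contDiff_const
  | cons a I ih =>
    rw [mono_cons]
    exact (EuclideanSpace.proj a : E n →L[ℝ] ℝ).contDiff.mul ih

lemma pd_mono_nil (i : Fin n) : pd i (mono ([] : List (Fin n))) = fun _ => 0 := by
  funext z
  rw [mono_nil]
  simp [pd]

lemma pd_mono_cons (i a : Fin n) (I : List (Fin n)) : pd i (mono (a :: I)) =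
    fun z => z a * pd i (mono I) z + if i = a then mono I z else 0 := by
  funext z
  rw [mono_cons]
  have h1 : HasFDerivAt (fun z : E n => z a) (EuclideanSpace.proj a : E n →L[ℝ] ℝ) z :=
    (EuclideanSpace.proj a : E n →L[ℝ] ℝ).hasFDerivAt
  have h2 := ((mono_smooth I).differentiable (by simp) z).hasFDerivAt
  unfold pd
  rw [(h1.fun_mul h2).fderiv]
  by_cases h : i = a
  · subst h
    simp
  · simp [h, Ne.symm h]

lemma euler (I : List (Fin n)) (z : E n) :
    ∑ i, z i * pd i (mono I) z = I.length * mono I z := by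
  induction I with
  | nil => simp [pd_mono_nil]
  | cons a I ih =>
    have h : ∀ i, z i * pd i (mono (a :: I)) z =
        z a * (z i * pd i (mono I) z) + if i = a then z a * mono I z else 0 := fun i => by
      rw [pd_mono_cons]
      by_cases h : i = a
      · subst h
        simp only [if_true]
        ring
      · simp only [h, if_false]
        ring
    simp only [h, Finset.sum_add_distrib, ← Finset.mul_sum, ih, Finset.sum_ite_eq',
      Finset.mem_univ, if_true]
    rw [mono_cons, List.length_cons]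
    push_cast
    ring

/-- Sums of monomials of degree `d`. -/
inductive HP (d : ℤ) : (E n → ℝ) → Prop
  | gen (I : List (Fin n)) (h : (I.length : ℤ) = d) : HP d (mono I)
  | zero : HP d fun _ => 0
  | add {f g} (hf : HP d f) (hg : HP d g) : HP d fun z => f z + g z

lemma HP.smooth {d : ℤ} {f : E n → ℝ} (h : HP d f) : ContDiff ℝ ∞ f := by
  induction h with
  | gen I _ => exact mono_smooth I
  | zero => exact contDiff_const
  | add _ _ h1 h2 => exact h1.add h2

lemma HP.mul {d : ℤ} {f : E n → ℝ} (h : HP d f) (a : Fin n) :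
    HP (d + 1) fun z => z a * f z := by
  induction h with
  | gen I hI =>
    rw [← mono_cons]
    exact HP.gen _ (by rw [List.length_cons]; push_cast; omega)
  | zero => simpa only [mul_zero] using HP.zero
  | add _ _ h1 h2 => simpa only [mul_add] using h1.add h2

lemma hp_pd_mono (i : Fin n) (I : List (Fin n)) : HP ((I.length : ℤ) - 1) (pd i (mono I)) := by
  induction I with
  | nil => rw [pd_mono_nil]; exact HP.zero
  | cons a I ih =>
    have e : (((a :: I).length : ℕ) : ℤ) - 1 = (I.length : ℤ) - 1 + 1 := by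
      rw [List.length_cons]; push_cast; ring
    rw [pd_mono_cons, e]
    refine (ih.mul a).add ?_
    by_cases h : i = a
    · simp only [h, if_true]
      exact HP.gen I (by ring)
    · simp only [h, if_false]
      exact HP.zero

lemma HP.pd {d : ℤ} {f : E n → ℝ} (h : HP d f) (i : Fin n) : HP (d - 1) (pd i f) := by
  induction h with
  | gen I hI => rw [← hI]; exact hp_pd_mono i I
  | zero =>
    have : H1.pd i (fun _ : E n => (0 : ℝ)) = fun _ => 0 := by
      funext z
      simp [H1.pd]
    rw [this]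
    exact HP.zero
  | add hf hg h1 h2 =>
    rw [pd_add hf.smooth hg.smooth]
    exact h1.add h2

lemma Sm.space {v : ℝ → E n → E n → V} (h : Sm v) {t : ℝ} (ht : 0 < t) (y : E n) :
    ContDiff ℝ ∞ fun z => v t z y :=
  ContDiffOn.comp_contDiff h (f := fun z : E n => (t, z, y)) (by fun_prop) fun _ => ht

lemma Sm.time {v : ℝ → E n → E n → V} (h : Sm v) {t : ℝ} (ht : 0 < t) (z y : E n) :
    DifferentiableAt ℝ (fun s => v s z y) t := by
  have h1 : ContDiffAt ℝ ∞ (fun q : ℝ × E n × E n => v q.1 q.2.1 q.2.2) (t, z, y) :=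
    ContDiffOn.contDiffAt h ((isOpen_lt continuous_const continuous_fst).mem_nhds ht)
  exact (h1.comp t (f := fun s : ℝ => (s, z, y)) (by fun_prop)).differentiableAt (by simp)

lemma H_add (g : Met n) {u v : ℝ → E n → E n → V} (hu : Sm u) (hv : Sm v) {t : ℝ} (ht : 0 < t)
    (z y : E n) :
    g.H (fun t z y => u t z y + v t z y) t z y = g.H u t z y + g.H v t z y := by
  have su := Sm.space hu ht y
  have sv := Sm.space hv ht y
  unfold Met.H
  rw [deriv_fun_add (Sm.time hu ht z y) (Sm.time hv ht z y)]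
  simp only [pd_add su sv, pd_add (pd_smooth su _) (pd_smooth sv _), smul_add,
    Finset.sum_add_distrib]
  abel

lemma H_gen (g : Met n) (k : ℤ) (I : List (Fin n)) (m : E n → V) {t : ℝ} (ht : 0 < t)
    (z y : E n) :
    g.H (fun t z y => (t ^ (k + 1) * mono I z) • m y) t z y =
      ((k : ℝ) + 1 + I.length) • (t ^ k * mono I z) • m y -
        ∑ i, ∑ j, (t ^ (k + 1) * pd i (pd j (mono I)) z) • g.G y i j • m y := by
  have h1 : deriv (fun s : ℝ => (s ^ (k + 1) * mono I z) • m y) t =
      ((((k + 1 : ℤ) : ℝ) * t ^ (k + 1 - 1)) * mono I z) • m y :=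
    (((hasDerivAt_zpow (k + 1) t (Or.inl ht.ne')).mul_const _).smul_const _).deriv
  have h2 : ∑ i, z i • (t ^ (k + 1) * pd i (mono I) z) • m y =
      (t ^ (k + 1) * (I.length * mono I z)) • m y := by
    rw [← euler, Finset.mul_sum, Finset.sum_smul]
    refine Finset.sum_congr rfl fun i _ => ?_
    rw [smul_smul]
    congr 1
    ring
  unfold Met.H
  simp only [pd_smul (mono_smooth I), pd_smul (pd_smooth (mono_smooth I) _)]
  rw [h1, h2, add_sub_cancel_right]
  simp only [smul_comm (g.G y _ _)]
  rw [sub_add_eq_add_sub, smul_smul, smul_smul, ← add_smul]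
  congr 2
  rw [zpow_add_one₀ ht.ne']
  push_cast
  field_simp

/-- Solvability of the transport equation. -/
def Sol (g : Met n) (w : ℤ) (T : ℝ → E n → E n → V) : Prop :=
  ∃ u, TG w u ∧ ∀ t > 0, ∀ z y, g.H u t z y = T t z y

variable {g : Met n} {w : ℤ}

lemma Sol.congr {T T' : ℝ → E n → E n → V} (h : Sol g w T)
    (e : ∀ t > 0, ∀ z y, T' t z y = T t z y) : Sol g w T' := by
  obtain ⟨u, hu, h⟩ := h
  exact ⟨u, hu, fun t ht z y => (h t ht z y).trans (e t ht z y).symm⟩

lemma sol_zero : Sol g w fun _ _ _ => (0 : V) := by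
  refine ⟨fun _ _ _ => 0, TG.zero, fun t _ z y => ?_⟩
  have h : ∀ i : Fin n, pd i (fun _ : E n => (0 : V)) = fun _ => 0 := fun i => by
    funext z
    simp [pd]
  simp [Met.H, h]

lemma Sol.add (ht : TGStmt) {T T' : ℝ → E n → E n → V} (h : Sol g w T) (h' : Sol g w T') :
    Sol g w fun t z y => T t z y + T' t z y := by
  obtain ⟨u, hu, h⟩ := h
  obtain ⟨u', hu', h'⟩ := h'
  refine ⟨_, hu.add hu', fun t ht0 z y => ?_⟩
  rw [H_add g ((ht n).1 V w u hu).1 ((ht n).1 V w u' hu').1 ht0, h t ht0, h' t ht0]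

lemma Sol.sum (ht : TGStmt) {ι : Type} (s : Finset ι) {T : ι → ℝ → E n → E n → V}
    (h : ∀ i, Sol g w (T i)) : Sol g w fun t z y => ∑ i ∈ s, T i t z y := by
  classical
  induction s using Finset.induction_on with
  | empty => simpa using sol_zero
  | insert i s hi ih => simpa only [Finset.sum_insert hi] using (h i).add ht ih

lemma sol_hp (ht : TGStmt) {d k : ℤ} {m : E n → V} {f : E n → ℝ}
    (hgen : ∀ I : List (Fin n), (I.length : ℤ) = d →
      Sol g w fun t z y => (t ^ k * mono I z) • m y) (hf : HP d f) :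
    Sol g w fun t z y => (t ^ k * f z) • m y := by
  induction hf with
  | gen I hI => exact hgen I hI
  | zero => simpa only [mul_zero, zero_smul] using sol_zero
  | add _ _ h1 h2 => simpa only [mul_add, add_smul] using h1.add ht h2

lemma sol_gen (ht : TGStmt) (hw : 1 ≤ w) (N : ℕ) : ∀ (I : List (Fin n)) (k : ℤ) (m : E n → V),
    I.length < N → ContDiff ℝ ∞ m → w - 2 ≤ 2 * k + I.length →
      Sol g w fun t z y => (t ^ k * mono I z) • m y := by
  induction N with
  | zero => intro I k m h; omega
  | succ N ih =>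
    intro I k m hI hm hk
    have hc : (0 : ℝ) < (k : ℝ) + 1 + I.length := by
      have : (0 : ℤ) < k + 1 + I.length := by omega
      exact_mod_cast this
    have hm' : ContDiff ℝ ∞ fun y => ((k : ℝ) + 1 + I.length)⁻¹ • m y := hm.const_smul _
    have h1 : Sol g w fun t z y => ((k : ℝ) + 1 + I.length) •
        (t ^ k * mono I z) • ((k : ℝ) + 1 + I.length)⁻¹ • m y -
        ∑ i, ∑ j, (t ^ (k + 1) * pd i (pd j (mono I)) z) • g.G y i j •
          ((k : ℝ) + 1 + I.length)⁻¹ • m y :=
      ⟨_, TG.gen (k + 1) I _ hm' (by omega), fun t ht0 z y => H_gen g k I _ ht0 z y⟩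
    have h2 : Sol g w fun t z y =>
        ∑ i, ∑ j, (t ^ (k + 1) * pd i (pd j (mono I)) z) • g.G y i j •
          ((k : ℝ) + 1 + I.length)⁻¹ • m y := by
      refine Sol.sum ht _ fun i => Sol.sum ht _ fun j => ?_
      refine sol_hp ht (m := fun y => g.G y i j • ((k : ℝ) + 1 + I.length)⁻¹ • m y)
        (fun J hJ => ?_) ((hp_pd_mono j I).pd i)
      exact ih J (k + 1) _ (by omega) ((g.smooth i j).smul hm') (by omega)
    refine (h1.add ht h2).congr fun t _ z y => ?_
    rw [sub_add_cancel, smul_comm, smul_inv_smul₀ hc.ne']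

end SolveP

open SolveP in
theorem solve (ht : TGStmt) : SolveStmt := by
  intro n V _ _ g w hw T hT
  change Sol g w T
  induction hT with
  | gen k I m hm hk => exact sol_gen ht hw _ I k m (Nat.lt_succ_self _) hm hk
  | zero => exact sol_zero
  | add _ _ h1 h2 => exact h1.add ht h2
  | congr _ e h => exact h.congr e

end Pool.Agent.MP_d9582c_gt.H1
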