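import Pool.Agent.MP_d9582c_gt.H1.Spec

/-!
The exterior derivative in orthonormal frames and its symbol.
-/

open scoped Manifold ContDiff ComplexConjugate Topology InnerProductSpace
open Set ContinuousLinearMap Pool.Agent.MP_d9582c_gt.H34

noncomputable section

namespace Pool.Agent.MP_d9582c_gt.H1

universe u v

namespace SymbP

variable {n q : ℕ}

lemma alt_sum (L : E n →L[ℝ] Alt n q) :
    ContinuousAlternatingMap.alternatizeUncurryFin L =
      ∑ i, wedge (EuclideanSpace.proj i) (L (ee i)) := by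
  have h : L = ∑ i, (EuclideanSpace.proj i : E n →L[ℝ] ℝ).smulRight (L (ee i)) := by
    refine ContinuousLinearMap.ext fun x => ?_
    have hx : x = ∑ i, x i • ee i := by
      simpa using ((EuclideanSpace.basisFun (Fin n) ℝ).sum_repr x).symm
    conv_lhs => rw [hx]
    rw [map_sum, _root_.sum_apply]
    refine Finset.sum_congr rfl fun i _ => ?_
    rw [map_smul]
    rfl
  conv_lhs => rw [h]
  rw [← ContinuousAlternatingMap.alternatizeUncurryFinCLM_apply, map_sum]
  rfl

/-- Wedge product with a covector as a continuous linear map. -/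
def Wg (hf : FiniteDimensional ℂ (Alt n q)) (ξ : E n →L[ℝ] ℝ) : Alt n q →L[ℂ] Alt n (q + 1) :=
  LinearMap.toContinuousLinearMap
    { toFun := wedge ξ
      map_add' := wedge_add_right ξ
      map_smul' := wedge_smul_right ξ }

lemma Wg_apply (hf : FiniteDimensional ℂ (Alt n q)) (ξ : E n →L[ℝ] ℝ) (α : Alt n q) :
    Wg hf ξ α = wedge ξ α := rfl

section Calc

variable {A B C : Type} [NormedAddCommGroup A] [NormedSpace ℂ A] [NormedAddCommGroup B]
  [NormedSpace ℂ B] [NormedAddCommGroup C] [NormedSpace ℂ C] [NormedSpace ℝ A] [NormedSpace ℝ B]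
  [NormedSpace ℝ C] [IsScalarTower ℝ ℂ A] [IsScalarTower ℝ ℂ B] [IsScalarTower ℝ ℂ C]

lemma smooth_comp {f : E n → B →L[ℂ] C} {g : E n → A →L[ℂ] B} (hf : ContDiff ℝ ∞ f)
    (hg : ContDiff ℝ ∞ g) : ContDiff ℝ ∞ fun z => (f z).comp (g z) := by
  have h : ContDiff ℂ ∞ fun p : (B →L[ℂ] C) × (A →L[ℂ] B) => p.1.comp p.2 :=
    isBoundedBilinearMap_comp.contDiff
  exact (h.restrict_scalars ℝ).comp (hf.prodMk hg)

lemma fderiv_app {S : E n → A →L[ℂ] B} {u : E n → A} {z : E n} (hS : DifferentiableAt ℝ S z)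
    (hu : DifferentiableAt ℝ u z) (w : E n) :
    fderiv ℝ (fun z => S z (u z)) z w = S z (fderiv ℝ u z w) + fderiv ℝ S z w (u z) := by
  have h := (((ContinuousLinearMap.restrictScalarsL ℂ A B ℝ ℝ).hasFDerivAt.comp z
    hS.hasFDerivAt).clm_apply hu.hasFDerivAt).fderiv
  exact congrArg (fun L => L w) h

end Calc

lemma smooth_pd {V : Type} [NormedAddCommGroup V] [NormedSpace ℝ V] {f : E n → V}
    (hf : ContDiff ℝ ∞ f) (i : Fin n) : ContDiff ℝ ∞ (pd i f) :=
  (hf.fderiv_right (m := ∞) le_rfl).clm_apply contDiff_const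

lemma wedge_cov (ξ : Fin n → ℝ) (α : Alt n q) :
    wedge (cov ξ) α = ∑ i, ξ i • wedge (EuclideanSpace.proj i) α := by
  rw [cov, wedge_sum_left]
  exact Finset.sum_congr rfl fun i _ => wedge_smul_left _ _ _

variable {M : Type u} [TopologicalSpace M] [ChartedSpace (E n) M] [IsManifold 𝓘(ℝ, E n) ∞ M]
  {G : Type v} [Group G] [MulAction G M] [MeasurableSpace M] {X : Geo n G M} {a : Fin X.m}

/-- The exterior derivative in the frames. -/
def DD (hf : ∀ q, FiniteDimensional ℂ (Alt n q)) (c : Chart X a) (q : ℕ) :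
    FO n (dim n q) (dim n (q + 1)) where
  a i z := (c.S' (q + 1) z).comp ((Wg (hf q) (EuclideanSpace.proj i)).comp (c.S q z))
  b z := ∑ i, (c.S' (q + 1) z).comp ((Wg (hf q) (EuclideanSpace.proj i)).comp (pd i (c.S q) z))
  a_smooth _ := smooth_comp (c.S'_smooth _) (smooth_comp contDiff_const (c.S_smooth _))
  b_smooth := ContDiff.sum fun i _ =>
    smooth_comp (c.S'_smooth _) (smooth_comp contDiff_const (smooth_pd (c.S_smooth _) i))

lemma sym_apply (hf : ∀ q, FiniteDimensional ℂ (Alt n q)) (c : Chart X a) (q : ℕ)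
    (ξ : Fin n → ℝ) (z : E n) (u : W (dim n q)) :
    (DD hf c q).sym ξ z u = c.S' (q + 1) z (wedge (cov ξ) (c.S q z u)) := by
  rw [wedge_cov, map_sum, FO.sym, _root_.sum_apply]
  refine Finset.sum_congr rfl fun i _ => ?_
  rw [ContinuousLinearMap.map_smul_of_tower]
  rfl

lemma ap_eq (hf : ∀ q, FiniteDimensional ℂ (Alt n q)) (c : Chart X a) (q : ℕ)
    (u : E n → W (dim n q)) (z : E n) (hu : DifferentiableAt ℝ u z) :
    c.S (q + 1) z ((DD hf c q).ap u z) = extDeriv (fun z => c.S q z (u z)) z := by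
  have hS : DifferentiableAt ℝ (c.S q) z := (c.S_smooth q).differentiable (by simp) z
  rw [extDeriv, alt_sum, FO.ap, DD]
  simp only [_root_.sum_apply, ContinuousLinearMap.comp_apply, Wg_apply]
  rw [← Finset.sum_add_distrib, map_sum]
  refine Finset.sum_congr rfl fun i _ => ?_
  rw [map_add, c.SS', c.SS', fderiv_app hS hu, wedge_add_right]
  rfl

lemma adj_apply (hf : ∀ q, FiniteDimensional ℂ (Alt n q)) (c : Chart X a) (q : ℕ)
    (ξ : Fin n → ℝ) (z : E n) (hz : z ∈ c.O) (ι : Alt n (q + 1) → Alt n q)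
    (h : ∀ α β, hh X.g (X.ctr a) (q + 1) z (wedge (cov ξ) α) β = hh X.g (X.ctr a) q z α (ι β))
    (w : W (dim n (q + 1))) :
    adjoint ((DD hf c q).sym ξ z) w = c.S' q z (ι (c.S (q + 1) z w)) := by
  refine ext_inner_left ℂ fun u => ?_
  rw [adjoint_inner_right, sym_apply, ← c.iso (q + 1) z hz, ← c.iso q z hz, c.SS', c.SS', h]

end SymbP

open SymbP in
theorem symb (hc : CliffStmt.{u}) (hs : HSmoothStmt.{u}) : SymbStmt.{u, v} := by
  intro n M _ _ _ G _ _ _ X a c
  have hf := (hs n M X.g (X.ctr a)).1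
  have ht : ∀ z ∈ c.O, z ∈ (chartAt (E n) (X.ctr a)).target := by
    intro z hz
    obtain ⟨x, hx, rfl⟩ := c.O_sub hz
    exact (chartAt (E n) (X.ctr a)).map_source (X.Cl_sub a (X.U_sub a hx))
  refine ⟨DD hf c, ap_eq hf c, fun z hz ξ u => ?_, fun q z hz ξ u => ?_⟩
  · obtain ⟨ι, h1, h2, -⟩ := hc n M X.g (X.ctr a) z (ht z hz) ξ
    rw [adj_apply hf c 0 ξ z hz (ι 0) (h1 0), sym_apply, c.SS', h2, c.met_eq z hz,
      ContinuousLinearMap.map_smul_of_tower, c.S'S]
  · obtain ⟨ι, h1, -, h3⟩ := hc n M X.g (X.ctr a) z (ht z hz) ξ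
    rw [adj_apply hf c (q + 1) ξ z hz (ι (q + 1)) (h1 (q + 1)), adj_apply hf c q ξ z hz (ι q) (h1 q),
      sym_apply, sym_apply, c.SS', c.SS', ← map_add, h3, c.met_eq z hz,
      ContinuousLinearMap.map_smul_of_tower, c.S'S]

end Pool.Agent.MP_d9582c_gt.H1
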