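import Pool.Agent.MP_d9582c_gt.H1.Spec

/-!
Closure properties of the class `TG`.
-/

open scoped ContDiff
open Set Pool.Agent.MP_d9582c_gt.H34

noncomputable section

namespace Pool.Agent.MP_d9582c_gt.H1

namespace TGpP

variable {n : ℕ} {V : Type} [NormedAddCommGroup V] [NormedSpace ℝ V]

theorem mono_nil (z : E n) : mono [] z = 1 := by simp [mono]

theorem mono_cons (j : Fin n) (I : List (Fin n)) (z : E n) : mono (j :: I) z = z j * mono I z := by
  simp [mono]

theorem mono_append (I J : List (Fin n)) (z : E n) : mono (I ++ J) z = mono I z * mono J z := by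
  simp [mono]

theorem coord_smooth (j : Fin n) : ContDiff ℝ ∞ fun z : E n => z j :=
  (EuclideanSpace.proj j : E n →L[ℝ] ℝ).contDiff

theorem mono_smooth (I : List (Fin n)) : ContDiff ℝ ∞ (mono I) := by
  induction I with
  | nil => exact (funext mono_nil : mono [] = fun _ : E n => (1 : ℝ)) ▸ contDiff_const
  | cons j I ih =>
    exact (funext (mono_cons j I) : mono (j :: I) = _) ▸ (coord_smooth j).mul ih

theorem abs_mono_le (I : List (Fin n)) (z : E n) : |mono I z| ≤ ‖z‖ ^ I.length := by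
  induction I with
  | nil => simp [mono_nil]
  | cons j I ih =>
    rw [mono_cons, abs_mul, List.length_cons, pow_succ']
    exact mul_le_mul (PiLp.norm_apply_le z j) ih (abs_nonneg _) (norm_nonneg _)

theorem sm {w : ℤ} {v : ℝ → E n → E n → V} (h : TG w v) : Sm v := by
  induction h with
  | gen k I m hm hw =>
    refine ContDiffOn.smul (ContDiffOn.mul (fun q hq => ?_) ?_) ?_
    · exact (((analyticAt_id.zpow (ne_of_gt hq)).contDiffAt (n := ∞)).comp q
        contDiffAt_fst).contDiffWithinAt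
    · exact ((mono_smooth I).comp (contDiff_fst.comp contDiff_snd)).contDiffOn
    · exact (hm.comp (contDiff_snd.comp contDiff_snd)).contDiffOn
  | zero => exact contDiffOn_const
  | add _ _ hu hv => exact ContDiffOn.add hu hv
  | congr _ h hu => exact ContDiffOn.congr hu fun q hq => h _ hq _ _

theorem diff {v : ℝ → E n → E n → V} (h : Sm v) {t : ℝ} (ht : 0 < t) (z y : E n) :
    DifferentiableAt ℝ (fun z => v t z y) z := by
  have h1 : ContDiffAt ℝ ∞ (fun q : ℝ × E n × E n => v q.1 q.2.1 q.2.2) (t, z, y) :=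
    h.contDiffAt ((isOpen_lt continuous_const continuous_fst).mem_nhds ht)
  have h2 : DifferentiableAt ℝ (fun z : E n => (t, z, y)) z := by fun_prop
  exact (h1.differentiableAt (by simp)).comp z h2

theorem weaken {w w' : ℤ} {v : ℝ → E n → E n → V} (h : TG w v) (hw' : w' ≤ w) : TG w' v := by
  induction h with
  | gen k I m hm hw => exact TG.gen k I m hm (hw'.trans hw)
  | zero => exact TG.zero
  | add _ _ hu hv => exact hu.add hv
  | congr _ h hu => exact hu.congr h

theorem bil {V₁ V₂ V₃ : Type} [NormedAddCommGroup V₁] [NormedSpace ℝ V₁] [NormedAddCommGroup V₂]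
    [NormedSpace ℝ V₂] [NormedAddCommGroup V₃] [NormedSpace ℝ V₃] (β : V₁ →L[ℝ] V₂ →L[ℝ] V₃)
    {w₁ w₂ : ℤ} {u : ℝ → E n → E n → V₁} {v : ℝ → E n → E n → V₂} (hu : TG w₁ u)
    (hv : TG w₂ v) : TG (w₁ + w₂) fun t z y => β (u t z y) (v t z y) := by
  induction hu with
  | gen k I m hm hw =>
    induction hv with
    | gen k' I' m' hm' hw' =>
      refine (TG.gen (k + k') (I ++ I') (fun y => β (m y) (m' y))
        ((β.contDiff.comp hm).clm_apply hm') ?_).congr fun t ht z y => ?_
      · rw [List.length_append]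
        push_cast
        linarith
      · rw [map_smul, map_smul, smul_apply, smul_smul, mono_append,
          zpow_add₀ (ne_of_gt ht)]
        congr 1
        ring
    | zero => exact TG.zero.congr fun t _ z y => map_zero _
    | add _ _ h1 h2 => exact (h1.add h2).congr fun t _ z y => map_add _ _ _
    | congr _ h h1 => exact h1.congr fun t ht z y => by rw [h t ht]
  | zero => exact TG.zero.congr fun t _ z y => by rw [map_zero, zero_apply]
  | add _ _ h1 h2 =>
    exact (h1.add h2).congr fun t _ z y => by rw [map_add, add_apply]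
  | congr _ h h1 => exact h1.congr fun t ht z y => by rw [h t ht]

theorem smul {w₁ w₂ : ℤ} {u : ℝ → E n → E n → ℝ} {v : ℝ → E n → E n → V} (hu : TG w₁ u)
    (hv : TG w₂ v) : TG (w₁ + w₂) fun t z y => u t z y • v t z y :=
  bil (ContinuousLinearMap.lsmul ℝ ℝ) hu hv

theorem sum {ι : Type} {w : ℤ} (s : Finset ι) {v : ι → ℝ → E n → E n → V}
    (h : ∀ j, TG w (v j)) : TG w fun t z y => ∑ j ∈ s, v j t z y := by
  classical
  induction s using Finset.induction_on with
  | empty => exact TG.zero.congr fun t _ z y => Finset.sum_empty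
  | insert j s hj ih => exact ((h j).add ih).congr fun t _ z y => Finset.sum_insert hj

theorem pd_mono (i : Fin n) (I : List (Fin n)) :
    TG ((I.length : ℤ) - 1) fun (_ : ℝ) (z _ : E n) => pd i (mono I) z := by
  induction I with
  | nil =>
    refine TG.zero.congr fun t _ z y => ?_
    rw [(funext mono_nil : mono [] = fun _ : E n => (1 : ℝ))]
    simp [pd]
  | cons j I ih =>
    have h1 : TG (I.length : ℤ) fun (t : ℝ) (z _ : E n) => (t ^ (0 : ℤ) * mono I z) • (ee i j) :=
      TG.gen 0 I (fun _ => ee i j) contDiff_const (by simp)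
    have h2 : TG 1 fun (t : ℝ) (z _ : E n) => (t ^ (0 : ℤ) * mono [j] z) • (1 : ℝ) :=
      TG.gen 0 [j] (fun _ => 1) contDiff_const (by simp)
    refine ((weaken (smul h2 ih) ?_).add (weaken h1 ?_)).congr fun t _ z y => ?_
    · simp
    · simp
    · have d1 : HasFDerivAt (fun z : E n => z j) (EuclideanSpace.proj j : E n →L[ℝ] ℝ) z :=
        (EuclideanSpace.proj j : E n →L[ℝ] ℝ).hasFDerivAt
      have d2 := ((mono_smooth I).differentiable (by simp) z).hasFDerivAt
      rw [pd, (funext (mono_cons j I) : mono (j :: I) = _), (d1.fun_mul d2).fderiv]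
      simp [pd, mono_cons, mono_nil]

theorem pd_tg {w : ℤ} {v : ℝ → E n → E n → V} (h : TG w v) (i : Fin n) :
    TG (w - 1) fun t z y => pd i (fun z => v t z y) z := by
  induction h with
  | gen k I m hm hw =>
    refine (weaken (smul (pd_mono i I) (TG.gen k [] m hm le_rfl)) ?_).congr fun t _ z y => ?_
    · simp only [List.length_nil, Nat.cast_zero]
      linarith
    · have d2 := ((mono_smooth I).differentiable (by simp) z).hasFDerivAt
      rw [pd, ((d2.const_mul (t ^ k)).smul_const (m y)).fderiv]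
      simp [pd, mono_nil, smul_smul, mul_comm]
  | zero => exact TG.zero.congr fun t _ z y => by simp [pd]
  | add hu hv h1 h2 =>
    refine (h1.add h2).congr fun t ht z y => ?_
    rw [pd, fderiv_fun_add (diff (sm hu) ht z y) (diff (sm hv) ht z y)]
    rfl
  | congr _ h h1 =>
    refine h1.congr fun t ht z y => ?_
    rw [funext fun z => h t ht z y]

theorem lin_tg (hg : GaussStmt) (g : Met n) (i : Fin n) :
    TG (-1) fun t z y => -g.lin i t z y := by
  refine (sum Finset.univ fun j => TG.gen (-1) [j] (fun y => -((g.G y)⁻¹ i j / 2))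
    (((hg n g).2.1 i j).div_const 2).neg (by simp)).congr fun t ht z y => ?_
  rw [Met.lin, Finset.sum_div, ← Finset.sum_neg_distrib]
  refine Finset.sum_congr rfl fun j _ => ?_
  rw [mono_cons, mono_nil, zpow_neg_one, smul_eq_mul]
  field_simp

theorem D_tg (hg : GaussStmt) {w : ℤ} {v : ℝ → E n → E n → V} (h : TG w v) (g : Met n)
    (i : Fin n) : TG (w - 1) (g.D i v) :=
  ((pd_tg h i).add (weaken (smul (lin_tg hg g i) h) (by linarith))).congr fun t _ z y => by
    rw [Met.D, neg_smul, sub_eq_add_neg]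

theorem bound {w : ℤ} {v : ℝ → E n → E n → V} (h : TG w v) {K : Set (E n)} (hK : IsCompact K) :
    ∃ (C : ℝ) (m : ℕ), 0 ≤ C ∧ ∀ t ∈ Ioc (0 : ℝ) 1, ∀ z, ∀ y ∈ K,
      ‖v t z y‖ ≤ C * t ^ ((w : ℝ) / 2) * (1 + ‖z‖ ^ 2 / t) ^ m := by
  induction h with
  | gen k I m hm hw =>
    obtain ⟨M, hM⟩ := hK.exists_bound_of_continuousOn hm.continuous.continuousOn
    refine ⟨max M 0, I.length, le_max_right _ _, fun t ht z y hy => ?_⟩
    have t0 := ht.1
    have s0 : 0 < t ^ (1 / 2 : ℝ) := Real.rpow_pos_of_pos t0 _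
    have sq : (t ^ (1 / 2 : ℝ)) ^ 2 = t := by
      rw [← Real.rpow_natCast, ← Real.rpow_mul t0.le]
      norm_num
    have h1 : ‖z‖ ≤ t ^ (1 / 2 : ℝ) * (1 + ‖z‖ ^ 2 / t) := by
      have e : ‖z‖ ^ 2 / t = (‖z‖ / t ^ (1 / 2 : ℝ)) ^ 2 := by rw [div_pow, sq]
      rw [e, ← div_le_iff₀' s0]
      nlinarith [sq_nonneg (‖z‖ / t ^ (1 / 2 : ℝ) - 1)]
    have h2 : |mono I z| ≤ t ^ ((I.length : ℝ) / 2) * (1 + ‖z‖ ^ 2 / t) ^ I.length := by
      refine (abs_mono_le I z).trans ((pow_le_pow_left₀ (norm_nonneg _) h1 _).trans_eq ?_)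
      rw [mul_pow, ← Real.rpow_natCast (t ^ (1 / 2 : ℝ)), ← Real.rpow_mul t0.le]
      congr 2
      ring
    have h3 : t ^ k * t ^ ((I.length : ℝ) / 2) ≤ t ^ ((w : ℝ) / 2) := by
      rw [← Real.rpow_intCast, ← Real.rpow_add t0]
      refine Real.rpow_le_rpow_of_exponent_ge t0 ht.2 ?_
      have : (w : ℝ) ≤ 2 * k + I.length := by exact_mod_cast hw
      linarith
    have k0 : 0 < t ^ k := zpow_pos t0 k
    rw [norm_smul, Real.norm_eq_abs, abs_mul, abs_of_pos k0, mul_comm, mul_assoc]
    refine mul_le_mul ((hM y hy).trans (le_max_left _ _)) ?_ (by positivity) (le_max_right _ _)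
    refine (mul_le_mul_of_nonneg_left h2 k0.le).trans ?_
    rw [← mul_assoc]
    exact mul_le_mul_of_nonneg_right h3 (by positivity)
  | zero => exact ⟨0, 0, le_rfl, fun t _ z y _ => by simp⟩
  | add _ _ h1 h2 =>
    obtain ⟨C₁, m₁, c1, h1⟩ := h1
    obtain ⟨C₂, m₂, c2, h2⟩ := h2
    refine ⟨C₁ + C₂, m₁ + m₂, add_nonneg c1 c2, fun t ht z y hy => ?_⟩
    have t0 := ht.1
    have b : 1 ≤ 1 + ‖z‖ ^ 2 / t := le_add_of_nonneg_right (by positivity)
    rw [add_mul, add_mul]
    refine (norm_add_le _ _).trans (add_le_add ((h1 t ht z y hy).trans ?_)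
      ((h2 t ht z y hy).trans ?_))
    · exact mul_le_mul_of_nonneg_left (pow_le_pow_right₀ b (Nat.le_add_right _ _)) (by positivity)
    · exact mul_le_mul_of_nonneg_left (pow_le_pow_right₀ b (Nat.le_add_left _ _)) (by positivity)
  | congr _ h h1 =>
    obtain ⟨C, m, c, h1⟩ := h1
    exact ⟨C, m, c, fun t ht z y hy => h t ht.1 z y ▸ h1 t ht z y hy⟩

end TGpP

open TGpP in
theorem tg (hg : GaussStmt) : TGStmt := fun n =>
  ⟨fun V _ _ w v h => ⟨sm h, fun _ hw => weaken h hw, pd_tg h, D_tg hg h, fun K hK => by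
    obtain ⟨C, m, -, hb⟩ := bound h hK
    exact ⟨C, m, hb⟩⟩, fun _ _ _ _ _ _ _ _ _ β _ _ _ _ hu hv => bil β hu hv⟩

end Pool.Agent.MP_d9582c_gt.H1
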