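import Pool.Agent.MP_d9582c_gt.H1.Spec

/-!
The initial value of the parametrix.
-/

open scoped Manifold ContDiff ComplexConjugate Topology ENNReal InnerProductSpace
open MeasureTheory Set Filter Metric ContinuousLinearMap Pool.Agent.MP_d9582c_gt.H34

noncomputable section

namespace Pool.Agent.MP_d9582c_gt.H1

namespace WeakP

theorem int_gauss (n : ℕ) {c : ℝ} (hc : 0 < c) :
    Integrable (fun z : E n => Real.exp (-c * ‖z‖ ^ 2)) := by
  have h := (GaussianFourier.integrable_cexp_neg_mul_sq_norm_add (V := E n) (b := (c : ℂ))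
    (by simpa using hc) 0 0).norm
  refine h.congr (Eventually.of_forall fun z => ?_)
  simp only [zero_mul, add_zero, Complex.norm_exp]
  congr 1
  have : (-(c : ℂ) * (‖z‖ : ℂ) ^ 2) = ((-c * ‖z‖ ^ 2 : ℝ) : ℂ) := by push_cast; ring
  rw [this, Complex.ofReal_re]

theorem sqrt_pow (n : ℕ) {t : ℝ} (ht : 0 < t) : √t ^ n * t ^ (-(n : ℝ) / 2) = 1 := by
  rw [Real.sqrt_eq_rpow, ← Real.rpow_natCast, ← Real.rpow_mul ht.le, ← Real.rpow_add ht]
  have : 1 / 2 * (n : ℝ) + -(n : ℝ) / 2 = 0 := by ring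
  rw [this, Real.rpow_zero]

theorem norm_sc {n : ℕ} {t : ℝ} (ht : 0 < t) (ξ : E n) : ‖√t • ξ‖ ^ 2 / t = ‖ξ‖ ^ 2 := by
  rw [norm_smul, mul_pow, Real.norm_eq_abs, sq_abs, Real.sq_sqrt ht.le]
  field_simp

theorem tend_sc {n : ℕ} (ξ : E n) : Tendsto (fun t : ℝ => √t • ξ) (𝓝[>] 0) (𝓝 0) := by
  have h : Continuous fun t : ℝ => √t • ξ := by fun_prop
  have := h.tendsto 0
  simp only [Real.sqrt_zero, zero_smul] at this
  exact this.mono_left nhdsWithin_le_nhds

theorem meas_ap {d : ℕ} {X : Type} [MeasurableSpace X] {μ : Measure X} {A : X → End d}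
    {u : X → W d} (hA : AEStronglyMeasurable A μ) (hu : AEStronglyMeasurable u μ) :
    AEStronglyMeasurable (fun x => A x (u x)) μ :=
  (isBoundedBilinearMap_apply (𝕜 := ℂ) (E := W d) (F := W d)).continuous.comp_aestronglyMeasurable
    (hA.prodMk hu)

theorem core {n d : ℕ} (A : ℝ → E n → E n → End d) (f : E n → W d) (hf : Continuous f)
    (u : E n → W d) (hu : AEStronglyMeasurable u volume) (K : Set (E n)) (hK : IsCompact K)
    (hU : IntegrableOn u K) (M c : ℝ) (hc : 0 < c) (hM : 0 ≤ M)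
    (hA : ∀ t > 0, Continuous fun q : E n × E n => A t q.1 q.2)
    (hb : ∀ t ∈ Ioc (0 : ℝ) 1, ∀ z y,
      ‖A t z y‖ ≤ M * t ^ (-(n : ℝ) / 2) * Real.exp (-c * ‖z‖ ^ 2 / t))
    (h0 : ∀ t z y, y ∉ K → A t z y = 0) (h1 : ∀ t z y, 1 ≤ ‖z‖ → A t z y = 0)
    (a : E n → E n → ℝ)
    (hl : ∀ ξ y, Tendsto (fun t => √t ^ n • A t (√t • ξ) y) (𝓝[>] 0) (𝓝 (a ξ y • 1)))
    (φ : E n → ℝ) (hφ : ∀ y, ∫ ξ, a ξ y = φ y) :
    Tendsto (fun t => ∫ x, ⟪f x, ∫ y, A t (x - y) y (u y)⟫_ℂ) (𝓝[>] 0)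
      (𝓝 (∫ y, ⟪φ y • f y, u y⟫_ℂ)) := by
  obtain ⟨F, hF⟩ := (hK.cthickening (r := 1)).exists_bound_of_continuousOn hf.continuousOn
  set U : E n → ℝ := fun y => ‖K.indicator u y‖ with hUd
  have hUi : Integrable U := ((integrable_indicator_iff hK.measurableSet).2 hU).norm
  have hU0 : ∀ y, 0 ≤ U y := fun y => norm_nonneg _
  have hap : ∀ t ∈ Ioc (0 : ℝ) 1, ∀ z y, ‖A t z y (u y)‖ ≤
      M * t ^ (-(n : ℝ) / 2) * Real.exp (-c * ‖z‖ ^ 2 / t) * U y := by
    intro t ht z y
    by_cases hy : y ∈ K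
    · have : U y = ‖u y‖ := by simp [hUd, hy]
      rw [this]
      exact ((A t z y).le_opNorm _).trans
        (mul_le_mul_of_nonneg_right (hb t ht z y) (norm_nonneg _))
    · have : U y = 0 := by simp [hUd, hy]
      simp [this, h0 t z y hy]
  have hin : ∀ t ∈ Ioc (0 : ℝ) 1, ∀ z y, ‖⟪f (y + z), A t z y (u y)⟫_ℂ‖ ≤
      |F| * (M * t ^ (-(n : ℝ) / 2) * Real.exp (-c * ‖z‖ ^ 2 / t) * U y) := by
    intro t ht z y
    have hp : 0 ≤ M * t ^ (-(n : ℝ) / 2) * Real.exp (-c * ‖z‖ ^ 2 / t) * U y := by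
      have := ht.1.le
      have := hU0 y
      positivity
    by_cases hy : y ∈ K
    · by_cases hz : 1 ≤ ‖z‖
      · rw [h1 t z y hz]
        simp only [zero_apply, inner_zero_right, norm_zero]
        positivity
      · have hm : y + z ∈ cthickening 1 K :=
          mem_cthickening_of_dist_le _ y _ _ hy (by simpa using (not_le.1 hz).le)
        exact (norm_inner_le_norm _ _).trans (mul_le_mul ((hF _ hm).trans (le_abs_self _))
          (hap t ht z y) (norm_nonneg _) (abs_nonneg _))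
    · rw [h0 t z y hy]
      simp only [zero_apply, inner_zero_right, norm_zero]
      positivity
  have hG : ∀ t ∈ Ioc (0 : ℝ) 1, Integrable
      (fun p : E n × E n => ⟪f p.1, A t (p.1 - p.2) p.2 (u p.2)⟫_ℂ) (volume.prod volume) := by
    intro t ht
    have hg : Integrable fun z : E n =>
        |F| * (M * t ^ (-(n : ℝ) / 2)) * Real.exp (-(c / t) * ‖z‖ ^ 2) :=
      (int_gauss n (div_pos hc ht.1)).const_mul _
    have hcv := hUi.convolution_integrand (ContinuousLinearMap.mul ℝ ℝ) hg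
    refine hcv.mono' ?_ (Eventually.of_forall fun p => ?_)
    · have hc1 : Continuous fun p : E n × E n => A t (p.1 - p.2) p.2 :=
        (hA t ht.1).comp (f := fun p : E n × E n => (p.1 - p.2, p.2)) (by fun_prop)
      exact (hf.comp continuous_fst).aestronglyMeasurable.inner
        (meas_ap hc1.aestronglyMeasurable hu.comp_snd)
    · have := hin t ht (p.1 - p.2) p.2
      rw [add_sub_cancel] at this
      refine this.trans (le_of_eq ?_)
      have e : -c * ‖p.1 - p.2‖ ^ 2 / t = -(c / t) * ‖p.1 - p.2‖ ^ 2 := by ring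
      rw [e, ContinuousLinearMap.mul_apply']
      ring
  have hsw : ∀ t ∈ Ioc (0 : ℝ) 1, ∫ x, ⟪f x, ∫ y, A t (x - y) y (u y)⟫_ℂ =
      ∫ y, ∫ x, ⟪f x, A t (x - y) y (u y)⟫_ℂ := by
    intro t ht
    rw [← integral_integral_swap (f := fun x y => ⟪f x, A t (x - y) y (u y)⟫_ℂ) (hG t ht)]
    refine integral_congr_ae (Eventually.of_forall fun x => ?_)
    refine (integral_inner ?_ _).symm
    refine (hUi.const_mul (M * t ^ (-(n : ℝ) / 2))).mono' ?_ (Eventually.of_forall fun y => ?_)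
    · have hc1 : Continuous fun y : E n => A t (x - y) y :=
        (hA t ht.1).comp (f := fun y : E n => (x - y, y)) (by fun_prop)
      exact meas_ap hc1.aestronglyMeasurable hu
    · refine (hap t ht (x - y) y).trans (mul_le_mul_of_nonneg_right ?_ (hU0 y))
      have h2 : Real.exp (-c * ‖x - y‖ ^ 2 / t) ≤ 1 := by
        rw [Real.exp_le_one_iff]
        have := ht.1
        have : 0 ≤ c * ‖x - y‖ ^ 2 / t := by positivity
        have e : -c * ‖x - y‖ ^ 2 / t = -(c * ‖x - y‖ ^ 2 / t) := by ring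
        rw [e]
        linarith
      have := ht.1.le
      exact mul_le_of_le_one_right (by positivity) h2
  have hsub : ∀ t > 0, ∀ y, ∫ x, ⟪f x, A t (x - y) y (u y)⟫_ℂ =
      ∫ ξ, ⟪f (y + √t • ξ), (√t ^ n • A t (√t • ξ) y) (u y)⟫_ℂ := by
    intro t ht y
    have hs : 0 < √t ^ n := pow_pos (Real.sqrt_pos.2 ht) n
    rw [← integral_add_left_eq_self _ y]
    simp only [add_sub_cancel_left]
    have h := Measure.integral_comp_smul volume (fun z => ⟪f (y + z), A t z y (u y)⟫_ℂ) (√t)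
    rw [finrank_euclideanSpace_fin, abs_of_pos (inv_pos.2 hs)] at h
    have e : ∀ ξ : E n, ⟪f (y + √t • ξ), (√t ^ n • A t (√t • ξ) y) (u y)⟫_ℂ =
        √t ^ n • ⟪f (y + √t • ξ), A t (√t • ξ) y (u y)⟫_ℂ := by
      intro ξ
      rw [smul_apply, ← Complex.coe_smul, inner_smul_right, Complex.real_smul]
    simp only [e]
    rw [integral_smul, h, smul_smul, mul_inv_cancel₀ hs.ne', one_smul]
  have hh : ∀ t ∈ Ioc (0 : ℝ) 1, ∀ y ξ,
      ‖⟪f (y + √t • ξ), (√t ^ n • A t (√t • ξ) y) (u y)⟫_ℂ‖ ≤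
        |F| * M * U y * Real.exp (-c * ‖ξ‖ ^ 2) := by
    intro t ht y ξ
    have hs : 0 < √t ^ n := pow_pos (Real.sqrt_pos.2 ht.1) n
    rw [smul_apply, ← Complex.coe_smul, inner_smul_right, norm_mul, Complex.norm_real,
      Real.norm_of_nonneg hs.le]
    refine (mul_le_mul_of_nonneg_left (hin t ht _ y) hs.le).trans (le_of_eq ?_)
    rw [mul_div_assoc, norm_sc ht.1]
    have := sqrt_pow n ht.1
    calc _ = (√t ^ n * t ^ (-(n : ℝ) / 2)) * (|F| * M * U y * Real.exp (-c * ‖ξ‖ ^ 2)) := by ring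
      _ = _ := by rw [this, one_mul]
  have hev : ∀ᶠ t in 𝓝[>] (0 : ℝ), t ∈ Ioc (0 : ℝ) 1 := Ioc_mem_nhdsGT one_pos
  refine Tendsto.congr' (hev.mono fun t ht => (hsw t ht).symm) ?_
  refine tendsto_integral_filter_of_dominated_convergence
    (fun y => |F| * M * U y * ∫ ξ : E n, Real.exp (-c * ‖ξ‖ ^ 2))
    (hev.mono fun t ht => (hG t ht).integral_prod_right.aestronglyMeasurable)
    (hev.mono fun t ht => Eventually.of_forall fun y => ?_)
    ((hUi.const_mul _).mul_const _) (Eventually.of_forall fun y => ?_)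
  · rw [hsub t ht.1 y, ← integral_const_mul]
    exact norm_integral_le_of_norm_le ((int_gauss n hc).const_mul _)
      (Eventually.of_forall fun ξ => hh t ht y ξ)
  · refine Tendsto.congr' (hev.mono fun t ht => (hsub t ht.1 y).symm) ?_
    have e : ⟪φ y • f y, u y⟫_ℂ = ∫ ξ, ⟪f y, (a ξ y • (1 : End d)) (u y)⟫_ℂ := by
      have e1 : ∀ ξ : E n, ⟪f y, (a ξ y • (1 : End d)) (u y)⟫_ℂ = a ξ y • ⟪f y, u y⟫_ℂ := by
        intro ξ
        rw [smul_apply, ← Complex.coe_smul, inner_smul_right, Complex.real_smul]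
        rfl
      simp only [e1]
      rw [integral_smul_const, hφ, ← Complex.coe_smul, inner_smul_left, Complex.conj_ofReal,
        Complex.real_smul]
    rw [e]
    refine tendsto_integral_filter_of_dominated_convergence
      (fun ξ => |F| * M * U y * Real.exp (-c * ‖ξ‖ ^ 2))
      (hev.mono fun t ht => ?_) (hev.mono fun t ht => Eventually.of_forall fun ξ => hh t ht y ξ)
      ((int_gauss n hc).const_mul _) (Eventually.of_forall fun ξ => ?_)
    · have hc1 : Continuous fun ξ : E n => A t (√t • ξ) y :=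
        (hA t ht.1).comp (f := fun ξ : E n => (√t • ξ, y)) (by fun_prop)
      have hc2 : Continuous fun ξ : E n => f (y + √t • ξ) := hf.comp (by fun_prop)
      have hc3 : Continuous fun ξ : E n => A t (√t • ξ) y (u y) := hc1.clm_apply continuous_const
      have hc4 : Continuous fun ξ : E n => (√t ^ n • A t (√t • ξ) y) (u y) :=
        (hc3.const_smul (√t ^ n)).congr fun ξ => rfl
      exact (hc2.inner hc4).aestronglyMeasurable
    · have h2 : Tendsto (fun t : ℝ => f (y + √t • ξ)) (𝓝[>] 0) (𝓝 (f y)) := by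
        have := (tend_sc ξ).const_add y
        rw [add_zero] at this
        exact (hf.tendsto y).comp this
      exact h2.inner (((ContinuousLinearMap.apply ℂ (W d) (u y)).continuous.tendsto _).comp
        (hl ξ y))

theorem sm_cont {n : ℕ} {V : Type} [NormedAddCommGroup V] [NormedSpace ℝ V]
    {v : ℝ → E n → E n → V} (hv : Sm v) {t : ℝ} (ht : 0 < t) :
    Continuous fun q : E n × E n => v t q.1 q.2 :=
  hv.continuousOn.comp_continuous (f := fun q : E n × E n => (t, q)) (by fun_prop) fun _ => ht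

end WeakP

open WeakP in
theorem weak (ht : TGStmt) (hg : GaussStmt) (hi : GaussIntStmt) : WeakStmt := by
  intro n d g ψ φ r K hψ hφ v hv0 hv1 f hf u
  obtain ⟨hsm, -, -, -, hbd⟩ := (ht n).1 _ _ _ hv0
  obtain ⟨C₀, m, hC₀⟩ := hbd K hφ.compact
  obtain ⟨hmass, hpos, hsz⟩ := hi n g
  obtain ⟨c, hc, hsz⟩ := hsz K hφ.compact
  obtain ⟨C₁, hC₁⟩ := hsz m
  obtain ⟨P, hP⟩ := hφ.compact.exists_bound_of_continuousOn hφ.smooth.continuous.continuousOn
  obtain ⟨hgs, -, -, -, hsc⟩ := hg n g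
  have hU : IntegrableOn u K := ((Lp.memLp u).locallyIntegrable one_le_two).integrableOn_isCompact
    hφ.compact
  refine core (fun t z y => (ψ z * φ y * g.gauss t z y) • v t z y) f hf u
    (Lp.aestronglyMeasurable u) K hφ.compact hU (|P| * |C₀| * |C₁|) c hc (by positivity)
    (fun t ht => ?_) (fun t ht z y => ?_) (fun t z y hy => ?_) (fun t z y hz => ?_)
    (fun ξ y => φ y * g.gauss 1 ξ y) (fun ξ y => ?_) φ (fun y => ?_)
  · exact (((hψ.smooth.continuous.comp continuous_fst).mul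
      (hφ.smooth.continuous.comp continuous_snd)).mul (sm_cont hgs ht)).smul (sm_cont hsm ht)
  · have h0 := ht.1
    by_cases hy : y ∈ K
    · have h1 := hC₀ t ht z y hy
      have h2 := hC₁ t ht.1 z y hy
      have h3 := hpos t ht.1 z y
      have h4 : |φ y| ≤ |P| := (hP y hy).trans (le_abs_self _)
      have h5 := hψ.abs_le z
      have h6 : ‖v t z y‖ ≤ |C₀| * (1 + ‖z‖ ^ 2 / t) ^ m := by
        refine h1.trans ?_
        simp only [Int.cast_zero, zero_div, Real.rpow_zero, mul_one]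
        exact mul_le_mul_of_nonneg_right (le_abs_self _) (by positivity)
      have h7 : g.gauss t z y * (1 + ‖z‖ ^ 2 / t) ^ m ≤
          |C₁| * t ^ (-(n : ℝ) / 2) * Real.exp (-c * ‖z‖ ^ 2 / t) :=
        h2.trans (by gcongr; exact le_abs_self _)
      rw [norm_smul, Real.norm_eq_abs, abs_mul, abs_mul, abs_of_nonneg h3]
      calc |ψ z| * |φ y| * g.gauss t z y * ‖v t z y‖
          ≤ 1 * |P| * g.gauss t z y * (|C₀| * (1 + ‖z‖ ^ 2 / t) ^ m) := by gcongr
        _ = |P| * |C₀| * (g.gauss t z y * (1 + ‖z‖ ^ 2 / t) ^ m) := by ring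
        _ ≤ |P| * |C₀| * (|C₁| * t ^ (-(n : ℝ) / 2) * Real.exp (-c * ‖z‖ ^ 2 / t)) := by gcongr
        _ = _ := by ring
    · rw [norm_smul, hφ.zero y hy, mul_zero, zero_mul, norm_zero, zero_mul]
      positivity
  · simp only [hφ.zero y hy, mul_zero, zero_mul]
    exact zero_smul ℝ (v t z y)
  · simp only [hψ.zero z (hψ.le_one.trans hz), zero_mul]
    exact zero_smul ℝ (v t z y)
  · obtain ⟨-, -, -, -, hbd⟩ := (ht n).1 _ _ _ hv1
    obtain ⟨C, k, hC⟩ := hbd {y} isCompact_singleton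
    have hev : ∀ᶠ t in 𝓝[>] (0 : ℝ), t ∈ Ioc (0 : ℝ) 1 := Ioc_mem_nhdsGT one_pos
    have h1 : Tendsto (fun t : ℝ => v t (√t • ξ) y) (𝓝[>] 0) (𝓝 1) := by
      rw [tendsto_iff_norm_sub_tendsto_zero]
      have h2 : Tendsto (fun t : ℝ => C * √t * (1 + ‖ξ‖ ^ 2) ^ k) (𝓝[>] 0) (𝓝 0) := by
        have h : Continuous fun t : ℝ => C * √t * (1 + ‖ξ‖ ^ 2) ^ k := by fun_prop
        have := h.tendsto 0
        simp only [Real.sqrt_zero, mul_zero, zero_mul] at this
        exact this.mono_left nhdsWithin_le_nhds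
      refine squeeze_zero' (Eventually.of_forall fun _ => norm_nonneg _)
        (hev.mono fun t ht => ?_) h2
      have := hC t ht (√t • ξ) y rfl
      rw [norm_sc ht.1, Int.cast_one, ← Real.sqrt_eq_rpow] at this
      exact this
    have h2 : Tendsto (fun t : ℝ => ψ (√t • ξ)) (𝓝[>] 0) (𝓝 1) := by
      have := (hψ.smooth.continuous.tendsto 0).comp (tend_sc ξ)
      rw [hψ.one 0 (by simpa using (half_pos hψ.pos).le)] at this
      exact this
    have h3 := ((h2.mul_const (φ y)).mul_const (g.gauss 1 ξ y)).smul h1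
    rw [one_mul] at h3
    refine h3.congr' (hev.mono fun t ht => ?_)
    simp only
    rw [smul_smul, hsc t ht.1]
    congr 1
    have := sqrt_pow n ht.1
    calc _ = (√t ^ n * t ^ (-(n : ℝ) / 2)) * (ψ (√t • ξ) * φ y * g.gauss 1 ξ y) := by
          rw [this, one_mul]
      _ = _ := by ring
  · rw [integral_const_mul, hmass 1 one_pos y, mul_one]

end Pool.Agent.MP_d9582c_gt.H1
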