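import Pool.Agent.MP_d9582c_gt.H1.Asm
import Pool.Agent.MP_d9582c_gt.H1.Euc
import Pool.Agent.MP_d9582c_gt.H1.Local
import Pool.Agent.MP_d9582c_gt.H1.Mellin
import Pool.Agent.MP_d9582c_gt.H1.Kern
import Pool.Agent.MP_d9582c_gt.H1.Formal
import Pool.Agent.MP_d9582c_gt.H1.Jmap
import Pool.Agent.MP_d9582c_gt.H1.Phi
import Pool.Agent.MP_d9582c_gt.H1.Chart
import Pool.Agent.MP_d9582c_gt.H1.Symb
import Pool.Agent.MP_d9582c_gt.H1.Cliff
import Pool.Agent.MP_d9582c_gt.H1.HSmooth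
import Pool.Agent.MP_d9582c_gt.H1.GS
import Pool.Agent.MP_d9582c_gt.H1.Lap
import Pool.Agent.MP_d9582c_gt.H1.FOp
import Pool.Agent.MP_d9582c_gt.H1.Int
import Pool.Agent.MP_d9582c_gt.H1.HS
import Pool.Agent.MP_d9582c_gt.H1.Schur
import Pool.Agent.MP_d9582c_gt.H1.Weak
import Pool.Agent.MP_d9582c_gt.H1.ExpG
import Pool.Agent.MP_d9582c_gt.H1.Duh
import Pool.Agent.MP_d9582c_gt.H1.JDiff
import Pool.Agent.MP_d9582c_gt.H1.Conj
import Pool.Agent.MP_d9582c_gt.H1.TGp
import Pool.Agent.MP_d9582c_gt.H1.Taylor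
import Pool.Agent.MP_d9582c_gt.H1.Solve
import Pool.Agent.MP_d9582c_gt.H1.Gauss
import Pool.Agent.MP_d9582c_gt.H1.GaussInt
import Pool.Agent.MP_d9582c_gt.H1.Long
import Pool.Agent.MP_d9582c_gt.H1.EigOwn
import Pool.Agent.MP_d9582c_gt.H1.FinDet

/-!
The parts put together.
-/

namespace Pool.Agent.MP_d9582c_gt.H1

universe u v

theorem eucAll : EucStmt.{u} :=
  euc (kernel (tg gauss) gauss (gaussInt gauss) (conjugation gauss)
      (formal (tg gauss) taylor (solve (tg gauss)))) intOp hilbertSchmidt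
    (schur (tg gauss) (gaussInt gauss)) (weak (tg gauss) gauss (gaussInt gauss))
    (expansion (tg gauss) gauss (gaussInt gauss)) (tg gauss) duhamel jdiff

theorem localAll : LocalStmt.{u, v} :=
  localModel (chart gs hsmooth) (symb cliff hsmooth) jmap phi fo lap

end Pool.Agent.MP_d9582c_gt.H1
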