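import Pool.Agent.MP_d9582c_gt.H1.Spec
import Pool.Agent.MP_d9582c_gt.H92.Vol

/-!
Smoothness and positivity of the metric data in a chart.
-/

open scoped Manifold ContDiff ComplexConjugate Topology
open MeasureTheory Set Filter Bundle Pool.Agent.MP_d9582c_gt.H34

noncomputable section

namespace Pool.Agent.MP_d9582c_gt.H1

universe u

namespace HSmoothP

variable {n : ℕ} {M : Type*} [TopologicalSpace M] [ChartedSpace (E n) M]
  [IsManifold 𝓘(ℝ, E n) ∞ M] (g : RMetric n M)

lemma contDiffAt_gx_tang {ψ : E n → M} {s : Set (E n)} (hs : IsOpen s)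
    (hψ : ContMDiffOn 𝓘(ℝ, E n) 𝓘(ℝ, E n) ∞ ψ s) {z : E n} (hz : z ∈ s) (v w : E n) :
    ContDiffAt ℝ ∞ (fun y => gx g (ψ y) (tang n ψ y v) (tang n ψ y w)) z := by
  have key : ∀ v : E n, ContMDiffAt 𝓘(ℝ, E n) (𝓘(ℝ, E n).prod 𝓘(ℝ, E n)) ∞
      (fun y => TotalSpace.mk' (E n)
        (E := fun x : M => TangentSpace 𝓘(ℝ, E n) x) (ψ y) (tang n ψ y v)) z := fun v => by
    have h1 := hψ.contMDiffOn_tangentMapWithin (m := ∞) (by simp) hs.uniqueMDiffOn
    have h2 : ContMDiff 𝓘(ℝ, E n) (𝓘(ℝ, E n).prod 𝓘(ℝ, E n)) ∞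
        fun y : E n => (⟨y, v⟩ : TangentBundle 𝓘(ℝ, E n) (E n)) :=
      contMDiff_vectorSpace_iff_contDiff.2 contDiff_const
    have h3 := (h1.comp h2.contMDiffOn (s := s) fun y hy => hy).contMDiffAt (hs.mem_nhds hz)
    refine h3.congr_of_eventuallyEq ?_
    filter_upwards [hs.mem_nhds hz] with y hy
    simp only [Function.comp, tangentMapWithin, tang, mfderivWithin_of_isOpen hs hy]
    rfl
  have hb : ContMDiffAt 𝓘(ℝ, E n) 𝓘(ℝ, E n) ∞ ψ z := hψ.contMDiffAt (hs.mem_nhds hz)
  have : ContMDiffAt 𝓘(ℝ, E n) (𝓘(ℝ, E n).prod 𝓘(ℝ)) ∞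
      (fun y => TotalSpace.mk' ℝ (E := Bundle.Trivial M ℝ) (ψ y)
        (g.inner (ψ y) (tang n ψ y v) (tang n ψ y w))) z :=
    ContMDiffAt.clm_bundle_apply₂ (F₁ := E n) (F₂ := E n)
      (ContMDiffAt.comp z g.contMDiff.contMDiffAt hb) (key v) (key w)
  simp only [contMDiffAt_totalSpace] at this
  exact contMDiffAt_iff_contDiffAt.1 this.2

omit g in
lemma contDiffAt_det {A : E n → Matrix (Fin n) (Fin n) ℝ} {z : E n}
    (h : ∀ i j, ContDiffAt ℝ ∞ (fun y => A y i j) z) :
    ContDiffAt ℝ ∞ (fun y => (A y).det) z := by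
  simp only [Matrix.det_apply, Units.smul_def, zsmul_eq_mul]
  exact ContDiffAt.sum fun σ _ => contDiffAt_const.mul (contDiffAt_prod fun i _ => h _ _)

omit g in
lemma contDiffAt_inv_entry {A : E n → Matrix (Fin n) (Fin n) ℝ} {z : E n}
    (h : ∀ i j, ContDiffAt ℝ ∞ (fun y => A y i j) z) (h0 : (A z).det ≠ 0) (i j : Fin n) :
    ContDiffAt ℝ ∞ (fun y => (A y)⁻¹ i j) z := by
  simp only [Matrix.inv_def, Ring.inverse_eq_inv', Matrix.smul_apply, smul_eq_mul,
    Matrix.adjugate_apply]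
  refine ((contDiffAt_det h).inv h0).mul (contDiffAt_det fun k l => ?_)
  simp only [Matrix.updateRow_apply]
  split_ifs
  · exact contDiffAt_const
  · exact h _ _

lemma contDiffAt_gram {x : M} {z : E n} (hz : z ∈ (chartAt (E n) x).target) (i j : Fin n) :
    ContDiffAt ℝ ∞ (fun y => gram g (chartAt (E n) x).symm y i j) z :=
  contDiffAt_gx_tang g (chartAt (E n) x).open_target contMDiffOn_chart_symm hz _ _

lemma gram_posDef {x : M} {z : E n} (hz : z ∈ (chartAt (E n) x).target) :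
    (gram g (chartAt (E n) x).symm z).PosDef := by
  refine Matrix.PosDef.of_dotProduct_mulVec_pos ?_ fun v hv => ?_
  · ext i j
    simp [gram, gx_comm g _ (tang n _ z (EuclideanSpace.single i 1))]
  · have := H92.gx_tang_pos g hz (v := WithLp.toLp 2 v) (by simpa using hv)
    rw [gx_eq, H92.bil_expand] at this
    simpa [dotProduct, Matrix.mulVec, gram, gx_eq, Finset.mul_sum, mul_assoc] using this

omit g in
lemma comp_chart {x : M} {z : E n} (hz : z ∈ (chartAt (E n) x).target) {q : ℕ} (α : Alt n q) :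
    (α.compContinuousLinearMap (tang n (chartAt (E n) x) ((chartAt (E n) x).symm z))).compContinuousLinearMap
      (tang n (chartAt (E n) x).symm z) = α := by
  ext v
  simp only [ContinuousAlternatingMap.compContinuousLinearMap_apply]
  exact congrArg α (funext fun k => tang_chart_comp_symm hz _)

lemma hh_eq {x : M} {z : E n} (hz : z ∈ (chartAt (E n) x).target) (q : ℕ) (α β : Alt n q) :
    hh g x q z α β = (√(gram g (chartAt (E n) x).symm z).det : ℝ) * ((q.factorial : ℂ)⁻¹ *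
      ∑ K : Fin q → Fin n, ∑ L : Fin q → Fin n,
        (∏ k, (gram g (chartAt (E n) x).symm z)⁻¹ (K k) (L k) : ℝ) *
          (conj (α (ee ∘ K)) * β (ee ∘ L))) := by
  have hs : Function.Surjective (tang n (chartAt (E n) x).symm z) := fun v => by
    refine ⟨tang n (chartAt (E n) x) ((chartAt (E n) x).symm z) v, ?_⟩
    have := tang_chart_symm_comp ((chartAt (E n) x).map_target hz) v
    rwa [(chartAt (E n) x).right_inv hz] at this
  rw [hh, (ip_eq_gram g _ _ hs (gram g (chartAt (E n) x).symm z) fun i j => rfl).2,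
    comp_chart hz, comp_chart hz]

lemma nsq_pos (x : M) {q : ℕ} {α : Alt n q} (h : α ≠ 0) : 0 < nsq g x α := by
  refine (nsq_nonneg g x α).lt_of_ne fun h0 => h ?_
  ext w
  have := norm_apply_sq_le g x α w
  rw [← h0, mul_zero, zero_mul] at this
  simpa using pow_eq_zero_iff (two_ne_zero) |>.1 (le_antisymm this (sq_nonneg _))

end HSmoothP

open HSmoothP in
theorem hsmooth : HSmoothStmt.{u} := by
  intro n M _ _ _ g x₀
  have hinv : ∀ z ∈ (chartAt (E n) x₀).target, ∀ i j,
      ContDiffAt ℝ ∞ (fun z => (gram g (chartAt (E n) x₀).symm z)⁻¹ i j) z := fun z hz i j =>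
    contDiffAt_inv_entry (contDiffAt_gram g hz) (H92.det_gram_pos g hz).ne' i j
  refine ⟨fun q => Module.Finite.of_restrictScalars_finite ℝ ℂ _,
    fun i j z hz => (hinv z hz i j).contDiffWithinAt, fun z hz => (gram_posDef g hz).inv,
    fun q α β => ?_, fun q z hz α hα => ?_⟩
  · refine ContDiffOn.congr (fun z hz => ?_) fun z hz => hh_eq g hz q α β
    refine ContDiffAt.contDiffWithinAt (ContDiffAt.mul ?_ (contDiffAt_const.mul
      (ContDiffAt.sum fun K _ => ContDiffAt.sum fun L _ => ContDiffAt.mul ?_ contDiffAt_const)))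
    · exact Complex.ofRealCLM.contDiff.contDiffAt.comp z
        ((contDiffAt_det (contDiffAt_gram g hz)).sqrt (H92.det_gram_pos g hz).ne')
    · exact Complex.ofRealCLM.contDiff.contDiffAt.comp z
        (contDiffAt_prod (t := Finset.univ) fun k _ => hinv z hz (K k) (L k))
  · rw [hh, ip_self, ← Complex.ofReal_mul, Complex.ofReal_re]
    refine mul_pos (Real.sqrt_pos.2 (H92.det_gram_pos g hz)) (nsq_pos g _ fun h0 => hα ?_)
    rw [← comp_chart hz α, h0]
    rfl

end Pool.Agent.MP_d9582c_gt.H1
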