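import Pool.Agent.MP_d9582c_gt.H34.Stmts4

/-!
Definitions and statements for the small time expansion of the heat trace.
-/

open scoped Manifold ContDiff ComplexConjugate Topology ENNReal InnerProductSpace
open MeasureTheory Set Filter Metric ContinuousLinearMap Pool.Agent.MP_d9582c_gt.H34

noncomputable section

namespace Pool.Agent.MP_d9582c_gt.H1

universe u v

/-- The fibre. -/
abbrev W (d : ℕ) := EuclideanSpace ℂ (Fin d)

/-- Endomorphisms of the fibre. -/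
abbrev End (d : ℕ) := W d →L[ℂ] W d

/-- Square integrable sections. -/
abbrev L2W (n d : ℕ) := Lp (W d) 2 (volume : Measure (E n))

section Calc

variable {n d d' : ℕ} {V : Type} [NormedAddCommGroup V] [NormedSpace ℝ V]

/-- Partial derivative. -/
def pd (i : Fin n) (w : E n → V) (x : E n) : V := fderiv ℝ w x (ee i)

/-- Jointly smooth for positive times. -/
def Sm (v : ℝ → E n → E n → V) : Prop :=
  ContDiffOn ℝ ∞ (fun q : ℝ × E n × E n => v q.1 q.2.1 q.2.2) {q | 0 < q.1}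

/-- Jointly smooth for positive times, one space variable. -/
def Sm1 (w : ℝ → E n → V) : Prop := ContDiffOn ℝ ∞ (fun q : ℝ × E n => w q.1 q.2) {q | 0 < q.1}

/-- A monomial. -/
def mono (I : List (Fin n)) (z : E n) : ℝ := (I.map fun i => z i).prod

/-- Finite sums of terms `t ^ k * z ^ I * m y` of weight `2 k + |I|` at least `w`. -/
inductive TG (w : ℤ) : (ℝ → E n → E n → V) → Prop
  | gen (k : ℤ) (I : List (Fin n)) (m : E n → V) (hm : ContDiff ℝ ∞ m)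
      (hw : w ≤ 2 * k + I.length) : TG w fun t z y => (t ^ k * mono I z) • m y
  | zero : TG w fun _ _ _ => 0
  | add {u v} (hu : TG w u) (hv : TG w v) : TG w fun t z y => u t z y + v t z y
  | congr {u v} (hu : TG w u) (h : ∀ t > 0, ∀ z y, v t z y = u t z y) : TG w v

/-- A smooth family of positive definite matrices (the inverse metric). -/
structure Met (n : ℕ) where
  G : E n → Matrix (Fin n) (Fin n) ℝ
  smooth : ∀ i j, ContDiff ℝ ∞ fun x => G x i j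
  pos : ∀ x, (G x).PosDef

/-- The logarithmic derivative of the Gaussian, up to sign. -/
def Met.lin (g : Met n) (i : Fin n) (t : ℝ) (z y : E n) : ℝ := (∑ j, (g.G y)⁻¹ i j * z j) / (2 * t)

/-- The heat kernel of the constant coefficient operator frozen at `y`. -/
def Met.gauss (g : Met n) (t : ℝ) (z y : E n) : ℝ :=
  (4 * Real.pi * t) ^ (-(n : ℝ) / 2) * (g.G y).det ^ (-(1 : ℝ) / 2) *
    Real.exp (-(∑ i, ∑ j, (g.G y)⁻¹ i j * z i * z j) / (4 * t))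

/-- The partial derivative conjugated by the Gaussian. -/
def Met.D (g : Met n) (i : Fin n) (v : ℝ → E n → E n → V) (t : ℝ) (z y : E n) : V :=
  pd i (fun z => v t z y) z - g.lin i t z y • v t z y

/-- The frozen heat operator conjugated by the Gaussian. -/
def Met.H (g : Met n) (v : ℝ → E n → E n → V) (t : ℝ) (z y : E n) : V :=
  deriv (fun s => v s z y) t - ∑ i, ∑ j, g.G y i j • pd i (pd j fun z => v t z y) z +
    t⁻¹ • ∑ i, z i • pd i (fun z => v t z y) z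

/-- Coefficients of a Laplace type operator. -/
structure Coef (n d : ℕ) extends Met n where
  B : Fin n → E n → End d
  C : E n → End d
  B_smooth : ∀ i, ContDiff ℝ ∞ (B i)
  C_smooth : ContDiff ℝ ∞ C

/-- The operator on sections. -/
def Coef.L (c : Coef n d) (w : E n → W d) (x : E n) : W d :=
  -∑ i, ∑ j, c.G x i j • pd i (pd j w) x + ∑ i, c.B i x (pd i w x) + c.C x (w x)

/-- The operator on kernels. -/
def Coef.LE (c : Coef n d) (w : E n → End d) (x : E n) : End d :=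
  -∑ i, ∑ j, c.G x i j • pd i (pd j w) x + ∑ i, c.B i x * pd i w x + c.C x * w x

/-- The difference of the operator and the frozen operator, conjugated by the Gaussian. -/
def Coef.Pert (c : Coef n d) (v : ℝ → E n → E n → End d) (t : ℝ) (z y : E n) : End d :=
  -∑ i, ∑ j, (c.G (y + z) i j - c.G y i j) • c.toMet.D i (c.toMet.D j v) t z y +
    ∑ i, c.B i (y + z) * c.toMet.D i v t z y + c.C (y + z) * v t z y

/-- The heat operator applied to a kernel in the variables `t`, `x`. -/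
def Coef.res (c : Coef n d) (κ : ℝ → E n → E n → End d) (t : ℝ) (x y : E n) : End d :=
  deriv (fun s => κ s x y) t + c.LE (fun x => κ t x y) x

/-- A bump function of radius `r`. -/
structure IsBump (ψ : E n → ℝ) (r : ℝ) : Prop where
  pos : 0 < r
  le_one : r ≤ 1
  smooth : ContDiff ℝ ∞ ψ
  one : ∀ z, ‖z‖ ≤ r / 2 → ψ z = 1
  zero : ∀ z, r ≤ ‖z‖ → ψ z = 0
  abs_le : ∀ z, |ψ z| ≤ 1

/-- A smooth function vanishing off the compact set `K`. -/
structure IsCut (φ : E n → ℝ) (K : Set (E n)) : Prop where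
  compact : IsCompact K
  smooth : ContDiff ℝ ∞ φ
  zero : ∀ y ∉ K, φ y = 0

/-- The parametrix. -/
def kern (g : Met n) (ψ φ : E n → ℝ) (v : ℝ → E n → E n → End d) (t : ℝ) (x y : E n) : End d :=
  (ψ (x - y) * φ y * g.gauss t (x - y) y) • v t (x - y) y

/-- The integral operator of a kernel. -/
def op (κ : E n → E n → End d) (u : E n → W d) (x : E n) : W d := ∫ y, κ x y (u y)

/-- The squared Hilbert-Schmidt norm of an endomorphism of the fibre. -/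
def hsq (A : End d) : ℝ := ∑ m, ‖adjoint A (EuclideanSpace.single m 1)‖ ^ 2

/-- Complete asymptotic expansion at small times in the powers `t ^ ((j - n) / 2)`. -/
def Exp (n : ℕ) (f : ℝ → ℝ) : Prop :=
  ∀ N : ℕ, ∃ (J : ℕ) (a : ℕ → ℝ) (C : ℝ), ∀ t ∈ Ioc (0 : ℝ) 1,
    |f t - ∑ j ∈ Finset.range J, a j * t ^ (((j : ℝ) - n) / 2)| ≤ C * t ^ N

/-- Smooth sections supported near `K`. -/
def Test (K : Set (E n)) (r : ℝ) (w : E n → V) : Prop :=
  ContDiff ℝ ∞ w ∧ ∀ x ∉ cthickening r K, w x = 0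

/-- First order operators with smooth coefficients. -/
structure FO (n d d' : ℕ) where
  a : Fin n → E n → W d →L[ℂ] W d'
  b : E n → W d →L[ℂ] W d'
  a_smooth : ∀ i, ContDiff ℝ ∞ (a i)
  b_smooth : ContDiff ℝ ∞ b

/-- The operator. -/
def FO.ap (D : FO n d d') (u : E n → W d) (x : E n) : W d' :=
  ∑ i, D.a i x (pd i u x) + D.b x (u x)

/-- The formal adjoint. -/
def FO.ad (D : FO n d d') (w : E n → W d') (x : E n) : W d :=
  -∑ i, adjoint (D.a i x) (pd i w x) +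
    (adjoint (D.b x) (w x) - ∑ i, adjoint (pd i (D.a i) x) (w x))

/-- The symbol. -/
def FO.sym (D : FO n d d') (ξ : Fin n → ℝ) (x : E n) : W d →L[ℂ] W d' := ∑ i, ξ i • D.a i x

/-- The quadratic form of a matrix. -/
def quad (A : Matrix (Fin n) (Fin n) ℝ) (ξ : Fin n → ℝ) : ℝ := ∑ i, ∑ j, A i j * ξ i * ξ j

end Calc

/-- `J` is linear and isometric on test sections. -/
structure IsJ {n d : ℕ} {H : Type u} [NormedAddCommGroup H] [InnerProductSpace ℂ H]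
    (K : Set (E n)) (r : ℝ) (J : (E n → W d) → H) : Prop where
  add : ∀ w w', Test K r w → Test K r w' → J (fun x => w x + w' x) = J w + J w'
  smul : ∀ (c : ℂ) w, Test K r w → J (fun x => c • w x) = c • J w
  norm : ∀ w, Test K r w → ‖J w‖ₑ ^ 2 = ∫⁻ x, ‖w x‖ₑ ^ 2

/-- A local Euclidean model of the operator `T* T`, `T` given by its graph `Γ`. -/
structure Loc (n d : ℕ) {H H' : Type u} [NormedAddCommGroup H] [InnerProductSpace ℂ H]
    [NormedAddCommGroup H'] [InnerProductSpace ℂ H'] (Γ : Submodule ℂ (H × H')) where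
  c : Coef n d
  φ : E n → ℝ
  K : Set (E n)
  r : ℝ
  r_pos : 0 < r
  cut : IsCut φ K
  J : (E n → W d) → H
  isJ : IsJ K r J
  Φ : H →L[ℂ] L2W n d
  lap : ∀ w, Test K r w → Test K r (c.L w) ∧
    ∃ a, (J w, a) ∈ Γ ∧ ∀ v b, (v, b) ∈ Γ → ⟪b, a⟫_ℂ = ⟪v, J (c.L w)⟫_ℂ
  dense : Dense {η : H | ∃ f : E n → W d, Continuous f ∧
    (∀ w, Test K r w → ⟪η, J w⟫_ℂ = ∫ x, ⟪f x, w x⟫_ℂ) ∧ Φ η =ᵐ[volume] fun y => φ y • f y}

/-! ### Euclidean statements -/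

/-- Closure properties of the class `TG`. -/
def TGStmt : Prop :=
  ∀ n : ℕ, (∀ (V : Type) [NormedAddCommGroup V] [NormedSpace ℝ V] (w : ℤ)
      (v : ℝ → E n → E n → V), TG w v → Sm v ∧ (∀ w' ≤ w, TG w' v) ∧
        (∀ i, TG (w - 1) fun t z y => pd i (fun z => v t z y) z) ∧
        (∀ (g : Met n) i, TG (w - 1) (g.D i v)) ∧
        ∀ K : Set (E n), IsCompact K → ∃ (C : ℝ) (m : ℕ), ∀ t ∈ Ioc (0 : ℝ) 1, ∀ z, ∀ y ∈ K,
          ‖v t z y‖ ≤ C * t ^ ((w : ℝ) / 2) * (1 + ‖z‖ ^ 2 / t) ^ m) ∧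
    ∀ (V₁ V₂ V₃ : Type) [NormedAddCommGroup V₁] [NormedSpace ℝ V₁] [NormedAddCommGroup V₂]
      [NormedSpace ℝ V₂] [NormedAddCommGroup V₃] [NormedSpace ℝ V₃] (β : V₁ →L[ℝ] V₂ →L[ℝ] V₃)
      (w₁ w₂ : ℤ) (u : ℝ → E n → E n → V₁) (v : ℝ → E n → E n → V₂), TG w₁ u → TG w₂ v →
        TG (w₁ + w₂) fun t z y => β (u t z y) (v t z y)

/-- Taylor expansion with smooth coefficients. -/
def TaylorStmt : Prop :=
  ∀ (n : ℕ) (V : Type) [NormedAddCommGroup V] [NormedSpace ℝ V] [CompleteSpace V] (f : E n → V),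
    ContDiff ℝ ∞ f → ∀ K : Set (E n), IsCompact K → ∀ N : ℕ,
      ∃ (Q : ℝ → E n → E n → V) (C : ℝ), TG 1 Q ∧ ∀ t > 0, ∀ y ∈ K, ∀ z, ‖z‖ ≤ 1 →
        ‖f (y + z) - f y - Q t z y‖ ≤ C * ‖z‖ ^ N

/-- The transport equation. -/
def SolveStmt : Prop :=
  ∀ (n : ℕ) (V : Type) [NormedAddCommGroup V] [NormedSpace ℝ V] (g : Met n) (w : ℤ), 1 ≤ w →
    ∀ T : ℝ → E n → E n → V, TG (w - 2) T →
      ∃ u, TG w u ∧ ∀ t > 0, ∀ z y, g.H u t z y = T t z y

/-- Differential properties of the Gaussian. -/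
def GaussStmt : Prop :=
  ∀ (n : ℕ) (g : Met n), Sm g.gauss ∧ (∀ i j, ContDiff ℝ ∞ fun y => (g.G y)⁻¹ i j) ∧
    (∀ t > 0, ∀ i z y, pd i (fun z => g.gauss t z y) z = -g.lin i t z y * g.gauss t z y) ∧
    (∀ t > 0, ∀ z y, deriv (fun s => g.gauss s z y) t =
      ∑ i, ∑ j, g.G y i j * pd i (pd j fun z => g.gauss t z y) z) ∧
    ∀ t > 0, ∀ ξ y, g.gauss t (√t • ξ) y = t ^ (-(n : ℝ) / 2) * g.gauss 1 ξ y

/-- Mass and size of the Gaussian. -/
def GaussIntStmt : Prop :=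
  ∀ (n : ℕ) (g : Met n), (∀ t > 0, ∀ y, ∫ z, g.gauss t z y = 1) ∧
    (∀ t > 0, ∀ z y, 0 ≤ g.gauss t z y) ∧
    ∀ K : Set (E n), IsCompact K → ∃ c > (0 : ℝ), ∀ m : ℕ, ∃ C : ℝ, ∀ t > 0, ∀ z, ∀ y ∈ K,
      g.gauss t z y * (1 + ‖z‖ ^ 2 / t) ^ m ≤
        C * t ^ (-(n : ℝ) / 2) * Real.exp (-c * ‖z‖ ^ 2 / t)

/-- Conjugation of the heat operator by the Gaussian. -/
def ConjStmt : Prop :=
  ∀ (n d : ℕ) (c : Coef n d) (v : ℝ → E n → E n → End d), Sm v → ∀ t > 0, ∀ x y,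
    c.res (fun t x y => c.toMet.gauss t (x - y) y • v t (x - y) y) t x y =
      c.toMet.gauss t (x - y) y • (c.toMet.H v t (x - y) y + c.Pert v t (x - y) y)

/-- The formal solution. -/
def FormalStmt : Prop :=
  ∀ (n d : ℕ) (c : Coef n d) (K : Set (E n)), IsCompact K → ∀ N : ℕ,
    ∃ (v : ℝ → E n → E n → End d) (C : ℝ) (m : ℕ), TG 0 v ∧ (TG 1 fun t z y => v t z y - 1) ∧
      ∀ t ∈ Ioc (0 : ℝ) 1, ∀ z, ‖z‖ ≤ 1 → ∀ y ∈ K,
        ‖c.toMet.H v t z y + c.Pert v t z y‖ ≤ C * t ^ N * (1 + ‖z‖ ^ 2 / t) ^ m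

/-- The parametrix solves the heat equation up to a small error. -/
def KernStmt : Prop :=
  ∀ (n d : ℕ) (c : Coef n d) (ψ φ : E n → ℝ) (r : ℝ) (K : Set (E n)), IsBump ψ r → IsCut φ K →
    ∀ N : ℕ, ∃ (v : ℝ → E n → E n → End d) (C : ℝ), TG 0 v ∧ (TG 1 fun t z y => v t z y - 1) ∧
      Sm (kern c.toMet ψ φ v) ∧
      ∀ t ∈ Ioc (0 : ℝ) 1, ∀ x y, ‖c.res (kern c.toMet ψ φ v) t x y‖ ≤ C * t ^ N

/-- Differentiation under the integral. -/
def IntStmt : Prop :=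
  ∀ (n d : ℕ) (κ : ℝ → E n → E n → End d) (K : Set (E n)), Sm κ → IsCompact K →
    (∀ t > 0, ∀ x, ∀ y ∉ K, κ t x y = 0) →
    (∀ u : E n → W d, LocallyIntegrable u volume → Sm1 (fun t => op (κ t) u) ∧
      ∀ c : Coef n d, ∀ t > 0, ∀ x,
        deriv (fun s => op (κ s) u x) t + c.L (op (κ t) u) x = op (c.res κ t) u x) ∧
    ∀ c : Coef n d, Sm (c.res κ) ∧ (∀ t > 0, ∀ x, ∀ y ∉ K, c.res κ t x y = 0) ∧
      ∀ A : Set (E n), IsClosed A → (∀ t > 0, ∀ x ∉ A, ∀ y, κ t x y = 0) →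
        ∀ t > 0, ∀ x ∉ A, ∀ y, c.res κ t x y = 0

/-- The Hilbert-Schmidt norm of an integral operator. -/
def HSStmt : Prop :=
  ∀ (n d : ℕ) (κ : E n → E n → End d) (K K' : Set (E n)), IsCompact K → IsCompact K' →
    Continuous (fun q : E n × E n => κ q.1 q.2) → (∀ x, ∀ y ∉ K, κ x y = 0) →
    (∀ x ∉ K', ∀ y, κ x y = 0) → ∀ (ι : Type) [Countable ι] (e : HilbertBasis ι ℂ (L2W n d)),
      ∑' j, ∫⁻ x, ‖op κ (e j) x‖ₑ ^ 2 = ENNReal.ofReal (∫ x, ∫ y, hsq (κ x y)) ∧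
      0 ≤ ∫ x, ∫ y, hsq (κ x y) ∧
      ∀ B : ℝ, (∀ x y, ‖κ x y‖ ≤ B) →
        ∫ x, ∫ y, hsq (κ x y) ≤ d * B ^ 2 * (volume K).toReal * (volume K').toReal

/-- Uniform boundedness of the parametrix. -/
def SchurStmt : Prop :=
  ∀ (n d : ℕ) (g : Met n) (ψ φ : E n → ℝ) (r : ℝ) (K : Set (E n)), IsBump ψ r → IsCut φ K →
    ∀ v : ℝ → E n → E n → End d, TG 0 v → ∃ C : ℝ, ∀ t ∈ Ioc (0 : ℝ) 1, ∀ u : L2W n d,
      ∫⁻ x, ‖op (kern g ψ φ v t) u x‖ₑ ^ 2 ≤ ENNReal.ofReal C * ‖u‖ₑ ^ 2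

/-- The initial value of the parametrix. -/
def WeakStmt : Prop :=
  ∀ (n d : ℕ) (g : Met n) (ψ φ : E n → ℝ) (r : ℝ) (K : Set (E n)), IsBump ψ r → IsCut φ K →
    ∀ v : ℝ → E n → E n → End d, TG 0 v → (TG 1 fun t z y => v t z y - 1) →
      ∀ (f : E n → W d), Continuous f → ∀ u : L2W n d,
        Tendsto (fun t => ∫ x, ⟪f x, op (kern g ψ φ v t) u x⟫_ℂ) (𝓝[>] 0)
          (𝓝 (∫ y, ⟪φ y • f y, u y⟫_ℂ))

/-- Expansion of Gaussian integrals. -/
def ExpStmt : Prop :=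
  ∀ (n : ℕ) (g : Met n) (ψ φ : E n → ℝ) (r : ℝ) (K : Set (E n)), IsBump ψ r → IsCut φ K →
    ∀ P : ℝ → E n → E n → ℝ, TG 0 P →
      Exp n fun t => ∫ x, ∫ y, (ψ (x - y) * φ y * g.gauss t (x - y) y) ^ 2 * P t (x - y) y

/-- Duhamel's estimate. -/
def DuhStmt : Prop :=
  ∀ (H H' : Type u) [NormedAddCommGroup H] [InnerProductSpace ℂ H] [CompleteSpace H]
    [NormedAddCommGroup H'] [InnerProductSpace ℂ H'] [CompleteSpace H']
    (Γ : Submodule ℂ (H × H')), IsClosed (Γ : Set (H × H')) →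
    ∀ (w ρ : ℝ → H) (w₀ : H) (τ : ℝ), 0 < τ →
      (∀ s ∈ Ioc 0 τ, ∃ w' y a, HasDerivAt w w' s ∧ (w s, a) ∈ Γ ∧
        (∀ v b, (v, b) ∈ Γ → ⟪b, a⟫_ℂ = ⟪v, y⟫_ℂ) ∧ ρ s = w' + y) →
      ContinuousOn ρ (Ioc 0 τ) → (∃ B : ℝ, ∀ s ∈ Ioc 0 τ, ‖w s‖ ≤ B) →
      (Dense {f : H | Tendsto (fun s => ⟪f, w s⟫_ℂ) (𝓝[>] 0) (𝓝 ⟪f, w₀⟫_ℂ)}) →
      ‖heat Γ τ w₀ - w τ‖ₑ ^ 2 ≤ ENNReal.ofReal τ * ∫⁻ s in Ioc 0 τ, ‖ρ s‖ₑ ^ 2

/-- Smooth families of test sections are differentiable in the Hilbert space. -/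
def JDiffStmt : Prop :=
  ∀ (n d : ℕ) (H : Type u) [NormedAddCommGroup H] [InnerProductSpace ℂ H] (K : Set (E n)) (r : ℝ)
    (J : (E n → W d) → H), IsCompact K → IsJ K r J → ∀ w : ℝ → E n → W d, Sm1 w →
      (∀ t > 0, ∀ x ∉ cthickening r K, w t x = 0) → ∀ t > 0, Test K r (w t) ∧
        Test K r (fun x => deriv (fun s => w s x) t) ∧
        HasDerivAt (fun s => J (w s)) (J fun x => deriv (fun s => w s x) t) t

/-- The expansion of the localized heat trace. -/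
def EucStmt : Prop :=
  ∀ (n d : ℕ) (H H' : Type u) [NormedAddCommGroup H] [InnerProductSpace ℂ H] [CompleteSpace H]
    [NormedAddCommGroup H'] [InnerProductSpace ℂ H'] [CompleteSpace H']
    (Γ : Submodule ℂ (H × H')), IsClosed (Γ : Set (H × H')) → ∀ (L : Loc n d Γ) (ι : Type)
      [Countable ι] (e : HilbertBasis ι ℂ (L2W n d)),
      (∀ t ∈ Ioc (0 : ℝ) 1, hs (fun j => adjoint L.Φ (e j)) (heat Γ t) ≠ ⊤) ∧
        Exp n fun t => (hs (fun j => adjoint L.Φ (e j)) (heat Γ t)).toReal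

/-- First order operators preserve test sections; integration by parts. -/
def FOStmt : Prop :=
  ∀ (n d d' : ℕ) (D : FO n d d') (K : Set (E n)) (r : ℝ), IsCompact K →
    (∀ u, Test K r u → Test K r (D.ap u)) ∧ (∀ w, Test K r w → Test K r (D.ad w)) ∧
    ∀ (O : Set (E n)), IsOpen O → cthickening r K ⊆ O → ∀ u, ContDiffOn ℝ ∞ u O →
      ∀ w, Test K r w → ∫ x, ⟪D.ap u x, w x⟫_ℂ = ∫ x, ⟪u x, D.ad w x⟫_ℂ

/-- A complex with the Clifford relation has a Laplacian with scalar principal symbol. -/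
def LapStmt : Prop :=
  ∀ (n d₀ d d₁ : ℕ) (D₀ : FO n d₀ d) (D₁ : FO n d d₁) (g : Met n) (K : Set (E n)) (r : ℝ),
    (∀ x ∈ cthickening r K, ∀ ξ u, adjoint (D₁.sym ξ x) (D₁.sym ξ x u) +
      D₀.sym ξ x (adjoint (D₀.sym ξ x) u) = quad (g.G x) ξ • u) →
    ∃ c : Coef n d, c.toMet = g ∧ ∀ w, Test K r w →
      c.L w = fun x => D₁.ad (D₁.ap w) x + D₀.ap (D₀.ad w) x

/-- Smooth orthonormal frames. -/
def GSStmt : Prop :=
  ∀ (n : ℕ) (A : Type) [NormedAddCommGroup A] [NormedSpace ℝ A] [NormedSpace ℂ A]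
    [IsScalarTower ℝ ℂ A] [SMulCommClass ℂ ℝ A] [FiniteDimensional ℂ A] (h : E n → A → A → ℂ),
    (∀ α β, ContDiff ℝ ∞ fun z => h z α β) → (∀ z α β γ, h z α (β + γ) = h z α β + h z α γ) →
    (∀ z (c : ℂ) α β, h z α (c • β) = c * h z α β) → (∀ z α β, conj (h z β α) = h z α β) →
    (∀ z α, α ≠ 0 → 0 < (h z α α).re) →
    ∃ (S : E n → W (Module.finrank ℂ A) →L[ℂ] A) (S' : E n → A →L[ℂ] W (Module.finrank ℂ A)),
      ContDiff ℝ ∞ S ∧ ContDiff ℝ ∞ S' ∧ (∀ z α, S z (S' z α) = α) ∧ (∀ z u, S' z (S z u) = u) ∧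
      ∀ z u v, h z (S z u) (S z v) = ⟪u, v⟫_ℂ

/-! ### Geometric statements -/

/-- The rank of the bundle of `q`-forms. -/
abbrev dim (n q : ℕ) : ℕ := Module.finrank ℂ (Alt n q)

/-- The covector with coordinates `ξ`. -/
def cov {n : ℕ} (ξ : Fin n → ℝ) : E n →L[ℝ] ℝ := ∑ i, ξ i • EuclideanSpace.proj i

section Geom

variable {n : ℕ} {M : Type u} [TopologicalSpace M] [ChartedSpace (E n) M]
  [IsManifold 𝓘(ℝ, E n) ∞ M]

/-- The scalar product of forms times the volume density, in the chart at `x₀`. -/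
def hh (g : RMetric n M) (x₀ : M) (q : ℕ) (z : E n) (α β : Alt n q) : ℂ :=
  (√(gram g (chartAt (E n) x₀).symm z).det : ℝ) * ip g ((chartAt (E n) x₀).symm z)
    (α.compContinuousLinearMap (tang n (chartAt (E n) x₀) ((chartAt (E n) x₀).symm z)))
    (β.compContinuousLinearMap (tang n (chartAt (E n) x₀) ((chartAt (E n) x₀).symm z)))

variable {G : Type v} [Group G] [MulAction G M] [MeasurableSpace M]

/-- Flattening data in the chart number `a`. -/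
structure Chart (X : Geo n G M) (a : Fin X.m) where
  K : Set (E n)
  r : ℝ
  O : Set (E n)
  φ : E n → ℝ
  χ : E n → ℝ
  met : Met n
  S : ∀ q, E n → W (dim n q) →L[ℂ] Alt n q
  S' : ∀ q, E n → Alt n q →L[ℂ] W (dim n q)
  r_pos : 0 < r
  cut : IsCut φ K
  isOpen_O : IsOpen O
  sub_O : cthickening r K ⊆ O
  O_sub : O ⊆ chartAt (E n) (X.ctr a) '' X.U a
  φ_eq : ∀ x ∈ X.U a, φ (chartAt (E n) (X.ctr a) x) = X.φ a x
  χ_smooth : ContDiff ℝ ∞ χ
  χ_one : ∀ z ∈ cthickening r K, χ z = 1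
  χ_supp : tsupport χ ⊆ O
  S_smooth : ∀ q, ContDiff ℝ ∞ (S q)
  S'_smooth : ∀ q, ContDiff ℝ ∞ (S' q)
  SS' : ∀ q z α, S q z (S' q z α) = α
  S'S : ∀ q z u, S' q z (S q z u) = u
  iso : ∀ q, ∀ z ∈ O, ∀ u v, hh X.g (X.ctr a) q z (S q z u) (S q z v) = ⟪u, v⟫_ℂ
  met_eq : ∀ z ∈ O, met.G z = (gram X.g (chartAt (E n) (X.ctr a)).symm z)⁻¹

/-- The components of a form in the chart and the frame. -/
def Chart.loc {X : Geo n G M} {a : Fin X.m} (c : Chart X a) (q : ℕ) (η : M → Alt n q) (z : E n) :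
    W (dim n q) := c.S' q z (pull (chartAt (E n) (X.ctr a)).symm η z)

end Geom

/-- Smoothness and positivity of the metric data in a chart. -/
def HSmoothStmt : Prop :=
  ∀ (n : ℕ) (M : Type u) [TopologicalSpace M] [ChartedSpace (E n) M] [IsManifold 𝓘(ℝ, E n) ∞ M]
    (g : RMetric n M) (x₀ : M), (∀ q, FiniteDimensional ℂ (Alt n q)) ∧
      (∀ i j, ContDiffOn ℝ ∞ (fun z => (gram g (chartAt (E n) x₀).symm z)⁻¹ i j)
        (chartAt (E n) x₀).target) ∧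
      (∀ z ∈ (chartAt (E n) x₀).target, (gram g (chartAt (E n) x₀).symm z)⁻¹.PosDef) ∧
      (∀ q α β, ContDiffOn ℝ ∞ (fun z => hh g x₀ q z α β) (chartAt (E n) x₀).target) ∧
      ∀ q, ∀ z ∈ (chartAt (E n) x₀).target, ∀ α, α ≠ 0 → 0 < (hh g x₀ q z α α).re

/-- The Clifford relation in a chart. -/
def CliffStmt : Prop :=
  ∀ (n : ℕ) (M : Type u) [TopologicalSpace M] [ChartedSpace (E n) M] [IsManifold 𝓘(ℝ, E n) ∞ M]
    (g : RMetric n M) (x₀ : M), ∀ z ∈ (chartAt (E n) x₀).target, ∀ ξ : Fin n → ℝ,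
      ∃ ι : ∀ q, Alt n (q + 1) → Alt n q,
        (∀ q α β, hh g x₀ (q + 1) z (wedge (cov ξ) α) β = hh g x₀ q z α (ι q β)) ∧
        (∀ α, ι 0 (wedge (cov ξ) α) = quad (gram g (chartAt (E n) x₀).symm z)⁻¹ ξ • α) ∧
        ∀ q α, ι (q + 1) (wedge (cov ξ) α) + wedge (cov ξ) (ι q α) =
          quad (gram g (chartAt (E n) x₀).symm z)⁻¹ ξ • α

/-- Existence of the flattening data. -/
def ChartStmt : Prop :=
  ∀ (n : ℕ) (M : Type u) [TopologicalSpace M] [ChartedSpace (E n) M] [IsManifold 𝓘(ℝ, E n) ∞ M]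
    (G : Type v) [Group G] [MulAction G M] [MeasurableSpace M] (X : Geo n G M) (a : Fin X.m),
    Nonempty (Chart X a)

/-- The exterior derivative in the frames. -/
def SymbStmt : Prop :=
  ∀ (n : ℕ) (M : Type u) [TopologicalSpace M] [ChartedSpace (E n) M] [IsManifold 𝓘(ℝ, E n) ∞ M]
    (G : Type v) [Group G] [MulAction G M] [MeasurableSpace M] (X : Geo n G M) (a : Fin X.m)
    (c : Chart X a), ∃ D : ∀ q, FO n (dim n q) (dim n (q + 1)),
      (∀ q u z, DifferentiableAt ℝ u z →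
        c.S (q + 1) z ((D q).ap u z) = extDeriv (fun z => c.S q z (u z)) z) ∧
      (∀ z ∈ c.O, ∀ ξ u, adjoint ((D 0).sym ξ z) ((D 0).sym ξ z u) = quad (c.met.G z) ξ • u) ∧
      ∀ q, ∀ z ∈ c.O, ∀ ξ u, adjoint ((D (q + 1)).sym ξ z) ((D (q + 1)).sym ξ z u) +
        (D q).sym ξ z (adjoint ((D q).sym ξ z) u) = quad (c.met.G z) ξ • u

/-- Periodization of test sections. -/
def JStmt : Prop :=
  ∀ (n : ℕ) (M : Type u) [TopologicalSpace M] [T2Space M] [ChartedSpace (E n) M]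
    [IsManifold 𝓘(ℝ, E n) ∞ M] (G : Type v) [Group G] [MulAction G M] [MeasurableSpace M]
    [BorelSpace M] [Countable G] (X : Geo n G M), IsVolume X.g X.μ → ∀ (a : Fin X.m)
    (c : Chart X a) (D : FD X), ∃ J : ∀ q, (E n → W (dim n q)) → D.P q,
      (∀ q, IsJ c.K c.r fun w => (J q w : D.H q)) ∧
      (∀ q w, Test c.K c.r w → ∀ η : D.P q, ⟪η, J q w⟫_ℂ = ∫ z, ⟪c.loc q η.1 z, w z⟫_ℂ) ∧
      ∀ q w w', Test c.K c.r w → Test c.K c.r w' →
        (∀ z, c.S (q + 1) z (w' z) = extDeriv (fun z => c.S q z (w z)) z) →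
        (J (q + 1) w').1 = extD (J q w).1

/-- The localization operators. -/
def PhiStmt : Prop :=
  ∀ (n : ℕ) (M : Type u) [TopologicalSpace M] [ChartedSpace (E n) M]
    [IsManifold 𝓘(ℝ, E n) ∞ M] (G : Type v) [Group G] [MulAction G M] [MeasurableSpace M]
    [BorelSpace M] [Countable G] (X : Geo n G M), IsVolume X.g X.μ →
    ∀ (c : ∀ a, Chart X a) (D : FD X) (p : ℕ), ∃ Φ : Fin X.m → D.H p →L[ℂ] L2W n (dim n p),
      (∀ a (η : D.P p), Φ a η =ᵐ[volume] fun z => (c a).φ z • (c a).loc p η.1 z) ∧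
      ∀ u, ∑' q, ∑ a, ‖Φ a (D.rep p q⁻¹ u)‖ₑ ^ 2 = ‖u‖ₑ ^ 2

/-- The local models of the Hodge Laplacian. -/
def LocalStmt : Prop :=
  ∀ (n : ℕ) (M : Type u) [TopologicalSpace M] [T2Space M] [ChartedSpace (E n) M]
    [IsManifold 𝓘(ℝ, E n) ∞ M] (G : Type v) [Group G] [MulAction G M] [MeasurableSpace M]
    [BorelSpace M] [Countable G] (X : Geo n G M), IsVolume X.g X.μ → ∀ (D : FD X) (p : ℕ),
      ∃ L : Fin X.m → Loc n (dim n p) (D.cx.lap p),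
        ∀ u, ∑' q, ∑ a, ‖(L a).Φ (D.rep p q⁻¹ u)‖ₑ ^ 2 = ‖u‖ₑ ^ 2

/-! ### Mellin transform and large times -/

/-- Meromorphic continuation of the Mellin transform. -/
def MellinStmt : Prop :=
  ∀ (n : ℕ) (θ : ℝ → ℝ) (ε : ℝ), 0 < ε → AntitoneOn θ (Ioi 0) → Exp n θ →
    ∃ ζ : ℂ → ℂ, MeromorphicOn ζ univ ∧ AnalyticAt ℂ ζ 0 ∧ (deriv ζ 0).im = 0 ∧
      ∀ s : ℂ, (n : ℝ) / 2 < s.re →
        IntegrableOn (fun t : ℝ => (t : ℂ) ^ (s - 1) * θ t) (Ioc 0 ε) ∧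
        ζ s = (Complex.Gamma s)⁻¹ * ∫ t in Ioc 0 ε, (t : ℂ) ^ (s - 1) * θ t

/-- Positive determinants give convergence at large times. -/
def LongStmt : Prop :=
  ∀ (Q : Type v) [Group Q] (r : ℕ) (A A' : Matrix (Fin r) (Fin r) (MonoidAlgebra ℚ Q)) (n : ℕ)
    (c : ℝ) (C : Cx.{u} Q), C.HasFrame → C.Weyl c n → C.Cech (rmulMat A) n c →
    rmulMat A' = adjoint (rmulMat A) → 0 < fkDet A → 0 < fkDet A' → ∀ p, ∃ T > (0 : ℝ),
      ∫⁻ t in Ioi T, ENNReal.ofReal (((C.trH p t).toReal - (C.trK p).toReal) / t) ≠ ⊤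

/-- The product of the nonzero eigenvalues of an integral symmetric matrix. -/
def EigStmt : Prop :=
  ∀ (ι : Type v) [Fintype ι] [DecidableEq ι] (B : Matrix ι ι ℤ)
    (hB : (B.map (Int.cast : ℤ → ℝ)).IsHermitian),
    1 ≤ |∏ k ∈ Finset.univ.filter fun k => hB.eigenvalues k ≠ 0, hB.eigenvalues k|

/-- A uniform lower bound for the determinants over finite quotients. -/
def FinDetStmt : Prop :=
  ∀ (G : Type v) [Group G] (r s : ℕ) (A : Matrix (Fin r) (Fin s) (MonoidAlgebra ℚ G)),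
    fkDet (quotMat ⊥ A) = fkDet A ∧
      ∃ c > (0 : ℝ), ∀ (N : Subgroup G) [N.Normal], N.FiniteIndex → c ≤ fkDet (quotMat N A)

end Pool.Agent.MP_d9582c_gt.H1
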