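import Pool.Agent.MP_d9582c_gt.H1.Spec

/-!
Taylor expansion with smooth coefficients.
-/

open scoped ContDiff Topology
open MeasureTheory Set Filter Metric Pool.Agent.MP_d9582c_gt.H34

namespace Pool.Agent.MP_d9582c_gt.H1

namespace TaylorP

variable {n : ℕ} {V : Type} [NormedAddCommGroup V] [NormedSpace ℝ V]

theorem tg_sum {w : ℤ} {ι : Type} (s : Finset ι) (u : ι → ℝ → E n → E n → V)
    (h : ∀ i ∈ s, TG w (u i)) : TG w fun t z y => ∑ i ∈ s, u i t z y := by
  classical
  induction s using Finset.induction_on with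
  | empty => exact TG.zero.congr fun _ _ _ _ => Finset.sum_empty
  | insert i s hi ih =>
    exact ((h i (Finset.mem_insert_self _ _)).add
      (ih fun j hj => h j (Finset.mem_insert_of_mem hj))).congr fun _ _ _ _ => Finset.sum_insert hi

theorem expand {k : ℕ} (A : ContinuousMultilinearMap ℝ (fun _ : Fin k => E n) V) (z : E n) :
    A (fun _ => z) = ∑ I : Fin k → Fin n, mono (List.ofFn I) z • A (fun a => ee (I a)) := by
  have hz : z = ∑ i, z i • (ee i : E n) := by
    ext j
    simp [ee, Finset.sum_apply, Pi.single_apply]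
  have h1 : A (fun _ => z) = A (fun _ => ∑ i, z i • (ee i : E n)) := by rw [← hz]
  rw [h1, A.map_sum]
  refine Finset.sum_congr rfl fun I _ => ?_
  rw [A.map_smul_univ, mono, List.map_ofFn, List.prod_ofFn]
  rfl

theorem tg_term {f : E n → V} (hf : ContDiff ℝ ∞ f) (k : ℕ) (c : ℝ) :
    TG 1 fun (_ : ℝ) (z y : E n) => c • iteratedFDeriv ℝ (k + 1) f y (fun _ => z) := by
  have hd : ContDiff ℝ ∞ (iteratedFDeriv ℝ (k + 1) f) :=
    hf.iteratedFDeriv_right (m := ∞) (i := k + 1) le_rfl
  refine (tg_sum Finset.univ _ fun (I : Fin (k + 1) → Fin n) _ => TG.gen (w := 1) 0 (List.ofFn I)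
    (fun y => c • iteratedFDeriv ℝ (k + 1) f y fun a => ee (I a)) ?_ ?_).congr ?_
  · exact ((ContinuousMultilinearMap.apply ℝ (fun _ : Fin (k + 1) => E n) V
      fun a => ee (I a)).contDiff.comp hd).const_smul c
  · simp
  · intro t _ z y
    rw [expand, Finset.smul_sum]
    refine Finset.sum_congr rfl fun I _ => ?_
    rw [zpow_zero, one_mul, smul_comm]

end TaylorP

open TaylorP in
theorem taylor : TaylorStmt := by
  intro n V _ _ _ f hf K hK N
  have hc : Continuous (iteratedFDeriv ℝ (N + 1) f) :=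
    hf.continuous_iteratedFDeriv (by exact_mod_cast le_top)
  obtain ⟨C, hC⟩ := (hK.cthickening (r := 1)).exists_bound_of_continuousOn hc.continuousOn
  refine ⟨fun _ z y => ∑ k ∈ Finset.range N,
    (((k + 1).factorial : ℝ))⁻¹ • iteratedFDeriv ℝ (k + 1) f y (fun _ => z), max C 0,
    tg_sum _ _ fun k _ => tg_term hf k _, fun t _ y hy z hz => ?_⟩
  have h := map_add_eq_sum_add_integral_iteratedFDeriv (f := f) (x := y) (y := z) (n := N)
    fun _ _ => hf.contDiffAt.of_le (by exact_mod_cast le_top)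
  rw [Finset.sum_range_succ'] at h
  simp only [Nat.factorial_zero, Nat.cast_one, inv_one, iteratedFDeriv_zero_apply, one_smul] at h
  have e : f (y + z) - f y - ∑ k ∈ Finset.range N,
      (((k + 1).factorial : ℝ))⁻¹ • iteratedFDeriv ℝ (k + 1) f y (fun _ => z) =
      (N.factorial : ℝ)⁻¹ • ∫ s in (0 : ℝ)..1,
        (1 - s) ^ N • iteratedFDeriv ℝ (N + 1) f (y + s • z) (fun _ => z) := by
    rw [h]; abel
  simp only
  rw [e, norm_smul]
  have h1 : ‖(N.factorial : ℝ)⁻¹‖ ≤ 1 := by
    rw [norm_inv, Real.norm_natCast]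
    exact inv_le_one_of_one_le₀ (by exact_mod_cast N.factorial_pos)
  have h2 : ‖∫ s in (0 : ℝ)..1,
      (1 - s) ^ N • iteratedFDeriv ℝ (N + 1) f (y + s • z) (fun _ => z)‖ ≤
      max C 0 * ‖z‖ ^ N * |1 - 0| := by
    refine intervalIntegral.norm_integral_le_of_norm_le_const fun s hs => ?_
    rw [uIoc_of_le zero_le_one] at hs
    have h3 : y + s • z ∈ cthickening 1 K := by
      refine mem_cthickening_of_dist_le _ y 1 K hy ?_
      rw [dist_self_add_left, norm_smul, Real.norm_of_nonneg hs.1.le]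
      exact mul_le_one₀ hs.2 (norm_nonneg _) hz
    have h4 := (iteratedFDeriv ℝ (N + 1) f (y + s • z)).le_opNorm fun _ => z
    rw [Finset.prod_const, Finset.card_univ, Fintype.card_fin] at h4
    have h5 : ‖(1 - s) ^ N‖ ≤ 1 := by
      rw [norm_pow, Real.norm_of_nonneg (by linarith [hs.2])]
      exact pow_le_one₀ (by linarith [hs.2]) (by linarith [hs.1])
    have h6 : ‖z‖ ^ (N + 1) ≤ ‖z‖ ^ N := pow_le_pow_of_le_one (norm_nonneg _) hz N.le_succ
    rw [norm_smul]
    calc _ ≤ 1 * (max C 0 * ‖z‖ ^ N) := by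
          refine mul_le_mul h5 (h4.trans ?_) (norm_nonneg _) zero_le_one
          exact mul_le_mul ((hC _ h3).trans (le_max_left _ _)) h6 (by positivity) (le_max_right _ _)
      _ = _ := one_mul _
  calc _ ≤ 1 * (max C 0 * ‖z‖ ^ N * |1 - 0|) := mul_le_mul h1 h2 (norm_nonneg _) zero_le_one
    _ = _ := by simp

end Pool.Agent.MP_d9582c_gt.H1
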